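import Pool.Agent.Lib.MP_7d3fda_nt.R2.Defs
import Pool.Agent.Lib.MP_458f0b_nt.Pois.PNTa

open Finset
open scoped Classical NumberTheorySymbols

noncomputable section

namespace Pool.Agent.Lib.MP_7d3fda_nt.R2

open Pool.Agent.Lib.MP_4b8564_nt.GT

namespace RecipAux

theorem block (m a : ℕ) (hm : 0 < m) (ha : a.Coprime m) : ∃ Y₀ : ℕ, ∀ Y : ℕ, Y₀ ≤ Y →
    1 / (4 * (m.totient : ℝ) * Real.log (2 * Y : ℕ)) ≤
      ∑ q ∈ (Ioc Y (2 * Y)).filter (fun q => q.Prime ∧ q ≡ a [MOD m]), 1 / (q : ℝ) := by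
  have hφ : (0 : ℝ) < m.totient := by exact_mod_cast Nat.totient_pos.2 hm
  obtain ⟨X₀, h⟩ := Filter.eventually_atTop.1
    (Pool.Agent.Lib.MP_458f0b_nt.Pois.pnt_unif m hm a ha (1 / (8 * (m.totient : ℝ)))
      (by positivity))
  refine ⟨X₀ + 1, fun Y hY => ?_⟩
  have hY0 : (0 : ℝ) < Y := by exact_mod_cast (by omega : 0 < Y)
  have h1 := (abs_le.1 (h (2 * Y) (by omega) (2 * Y) le_rfl)).1
  have h2 := (abs_le.1 (h (2 * Y) (by omega) Y (by omega))).2
  set T := (Ioc Y (2 * Y)).filter (fun q => q.Prime ∧ q ≡ a [MOD m]) with hT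
  set A := (Icc 1 (2 * Y)).filter (fun p => p.Prime ∧ 2 * Y < p ^ 2 ∧ p ≡ a [MOD m]) with hA
  set B := (Icc 1 Y).filter (fun p => p.Prime ∧ 2 * Y < p ^ 2 ∧ p ≡ a [MOD m]) with hB
  have hsub : A ⊆ B ∪ T := by
    intro p hp
    simp only [hA, hB, hT, mem_filter, mem_union, mem_Icc, mem_Ioc] at hp ⊢
    by_cases hpY : p ≤ Y
    · exact Or.inl ⟨⟨hp.1.1, hpY⟩, hp.2⟩
    · exact Or.inr ⟨⟨by omega, hp.1.2⟩, hp.2.1, hp.2.2.2⟩
  have hc : (A.card : ℝ) ≤ B.card + T.card := by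
    exact_mod_cast (card_le_card hsub).trans (card_union_le _ _)
  have hL : 0 < Real.log (2 * Y : ℕ) :=
    Real.log_pos (by exact_mod_cast (by omega : 1 < 2 * Y))
  set L := Real.log (2 * Y : ℕ) with hLd
  have hc2 : L * A.card ≤ L * B.card + L * T.card := by
    rw [← mul_add]; exact mul_le_mul_of_nonneg_left hc hL.le
  have e1 : 1 / (8 * (m.totient : ℝ)) * ((2 * Y : ℕ) : ℝ) = (Y / m.totient) / 4 := by
    push_cast; field_simp; ring
  have e2 : ((2 * Y : ℕ) : ℝ) / m.totient = 2 * (Y / m.totient) := by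
    push_cast; ring
  rw [e1] at h1 h2
  rw [e2] at h1
  have h3 : (Y : ℝ) / m.totient / 2 ≤ L * T.card := by linarith
  have h4 : (T.card : ℝ) * (1 / (2 * Y)) ≤ ∑ q ∈ T, 1 / (q : ℝ) := by
    rw [← nsmul_eq_mul, ← sum_const]
    refine sum_le_sum fun q hq => ?_
    simp only [hT, mem_filter, mem_Ioc] at hq
    have hq0 : (0 : ℝ) < q := by exact_mod_cast (by omega : 0 < q)
    have hq1 : (q : ℝ) ≤ 2 * Y := by exact_mod_cast hq.1.2
    exact one_div_le_one_div_of_le hq0 hq1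
  refine le_trans ?_ h4
  rw [mul_one_div, div_le_div_iff₀ (by positivity) (by positivity)]
  rw [div_div, div_le_iff₀ (by positivity)] at h3
  nlinarith

end RecipAux

theorem recip (m a : ℕ) (hm : 0 < m) (ha : a.Coprime m) : ∃ c : ℝ, 0 < c ∧ ∃ R₀ : ℕ, ∀ R : ℕ,
    R₀ ≤ R → c ≤ ∑ q ∈ (Ioc R (R ^ 2)).filter (fun q => q.Prime ∧ q ≡ a [MOD m]), 1 / (q : ℝ) := by
  have hφ : (0 : ℝ) < m.totient := by exact_mod_cast Nat.totient_pos.2 hm
  obtain ⟨Y₀, h⟩ := RecipAux.block m a hm ha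
  refine ⟨1 / (16 * (m.totient : ℝ)), by positivity, Y₀ + 2, fun R hR => ?_⟩
  have hL : 0 < Real.log R := Real.log_pos (by exact_mod_cast (by omega : 1 < R))
  have key : ∀ k : ℕ, 2 ^ k ≤ R → (k : ℝ) * (1 / (8 * (m.totient : ℝ) * Real.log R)) ≤
      ∑ q ∈ (Ioc R (2 ^ k * R)).filter (fun q => q.Prime ∧ q ≡ a [MOD m]), 1 / (q : ℝ) := by
    intro k
    induction k with
    | zero => intro _; simp
    | succ k ih =>
      intro hk
      have hp : 1 ≤ 2 ^ k := Nat.one_le_two_pow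
      have hk' : 2 ^ k ≤ R := le_trans (by rw [pow_succ]; omega) hk
      have hR1 : R ≤ 2 ^ k * R := Nat.le_mul_of_pos_left _ hp
      have hb := h (2 ^ k * R) (by omega)
      have e : 2 ^ (k + 1) * R = 2 * (2 ^ k * R) := by ring
      have hle : 2 * (2 ^ k * R) ≤ R ^ 2 := by
        rw [← e, sq]; exact Nat.mul_le_mul_right _ hk
      have hlog : Real.log (2 * (2 ^ k * R) : ℕ) ≤ 2 * Real.log R := by
        have h0 : (0 : ℝ) < (2 * (2 ^ k * R) : ℕ) := by exact_mod_cast (by omega)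
        have h1 : ((2 * (2 ^ k * R) : ℕ) : ℝ) ≤ (R : ℝ) ^ 2 := by exact_mod_cast hle
        have := Real.log_le_log h0 h1
        rwa [Real.log_pow, Nat.cast_ofNat] at this
      have hlog0 : 0 < Real.log (2 * (2 ^ k * R) : ℕ) :=
        Real.log_pos (by exact_mod_cast (by omega : 1 < 2 * (2 ^ k * R)))
      have hb' : 1 / (8 * (m.totient : ℝ) * Real.log R) ≤
          1 / (4 * (m.totient : ℝ) * Real.log (2 * (2 ^ k * R) : ℕ)) :=
        one_div_le_one_div_of_le (by positivity) (by nlinarith)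
      have ih' := ih hk'
      rw [sum_filter] at ih' hb ⊢
      rw [e, ← sum_Ioc_consecutive _ hR1 (by omega : 2 ^ k * R ≤ 2 * (2 ^ k * R))]
      push_cast
      push_cast at hb hb'
      linarith
  have hk : 2 ^ Nat.log 2 R ≤ R := Nat.pow_log_le_self 2 (by omega)
  have hk2 : R < 2 ^ (Nat.log 2 R + 1) := Nat.lt_pow_succ_log_self (by norm_num) R
  have hk1 : 1 ≤ Nat.log 2 R := Nat.log_pos (by norm_num) (by omega)
  set k := Nat.log 2 R with hkd
  have hlog : Real.log R ≤ 2 * k := by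
    have h0 : (0 : ℝ) < R := by exact_mod_cast (by omega : 0 < R)
    have h1 : (R : ℝ) ≤ 2 ^ (k + 1) := by exact_mod_cast hk2.le
    have h2 := Real.log_le_log h0 h1
    rw [Real.log_pow] at h2
    have h3 : Real.log 2 ≤ 1 := by
      have := Real.log_le_sub_one_of_pos (show (0 : ℝ) < 2 by norm_num)
      linarith
    have h4 : (1 : ℝ) ≤ k := by exact_mod_cast hk1
    push_cast at h2
    nlinarith
  have hmono : ∑ q ∈ (Ioc R (2 ^ k * R)).filter (fun q => q.Prime ∧ q ≡ a [MOD m]), 1 / (q : ℝ)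
      ≤ ∑ q ∈ (Ioc R (R ^ 2)).filter (fun q => q.Prime ∧ q ≡ a [MOD m]), 1 / (q : ℝ) := by
    refine sum_le_sum_of_subset_of_nonneg (filter_subset_filter _ (Ioc_subset_Ioc_right ?_))
      fun q _ _ => by positivity
    rw [sq]; exact Nat.mul_le_mul_right _ hk
  refine le_trans ?_ ((key k hk).trans hmono)
  rw [mul_one_div, div_le_div_iff₀ (by positivity) (by positivity)]
  nlinarith

end Pool.Agent.Lib.MP_7d3fda_nt.R2
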