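import Pool.Agent.Lib.MP_7d3fda_nt.R2.Defs
import Pool.Agent.Lib.MP_4b8564_nt.GT.Av

open Finset
open scoped Classical NumberTheorySymbols

noncomputable section

namespace Pool.Agent.Lib.MP_7d3fda_nt.R2

open Pool.Agent.Lib.MP_4b8564_nt.GT

variable {ι : Type} [Fintype ι] [DecidableEq ι]

namespace FormsAux

omit [Fintype ι] [DecidableEq ι] in
theorem not_dvd {c : ι → ℤ} {W : ℤ} {R : ℕ} {P : Finset ℕ} (hP : Ok c W R P)
    {q : ℕ} (hq : q ∈ P) {i j : ι} (h : i ≠ j) : ¬(q : ℤ) ∣ W * (c i - c j) := by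
  obtain ⟨h1, -, -, h2, h3⟩ := hP q hq
  intro hd
  rcases (Nat.prime_iff_prime_int.1 h1).dvd_or_dvd hd with h' | h'
  · exact h2 h'
  · exact h3 i j h h'

theorem dvd_diff {V : Type} [Fintype V] {q M : ℕ} (h : q ∣ M) (α : ℤ) (a : V → ℤ) {x y : V → ℤ}
    (hxy : ∀ v, (M : ℤ) ∣ x v - y v) :
    (q : ℤ) ∣ (α + ∑ w, a w * x w) - (α + ∑ w, a w * y w) := by
  have e : (α + ∑ w, a w * x w) - (α + ∑ w, a w * y w) = ∑ w, a w * (x w - y w) := by
    simp only [mul_sub, sum_sub_distrib]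
    ring
  rw [e]
  exact dvd_sum fun w _ => ((Int.natCast_dvd_natCast.2 h).trans (hxy w)).mul_left _

theorem ind_nonneg (q : ℕ) (n : ℤ) : 0 ≤ ind q n := by
  unfold ind
  split_ifs <;> norm_num

theorem av_ind {P : Finset ℕ} (hne : P.Nonempty) (L : ℤ) :
    av (fun q : P => (P.card : ℝ) * ind q L) = ((P.filter fun q : ℕ => (q : ℤ) ∣ L).card : ℝ) := by
  have hc : (P.card : ℝ) ≠ 0 := by exact_mod_cast hne.card_pos.ne'
  rw [av_const_mul, av, Fintype.card_coe, sum_coe_sort P (fun q => ind q L)]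
  simp only [ind, sum_boole]
  field_simp

end FormsAux

open FormsAux

theorem Lf_eq (c : ι → ℤ) (W : ℤ) (n : ι → ℤ) (t : ι × Finset ι) (x : ι ⊕ ι → ℤ) :
    Lf c W n t.1 (vx t.2 x) = n t.1 + ∑ w, cL c W t w * x w := by
  rw [Lf, Fintype.sum_sum_type, ← sum_add_distrib, mul_sum]
  congr 1
  refine sum_congr rfl fun i _ => ?_
  simp only [cL, vx, Sum.elim_inl, Sum.elim_inr]
  split_ifs <;> ring

theorem Sf_eq (W s : ℤ) (S : Finset ι) (x : ι ⊕ ι → ℤ) :
    Sf W s (vx S x) = s + ∑ w, cS W S w * x w := by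
  rw [Sf, Fintype.sum_sum_type, ← sum_add_distrib, mul_sum]
  congr 1
  refine sum_congr rfl fun i _ => ?_
  simp only [cS, vx, Sum.elim_inl, Sum.elim_inr]
  split_ifs <;> ring

theorem cL_unit [Nontrivial ι] {c : ι → ℤ} {W : ℤ} {R : ℕ} {P : Finset ℕ} (hP : Ok c W R P)
    {q : ℕ} (hq : q ∈ P) (t : ι × Finset ι) : ∃ w, ¬(q : ℤ) ∣ cL c W t w := by
  obtain ⟨i, hi⟩ := exists_ne t.1
  by_cases h : i ∈ t.2
  · exact ⟨Sum.inr i, by simpa [cL, h] using not_dvd hP hq hi.symm⟩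
  · exact ⟨Sum.inl i, by simpa [cL, h] using not_dvd hP hq hi.symm⟩

theorem cL_sep {c : ι → ℤ} {W : ℤ} {R : ℕ} {P : Finset ℕ} (hP : Ok c W R P)
    {q : ℕ} (hq : q ∈ P) {t t' : ι × Finset ι} (ht : t ∈ Adm ι) (ht' : t' ∈ Adm ι) (h : t ≠ t') :
    ∃ v, ¬(q : ℤ) ∣ cL c W t v ∧ cL c W t' v = 0 := by
  obtain ⟨j, S⟩ := t
  obtain ⟨j', S'⟩ := t'
  simp only [Adm, mem_filter, mem_univ, true_and] at ht ht'
  by_cases hj : j = j'
  · subst hj
    have hS : S ≠ S' := fun e => h (by rw [e])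
    obtain ⟨i, hi⟩ : ∃ i, ¬(i ∈ S ↔ i ∈ S') := by
      by_contra hcon
      exact hS (Finset.ext fun i => by
        by_contra h'
        exact hcon ⟨i, h'⟩)
    by_cases h1 : i ∈ S
    · have h2 : i ∉ S' := fun h2 => hi ⟨fun _ => h2, fun _ => h1⟩
      have h3 : j ≠ i := fun e => ht (e ▸ h1)
      exact ⟨Sum.inr i, by simpa [cL, h1] using not_dvd hP hq h3, by simp [cL, h2]⟩
    · have h2 : i ∈ S' := by
        by_contra h2
        exact hi ⟨fun h' => absurd h' h1, fun h' => absurd h' h2⟩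
      have h3 : j ≠ i := fun e => ht' (e ▸ h2)
      exact ⟨Sum.inl i, by simpa [cL, h1] using not_dvd hP hq h3, by simp [cL, h2]⟩
  · by_cases h1 : j' ∈ S
    · exact ⟨Sum.inr j', by simpa [cL, h1] using not_dvd hP hq hj, by simp [cL]⟩
    · exact ⟨Sum.inl j', by simpa [cL, h1] using not_dvd hP hq hj, by simp [cL]⟩

theorem per_ind {V : Type} [Fintype V] (q M : ℕ) (h : q ∣ M) (α : ℤ) (a : V → ℤ) :
    Per M fun x => ind q (α + ∑ w, a w * x w) := by
  intro x y hxy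
  have hd := dvd_diff h α a hxy
  simp only [ind]
  rw [if_congr (dvd_iff_dvd_of_dvd_sub hd) rfl rfl]

theorem per_jac {V : Type} [Fintype V] (q M : ℕ) (h : q ∣ M) (α : ℤ) (a : V → ℤ) :
    Per M fun x => (J(α + ∑ w, a w * x w | q) : ℝ) := by
  intro x y hxy
  have hd := dvd_diff h α a hxy
  have he : (α + ∑ w, a w * x w) % q = (α + ∑ w, a w * y w) % q :=
    (Int.emod_emod_of_dvd _ dvd_rfl).symm.trans
      ((Int.emod_emod_of_dvd _ dvd_rfl).trans (Int.ModEq.symm (Int.modEq_iff_dvd.2 hd)))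
  simp only [jacobiSym.mod_left' he]

theorem abs_ind_le (q : ℕ) (n : ℤ) : |ind q n| ≤ 1 := by
  unfold ind
  split_ifs <;> norm_num

theorem abs_jac_le (a : ℤ) (q : ℕ) : |(J(a | q) : ℝ)| ≤ 1 := by
  rcases jacobiSym.trichotomy a q with h | h | h <;> rw [h] <;> norm_num

omit [Fintype ι] [DecidableEq ι] in
theorem abs_Gam_le (G : Finset (ι × ι)) (B : Finset ι) (s : ℤ) (y : ι → ℕ) :
    |Gam G B s y| ≤ 1 := by
  rw [Gam, abs_mul, abs_prod, abs_prod]
  exact mul_le_one₀ (prod_le_one (fun _ _ => abs_nonneg _) fun _ _ => abs_jac_le _ _)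
    (prod_nonneg fun _ _ => abs_nonneg _)
    (prod_le_one (fun _ _ => abs_nonneg _) fun _ _ => abs_jac_le _ _)

/-- independence of distinct coordinates -/
theorem av_pi_prod {κ Y : Type} [Fintype κ] [DecidableEq κ] [Fintype Y] [Nonempty Y]
    (s : Finset κ) (φ : κ → Y → ℝ) :
    av (fun Q : κ → Y => ∏ t ∈ s, φ t (Q t)) = ∏ t ∈ s, av (φ t) := by
  induction s using Finset.induction_on with
  | empty => simp only [prod_empty]; exact av_const 1
  | insert a s ha ih =>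
    simp only [prod_insert ha]
    rw [av_update a, ← ih, mul_comm, ← av_mul_const]
    refine av_congr fun Q => ?_
    rw [← av_const_mul]
    refine av_congr fun y => ?_
    rw [Function.update_self, mul_comm]
    congr 1
    exact prod_congr rfl fun t ht => by
      rw [Function.update_of_ne (fun e : t = a => ha (e ▸ ht))]

/-- total mass of a subsystem -/
theorem mass {c : ι → ℤ} {W : ℤ} {n : ι → ℤ} {P : Finset ℕ} {H : ℕ} {K : ℝ} (hne : P.Nonempty)
    (hH : 0 < H) (hK : Few c W n P H K) (s : Finset (ι × Finset ι)) :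
    av (fun Q : ι × Finset ι → P => (P.card : ℝ) ^ s.card *
      bav H fun x => ∏ t ∈ s, ind (Q t) (Lf c W n t.1 (vx t.2 x))) ≤ K ^ s.card := by
  have : Nonempty P := hne.to_subtype
  have : Nonempty (Fin H) := ⟨⟨0, hH⟩⟩
  simp only [bav, ← av_const_mul]
  rw [av_comm]
  refine av_le_of_le fun h => ?_
  have e : ∀ Q : ι × Finset ι → P, (P.card : ℝ) ^ s.card *
      ∏ t ∈ s, ind (Q t) (Lf c W n t.1 (vx t.2 fun v => ((h v : ℕ) : ℤ))) =
      ∏ t ∈ s, (fun (t : ι × Finset ι) (q : P) => (P.card : ℝ) *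
        ind q (Lf c W n t.1 (vx t.2 fun v => ((h v : ℕ) : ℤ)))) t (Q t) := by
    intro Q
    simp only [prod_mul_distrib, prod_const]
  rw [av_congr e]
  refine (av_pi_prod s (fun (t : ι × Finset ι) (q : P) => (P.card : ℝ) *
    ind q (Lf c W n t.1 (vx t.2 fun v => ((h v : ℕ) : ℤ))))).le.trans ?_
  rw [← prod_const]
  refine prod_le_prod (fun t _ => av_nonneg fun q => mul_nonneg (Nat.cast_nonneg _)
    (ind_nonneg _ _)) fun t _ => ?_
  rw [av_ind hne]
  refine hK t.1 _ fun i => ?_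
  unfold vx
  split_ifs
  · exact ⟨Int.natCast_nonneg _, Int.ofNat_lt.2 (h (Sum.inr i)).2⟩
  · exact ⟨Int.natCast_nonneg _, Int.ofNat_lt.2 (h (Sum.inl i)).2⟩

end Pool.Agent.Lib.MP_7d3fda_nt.R2
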