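import Pool.Agent.Lib.MP_7d3fda_nt.R2.Loc
import Pool.Agent.Lib.MP_7d3fda_nt.R2.Forms

open Finset
open scoped Classical NumberTheorySymbols

noncomputable section

namespace Pool.Agent.Lib.MP_7d3fda_nt.R2

open Pool.Agent.Lib.MP_4b8564_nt.GT

variable {ι : Type} [Fintype ι] [DecidableEq ι]

namespace BadAux

theorem ind_nonneg (q : ℕ) (m : ℤ) : 0 ≤ ind q m := by
  unfold ind; split_ifs <;> norm_num

theorem ind_eq_one {q : ℕ} {m : ℤ} (h : ind q m ≠ 0) : ind q m = 1 := by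
  unfold ind at h ⊢; split_ifs with h1
  · rfl
  · simp [h1] at h

/-- number of coincidences -/
def EE {κ : Type} [DecidableEq κ] (s : Finset κ) (P : Finset ℕ) (L : κ → ℤ) : ℝ :=
  ∑ t ∈ s, ∑ t' ∈ s.erase t, ∑ q ∈ P, ind q (L t) * ind q (L t')

theorem EE_nonneg {κ : Type} [DecidableEq κ] (s : Finset κ) (P : Finset ℕ) (L : κ → ℤ) :
    0 ≤ EE s P L :=
  sum_nonneg fun _ _ => sum_nonneg fun _ _ => sum_nonneg fun _ _ =>
    mul_nonneg (ind_nonneg _ _) (ind_nonneg _ _)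

theorem prod_le_mul {κ : Type} [DecidableEq κ] (s : Finset κ) (P : Finset ℕ) (L : κ → ℤ)
    (Q : κ → ℕ) {t t' : κ} (ht : t ∈ s) (ht' : t' ∈ s) (hne : t ≠ t') (hQ : Q t = Q t')
    (hP : Q t ∈ P) : ∏ u ∈ s, ind (Q u) (L u) ≤ (∏ u ∈ s, ind (Q u) (L u)) * EE s P L := by
  have h0 : 0 ≤ ∏ u ∈ s, ind (Q u) (L u) := prod_nonneg fun _ _ => ind_nonneg _ _
  by_cases hz : ∏ u ∈ s, ind (Q u) (L u) = 0
  · rw [hz]; simp
  have h1 : ind (Q t) (L t) = 1 := ind_eq_one (prod_ne_zero_iff.1 hz t ht)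
  have h2 : ind (Q t) (L t') = 1 := hQ ▸ ind_eq_one (prod_ne_zero_iff.1 hz t' ht')
  have h3 : 1 ≤ EE s P L := by
    have a1 : (1 : ℝ) ≤ ∑ q ∈ P, ind q (L t) * ind q (L t') := by
      have := single_le_sum (f := fun q => ind q (L t) * ind q (L t'))
        (fun q _ => mul_nonneg (ind_nonneg _ _) (ind_nonneg _ _)) hP
      simpa [h1, h2] using this
    have a2 := single_le_sum (f := fun u => ∑ q ∈ P, ind q (L t) * ind q (L u))
      (fun u _ => sum_nonneg fun q _ => mul_nonneg (ind_nonneg _ _) (ind_nonneg _ _))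
      (mem_erase.2 ⟨hne.symm, ht'⟩)
    have a3 := single_le_sum
      (f := fun v => ∑ u ∈ s.erase v, ∑ q ∈ P, ind q (L v) * ind q (L u))
      (fun v _ => sum_nonneg fun u _ => sum_nonneg fun q _ =>
        mul_nonneg (ind_nonneg _ _) (ind_nonneg _ _)) ht
    exact a1.trans (a2.trans a3)
  exact le_mul_of_one_le_right h0 h3

theorem card_mul_av {P : Finset ℕ} (hne : P.Nonempty) (m : ℤ) :
    (P.card : ℝ) * av (fun q : P => ind q m) = ((P.filter fun q : ℕ => (q : ℤ) ∣ m).card : ℝ) := by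
  have hc : (P.card : ℝ) ≠ 0 := Nat.cast_ne_zero.2 hne.card_pos.ne'
  rw [av, Fintype.card_coe, mul_div_cancel₀ _ hc, sum_coe_sort P fun q => ind q m]
  simp [ind]

theorem sum_inv_sq {P : Finset ℕ} {R : ℕ} (hR : 1 ≤ R) (h : ∀ q ∈ P, R < q ∧ q ≤ R ^ 2) :
    ∑ q ∈ P, (4 : ℝ) / (q : ℝ) ^ 2 ≤ 4 / (R : ℝ) := by
  have hsub : P ⊆ Ioc R (R ^ 2) := fun q hq => mem_Ioc.2 (h q hq)
  have h1 : ∑ q ∈ P, ((q : ℝ) ^ 2)⁻¹ ≤ ∑ q ∈ Ioc R (R ^ 2), ((q : ℝ) ^ 2)⁻¹ :=
    sum_le_sum_of_subset_of_nonneg hsub fun _ _ _ => by positivity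
  have h2 := sum_Ioc_inv_sq_le_sub (α := ℝ) (k := R) (n := R ^ 2) (by omega) (by nlinarith)
  have h3 : (0 : ℝ) ≤ (((R ^ 2 : ℕ) : ℝ))⁻¹ := by positivity
  simp only [div_eq_mul_inv, ← mul_sum]
  linarith

end BadAux

open BadAux in
theorem bad_le [Nontrivial ι] {c : ι → ℤ} {W : ℤ} {n : ι → ℤ} {P : Finset ℕ} {R H : ℕ} {K : ℝ}
    (hP : Ok c W R P) (hne : P.Nonempty) (hR : 1 ≤ R) (hH : R ^ 2 ≤ H) (hK : Few c W n P H K) :
    av (fun Q : ι × Finset ι → P => if NC (fun t => (Q t : ℕ)) then 0 else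
      (P.card : ℝ) ^ (Adm ι).card *
        bav H fun x => ∏ t ∈ Adm ι, ind (Q t) (Lf c W n t.1 (vx t.2 x))) ≤
      K ^ (Adm ι).card * (4 * ((Adm ι).card : ℝ) ^ 2 / R) := by
  have hH0 : 0 < H := lt_of_lt_of_le (by positivity) hH
  have hPne : Nonempty P := hne.to_subtype
  have hK0 : 0 ≤ K := by
    obtain ⟨j⟩ : Nonempty ι := inferInstance
    exact le_trans (Nat.cast_nonneg _) (hK j 0 fun i => ⟨le_rfl, by simpa using hH0⟩)
  let L : (ι ⊕ ι → Fin H) → ι × Finset ι → ℤ :=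
    fun h t => Lf c W n t.1 (vx t.2 fun v => ((h v : ℕ) : ℤ))
  have step1 : av (fun Q : ι × Finset ι → P => if NC (fun t => (Q t : ℕ)) then 0 else
      (P.card : ℝ) ^ (Adm ι).card *
        bav H fun x => ∏ t ∈ Adm ι, ind (Q t) (Lf c W n t.1 (vx t.2 x))) ≤
      av fun Q : ι × Finset ι → P => av fun h : ι ⊕ ι → Fin H =>
        (P.card : ℝ) ^ (Adm ι).card * (∏ t ∈ Adm ι, ind (Q t) (L h t)) * EE (Adm ι) P (L h) := by
    refine av_mono fun Q => ?_
    split_ifs with hQ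
    · exact av_nonneg fun h => mul_nonneg (mul_nonneg (by positivity)
        (prod_nonneg fun _ _ => ind_nonneg _ _)) (EE_nonneg _ _ _)
    · unfold NC at hQ
      push Not at hQ
      obtain ⟨t, ht, t', ht', h1, h2⟩ := hQ
      rw [bav, ← av_const_mul]
      refine av_mono fun h => ?_
      rw [mul_assoc]
      exact mul_le_mul_of_nonneg_left
        (prod_le_mul (Adm ι) P (L h) (fun t => (Q t : ℕ)) ht ht' h2 h1 (Q t).2) (by positivity)
  have step2 : ∀ h : ι ⊕ ι → Fin H, av (fun Q : ι × Finset ι → P =>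
      (P.card : ℝ) ^ (Adm ι).card * (∏ t ∈ Adm ι, ind (Q t) (L h t)) * EE (Adm ι) P (L h)) ≤
      K ^ (Adm ι).card * EE (Adm ι) P (L h) := fun h => by
    rw [av_mul_const, av_const_mul, av_pi_prod (Adm ι) fun t (q : P) => ind q (L h t)]
    refine mul_le_mul_of_nonneg_right ?_ (EE_nonneg _ _ _)
    rw [← prod_const, ← prod_mul_distrib, ← prod_const]
    refine prod_le_prod (fun t _ => ?_) fun t _ => ?_
    · rw [card_mul_av hne]; positivity
    · rw [card_mul_av hne]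
      refine hK t.1 _ fun i => ?_
      unfold vx
      split_ifs
      · exact ⟨Int.natCast_nonneg _, Int.ofNat_lt.2 (h _).2⟩
      · exact ⟨Int.natCast_nonneg _, Int.ofNat_lt.2 (h _).2⟩
  have step3 : av (fun h : ι ⊕ ι → Fin H => EE (Adm ι) P (L h)) ≤
      4 * ((Adm ι).card : ℝ) ^ 2 / R := by
    have h4 : (0 : ℝ) ≤ 4 / R := by positivity
    unfold EE
    rw [av_sum]
    have : ∀ t ∈ Adm ι, av (fun h : ι ⊕ ι → Fin H =>
        ∑ t' ∈ (Adm ι).erase t, ∑ q ∈ P, ind q (L h t) * ind q (L h t')) ≤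
        ((Adm ι).card : ℝ) * (4 / R) := fun t ht => by
      rw [av_sum]
      have h5 : ∀ t' ∈ (Adm ι).erase t, av (fun h : ι ⊕ ι → Fin H =>
          ∑ q ∈ P, ind q (L h t) * ind q (L h t')) ≤ 4 / R := fun t' ht' => by
        rw [av_sum]
        refine le_trans (sum_le_sum fun q hq => ?_)
          (sum_inv_sq hR fun q hq => ⟨(hP q hq).2.1, (hP q hq).2.2.1⟩)
        obtain ⟨v, hv, hv0⟩ := cL_sep hP hq ht (mem_of_mem_erase ht') (ne_of_mem_erase ht').symm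
        obtain ⟨w, hw⟩ := cL_unit hP hq t'
        have := two_forms q H (hP q hq).1 ((hP q hq).2.2.1.trans hH) (n t.1) (n t'.1)
          (cL c W t) (cL c W t') v w hv hv0 hw
        simp only [← Lf_eq] at this
        exact this
      refine (sum_le_card_nsmul _ _ _ h5).trans ?_
      rw [nsmul_eq_mul]
      exact mul_le_mul_of_nonneg_right (by exact_mod_cast card_erase_le) h4
    refine (sum_le_card_nsmul _ _ _ this).trans (le_of_eq ?_)
    rw [nsmul_eq_mul]; ring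
  refine step1.trans ?_
  rw [av_comm]
  refine (av_mono step2).trans ?_
  rw [av_const_mul]
  exact mul_le_mul_of_nonneg_left step3 (by positivity)

end Pool.Agent.Lib.MP_7d3fda_nt.R2
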