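import Pool.Agent.Lib.MP_7d3fda_nt.R2.Defs

open Finset
open scoped Classical NumberTheorySymbols

noncomputable section

namespace Pool.Agent.Lib.MP_7d3fda_nt.R2

open Pool.Agent.Lib.MP_4b8564_nt.GT

namespace BadPatAux

theorem card_cong (N q : ℕ) (hq : 0 < q) (hqN : q ≤ N) (S : Finset ℤ)
    (hS : S ⊆ Icc (-(N : ℤ)) N) (hc : ∀ x ∈ S, ∀ y ∈ S, (q : ℤ) ∣ x - y) :
    (S.card : ℝ) ≤ 4 * N / q := by
  have hq' : (0 : ℤ) < q := by exact_mod_cast hq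
  have h1 : S.card ≤ (Icc (0 : ℤ) ((2 * N : ℤ) / q)).card := by
    refine card_le_card_of_injOn (fun x => (x + N) / q) ?_ ?_
    · intro x hx
      have := mem_Icc.1 (hS (mem_coe.1 hx))
      refine mem_coe.2 (mem_Icc.2 ⟨Int.ediv_nonneg (by linarith [this.1]) hq'.le, ?_⟩)
      exact Int.ediv_le_ediv hq' (by linarith [this.2])
    · intro x hx y hy hxy
      have hd := hc x (mem_coe.1 hx) y (mem_coe.1 hy)
      have hm : (x + N) % q = (y + N) % q := by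
        refine Int.emod_emod_of_dvd _ dvd_rfl ▸ Int.emod_emod_of_dvd (y + N) dvd_rfl ▸ ?_
        rw [Int.emod_emod_of_dvd _ dvd_rfl, Int.emod_emod_of_dvd _ dvd_rfl]
        apply Int.ModEq.eq
        apply Int.ModEq.symm
        rw [Int.modEq_iff_dvd]
        have : x + N - (y + N) = x - y := by ring
        rw [this]; exact hd
      have e1 := Int.mul_ediv_add_emod (x + N) q
      have e2 := Int.mul_ediv_add_emod (y + N) q
      have hxy' : (x + N) / q = (y + N) / q := hxy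
      rw [hxy', hm] at e1
      linarith
  have h2 : ((Icc (0 : ℤ) ((2 * N : ℤ) / q)).card : ℤ) = (2 * N : ℤ) / q + 1 := by
    rw [Int.card_Icc, Int.toNat_of_nonneg]
    · ring
    · have : (0 : ℤ) ≤ (2 * N : ℤ) / q := Int.ediv_nonneg (by positivity) hq'.le
      linarith
  have h3 : (q : ℤ) * ((2 * N : ℤ) / q) ≤ 2 * N := Int.mul_ediv_self_le hq'.ne'
  have h4 : (S.card : ℤ) ≤ (2 * N : ℤ) / q + 1 := by rw [← h2]; exact_mod_cast h1
  have h5 : (S.card : ℤ) * q ≤ 4 * N := by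
    have hqN' : (q : ℤ) ≤ N := by exact_mod_cast hqN
    have := mul_le_mul_of_nonneg_right h4 hq'.le
    nlinarith
  have hqr : (0 : ℝ) < q := by exact_mod_cast hq
  rw [le_div_iff₀ hqr]
  exact_mod_cast h5

theorem sum_inv_sq (R M : ℕ) (hR : 1 ≤ R) :
    ∑ q ∈ Ioc R (R + M), (1 : ℝ) / (q : ℝ) ^ 2 ≤ 1 / R - 1 / ((R + M : ℕ) : ℝ) := by
  induction M with
  | zero => simp
  | succ M ih =>
    rw [← add_assoc, sum_Ioc_succ_top (by omega)]
    have h0 : (0 : ℝ) < ((R + M : ℕ) : ℝ) := by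
      have : 0 < R + M := by omega
      exact_mod_cast this
    have : (1 : ℝ) / ((R + M + 1 : ℕ) : ℝ) ^ 2
        ≤ 1 / ((R + M : ℕ) : ℝ) - 1 / ((R + M + 1 : ℕ) : ℝ) := by
      set t : ℝ := ((R + M : ℕ) : ℝ) with ht
      have e : ((R + M + 1 : ℕ) : ℝ) = t + 1 := by rw [ht]; push_cast; ring
      rw [e, div_sub_div _ _ h0.ne' (by positivity), div_le_div_iff₀ (by positivity) (by positivity)]
      nlinarith
    linarith

end BadPatAux

theorem badpat (W b : ℤ) (R N : ℕ) (hR : 1 ≤ R) (hN : R ^ 2 ≤ N) (P : Finset ℕ)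
    (hP : ∀ q ∈ P, q.Prime ∧ R < q ∧ q ≤ R ^ 2 ∧ ¬(q : ℤ) ∣ W) :
    (((Icc (-(N : ℤ)) N ×ˢ Icc (-(N : ℤ)) N).filter fun z : ℤ × ℤ =>
      ∃ q ∈ P, (q : ℤ) ∣ z.2 ∧ (q : ℤ) ∣ W * z.1 + b).card : ℝ) ≤ 16 * (N : ℝ) ^ 2 / R := by
  set I := Icc (-(N : ℤ)) N with hI
  have hsub : ((I ×ˢ I).filter fun z : ℤ × ℤ =>
      ∃ q ∈ P, (q : ℤ) ∣ z.2 ∧ (q : ℤ) ∣ W * z.1 + b) ⊆
      P.biUnion fun q => (I.filter fun x => (q : ℤ) ∣ W * x + b) ×ˢ
        (I.filter fun y => (q : ℤ) ∣ y) := by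
    intro z hz
    obtain ⟨h1, q, hq, h2, h3⟩ := mem_filter.1 hz
    obtain ⟨h4, h5⟩ := mem_product.1 h1
    exact mem_biUnion.2 ⟨q, hq, mem_product.2 ⟨mem_filter.2 ⟨h4, h3⟩, mem_filter.2 ⟨h5, h2⟩⟩⟩
  have hq : ∀ q ∈ P, (((I.filter fun x => (q : ℤ) ∣ W * x + b) ×ˢ
        (I.filter fun y => (q : ℤ) ∣ y)).card : ℝ) ≤ 16 * (N : ℝ) ^ 2 * (1 / (q : ℝ) ^ 2) := by
    intro q hq
    obtain ⟨hp, -, h2, h3⟩ := hP q hq
    have a1 := BadPatAux.card_cong N q hp.pos (h2.trans hN)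
      (I.filter fun x => (q : ℤ) ∣ W * x + b) (filter_subset _ _) (by
        intro x hx y hy
        have hd := dvd_sub (mem_filter.1 hx).2 (mem_filter.1 hy).2
        have e : W * x + b - (W * y + b) = W * (x - y) := by ring
        rw [e] at hd
        exact ((Nat.prime_iff_prime_int.1 hp).dvd_or_dvd hd).resolve_left h3)
    have a2 := BadPatAux.card_cong N q hp.pos (h2.trans hN)
      (I.filter fun y => (q : ℤ) ∣ y) (filter_subset _ _) (by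
        intro x hx y hy
        exact dvd_sub (mem_filter.1 hx).2 (mem_filter.1 hy).2)
    rw [card_product, Nat.cast_mul]
    calc _ ≤ (4 * (N : ℝ) / q) * (4 * N / q) :=
          mul_le_mul a1 a2 (Nat.cast_nonneg _) (by positivity)
      _ = _ := by ring
  have hPs : P ⊆ Ioc R (R + R ^ 2) := by
    intro q hq
    obtain ⟨-, h1, h2, -⟩ := hP q hq
    exact mem_Ioc.2 ⟨h1, by omega⟩
  have hs : ∑ q ∈ P, (1 : ℝ) / (q : ℝ) ^ 2 ≤ 1 / R := by
    have h1 : ∑ q ∈ P, (1 : ℝ) / (q : ℝ) ^ 2 ≤ ∑ q ∈ Ioc R (R + R ^ 2), (1 : ℝ) / (q : ℝ) ^ 2 :=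
      sum_le_sum_of_subset_of_nonneg hPs fun _ _ _ => by positivity
    have h2 := BadPatAux.sum_inv_sq R (R ^ 2) hR
    have h3 : (0 : ℝ) ≤ 1 / ((R + R ^ 2 : ℕ) : ℝ) := by positivity
    linarith
  calc _ ≤ ((P.biUnion fun q => (I.filter fun x => (q : ℤ) ∣ W * x + b) ×ˢ
        (I.filter fun y => (q : ℤ) ∣ y)).card : ℝ) := by exact_mod_cast card_le_card hsub
    _ ≤ ∑ q ∈ P, (((I.filter fun x => (q : ℤ) ∣ W * x + b) ×ˢ
        (I.filter fun y => (q : ℤ) ∣ y)).card : ℝ) := by exact_mod_cast card_biUnion_le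
    _ ≤ ∑ q ∈ P, 16 * (N : ℝ) ^ 2 * (1 / (q : ℝ) ^ 2) := sum_le_sum hq
    _ = 16 * (N : ℝ) ^ 2 * ∑ q ∈ P, (1 / (q : ℝ) ^ 2) := by rw [mul_sum]
    _ ≤ 16 * (N : ℝ) ^ 2 * (1 / R) := mul_le_mul_of_nonneg_left hs (by positivity)
    _ = _ := by ring

end Pool.Agent.Lib.MP_7d3fda_nt.R2
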