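import Pool.Agent.Lib.MP_7d3fda_nt.R2.Defs

open Finset
open scoped Classical NumberTheorySymbols

noncomputable section

namespace Pool.Agent.Lib.MP_7d3fda_nt.R2

open Pool.Agent.Lib.MP_4b8564_nt.GT

namespace BilinAux

/-- the real valued symbol -/
def ch (n r : ℕ) : ℝ := (J((n : ℤ) | r) : ℝ)

theorem abs_ch (n r : ℕ) : |ch n r| ≤ 1 := by
  unfold ch
  rcases jacobiSym.trichotomy (n : ℤ) r with h | h | h <;> simp [h]

theorem ch_mul (n n' r : ℕ) : ch (n * n') r = ch n r * ch n' r := by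
  unfold ch
  rw [Nat.cast_mul, jacobiSym.mul_left, Int.cast_mul]

theorem ch_prod {ι : Type} (s : Finset ι) (f : ι → ℕ) (r : ℕ) :
    ch (∏ i ∈ s, f i) r = ∏ i ∈ s, ch (f i) r := by
  induction s using Finset.induction_on with
  | empty => simp [ch]
  | insert a s ha ih => rw [prod_insert ha, prod_insert ha, ch_mul, ih]

theorem ch_per (n r k : ℕ) : ch (n + r * k) r = ch n r := by
  unfold ch
  rw [jacobiSym.mod_left ((n + r * k : ℕ) : ℤ), jacobiSym.mod_left (n : ℤ)]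
  push_cast
  rw [Int.add_mul_emod_self_left]

theorem sum_blocks (F : ℕ → ℝ) (a k : ℕ) :
    ∑ n ∈ range (a * k), F n = ∑ j ∈ range k, ∑ i ∈ range a, F (a * j + i) := by
  induction k with
  | zero => simp
  | succ k ih => rw [Nat.mul_succ, sum_range_add, ih, sum_range_succ]

theorem lin_zero (r : ℕ) (hr : r.Prime) (h2 : r ≠ 2) (a i : ℕ) (ha : ¬ r ∣ a) :
    ∑ j ∈ range r, ch (a * j + i) r = 0 := by
  have : Fact r.Prime := ⟨hr⟩
  have e : ∀ n : ℕ, ch n r = ((quadraticChar (ZMod r) (n : ZMod r) : ℤ) : ℝ) := fun n => by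
    unfold ch
    rw [← jacobiSym.legendreSym.to_jacobiSym r n]
    unfold legendreSym
    rw [Int.cast_natCast]
  have h0 : ∑ z : ZMod r, ((quadraticChar (ZMod r) z : ℤ) : ℝ) = 0 := by
    rw [← Int.cast_sum, quadraticChar_sum_zero (by rw [ZMod.ringChar_zmod_n]; exact h2),
      Int.cast_zero]
  have ha' : (a : ZMod r) ≠ 0 := by
    rw [Ne, ZMod.natCast_eq_zero_iff]; exact ha
  have h1 : ∑ z : ZMod r, ((quadraticChar (ZMod r) ((a : ZMod r) * z + i) : ℤ) : ℝ) = 0 := by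
    rw [← h0]
    exact Fintype.sum_equiv ((Equiv.mulLeft₀ (a : ZMod r) ha').trans (Equiv.addRight (i : ZMod r)))
      _ _ fun z => rfl
  rw [← h1]
  refine sum_nbij' (fun j => (j : ZMod r)) (fun z => z.val) ?_ ?_ ?_ ?_ ?_
  · intro j _; exact mem_univ _
  · intro z _; exact mem_range.2 (ZMod.val_lt z)
  · intro j hj; exact ZMod.val_cast_of_lt (mem_range.1 hj)
  · intro z _; exact ZMod.natCast_zmod_val z
  · intro j _; rw [e]; push_cast; rfl

theorem pair_zero (r s : ℕ) (hr : r.Prime) (hs : s.Prime) (h2 : r ≠ 2) (hne : r ≠ s) :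
    ∑ n ∈ range (s * r), ch n r * ch n s = 0 := by
  rw [sum_blocks, sum_comm]
  refine sum_eq_zero fun i _ => ?_
  have : ∀ j, ch (s * j + i) s = ch i s := fun j => by rw [add_comm, ch_per]
  simp only [this]
  rw [← sum_mul, lin_zero r hr h2 s i (by
    rw [Nat.prime_dvd_prime_iff_eq hr hs]; exact hne), zero_mul]

theorem window (F : ℕ → ℝ) (M : ℕ) (hM : 0 < M) (hp : ∀ n, F (n + M) = F n)
    (h0 : ∑ i ∈ range M, F i = 0) (hF : ∀ n, |F n| ≤ 1) (N : ℕ) :
    |∑ i ∈ range N, F i| ≤ M := by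
  have step : ∀ N, ∑ i ∈ range (N + M), F i = ∑ i ∈ range N, F i := by
    intro N
    induction N with
    | zero => simpa using h0
    | succ N ih => rw [Nat.succ_add, sum_range_succ, sum_range_succ, ih, hp]
  induction N using Nat.strong_induction_on with
  | _ N ih =>
    by_cases h : N ≤ M
    · calc |∑ i ∈ range N, F i| ≤ ∑ i ∈ range N, |F i| := abs_sum_le_sum_abs _ _
        _ ≤ ∑ _i ∈ range N, (1 : ℝ) := sum_le_sum fun i _ => hF i
        _ = N := by simp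
        _ ≤ M := by exact_mod_cast h
    · obtain ⟨K, rfl⟩ : ∃ K, N = K + M := ⟨N - M, by omega⟩
      rw [step]
      exact ih K (by omega)

theorem abel (F : ℕ → ℝ) (M : ℝ) (hG : ∀ N, |∑ i ∈ range N, F i| ≤ M) (A B : ℕ) (hA : 0 < A)
    (hB : A ≤ B) : |∑ n ∈ Ico A B, F n / n| ≤ 2 * M / A := by
  have key : ∀ B, A ≤ B → |∑ n ∈ Ico A B, F n / n - (∑ i ∈ range B, F i) / B +
      (∑ i ∈ range A, F i) / A| ≤ M * (1 / A - 1 / B) := by
    intro B hB
    induction B, hB using Nat.le_induction with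
    | base => simp
    | succ B hB ih =>
      have hB0 : (0 : ℝ) < B := by exact_mod_cast lt_of_lt_of_le hA hB
      have e : ∑ n ∈ Ico A (B + 1), F n / n - (∑ i ∈ range (B + 1), F i) / ((B + 1 : ℕ) : ℝ) +
          (∑ i ∈ range A, F i) / A = (∑ n ∈ Ico A B, F n / n - (∑ i ∈ range B, F i) / B +
          (∑ i ∈ range A, F i) / A) + (∑ i ∈ range (B + 1), F i) * (1 / B - 1 / (B + 1)) := by
        rw [sum_Ico_succ_top hB, sum_range_succ]
        push_cast
        field_simp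
        ring
      have hd : (0 : ℝ) ≤ 1 / B - 1 / (B + 1) := by
        rw [sub_nonneg]; exact one_div_le_one_div_of_le hB0 (by linarith)
      rw [e]
      refine (abs_add_le _ _).trans ?_
      rw [abs_mul, abs_of_nonneg hd]
      have := mul_le_mul_of_nonneg_right (hG (B + 1)) hd
      push_cast
      linarith
  have hA0 : (0 : ℝ) < A := by exact_mod_cast hA
  have hB0 : (0 : ℝ) < B := by exact_mod_cast lt_of_lt_of_le hA hB
  have k := abs_le.1 (key B hB)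
  have k1 : |(∑ i ∈ range B, F i) / B| ≤ M * (1 / B) := by
    rw [abs_div, abs_of_pos hB0, mul_one_div]; exact div_le_div_of_nonneg_right (hG B) hB0.le
  have k2 : |(∑ i ∈ range A, F i) / A| ≤ M * (1 / A) := by
    rw [abs_div, abs_of_pos hA0, mul_one_div]; exact div_le_div_of_nonneg_right (hG A) hA0.le
  have k3 := abs_le.1 k1
  have k4 := abs_le.1 k2
  have e2 : 2 * M / A = 2 * (M * (1 / A)) := by ring
  rw [e2, abs_le]
  constructor <;> nlinarith [k.1, k.2, k3.1, k3.2, k4.1, k4.2]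

theorem harm (B : ℕ) : ∑ n ∈ Ico 2 (B + 1), (1 : ℝ) / n ≤ Real.log B := by
  rcases Nat.eq_zero_or_pos B with rfl | hB
  · simp
  induction B, hB using Nat.le_induction with
  | base => simp
  | succ B hB ih =>
    have hB0 : (0 : ℝ) < B := by exact_mod_cast hB
    rw [sum_Ico_succ_top (by omega)]
    have h := Real.log_le_sub_one_of_pos (x := (B : ℝ) / (B + 1)) (by positivity)
    rw [Real.log_div hB0.ne' (by positivity)] at h
    have e : (B : ℝ) / (B + 1) - 1 = -(1 / (B + 1)) := by field_simp; ring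
    push_cast
    linarith

theorem harm_sub (s : Finset ℕ) (B : ℕ) (hs : ∀ n ∈ s, 2 ≤ n ∧ n ≤ B) :
    ∑ n ∈ s, (1 : ℝ) / n ≤ Real.log B := by
  refine le_trans (sum_le_sum_of_subset_of_nonneg ?_ fun n _ _ => by positivity) (harm B)
  intro n hn
  have := hs n hn
  rw [mem_Ico]; omega

/-- the dual sum -/
def U (P : Finset ℕ) (n : ℕ) : ℝ := ∑ r ∈ P, ch n r / r

theorem sig_le (R : ℕ) (hR : 2 ≤ R) (P : Finset ℕ) (hP : ∀ q ∈ P, q.Prime ∧ R < q ∧ q ≤ R ^ 2) :
    ∑ r ∈ P, (1 : ℝ) / r ≤ 2 * Real.log R := by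
  have := harm_sub P (R ^ 2) fun n hn => ⟨by have := (hP n hn).2.1; omega, (hP n hn).2.2⟩
  rw [Nat.cast_pow, Real.log_pow] at this
  exact_mod_cast this

theorem inner_le (R : ℕ) (hR : 2 ≤ R) (r s : ℕ) (hr : r.Prime ∧ R < r ∧ r ≤ R ^ 2)
    (hs : s.Prime ∧ R < s ∧ s ≤ R ^ 2) :
    ∑ n ∈ Ico (R ^ 6) (R ^ 12 + 1), ch n r * ch n s / n ≤
      (if r = s then 12 * Real.log R else 0) + 2 / R := by
  have hR0 : (0 : ℝ) < R := by exact_mod_cast (by omega : 0 < R)
  have hR1 : (1 : ℝ) ≤ R := by exact_mod_cast (by omega : 1 ≤ R)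
  have hb : ∀ n, |ch n r * ch n s| ≤ 1 := fun n => by
    rw [abs_mul]; exact mul_le_one₀ (abs_ch _ _) (abs_nonneg _) (abs_ch _ _)
  split_ifs with h
  · have h1 := harm_sub (Ico (R ^ 6) (R ^ 12 + 1)) (R ^ 12) fun n hn => by
      rw [mem_Ico] at hn
      have : R ≤ R ^ 6 := Nat.le_self_pow (by norm_num) R
      omega
    rw [Nat.cast_pow, Real.log_pow] at h1
    have h2 : ∑ n ∈ Ico (R ^ 6) (R ^ 12 + 1), ch n r * ch n s / n ≤
        ∑ n ∈ Ico (R ^ 6) (R ^ 12 + 1), (1 : ℝ) / n :=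
      sum_le_sum fun n _ => div_le_div_of_nonneg_right (le_of_abs_le (hb n)) (Nat.cast_nonneg n)
    have h3 : (0 : ℝ) ≤ 2 / R := by positivity
    push_cast at h1
    linarith
  · have hw := window (fun n => ch n r * ch n s) (s * r) (Nat.mul_pos hs.1.pos hr.1.pos)
      (fun n => by
        show ch (n + s * r) r * ch (n + s * r) s = ch n r * ch n s
        rw [ch_per n s r, mul_comm s r, ch_per n r s])
      (pair_zero r s hr.1 hs.1 (by omega) h) hb
    have ha := abel (fun n => ch n r * ch n s) _ hw (R ^ 6) (R ^ 12 + 1) (by positivity)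
      (le_trans (Nat.pow_le_pow_right (by omega) (by norm_num)) (Nat.le_succ _))
    have h4 : ((s * r : ℕ) : ℝ) ≤ (R : ℝ) ^ 5 := by
      have : s * r ≤ R ^ 5 := by
        calc s * r ≤ R ^ 2 * R ^ 2 := Nat.mul_le_mul hs.2.2 hr.2.2
          _ = R ^ 4 := by ring
          _ ≤ R ^ 5 := Nat.pow_le_pow_right (by omega) (by norm_num)
      exact_mod_cast this
    have h5 : 2 * ((s * r : ℕ) : ℝ) / ((R ^ 6 : ℕ) : ℝ) ≤ 2 / R := by
      rw [Nat.cast_pow, div_le_div_iff₀ (by positivity) hR0]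
      nlinarith [mul_le_mul_of_nonneg_right h4 hR0.le]
    rw [zero_add]
    exact (le_of_abs_le ha).trans h5

theorem second (R : ℕ) (hR : 3 ≤ R) (P : Finset ℕ) (hP : ∀ q ∈ P, q.Prime ∧ R < q ∧ q ≤ R ^ 2) :
    ∑ n ∈ Ico (R ^ 6) (R ^ 12 + 1), U P n ^ 2 / n ≤ 32 * Real.log R ^ 2 / R := by
  have hR0 : (0 : ℝ) < R := by exact_mod_cast (by omega : 0 < R)
  have hL : 0 ≤ Real.log R := Real.log_natCast_nonneg R
  have hσ := sig_le R (by omega) P hP
  have hσ0 : 0 ≤ ∑ r ∈ P, (1 : ℝ) / r := sum_nonneg fun r _ => by positivity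
  have e : ∑ n ∈ Ico (R ^ 6) (R ^ 12 + 1), U P n ^ 2 / n = ∑ r ∈ P, ∑ s ∈ P, (1 : ℝ) / r * (1 / s) *
      ∑ n ∈ Ico (R ^ 6) (R ^ 12 + 1), ch n r * ch n s / n := by
    have e0 : ∀ n, U P n ^ 2 = ∑ r ∈ P, ∑ s ∈ P, ch n r / r * (ch n s / s) := fun n => by
      rw [U, sq, sum_mul_sum]
    simp only [e0, sum_div, mul_sum]
    rw [sum_comm]
    refine sum_congr rfl fun r _ => ?_
    rw [sum_comm]
    refine sum_congr rfl fun s _ => sum_congr rfl fun n _ => ?_
    ring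
  rw [e]
  have h1 : ∀ r ∈ P, ∑ s ∈ P, (1 : ℝ) / r * (1 / s) *
      ∑ n ∈ Ico (R ^ 6) (R ^ 12 + 1), ch n r * ch n s / n ≤
      (1 : ℝ) / r * (16 * Real.log R / R) := by
    intro r hr
    have hr0 : (R : ℝ) ≤ r := by exact_mod_cast (hP r hr).2.1.le
    calc _ ≤ ∑ s ∈ P, (1 : ℝ) / r * (1 / s) * ((if r = s then 12 * Real.log R else 0) + 2 / R) :=
          sum_le_sum fun s hs => mul_le_mul_of_nonneg_left
            (inner_le R (by omega) r s (hP r hr) (hP s hs)) (by positivity)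
      _ = (1 : ℝ) / r * (1 / r * (12 * Real.log R) + (∑ s ∈ P, (1 : ℝ) / s) * (2 / R)) := by
          simp only [mul_add, sum_add_distrib, mul_ite, mul_zero, sum_ite_eq, if_pos hr, sum_mul,
            mul_sum, mul_assoc]
      _ ≤ _ := by
          refine mul_le_mul_of_nonneg_left ?_ (by positivity)
          have a1 : (1 : ℝ) / r * (12 * Real.log R) ≤ 1 / R * (12 * Real.log R) :=
            mul_le_mul_of_nonneg_right (one_div_le_one_div_of_le hR0 hr0) (by positivity)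
          have a2 : (∑ s ∈ P, (1 : ℝ) / s) * (2 / R) ≤ 2 * Real.log R * (2 / R) :=
            mul_le_mul_of_nonneg_right hσ (by positivity)
          have a3 : 16 * Real.log R / R = 1 / R * (12 * Real.log R) + 2 * Real.log R * (2 / R) := by
            ring
          linarith
  calc _ ≤ ∑ r ∈ P, (1 : ℝ) / r * (16 * Real.log R / R) := sum_le_sum h1
    _ = (∑ r ∈ P, (1 : ℝ) / r) * (16 * Real.log R / R) := by rw [sum_mul]
    _ ≤ 2 * Real.log R * (16 * Real.log R / R) := mul_le_mul_of_nonneg_right hσ (by positivity)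
    _ = _ := by ring

theorem tuples (R : ℕ) (P : Finset ℕ) (hP : ∀ q ∈ P, q.Prime ∧ R < q ∧ q ≤ R ^ 2)
    (g : ℕ → ℝ) (hg : ∀ n, 0 ≤ g n) :
    ∑ f ∈ Fintype.piFinset (fun _ : Fin 6 => P), g (∏ i, f i) ≤
      6 ^ 6 * ∑ n ∈ Ico (R ^ 6) (R ^ 12 + 1), g n := by
  have hmap : ∀ f ∈ Fintype.piFinset (fun _ : Fin 6 => P),
      (∏ i, f i) ∈ Ico (R ^ 6) (R ^ 12 + 1) := by
    intro f hf
    rw [Fintype.mem_piFinset] at hf
    have h1 : ∏ _i : Fin 6, R ≤ ∏ i, f i := prod_le_prod' fun i _ => (hP _ (hf i)).2.1.le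
    have h2 : ∏ i, f i ≤ ∏ _i : Fin 6, R ^ 2 := prod_le_prod' fun i _ => (hP _ (hf i)).2.2
    rw [prod_const, card_univ, Fintype.card_fin] at h1 h2
    rw [← pow_mul] at h2
    rw [mem_Ico]
    exact ⟨h1, Nat.lt_succ_of_le h2⟩
  rw [← sum_fiberwise_of_maps_to hmap, mul_sum]
  refine sum_le_sum fun n _ => ?_
  rw [sum_congr rfl (g := fun _ => g n) fun f hf => by rw [(mem_filter.1 hf).2], sum_const,
    nsmul_eq_mul]
  refine mul_le_mul_of_nonneg_right ?_ (hg n)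
  rcases ((Fintype.piFinset fun _ : Fin 6 => P).filter
    fun f => ∏ i, f i = n).eq_empty_or_nonempty with h | ⟨f0, h0⟩
  · rw [h]; simp
  · rw [mem_filter, Fintype.mem_piFinset] at h0
    have hsub : ((Fintype.piFinset fun _ : Fin 6 => P).filter fun f => ∏ i, f i = n) ⊆
        Fintype.piFinset fun _ : Fin 6 => univ.image f0 := by
      intro f hf
      rw [mem_filter, Fintype.mem_piFinset] at hf
      rw [Fintype.mem_piFinset]
      intro i
      have hp := (hP _ (hf.1 i)).1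
      have hd : f i ∣ ∏ j, f0 j := by
        rw [h0.2, ← hf.2]; exact dvd_prod_of_mem _ (mem_univ i)
      obtain ⟨j, -, hj⟩ := (Prime.dvd_finsetProd_iff hp.prime _).1 hd
      exact mem_image.2 ⟨j, mem_univ j,
        ((Nat.prime_dvd_prime_iff_eq hp (hP _ (h0.1 j)).1).1 hj).symm⟩
    have hc := card_le_card hsub
    rw [Fintype.card_piFinset, prod_const, card_univ, Fintype.card_fin] at hc
    have h6 : (univ.image f0).card ≤ 6 := card_image_le.trans (by simp)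
    exact_mod_cast hc.trans (Nat.pow_le_pow_left h6 6)

theorem sixth (R : ℕ) (hR : 3 ≤ R) (P : Finset ℕ) (hP : ∀ q ∈ P, q.Prime ∧ R < q ∧ q ≤ R ^ 2)
    (a : ℕ → ℝ) (ha : ∀ q, |a q| ≤ 1) :
    (∑ r ∈ P, (∑ q ∈ P, a q * ch q r / q) ^ 6 / r) ^ 2 ≤
      (2 * Real.log R) ^ 6 * (6 ^ 6 * (32 * Real.log R ^ 2 / R)) := by
  have hσ := sig_le R (by omega) P hP
  have hσ0 : 0 ≤ ∑ r ∈ P, (1 : ℝ) / r := sum_nonneg fun r _ => by positivity
  set T := Fintype.piFinset fun _ : Fin 6 => P with hT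
  have e1 : ∀ r, (∑ q ∈ P, a q * ch q r / q) ^ 6 =
      ∑ f ∈ T, (∏ i, a (f i)) * ch (∏ i, f i) r / ((∏ i, f i : ℕ) : ℝ) := by
    intro r
    have := prod_univ_sum (fun _ : Fin 6 => P) fun _ q => a q * ch q r / q
    rw [prod_const, card_univ, Fintype.card_fin] at this
    rw [this]
    refine sum_congr rfl fun f _ => ?_
    rw [prod_div_distrib, prod_mul_distrib, ch_prod, Nat.cast_prod]
  have e2 : ∑ r ∈ P, (∑ q ∈ P, a q * ch q r / q) ^ 6 / r =
      ∑ f ∈ T, (∏ i, a (f i)) * U P (∏ i, f i) / ((∏ i, f i : ℕ) : ℝ) := by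
    simp only [e1, U, sum_div, mul_sum]
    rw [sum_comm]
    refine sum_congr rfl fun f _ => sum_congr rfl fun r _ => ?_
    ring
  have e3 : ∑ f ∈ T, (1 : ℝ) / ((∏ i, f i : ℕ) : ℝ) = (∑ r ∈ P, (1 : ℝ) / r) ^ 6 := by
    have := prod_univ_sum (fun _ : Fin 6 => P) fun _ q => (1 : ℝ) / q
    rw [prod_const, card_univ, Fintype.card_fin] at this
    rw [this]
    refine sum_congr rfl fun f _ => ?_
    rw [prod_div_distrib, prod_const_one, Nat.cast_prod]
  have cs := sum_sq_le_sum_mul_sum_of_sq_le_mul T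
    (r := fun f => (∏ i, a (f i)) * U P (∏ i, f i) / ((∏ i, f i : ℕ) : ℝ))
    (f := fun f => (1 : ℝ) / ((∏ i, f i : ℕ) : ℝ))
    (g := fun f => U P (∏ i, f i) ^ 2 / ((∏ i, f i : ℕ) : ℝ))
    (fun f _ => by positivity) (fun f _ => by positivity) (fun f _ => by
      have h1 : |∏ i, a (f i)| ≤ 1 := by
        rw [abs_prod]; exact prod_le_one (fun i _ => abs_nonneg _) fun i _ => ha _
      have h2 : (∏ i, a (f i)) ^ 2 ≤ 1 := by
        rw [← sq_abs]; exact pow_le_one₀ (abs_nonneg _) h1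
      have h3 : ((∏ i, a (f i)) * U P (∏ i, f i) / ((∏ i, f i : ℕ) : ℝ)) ^ 2 =
          (∏ i, a (f i)) ^ 2 * (1 / ((∏ i, f i : ℕ) : ℝ) *
            (U P (∏ i, f i) ^ 2 / ((∏ i, f i : ℕ) : ℝ))) := by ring
      rw [h3]
      exact mul_le_of_le_one_left (by positivity) h2)
  rw [e2]
  refine cs.trans ?_
  rw [e3]
  refine mul_le_mul (pow_le_pow_left₀ hσ0 hσ 6) ?_ (sum_nonneg fun f _ => by positivity)
    (by have := Real.log_natCast_nonneg R; positivity)
  refine (tuples R P hP (fun n => U P n ^ 2 / n) fun n => by positivity).trans ?_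
  exact mul_le_mul_of_nonneg_left (second R hR P hP) (by positivity)

theorem pmean (P : Finset ℕ) (w z : ℕ → ℝ) (hw : ∀ r, 0 ≤ w r) (hz : ∀ r, 0 ≤ z r) :
    (∑ r ∈ P, w r * z r) ^ 6 ≤ (∑ r ∈ P, w r) ^ 5 * ∑ r ∈ P, w r * z r ^ 6 := by
  have h0 : 0 ≤ ∑ r ∈ P, w r := sum_nonneg fun r _ => hw r
  rcases h0.eq_or_lt with h | h
  · have := (sum_eq_zero_iff_of_nonneg fun r _ => hw r).1 h.symm
    rw [← h, sum_eq_zero fun r hr => by rw [this r hr, zero_mul]]
    simp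
  · have key := Real.pow_arith_mean_le_arith_mean_pow P (fun r => w r / ∑ r ∈ P, w r) z
      (fun r _ => div_nonneg (hw r) h0) (by rw [← sum_div, div_self h.ne']) (fun r _ => hz r) 6
    simp only [div_mul_eq_mul_div, ← sum_div] at key
    rw [div_pow, div_le_div_iff₀ (by positivity) h] at key
    refine le_of_mul_le_mul_right ?_ h
    nlinarith [key]

theorem twelfth (R : ℕ) (hR : 3 ≤ R) (P : Finset ℕ) (hP : ∀ q ∈ P, q.Prime ∧ R < q ∧ q ≤ R ^ 2)
    (a b : ℕ → ℝ) (ha : ∀ q, |a q| ≤ 1) (hb : ∀ q, |b q| ≤ 1) :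
    |∑ q ∈ P, ∑ r ∈ P, a q * b r * (J((q : ℤ) | r) : ℝ) / ((q : ℝ) * r)| ^ 12 ≤
      2 ^ 21 * 6 ^ 6 * Real.log R ^ 18 / R := by
  have hσ := sig_le R (by omega) P hP
  have hσ0 : 0 ≤ ∑ r ∈ P, (1 : ℝ) / r := sum_nonneg fun r _ => by positivity
  have hL : 0 ≤ Real.log R := Real.log_natCast_nonneg R
  have e : ∑ q ∈ P, ∑ r ∈ P, a q * b r * (J((q : ℤ) | r) : ℝ) / ((q : ℝ) * r) =
      ∑ r ∈ P, (1 : ℝ) / r * (b r * ∑ q ∈ P, a q * ch q r / q) := by
    rw [sum_comm]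
    simp only [mul_sum, ch]
    refine sum_congr rfl fun r _ => sum_congr rfl fun q _ => ?_
    ring
  have h1 : |∑ r ∈ P, (1 : ℝ) / r * (b r * ∑ q ∈ P, a q * ch q r / q)| ≤
      ∑ r ∈ P, (1 : ℝ) / r * |∑ q ∈ P, a q * ch q r / q| := by
    refine (abs_sum_le_sum_abs _ _).trans (sum_le_sum fun r _ => ?_)
    rw [abs_mul, abs_mul, abs_of_nonneg (by positivity : (0 : ℝ) ≤ 1 / r)]
    exact mul_le_mul_of_nonneg_left (mul_le_of_le_one_left (abs_nonneg _) (hb r)) (by positivity)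
  have h2 := pmean P (fun r => (1 : ℝ) / r) (fun r => |∑ q ∈ P, a q * ch q r / q|)
    (fun r => by positivity) fun r => abs_nonneg _
  have e2 : ∑ r ∈ P, (1 : ℝ) / r * |∑ q ∈ P, a q * ch q r / q| ^ 6 =
      ∑ r ∈ P, (∑ q ∈ P, a q * ch q r / q) ^ 6 / r :=
    sum_congr rfl fun r _ => by rw [Even.pow_abs (by norm_num)]; ring
  rw [e2] at h2
  have h3 := sixth R hR P hP a ha
  set V := ∑ r ∈ P, (∑ q ∈ P, a q * ch q r / q) ^ 6 / r with hV
  have hV0 : 0 ≤ V := sum_nonneg fun r _ => by positivity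
  rw [e]
  set S := |∑ r ∈ P, (1 : ℝ) / r * (b r * ∑ q ∈ P, a q * ch q r / q)| with hS
  have h4 : S ^ 6 ≤ (2 * Real.log R) ^ 5 * V :=
    ((pow_le_pow_left₀ (abs_nonneg _) h1 6).trans h2).trans
      (mul_le_mul_of_nonneg_right (pow_le_pow_left₀ hσ0 hσ 5) hV0)
  calc S ^ 12 = (S ^ 6) ^ 2 := by ring
    _ ≤ ((2 * Real.log R) ^ 5 * V) ^ 2 := pow_le_pow_left₀ (by positivity) h4 2
    _ = (2 * Real.log R) ^ 10 * V ^ 2 := by ring
    _ ≤ (2 * Real.log R) ^ 10 * ((2 * Real.log R) ^ 6 * (6 ^ 6 * (32 * Real.log R ^ 2 / R))) :=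
        mul_le_mul_of_nonneg_left h3 (by positivity)
    _ = _ := by ring

end BilinAux

theorem bilin (m : ℕ) (ε : ℝ) (hε : 0 < ε) : ∃ R₀ : ℕ, ∀ R : ℕ, R₀ ≤ R → ∀ P : Finset ℕ,
    (∀ q ∈ P, q.Prime ∧ R < q ∧ q ≤ R ^ 2) → Bil P (ε / Real.log R ^ m) := by
  have hc : (0 : ℝ) < ε ^ 12 / (2 ^ 21 * 6 ^ 6) := by positivity
  have ho := (Real.isLittleO_pow_log_id_atTop (n := 18 + m * 12)).bound hc
  obtain ⟨R₁, h₁⟩ := Filter.eventually_atTop.1 (tendsto_natCast_atTop_atTop.eventually ho)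
  refine ⟨max R₁ 3, fun R hR P hP a b ha hb => ?_⟩
  have h3 : 3 ≤ R := le_trans (le_max_right _ _) hR
  have hR0 : (0 : ℝ) < R := by exact_mod_cast (by omega : 0 < R)
  have hL : 0 < Real.log R := Real.log_pos (by exact_mod_cast (by omega : 1 < R))
  have h := h₁ R (le_trans (le_max_left _ _) hR)
  rw [Real.norm_of_nonneg (by positivity), id, Real.norm_of_nonneg hR0.le,
    div_mul_eq_mul_div, le_div_iff₀ (by positivity)] at h
  refine le_of_pow_le_pow_left₀ (n := 12) (by norm_num) (by positivity) ?_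
  refine (BilinAux.twelfth R h3 P hP a b ha hb).trans ?_
  rw [div_pow, div_le_div_iff₀ hR0 (by positivity), ← pow_mul]
  rw [pow_add] at h
  linarith

end Pool.Agent.Lib.MP_7d3fda_nt.R2
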