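import Pool.Agent.Lib.MP_7d3fda_nt.R2.Loc
import Pool.Agent.Lib.MP_7d3fda_nt.R2.Forms

open Finset
open scoped Classical NumberTheorySymbols

noncomputable section

namespace Pool.Agent.Lib.MP_7d3fda_nt.R2

open Pool.Agent.Lib.MP_4b8564_nt.GT

variable {ι : Type} [Fintype ι] [DecidableEq ι]

namespace CaseBAux

theorem per_mul {V : Type} {q : ℕ} {f g : (V → ℤ) → ℝ} (hf : Per q f) (hg : Per q g) :
    Per q fun x => f x * g x := fun x y h => by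
  simp only [hf x y h, hg x y h]

theorem per_prod {V κ : Type} {q : ℕ} (s : Finset κ) (f : κ → (V → ℤ) → ℝ)
    (hf : ∀ k ∈ s, Per q (f k)) : Per q fun x => ∏ k ∈ s, f k x := fun x y h =>
  Finset.prod_congr rfl fun k hk => hf k hk x y h

theorem abs_mul_le {a b : ℝ} (ha : |a| ≤ 1) (hb : |b| ≤ 1) : |a * b| ≤ 1 := by
  rw [abs_mul]
  exact mul_le_one₀ ha (abs_nonneg _) hb

theorem abs_prod_le {κ : Type} (s : Finset κ) (f : κ → ℝ) (hf : ∀ k, |f k| ≤ 1) :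
    |∏ k ∈ s, f k| ≤ 1 := by
  rw [Finset.abs_prod]
  exact Finset.prod_le_one (fun k _ => abs_nonneg _) fun k _ => hf k

theorem sum_update {V : Type} [Fintype V] [DecidableEq V] (a x : V → ℤ) (v : V) (t : ℤ)
    (h : a v = 0) : ∑ w, a w * Function.update x v t w = ∑ w, a w * x w :=
  Finset.sum_congr rfl fun w _ => by
    by_cases hw : w = v
    · rw [hw, h, zero_mul, zero_mul]
    · rw [Function.update_of_ne hw]

end CaseBAux

open CaseBAux in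
theorem caseB {c : ι → ℤ} {W : ℤ} (n : ι → ℤ) (s : ℤ) (G : Finset (ι × ι)) {B : Finset ι}
    {P : Finset ℕ} {R H : ℕ} (hP : Ok c W R P) (hR : 2 ≤ R) (hH : 0 < H) (hB : B.Nonempty)
    {Q : ι × Finset ι → ℕ} (hQ : ∀ t, Q t ∈ P) (hNC : NC Q) :
    |bav H (term c W n s G B Q)| ≤ 8 * Fintype.card ι * (R : ℝ) ^ (2 * (Adm ι).card) / H := by
  obtain ⟨j0, hj0⟩ := hB
  obtain ⟨t0, ht0⟩ : ∃ t0 : ι × Finset ι, t0 = (j0, ∅) := ⟨_, rfl⟩
  have hadm : t0 ∈ Adm ι := by simp [Adm, ht0]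
  obtain ⟨hp, hRp, -, hpW, -⟩ := hP _ (hQ t0)
  obtain ⟨T, hT⟩ : ∃ T : Finset (Finset ι × ι), T = (univ ×ˢ B).erase (∅, j0) := ⟨_, rfl⟩
  obtain ⟨φ, hφ⟩ : ∃ φ : Finset ι × ι → (ι ⊕ ι → ℤ) → ℝ, φ = fun u x =>
    (J(s + ∑ w, cS W u.1 w * x w | Q (u.2, u.1.erase u.2)) : ℝ) := ⟨_, rfl⟩
  obtain ⟨ψ, hψ⟩ : ∃ ψ : ι × Finset ι → (ι ⊕ ι → ℤ) → ℝ, ψ = fun t x =>
    ind (Q t) (n t.1 + ∑ w, cL c W t w * x w) := ⟨_, rfl⟩
  obtain ⟨C, hC⟩ : ∃ C : ℝ, C = ∏ S : Finset ι, ∏ e ∈ G,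
    (J((Q (e.1, S.erase e.1) : ℤ) | Q (e.2, S.erase e.2)) : ℝ) := ⟨_, rfl⟩
  obtain ⟨F, hF⟩ : ∃ F : (ι ⊕ ι → ℤ) → ℝ, F = fun x =>
    ψ t0 x * ∏ u ∈ T.filter (fun u => (u.2, u.1.erase u.2) = t0), φ u x := ⟨_, rfl⟩
  obtain ⟨g, hg⟩ : ∃ g : (ι ⊕ ι → ℤ) → ℝ, g = fun x =>
    (C * ∏ u ∈ T.filter (fun u => ¬(u.2, u.1.erase u.2) = t0), φ u x) *
      ∏ t ∈ (Adm ι).erase t0, ψ t x := ⟨_, rfl⟩
  obtain ⟨M, hM⟩ : ∃ M : ℕ, M = ∏ t ∈ (Adm ι).erase t0, Q t := ⟨_, rfl⟩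
  have hφ1 : ∀ u x, |φ u x| ≤ 1 := fun u x => by rw [hφ]; exact abs_jac_le _ _
  have hψ1 : ∀ t x, |ψ t x| ≤ 1 := fun t x => by rw [hψ]; exact abs_ind_le _ _
  have hφp : ∀ u m, Q (u.2, u.1.erase u.2) ∣ m → Per m (φ u) := fun u m h => by
    rw [hφ]; exact per_jac _ _ h _ _
  have hψp : ∀ t m, Q t ∣ m → Per m (ψ t) := fun t m h => by
    rw [hψ]; exact per_ind _ _ h _ _
  have hφ0 : φ (∅, j0) = fun x => (J(s + ∑ w, cS W ∅ w * x w | Q t0) : ℝ) := by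
    rw [hφ, ht0]; simp only [Finset.erase_empty]
  have hterm : term c W n s G B Q = fun x => (F x * φ (∅, j0) x) * g x := by
    funext x
    have e1 : ∏ S : Finset ι, Gam G B (Sf W s (vx S x)) (fun j => Q (j, S.erase j)) =
        C * ∏ u ∈ (univ : Finset (Finset ι)) ×ˢ B, φ u x := by
      rw [Finset.prod_product, hC, ← Finset.prod_mul_distrib, hφ]
      exact Finset.prod_congr rfl fun S _ => by simp only [Gam, Sf_eq]
    have e2 : ∏ t ∈ Adm ι, ind (Q t) (Lf c W n t.1 (vx t.2 x)) = ∏ t ∈ Adm ι, ψ t x := by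
      rw [hψ]
      exact Finset.prod_congr rfl fun t _ => by rw [Lf_eq]
    have hu : ((∅ : Finset ι), j0) ∈ (univ : Finset (Finset ι)) ×ˢ B :=
      Finset.mem_product.2 ⟨Finset.mem_univ _, hj0⟩
    unfold term
    rw [e1, e2, ← Finset.mul_prod_erase _ _ hu, ← hT, ← Finset.mul_prod_erase _ _ hadm,
      ← Finset.prod_filter_mul_prod_filter_not T (fun u => (u.2, u.1.erase u.2) = t0), hF, hg]
    ring
  have hF1 : ∀ x, |F x| ≤ 1 := fun x => by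
    rw [hF]; exact abs_mul_le (hψ1 _ _) (abs_prod_le _ _ fun u => hφ1 u x)
  have hg1 : ∀ x, |g x| ≤ 1 := fun x => by
    rw [hg]
    refine abs_mul_le (abs_mul_le ?_ (abs_prod_le _ _ fun u => hφ1 u x))
      (abs_prod_le _ _ fun t => hψ1 t x)
    rw [hC]
    exact abs_prod_le _ _ fun S => abs_prod_le _ _ fun e => abs_jac_le _ _
  have hFp : Per (Q t0) F := by
    rw [hF]
    exact per_mul (hψp _ _ dvd_rfl) (per_prod _ _ fun u hu =>
      hφp u _ (by rw [(Finset.mem_filter.1 hu).2]))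
  have hfp : Per (Q t0) fun x => F x * φ (∅, j0) x :=
    per_mul hFp (hφp _ _ (by rw [ht0]; simp only [Finset.erase_empty]; exact dvd_rfl))
  have hgp : Per M g := by
    rw [hg, hM]
    refine per_mul (per_mul (fun _ _ _ => rfl) (per_prod _ _ fun u hu => hφp u _ ?_))
      (per_prod _ _ fun t ht => hψp t _ (Finset.dvd_prod_of_mem _ ht))
    refine Finset.dvd_prod_of_mem _ (Finset.mem_erase.2 ⟨(Finset.mem_filter.1 hu).2, ?_⟩)
    simp [Adm]
  have hFu : ∀ x t, F (Function.update x (Sum.inl j0) t) = F x := fun x t => by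
    rw [hF]
    refine congrArg₂ (· * ·) ?_ (Finset.prod_congr rfl fun u hu => ?_)
    · rw [hψ]
      simp only []
      rw [sum_update _ _ _ _ (by simp [cL, ht0])]
    · obtain ⟨h1, h2⟩ := Finset.mem_filter.1 hu
      rw [hT] at h1
      rw [ht0, Prod.mk.injEq] at h2
      have h3 : j0 ∈ u.1 := by
        by_contra h3
        refine (Finset.mem_erase.1 h1).1 (Prod.ext ?_ h2.1)
        rw [← h2.2, h2.1, Finset.erase_eq_of_notMem h3]
      rw [hφ]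
      simp only []
      rw [sum_update _ _ _ _ (by simp [cS, h3])]
  have hz : bav (Q t0) (fun x => F x * φ (∅, j0) x) = 0 := by
    rw [hφ0]
    exact loc_jac _ hp (by omega) s _ (Sum.inl j0) (by simpa [cS] using hpW) F hFu
  have hM0 : 0 < M := by
    rw [hM]
    exact Finset.prod_pos fun t _ => (hP _ (hQ t)).1.pos
  have hco : (Q t0).Coprime M := by
    rw [hM]
    refine Nat.Coprime.prod_right fun t ht => (Nat.coprime_primes hp (hP _ (hQ t)).1).2 fun h => ?_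
    exact (Finset.mem_erase.1 ht).1 (hNC _ hadm _ (Finset.mem_erase.1 ht).2 h).symm
  have hle : Q t0 * M ≤ R ^ (2 * (Adm ι).card) := by
    rw [hM, Finset.mul_prod_erase _ _ hadm, pow_mul]
    exact Finset.prod_le_pow_card _ _ _ fun t _ => (hP _ (hQ t)).2.2.1
  have hle' : (Q t0 : ℝ) * M ≤ (R : ℝ) ^ (2 * (Adm ι).card) := by exact_mod_cast hle
  have key := fac _ M H hp.pos hM0 hH hco _ g hfp hgp
    (fun x => abs_mul_le (hF1 x) (hφ1 _ x)) hg1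
  rw [hz, zero_mul, sub_zero, ← hterm, Fintype.card_sum] at key
  refine key.trans (div_le_div_of_nonneg_right ?_ (Nat.cast_nonneg _))
  push_cast
  have h0 : (0 : ℝ) ≤ Fintype.card ι := Nat.cast_nonneg _
  nlinarith [mul_le_mul_of_nonneg_left hle' h0]

end Pool.Agent.Lib.MP_7d3fda_nt.R2
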