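import Pool.Agent.Lib.MP_7d3fda_nt.R2.Bad
import Pool.Agent.Lib.MP_7d3fda_nt.R2.CaseB
import Pool.Agent.Lib.MP_7d3fda_nt.R2.CaseG

open Finset
open scoped Classical NumberTheorySymbols

noncomputable section

namespace Pool.Agent.Lib.MP_7d3fda_nt.R2

open Pool.Agent.Lib.MP_4b8564_nt.GT

variable {ι : Type} [Fintype ι] [DecidableEq ι]

namespace BoxLeAux

theorem ind_nonneg (q : ℕ) (n : ℤ) : 0 ≤ ind q n := by
  unfold ind; split_ifs <;> norm_num

theorem abs_term_le (c : ι → ℤ) (W : ℤ) (n : ι → ℤ) (s : ℤ) (G : Finset (ι × ι)) (B : Finset ι)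
    (Q : ι × Finset ι → ℕ) (x : ι ⊕ ι → ℤ) :
    |term c W n s G B Q x| ≤ ∏ t ∈ Adm ι, ind (Q t) (Lf c W n t.1 (vx t.2 x)) := by
  have h0 : 0 ≤ ∏ t ∈ Adm ι, ind (Q t) (Lf c W n t.1 (vx t.2 x)) :=
    prod_nonneg fun t _ => ind_nonneg _ _
  unfold term
  rw [abs_mul, abs_of_nonneg h0, abs_prod]
  exact mul_le_of_le_one_left h0
    (prod_le_one (fun _ _ => abs_nonneg _) fun _ _ => abs_Gam_le _ _ _ _)

omit [Fintype ι] [DecidableEq ι] in
theorem card_le {c : ι → ℤ} {W : ℤ} {R : ℕ} {P : Finset ℕ} (hP : Ok c W R P) : P.card ≤ R ^ 2 := by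
  have h : P ⊆ Ioc 0 (R ^ 2) := fun q hq =>
    mem_Ioc.2 ⟨(hP q hq).1.pos, (hP q hq).2.2.1⟩
  simpa using card_le_card h

theorem small {m R H A : ℕ} (hm : m ≤ R ^ 2) (hR : 2 ≤ R) (hH : R ^ (4 * A + 2) ≤ H) {a : ℝ}
    (ha : 0 ≤ a) : (m : ℝ) ^ A * (a * (R : ℝ) ^ (2 * A) / H) ≤ a / R := by
  have hR' : (2 : ℝ) ≤ R := by exact_mod_cast hR
  have hR0 : (0 : ℝ) < R := by linarith
  have hm' : (m : ℝ) ≤ (R : ℝ) ^ 2 := by exact_mod_cast hm
  have hH' : (R : ℝ) ^ (4 * A + 2) ≤ H := by exact_mod_cast hH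
  calc (m : ℝ) ^ A * (a * (R : ℝ) ^ (2 * A) / H)
      ≤ ((R : ℝ) ^ 2) ^ A * (a * (R : ℝ) ^ (2 * A) / (R : ℝ) ^ (4 * A + 2)) := by gcongr
    _ = a / R / R := by field_simp; ring
    _ ≤ a / R := div_le_self (by positivity) (by linarith)

end BoxLeAux

open BoxLeAux in
theorem box_le [Nontrivial ι] {c : ι → ℤ} {W : ℤ} {n : ι → ℤ} (s : ℤ) {G : Finset (ι × ι)}
    {B : Finset ι} {P : Finset ℕ} {R H : ℕ} {K δ : ℝ} (hP : Ok c W R P) (hne : P.Nonempty)
    (hR : 2 ≤ R) (hH : R ^ (4 * (Adm ι).card + 2) ≤ H) (hK : Few c W n P H K) (hK1 : 1 ≤ K)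
    (hδ : Bil P δ) (hG : ∀ e ∈ G, e.1 ≠ e.2 ∧ (e.2, e.1) ∉ G) (hGB : G.Nonempty ∨ B.Nonempty) :
    |box c W n s G B P H| ≤
      K ^ (Adm ι).card * (δ + (4 * ((Adm ι).card : ℝ) ^ 2 + 16 * Fintype.card ι) / R) := by
  have hR0 : (0 : ℝ) < R := by exact_mod_cast (by omega : 0 < R)
  have hH2 : R ^ 2 ≤ H := (Nat.pow_le_pow_right (by omega) (by omega)).trans hH
  have hH0 : 0 < H := (pow_pos (by omega) 2).trans_le hH2
  have hδ0 : 0 ≤ δ := (abs_nonneg _).trans (hδ (fun _ => 0) (fun _ => 0) (by simp) (by simp))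
  have hKA : 1 ≤ K ^ (Adm ι).card := one_le_pow₀ hK1
  have hn : (0 : ℝ) ≤ Fintype.card ι := Nat.cast_nonneg _
  have : Nonempty P := hne.to_subtype
  have hsm := small (A := (Adm ι).card) (card_le hP) hR hH (a := 16 * Fintype.card ι)
    (by positivity)
  have hsplit : box c W n s G B P H =
      av (fun Q : ι × Finset ι → P => if NC (fun t => (Q t : ℕ)) then
        (P.card : ℝ) ^ (Adm ι).card * bav H (term c W n s G B fun t => (Q t : ℕ)) else 0) +
      av (fun Q : ι × Finset ι → P => if NC (fun t => (Q t : ℕ)) then 0 else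
        (P.card : ℝ) ^ (Adm ι).card * bav H (term c W n s G B fun t => (Q t : ℕ))) := by
    rw [← av_add]
    exact av_congr fun Q => by split_ifs <;> simp
  have hbad : |av (fun Q : ι × Finset ι → P => if NC (fun t => (Q t : ℕ)) then 0 else
      (P.card : ℝ) ^ (Adm ι).card * bav H (term c W n s G B fun t => (Q t : ℕ)))| ≤
      K ^ (Adm ι).card * (4 * ((Adm ι).card : ℝ) ^ 2 / R) := by
    refine (abs_av_le _).trans ((av_mono fun Q => ?_).trans (bad_le hP hne (by omega) hH2 hK))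
    split_ifs
    · simp
    · rw [abs_mul, abs_of_nonneg (by positivity)]
      exact mul_le_mul_of_nonneg_left
        ((abs_av_le _).trans (av_mono fun x => abs_term_le _ _ _ _ _ _ _ _)) (by positivity)
  have hgood : |av (fun Q : ι × Finset ι → P => if NC (fun t => (Q t : ℕ)) then
      (P.card : ℝ) ^ (Adm ι).card * bav H (term c W n s G B fun t => (Q t : ℕ)) else 0)| ≤
      K ^ (Adm ι).card * δ + 16 * Fintype.card ι / R := by
    rcases B.eq_empty_or_nonempty with rfl | hB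
    · have hG0 : G.Nonempty := hGB.resolve_right (by simp)
      exact (caseG s hP hne hH0 hK hK1 hδ hG0 hG).trans (by linarith)
    · refine abs_av_le_of_le fun Q => ?_
      have h1 : 0 ≤ K ^ (Adm ι).card * δ := by positivity
      split_ifs with hQ
      · have h2 := caseB n s G hP hR hH0 hB (fun t => (Q t).2) hQ
        have h3 := small (A := (Adm ι).card) (card_le hP) hR hH (a := 8 * Fintype.card ι)
          (by positivity)
        have h4 : 8 * (Fintype.card ι : ℝ) / R ≤ 16 * Fintype.card ι / R := by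
          gcongr; norm_num
        rw [abs_mul, abs_of_nonneg (by positivity)]
        have h5 := mul_le_mul_of_nonneg_left h2
          (show (0 : ℝ) ≤ (P.card : ℝ) ^ (Adm ι).card by positivity)
        linarith
      · rw [abs_zero]; positivity
  have h6 : 16 * (Fintype.card ι : ℝ) / R ≤ K ^ (Adm ι).card * (16 * Fintype.card ι / R) :=
    le_mul_of_one_le_left (by positivity) hKA
  rw [hsplit]
  refine (abs_add_le _ _).trans ?_
  rw [add_div, mul_add, mul_add]
  linarith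

end Pool.Agent.Lib.MP_7d3fda_nt.R2
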