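import Pool.Agent.Lib.MP_7d3fda_nt.R2.Defs

open Finset
open scoped Classical NumberTheorySymbols

noncomputable section

namespace Pool.Agent.Lib.MP_7d3fda_nt.R2

open Pool.Agent.Lib.MP_4b8564_nt.GT

namespace FiberAux

theorem primes (a s : ℤ) (h : Good a s) :
    ∃ S : Finset ℕ, S.card ≤ 13 ∧ ∀ r : ℕ, r.Prime → (r : ℤ) ∣ dd a s → r ∈ S := by
  obtain ⟨θ, q, p, -, h1, -⟩ := h
  refine ⟨insert 23 (univ.image q ∪ univ.image p), ?_, fun r hr hd => ?_⟩
  · refine (card_insert_le _ _).trans ?_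
    have e1 : (univ.image q).card ≤ 6 := card_image_le.trans (by simp)
    have e2 : (univ.image p).card ≤ 6 := card_image_le.trans (by simp)
    have := card_union_le (univ.image q) (univ.image p)
    omega
  · have hp : Prime (r : ℤ) := Nat.prime_iff_prime_int.mp hr
    rcases hp.dvd_or_dvd hd with h | h
    · have h' : (r : ℤ) ∣ ((23 : ℕ) : ℤ) := by simpa using h
      have := (Nat.prime_dvd_prime_iff_eq hr (by norm_num)).mp (Int.natCast_dvd_natCast.mp h')
      simp [this]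
    · obtain ⟨j, -, hj⟩ := (Prime.dvd_finsetProd_iff hp _).mp h
      obtain ⟨k1, k2, k3, -⟩ := h1 j
      rw [← k3] at hj
      rcases hp.dvd_or_dvd hj with h | h
      · have := (Nat.prime_dvd_prime_iff_eq hr k1).mp (Int.natCast_dvd_natCast.mp h)
        simp [this]
      · have := (Nat.prime_dvd_prime_iff_eq hr k2).mp (Int.natCast_dvd_natCast.mp h)
        simp [this]

end FiberAux

theorem fiber (T : Finset (ℤ × ℤ)) (hT : ∀ z ∈ T, Good z.1 z.2) :
    T.card ≤ 13 ^ 4 * (T.image fun z => dd z.1 z.2).card := by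
  refine card_le_mul_card_image T _ fun d hd => ?_
  obtain ⟨z0, hz0, rfl⟩ := mem_image.mp hd
  obtain ⟨S, hS, hS'⟩ := FiberAux.primes _ _ (hT z0 hz0)
  have sub : (T.filter fun z => dd z.1 z.2 = dd z0.1 z0.2) ⊆
      ((S ×ˢ S) ×ˢ (S ×ˢ S)).image fun w : (ℕ × ℕ) × (ℕ × ℕ) =>
        (((w.1.1 : ℤ) * w.1.2, ((w.2.1 : ℤ) * w.2.2 - (w.1.1 : ℤ) * w.1.2) / 828) : ℤ × ℤ) := by
    intro z hz
    obtain ⟨hz1, hz2⟩ := mem_filter.mp hz
    obtain ⟨θ, q, p, -, h1, -⟩ := hT z hz1
    have key : ∀ j, q j ∈ S ∧ p j ∈ S := by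
      intro j
      obtain ⟨k1, k2, k3, -⟩ := h1 j
      have hdv : (q j : ℤ) * p j ∣ dd z0.1 z0.2 := by
        rw [← hz2, k3]
        exact Dvd.dvd.mul_left (dvd_prod_of_mem (fun j => z.1 + cc j * z.2) (mem_univ j)) _
      exact ⟨hS' _ k1 ((dvd_mul_right _ _).trans hdv), hS' _ k2 ((dvd_mul_left _ _).trans hdv)⟩
    refine mem_image.mpr ⟨((q 4, p 4), (q 0, p 0)), ?_, ?_⟩
    · simp [key 4, key 0]
    · have e4 := (h1 4).2.2.1
      have e0 := (h1 0).2.2.1
      have c4 : cc 4 = 0 := rfl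
      have c0 : cc 0 = 828 := rfl
      rw [c4] at e4
      rw [c0] at e0
      refine Prod.ext ?_ ?_
      · simpa using e4
      · show ((q 0 : ℤ) * p 0 - (q 4 : ℤ) * p 4) / 828 = z.2
        rw [e4, e0]
        push_cast
        omega
  refine (card_le_card sub).trans (card_image_le.trans ?_)
  rw [card_product, card_product]
  calc S.card * S.card * (S.card * S.card) ≤ 13 * 13 * (13 * 13) := by gcongr
    _ = 13 ^ 4 := by norm_num

end Pool.Agent.Lib.MP_7d3fda_nt.R2
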