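import Pool.Agent.Lib.MP_7d3fda_nt.R2.Many
import Pool.Agent.Lib.MP_7d3fda_nt.R2.Fiber

open Finset
open scoped Classical NumberTheorySymbols

noncomputable section

namespace Pool.Agent.Lib.MP_7d3fda_nt.R2

open Pool.Agent.Lib.MP_4b8564_nt.GT

namespace CountAux

theorem abs_dd_le {a s M : ℤ} (h : Good a s) (hM : ∀ j, a + cc j * s ≤ M) :
    |dd a s| ≤ 23 * M ^ 6 := by
  obtain ⟨θ, q, p, -, h1, -⟩ := h
  have hpos : ∀ j, 0 ≤ a + cc j * s := fun j => by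
    rw [← (h1 j).2.2.1]
    positivity
  have h2 : ∏ j, (a + cc j * s) ≤ M ^ 6 := by
    have := Finset.prod_le_prod (s := (univ : Finset (Fin 6))) (f := fun j => a + cc j * s)
      (g := fun _ => M) (fun j _ => hpos j) (fun j _ => hM j)
    simpa using this
  have h3 : 0 ≤ ∏ j, (a + cc j * s) := Finset.prod_nonneg fun j _ => hpos j
  unfold dd
  rw [abs_le]
  constructor <;> nlinarith

theorem fin_set (p : ℤ → Prop) (D : ℝ) : {d : ℤ | |(d : ℝ)| ≤ D ∧ p d}.Finite := by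
  refine (Set.finite_Icc (-⌈D⌉) ⌈D⌉).subset ?_
  rintro d ⟨hd, -⟩
  have h1 : ((|d| : ℤ) : ℝ) ≤ (⌈D⌉ : ℤ) := by
    rw [Int.cast_abs]
    exact hd.trans (Int.le_ceil D)
  have h2 : |d| ≤ ⌈D⌉ := by exact_mod_cast h1
  exact abs_le.1 h2

end CountAux

theorem count (p : ℤ → Prop) (hp : ∀ a s, Good a s → p (dd a s)) :
    ∃ c : ℝ, 0 < c ∧ ∃ D₀ : ℝ, ∀ D : ℝ, D₀ ≤ D →
      c * D ^ (1 / 3 : ℝ) / Real.log D ^ 6 ≤ (Set.ncard {d : ℤ | |(d : ℝ)| ≤ D ∧ p d} : ℝ) := by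
  obtain ⟨c, hc, W, hW, N₀, hmany⟩ := many
  have hWr : (1 : ℝ) ≤ W := by exact_mod_cast hW
  have hW0 : (0 : ℝ) < W := by linarith
  refine ⟨c / (16 * (W : ℝ) ^ 2 * 13 ^ 4), by positivity, (4 * (W : ℝ) * (N₀ + 1)) ^ 6, ?_⟩
  intro D hD
  have hN0 : (0 : ℝ) ≤ N₀ := Nat.cast_nonneg _
  have hM1 : (1 : ℝ) ≤ 4 * (W : ℝ) * (N₀ + 1) := by nlinarith
  have hD1 : (1 : ℝ) ≤ D := (one_le_pow₀ hM1).trans hD
  have hD0 : (0 : ℝ) ≤ D := by linarith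
  obtain ⟨x, hx0, hx6, hx2⟩ : ∃ x : ℝ, 0 ≤ x ∧ x ^ 6 = D ∧ x ^ 2 = D ^ (1 / 3 : ℝ) := by
    refine ⟨D ^ (1 / 6 : ℝ), Real.rpow_nonneg hD0 _, ?_, ?_⟩
    · rw [← Real.rpow_natCast, ← Real.rpow_mul hD0]
      norm_num
    · rw [← Real.rpow_natCast, ← Real.rpow_mul hD0]
      norm_num
  have hxM : 4 * (W : ℝ) * (N₀ + 1) ≤ x := by
    refine le_of_pow_le_pow_left₀ (n := 6) (by norm_num) hx0 ?_
    rw [hx6]
    exact hD
  have hx1 : 1 ≤ x := hM1.trans hxM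
  set Y : ℕ := ⌊x / (4 * W)⌋₊ with hY
  have hq0 : 0 ≤ x / (4 * W) := by positivity
  have hYle : (Y : ℝ) ≤ x / (4 * W) := Nat.floor_le hq0
  have hYlt : x / (4 * W) < Y + 1 := Nat.lt_floor_add_one _
  have hYge : N₀ + 1 ≤ Y := by
    refine Nat.le_floor ?_
    rw [le_div_iff₀ (by positivity)]
    push_cast
    linarith
  obtain ⟨N, hNp, hN1, hN2⟩ := Nat.exists_prime_lt_and_le_two_mul Y (by omega)
  obtain ⟨T, hT, hcard⟩ := hmany N hNp (by omega)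
  have hN1r : (Y : ℝ) + 1 ≤ N := by exact_mod_cast hN1
  have hN2r : (N : ℝ) ≤ 2 * Y := by exact_mod_cast hN2
  have hWN : (W : ℝ) * N ≤ x / 2 := by
    have h1 : (Y : ℝ) * (4 * W) ≤ x := by rwa [le_div_iff₀ (by positivity)] at hYle
    nlinarith
  have hxN : x ≤ 4 * W * N := by
    have h1 : x < (Y + 1) * (4 * W) := by rwa [div_lt_iff₀ (by positivity)] at hYlt
    nlinarith
  have hN2' : (2 : ℝ) ≤ N := by exact_mod_cast hNp.two_le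
  have hxD : x ≤ D := by
    rw [← hx6]
    exact le_self_pow₀ hx1 (by norm_num)
  have hND : (N : ℝ) ≤ D := by nlinarith
  have hlogN : 0 < Real.log N := Real.log_pos (by linarith)
  have hlog : Real.log N ≤ Real.log D := Real.log_le_log (by linarith) hND
  have hsub : ((T.image fun z => dd z.1 z.2 : Finset ℤ) : Set ℤ) ⊆
      {d : ℤ | |(d : ℝ)| ≤ D ∧ p d} := by
    intro d hd
    obtain ⟨z, hz, rfl⟩ := Finset.mem_image.1 (Finset.mem_coe.1 hd)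
    refine ⟨?_, hp _ _ (hT z hz).1⟩
    have h1 := CountAux.abs_dd_le (hT z hz).1 (hT z hz).2
    have h2 : ((|dd z.1 z.2| : ℤ) : ℝ) ≤ ((23 * ((W : ℤ) * N) ^ 6 : ℤ) : ℝ) := by
      exact_mod_cast h1
    rw [Int.cast_abs] at h2
    push_cast at h2
    have h3 : ((W : ℝ) * N) ^ 6 ≤ (x / 2) ^ 6 := pow_le_pow_left₀ (by positivity) hWN 6
    have h4 : (x / 2) ^ 6 = D / 64 := by
      rw [div_pow, hx6]
      norm_num
    linarith
  have hle : (T.image fun z => dd z.1 z.2).card ≤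
      Set.ncard {d : ℤ | |(d : ℝ)| ≤ D ∧ p d} := by
    rw [← Set.ncard_coe_finset]
    exact Set.ncard_le_ncard hsub (CountAux.fin_set p D)
  have hfib := fiber T fun z hz => (hT z hz).1
  have hT' : (T.card : ℝ) ≤ 13 ^ 4 * (Set.ncard {d : ℤ | |(d : ℝ)| ≤ D ∧ p d} : ℝ) := by
    have := hfib.trans (Nat.mul_le_mul_left _ hle)
    exact_mod_cast this
  have hsq : D ^ (1 / 3 : ℝ) ≤ 16 * (W : ℝ) ^ 2 * (N : ℝ) ^ 2 := by
    rw [← hx2]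
    have := pow_le_pow_left₀ hx0 hxN 2
    nlinarith
  have hl6 : Real.log N ^ 6 ≤ Real.log D ^ 6 := pow_le_pow_left₀ hlogN.le hlog 6
  have h5 : c / (16 * (W : ℝ) ^ 2 * 13 ^ 4) * D ^ (1 / 3 : ℝ) ≤ c * (N : ℝ) ^ 2 / 13 ^ 4 := by
    have h6 : c / (16 * (W : ℝ) ^ 2 * 13 ^ 4) * (16 * (W : ℝ) ^ 2 * (N : ℝ) ^ 2) =
        c * (N : ℝ) ^ 2 / 13 ^ 4 := by
      field_simp
    rw [← h6]
    exact mul_le_mul_of_nonneg_left hsq (by positivity)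
  calc c / (16 * (W : ℝ) ^ 2 * 13 ^ 4) * D ^ (1 / 3 : ℝ) / Real.log D ^ 6
      ≤ c * (N : ℝ) ^ 2 / 13 ^ 4 / Real.log N ^ 6 :=
        div_le_div₀ (by positivity) h5 (by positivity) hl6
    _ = c * (N : ℝ) ^ 2 / Real.log N ^ 6 / 13 ^ 4 := by ring
    _ ≤ (T.card : ℝ) / 13 ^ 4 := div_le_div_of_nonneg_right hcard (by positivity)
    _ ≤ _ := by
        rw [div_le_iff₀ (by positivity)]
        linarith

end Pool.Agent.Lib.MP_7d3fda_nt.R2
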