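import Pool.Agent.Lib.MP_4b8564_nt.GT.Defs

open Finset
open scoped Classical NumberTheorySymbols

noncomputable section

namespace Pool.Agent.Lib.MP_7d3fda_nt.R2

open Pool.Agent.Lib.MP_4b8564_nt.GT

/-! Working definitions (none of them occurs in the final statement). -/

/-- the pattern -/
def cc : Fin 6 → ℕ := ![828, 1863, 540, 621, 0, 736]

/-- prescribed symbols of the common difference -/
def yy : Fin 6 → ℤ := ![1, 1, 1, -1, -1, -1]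

/-- the six values are products of two primes with prescribed symbols -/
def Good (a s : ℤ) : Prop :=
  ∃ (θ : ℤ) (q p : Fin 6 → ℕ), (θ = 1 ∨ θ = -1) ∧
    (∀ j, (q j).Prime ∧ (p j).Prime ∧ (q j : ℤ) * p j = a + cc j * s ∧ q j % 2760 = 13 ∧
      p j % 2760 = 61 ∧ J((p j : ℤ) | q j) = θ ∧ J(s | q j) = yy j) ∧
    ∀ i j, i < j → J((q i : ℤ) | q j) = 1

/-- the twisting parameter -/
def dd (a s : ℤ) : ℤ := -23 * ∏ j, (a + cc j * s)

/-- `m` is a product of a small and a large prime of the right kind -/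
def Two (θ : ℤ) (R : ℕ) (m : ℤ) : Prop :=
  ∃ q p : ℕ, q.Prime ∧ p.Prime ∧ (q : ℤ) * p = m ∧ R < q ∧ q ≤ R ^ 2 ∧ R ^ 2 < p ∧
    q % 2760 = 13 ∧ p % 2760 = 61 ∧ J((p : ℤ) | q) = θ

/-- indicator of divisibility -/
def ind (q : ℕ) (n : ℤ) : ℝ := if (q : ℤ) ∣ n then 1 else 0

/-- cancellation in bilinear sums of Jacobi symbols -/
def Bil (P : Finset ℕ) (δ : ℝ) : Prop :=
  ∀ a b : ℕ → ℝ, (∀ q, |a q| ≤ 1) → (∀ q, |b q| ≤ 1) →
    |∑ q ∈ P, ∑ r ∈ P, a q * b r * (J((q : ℤ) | r) : ℝ) / ((q : ℝ) * r)| ≤ δ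

section

variable {ι : Type} [Fintype ι] [DecidableEq ι]

/-- a vertex of the cube -/
def vx {α : Type} (S : Finset ι) (x : ι ⊕ ι → α) : ι → α :=
  fun i => if i ∈ S then x (Sum.inr i) else x (Sum.inl i)

/-- indices of the forms of the blown-up system -/
def Adm (ι : Type) [Fintype ι] [DecidableEq ι] : Finset (ι × Finset ι) :=
  univ.filter fun t => t.1 ∉ t.2

/-- the shifted value number `j` -/
def Lf (c : ι → ℤ) (W : ℤ) (n : ι → ℤ) (j : ι) (h : ι → ℤ) : ℤ :=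
  n j + W * ∑ i, (c j - c i) * h i

/-- the shifted difference -/
def Sf (W s : ℤ) (h : ι → ℤ) : ℤ := s + W * ∑ i, h i

/-- coefficients of a blown-up value -/
def cL (c : ι → ℤ) (W : ℤ) (t : ι × Finset ι) : ι ⊕ ι → ℤ :=
  Sum.elim (fun i => if i ∈ t.2 then 0 else W * (c t.1 - c i))
    fun i => if i ∈ t.2 then W * (c t.1 - c i) else 0

/-- coefficients of a blown-up difference -/
def cS (W : ℤ) (S : Finset ι) : ι ⊕ ι → ℤ :=
  Sum.elim (fun i => if i ∈ S then 0 else W) fun i => if i ∈ S then W else 0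

/-- a product of symbols -/
def Gam (G : Finset (ι × ι)) (B : Finset ι) (s : ℤ) (y : ι → ℕ) : ℝ :=
  (∏ e ∈ G, (J((y e.1 : ℤ) | y e.2) : ℝ)) * ∏ j ∈ B, (J(s | y j) : ℝ)

/-- one term of the box average -/
def term (c : ι → ℤ) (W : ℤ) (n : ι → ℤ) (s : ℤ) (G : Finset (ι × ι)) (B : Finset ι)
    (Q : ι × Finset ι → ℕ) (x : ι ⊕ ι → ℤ) : ℝ :=
  (∏ S : Finset ι, Gam G B (Sf W s (vx S x)) fun j => Q (j, S.erase j)) *
    ∏ t ∈ Adm ι, ind (Q t) (Lf c W n t.1 (vx t.2 x))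

/-- no coincidence -/
def NC (Q : ι × Finset ι → ℕ) : Prop := ∀ t ∈ Adm ι, ∀ t' ∈ Adm ι, Q t = Q t' → t = t'

/-- standing hypothesis on the small primes -/
def Ok (c : ι → ℤ) (W : ℤ) (R : ℕ) (P : Finset ℕ) : Prop :=
  ∀ q ∈ P, q.Prime ∧ R < q ∧ q ≤ R ^ 2 ∧ ¬(q : ℤ) ∣ W ∧ ∀ i j, i ≠ j → ¬(q : ℤ) ∣ c i - c j

/-- the shifted values have at most `K` prime factors in `P` -/
def Few (c : ι → ℤ) (W : ℤ) (n : ι → ℤ) (P : Finset ℕ) (H : ℕ) (K : ℝ) : Prop :=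
  ∀ (j : ι) (h : ι → ℤ), (∀ i, 0 ≤ h i ∧ h i < H) →
    ((P.filter fun q : ℕ => (q : ℤ) ∣ Lf c W n j h).card : ℝ) ≤ K

/-- the box average -/
def box (c : ι → ℤ) (W : ℤ) (n : ι → ℤ) (s : ℤ) (G : Finset (ι × ι)) (B : Finset ι)
    (P : Finset ℕ) (H : ℕ) : ℝ :=
  av fun Q : ι × Finset ι → P =>
    (P.card : ℝ) ^ (Adm ι).card * bav H (term c W n s G B fun t => (Q t : ℕ))

/-- patterns inside `A` -/
def PU (c : ι → ℤ) (A : Finset ℤ) (N : ℕ) : Finset (ℤ × ℤ) :=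
  (Icc (-(N : ℤ)) N ×ˢ Icc (-(N : ℤ)) N).filter fun z => ∀ j, z.1 + c j * z.2 ∈ A

end

end Pool.Agent.Lib.MP_7d3fda_nt.R2
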