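import Pool.Agent.Lib.MP_7d3fda_nt.R2.Recip

open Finset
open scoped Classical NumberTheorySymbols

noncomputable section

namespace Pool.Agent.Lib.MP_7d3fda_nt.R2

open Pool.Agent.Lib.MP_4b8564_nt.GT

namespace DensQAux

/-- the small primes -/
def Qs (R : ℕ) : Finset ℕ := (Ioc R (R ^ 2)).filter (fun q => q.Prime ∧ q ≡ 13 [MOD 2760])

/-- the large primes -/
def Ps (X : ℕ) : Finset ℕ := (Icc 1 X).filter (fun p => p.Prime ∧ X < p ^ 2 ∧ p ≡ 61 [MOD 2760])

/-- the pairs -/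
def Ss (R Y : ℕ) : Finset (Σ _ : ℕ, ℕ) := (Qs R).sigma fun q => Ps ((Y - 1) / q)

theorem big {R Y q : ℕ} (hY : R ^ 6 ≤ Y - 1) (hq : q ∈ Qs R) : R ^ 4 ≤ (Y - 1) / q := by
  rw [Qs, mem_filter, mem_Ioc] at hq
  rw [Nat.le_div_iff_mul_le hq.2.1.pos]
  calc R ^ 4 * q ≤ R ^ 4 * R ^ 2 := Nat.mul_le_mul_left _ hq.1.2
    _ = R ^ 6 := by ring
    _ ≤ Y - 1 := hY

theorem mem_Ss {R Y : ℕ} (hY : R ^ 6 ≤ Y - 1) {x : Σ _ : ℕ, ℕ} (hx : x ∈ Ss R Y) :
    x.1.Prime ∧ x.2.Prime ∧ x.1 * x.2 ≤ Y - 1 ∧ R < x.1 ∧ x.1 ≤ R ^ 2 ∧ R ^ 2 < x.2 ∧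
      x.1 % 2760 = 13 ∧ x.2 % 2760 = 61 := by
  rw [Ss, mem_sigma] at hx
  obtain ⟨h1, h2⟩ := hx
  have hb := big hY h1
  rw [Qs, mem_filter, mem_Ioc] at h1
  rw [Ps, mem_filter, mem_Icc] at h2
  refine ⟨h1.2.1, h2.2.1, ?_, h1.1.1, h1.1.2, ?_, h1.2.2, h2.2.2.2⟩
  · rw [mul_comm]
    exact (Nat.le_div_iff_mul_le h1.2.1.pos).1 h2.1.2
  · refine lt_of_pow_lt_pow_left₀ 2 (Nat.zero_le _) ?_
    calc (R ^ 2) ^ 2 = R ^ 4 := by ring
      _ ≤ _ := hb
      _ < _ := h2.2.2.1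

theorem inj_Ss {R Y : ℕ} (hY : R ^ 6 ≤ Y - 1) {x y : Σ _ : ℕ, ℕ} (hx : x ∈ Ss R Y)
    (hy : y ∈ Ss R Y) (h : x.1 * x.2 = y.1 * y.2) : x = y := by
  obtain ⟨a1, -, -, -, a5, -, -, -⟩ := mem_Ss hY hx
  obtain ⟨b1, b2, -, -, -, b6, -, -⟩ := mem_Ss hY hy
  have hd : x.1 ∣ y.1 * y.2 := h ▸ dvd_mul_right _ _
  have e1 : x.1 = y.1 := by
    rcases (Nat.Prime.dvd_mul a1).1 hd with h' | h'
    · exact (Nat.prime_dvd_prime_iff_eq a1 b1).1 h'
    · have := (Nat.prime_dvd_prime_iff_eq a1 b2).1 h'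
      omega
  have e2 : x.2 = y.2 := by
    rw [e1] at h
    exact Nat.eq_of_mul_eq_mul_left b1.pos h
  obtain ⟨x1, x2⟩ := x
  obtain ⟨y1, y2⟩ := y
  simp only at e1 e2
  subst e1 e2
  rfl

/-- many pairs -/
theorem count : ∃ c : ℝ, 0 < c ∧ ∃ R₀ : ℕ, ∀ R Y : ℕ, R₀ ≤ R → R ^ 6 ≤ Y - 1 →
    c * Y ≤ (Ss R Y).card * Real.log Y := by
  have hφ : (0 : ℝ) < Nat.totient 2760 := by exact_mod_cast Nat.totient_pos.2 (by norm_num)
  obtain ⟨X₀, hX₀⟩ := Filter.eventually_atTop.1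
    (MP_458f0b_nt.Pois.pnt_unif 2760 (by norm_num) 61 (by norm_num)
      (1 / (2 * Nat.totient 2760)) (by positivity))
  obtain ⟨c, hc, R₀, hR₀⟩ := recip 2760 13 (by norm_num) (by norm_num)
  set φ : ℝ := ((Nat.totient 2760 : ℕ) : ℝ) with hφd
  refine ⟨c / (4 * φ), by positivity, R₀ + X₀ + 1, fun R Y hR hY => ?_⟩
  have hR1 : 1 ≤ R := by omega
  have hR4 : R ≤ R ^ 4 := Nat.le_self_pow (by norm_num) R
  have hone : ∀ q ∈ Qs R, (Y : ℝ) / (4 * φ) * (1 / (q : ℝ)) ≤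
      (Ps ((Y - 1) / q)).card * Real.log Y := by
    intro q hq
    have hb := big hY hq
    have hq0 : 0 < q := by
      rw [Qs, mem_filter] at hq
      exact hq.2.1.pos
    set X := (Y - 1) / q with hX
    have hX1 : 1 ≤ X := by omega
    have key := (abs_le.1 (hX₀ X (by omega) X le_rfl)).1
    have hXY : X ≤ Y := (Nat.div_le_self _ _).trans (Nat.sub_le _ _)
    have hlt : Y - 1 < q * (X + 1) := Nat.lt_mul_div_succ _ hq0
    have h2 : Y ≤ 2 * (q * X) := by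
      have : q * (X + 1) ≤ 2 * (q * X) := by nlinarith
      omega
    have h2' : (Y : ℝ) ≤ 2 * (q * X) := by exact_mod_cast h2
    have hq' : (0 : ℝ) < q := by exact_mod_cast hq0
    have hX' : (1 : ℝ) ≤ X := by exact_mod_cast hX1
    have hl : Real.log X ≤ Real.log Y :=
      Real.log_le_log (by linarith) (by exact_mod_cast hXY)
    have h3 : (X : ℝ) / (2 * φ) ≤ Real.log X * (Ps X).card := by
      have e : (X : ℝ) / (2 * φ) = X / φ - 1 / (2 * φ) * X := by field_simp; ring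
      rw [e, Ps]
      linarith
    have h4 : (Y : ℝ) / (4 * φ) * (1 / (q : ℝ)) ≤ X / (2 * φ) := by
      rw [div_mul_div_comm, div_le_div_iff₀ (by positivity) (by positivity)]
      nlinarith [mul_le_mul_of_nonneg_right h2' hφ.le]
    have h5 : Real.log X * (Ps X).card ≤ Real.log Y * (Ps X).card :=
      mul_le_mul_of_nonneg_right hl (Nat.cast_nonneg _)
    linarith
  have hs := sum_le_sum hone
  rw [← mul_sum, ← sum_mul] at hs
  have hcard : ((Ss R Y).card : ℝ) = ∑ q ∈ Qs R, ((Ps ((Y - 1) / q)).card : ℝ) := by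
    rw [Ss, card_sigma]
    push_cast
    rfl
  rw [hcard]
  refine le_trans ?_ hs
  have h6 : c ≤ ∑ q ∈ Qs R, 1 / (q : ℝ) := hR₀ R (by omega)
  calc c / (4 * φ) * Y = Y / (4 * φ) * c := by ring
    _ ≤ _ := mul_le_mul_of_nonneg_left h6 (div_nonneg (Nat.cast_nonneg _) (by linarith))

end DensQAux

open DensQAux in
theorem densQ : ∃ C : ℝ, 0 < C ∧ ∀ W E : ℕ, 1 ≤ W → 7 ≤ E → ∃ N₀ : ℕ, ∀ N : ℕ, N₀ ≤ N →
    ∀ R : ℕ, R ^ E ≤ N → N ≤ R ^ (E + 1) → ∃ θ : ℤ, (θ = 1 ∨ θ = -1) ∧ ∃ b : ℕ, b < W ∧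
      b.Coprime W ∧ ∃ A : Finset ℕ, (∀ n ∈ A, 4000 * n < N ∧ Two θ R ((W : ℤ) * n + b)) ∧
        (W : ℝ) * N ≤ C * Nat.totient W * A.card * Real.log N := by
  obtain ⟨c, hc, R₀, hR₀⟩ := count
  refine ⟨32000 / c, by positivity, fun W E hW hE => ⟨(R₀ + W + 8000) ^ (E + 1), ?_⟩⟩
  intro N hN R hRN hNR
  have hR : R₀ + W + 8000 ≤ R :=
    le_of_pow_le_pow_left₀ (Nat.succ_ne_zero E) (Nat.zero_le _) (hN.trans hNR)
  have hR7 : R ^ 7 ≤ N := (Nat.pow_le_pow_right (by omega) hE).trans hRN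
  have hRR : R ≤ R ^ 7 := Nat.le_self_pow (by norm_num) R
  have hR2 : R ≤ R ^ 2 := Nat.le_self_pow (by norm_num) R
  have hR6 : 1 ≤ R ^ 6 := Nat.one_le_pow _ _ (by omega)
  set M := N / 4000 with hM
  have hM6 : 2 * R ^ 6 ≤ M := by
    rw [hM, Nat.le_div_iff_mul_le (by norm_num)]
    calc 2 * R ^ 6 * 4000 = R ^ 6 * 8000 := by ring
      _ ≤ R ^ 6 * R := Nat.mul_le_mul_left _ (by omega)
      _ = R ^ 7 := by ring
      _ ≤ N := hR7
  have hMY : M ≤ W * M := Nat.le_mul_of_pos_left M hW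
  have hY : R ^ 6 ≤ W * M - 1 := by omega
  have hcnt := hR₀ R (W * M) (by omega) hY
  set S := Ss R (W * M) with hS
  set T := ({1, -1} : Finset ℤ) ×ˢ (range W).filter (fun b => Nat.Coprime W b) with hT
  have hTc : T.card = 2 * Nat.totient W := by
    rw [hT, card_product, Nat.totient_eq_card_coprime, card_pair (by norm_num)]
  set f : (Σ _ : ℕ, ℕ) → ℤ × ℕ := fun x => (J((x.2 : ℤ) | x.1), x.1 * x.2 % W) with hf
  have hmaps : ∀ x ∈ S, f x ∈ T := by
    intro x hx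
    obtain ⟨a1, a2, -, a4, a5, a6, -, -⟩ := mem_Ss hY hx
    rw [hT, mem_product, mem_filter, mem_range]
    refine ⟨?_, Nat.mod_lt _ hW, ?_⟩
    · have hco : Nat.Coprime x.2 x.1 := (Nat.coprime_primes a2 a1).2 (by omega)
      have : Int.gcd (x.2 : ℤ) (x.1 : ℤ) = 1 := by
        rw [Int.gcd_natCast_natCast]
        exact hco
      rcases jacobiSym.eq_one_or_neg_one this with h | h <;> simp [hf, h]
    · have c1 : Nat.Coprime x.1 W := (Nat.Prime.coprime_iff_not_dvd a1).2 fun h => by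
        have := Nat.le_of_dvd hW h
        omega
      have c2 : Nat.Coprime x.2 W := (Nat.Prime.coprime_iff_not_dvd a2).2 fun h => by
        have := Nat.le_of_dvd hW h
        omega
      have hc' : Nat.Coprime (x.1 * x.2) W := Nat.Coprime.mul_left c1 c2
      have : Nat.gcd (x.1 * x.2 % W) W = 1 := by
        rw [← Nat.gcd_rec, Nat.gcd_comm]
        exact hc'
      exact Nat.Coprime.symm this
  have hTne : T.Nonempty := by
    rw [← card_pos, hTc]
    have := Nat.totient_pos.2 hW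
    omega
  obtain ⟨t, htT, htmax⟩ := exists_max_image T (fun t => (S.filter fun x => f x = t).card) hTne
  have hSle : S.card ≤ 2 * Nat.totient W * (S.filter fun x => f x = t).card := by
    rw [card_eq_sum_card_fiberwise (f := f) (t := T) (fun x hx => hmaps x hx), ← hTc]
    calc _ ≤ ∑ _c ∈ T, (S.filter fun x => f x = t).card := sum_le_sum fun u hu => htmax u hu
      _ = _ := by rw [sum_const, smul_eq_mul]
  have ht := htT
  rw [hT, mem_product, mem_filter, mem_range, mem_insert, mem_singleton] at ht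
  have hrec : ∀ x ∈ S.filter (fun x => f x = t), W * (x.1 * x.2 / W) + t.2 = x.1 * x.2 := by
    intro x hx
    rw [mem_filter] at hx
    rw [← hx.2]
    exact Nat.div_add_mod _ W
  refine ⟨t.1, ht.1, t.2, ht.2.1, ht.2.2.symm,
    (S.filter fun x => f x = t).image (fun x => x.1 * x.2 / W), ?_, ?_⟩
  · intro n hn
    obtain ⟨x, hx, rfl⟩ := mem_image.1 hn
    have hr := hrec x hx
    obtain ⟨hx1, hx2⟩ := mem_filter.1 hx
    obtain ⟨a1, a2, a3, a4, a5, a6, a7, a8⟩ := mem_Ss hY hx1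
    have hlt : x.1 * x.2 / W < M := Nat.div_lt_of_lt_mul (by omega)
    refine ⟨by omega, x.1, x.2, a1, a2, ?_, a4, a5, a6, a7, a8, ?_⟩
    · exact_mod_cast hr.symm
    · rw [← hx2]
  · have hinj : ((S.filter fun x => f x = t).image (fun x => x.1 * x.2 / W)).card =
        (S.filter fun x => f x = t).card := by
      apply card_image_of_injOn
      intro x hx y hy h
      have h' : x.1 * x.2 / W = y.1 * y.2 / W := h
      refine inj_Ss hY (mem_filter.1 hx).1 (mem_filter.1 hy).1 ?_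
      rw [← hrec x hx, ← hrec y hy, h']
    rw [hinj]
    have hW' : (1 : ℝ) ≤ W := by exact_mod_cast hW
    have hM1 : (1 : ℝ) ≤ M := by exact_mod_cast (by omega : 1 ≤ M)
    have hWN : (W : ℝ) ≤ N := by exact_mod_cast (by omega : W ≤ N)
    have hMN : (M : ℝ) ≤ N := by exact_mod_cast (by omega : M ≤ N)
    have hNM : (N : ℝ) ≤ 8000 * M := by exact_mod_cast (by omega : N ≤ 8000 * M)
    have hlN : 0 ≤ Real.log N := Real.log_natCast_nonneg N
    have hl : Real.log ((W * M : ℕ) : ℝ) ≤ 2 * Real.log N := by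
      rw [Nat.cast_mul, Real.log_mul (by linarith) (by linarith)]
      have h1 := Real.log_le_log (by linarith) hWN
      have h2 := Real.log_le_log (by linarith) hMN
      linarith
    have a2 : (S.card : ℝ) ≤ 2 * Nat.totient W * ((S.filter fun x => f x = t).card : ℝ) := by
      exact_mod_cast hSle
    have h1 : (S.card : ℝ) * Real.log ((W * M : ℕ) : ℝ) ≤
        2 * Nat.totient W * ((S.filter fun x => f x = t).card : ℝ) * (2 * Real.log N) :=
      mul_le_mul a2 hl (Real.log_natCast_nonneg _) (by positivity)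
    have h2 : c * (W * M) ≤
        2 * Nat.totient W * ((S.filter fun x => f x = t).card : ℝ) * (2 * Real.log N) := by
      have := hcnt.trans h1
      rwa [Nat.cast_mul] at this
    have h3 : (W : ℝ) * N ≤ W * (8000 * M) := mul_le_mul_of_nonneg_left hNM (by linarith)
    have h4 : (W : ℝ) * (8000 * M) = 8000 / c * (c * (W * M)) := by field_simp
    have h5 := mul_le_mul_of_nonneg_left h2 (by positivity : (0 : ℝ) ≤ 8000 / c)
    calc (W : ℝ) * N ≤ _ := h3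
      _ = _ := h4
      _ ≤ _ := h5
      _ = _ := by ring

end Pool.Agent.Lib.MP_7d3fda_nt.R2
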