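import Pool.Agent.Lib.MP_7d3fda_nt.R2.Defs
import Pool.Agent.Lib.MP_4b8564_nt.GT.Av

open Finset
open scoped Classical NumberTheorySymbols

noncomputable section

namespace Pool.Agent.Lib.MP_7d3fda_nt.R2

open Pool.Agent.Lib.MP_4b8564_nt.GT

namespace GvnAux

/-- unused coordinates average out -/
theorem av_comp {κ κ' Y : Type} [Fintype κ] [DecidableEq κ] [Fintype κ'] [DecidableEq κ']
    [Fintype Y] [Nonempty Y] (e : κ' → κ) (he : Function.Injective e) (f : (κ' → Y) → ℝ) :
    av (fun Q : κ → Y => f fun k => Q (e k)) = av f := by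
  have hinv : Function.Involutive fun z : (κ → Y) × (κ' → Y) =>
      ((Function.extend e z.2 z.1, fun k => z.1 (e k)) : (κ → Y) × (κ' → Y)) := by
    intro z
    refine Prod.ext ?_ ?_
    · funext c
      by_cases h : ∃ k, e k = c
      · obtain ⟨k, rfl⟩ := h
        simp only [he.extend_apply]
      · simp only [Function.extend_apply' _ _ _ h]
    · funext k
      simp only [he.extend_apply]
  have h := av_equiv hinv.toPerm fun z => f z.2
  rw [av_prod, av_prod] at h
  simp only [Function.Involutive.coe_toPerm, av_const] at h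
  exact h

/-- independence of distinct coordinates -/
theorem av_pi {κ Y : Type} [Fintype κ] [DecidableEq κ] [Fintype Y] [Nonempty Y]
    (f : κ → Y → ℝ) (s : Finset κ) :
    av (fun Q : κ → Y => ∏ k ∈ s, f k (Q k)) = ∏ k ∈ s, av (f k) := by
  induction s using Finset.induction_on with
  | empty => simp only [prod_empty, av_const]
  | insert a s ha ih =>
    rw [prod_insert ha, ← ih, av_update a, ← av_const_mul]
    refine av_congr fun Q => ?_
    rw [← av_mul_const]
    refine av_congr fun y => ?_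
    rw [prod_insert ha, Function.update_self]
    congr 1
    exact prod_congr rfl fun k hk => by
      rw [Function.update_of_ne (ne_of_mem_of_not_mem hk ha)]

/-- one application of the Cauchy-Schwarz inequality -/
theorem cs {Ω : Type} [Fintype Ω] (m₁ m₂ : Ω → Ω → Ω) (τ : Ω ≃ Ω)
    (h₁ : ∀ f : Ω → ℝ, av f = av fun w => av fun w' => f (m₁ w w'))
    (h₂ : ∀ f : Ω → ℝ, av f = av fun w => av fun w' => f (m₂ w w'))
    (hτ : ∀ w w', τ (m₂ w w') = m₂ (m₁ w (τ w')) (τ w))
    (h₁₁ : ∀ w w' w'', m₁ (m₁ w w') w'' = m₁ w w'') (A A' B : Ω → ℝ)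
    (hA : ∀ w w', A (m₁ w w') = A w) (hA1 : ∀ w w', A' (m₁ w w') = A' w)
    (hA2 : ∀ w w', A' (m₂ w w') = A' w) (hB : ∀ w w', B (m₂ w w') = B w)
    (hle : ∀ w, |A w| ≤ A' w) :
    av (fun w => A w * B w) ^ 2 ≤ av A' * av fun w => A' w * (B w * B (τ w)) := by
  have e1 : av (fun w => A w * B w) = av fun w => A w * av fun w' => B (m₁ w w') := by
    rw [h₁]
    refine av_congr fun w => ?_
    rw [← av_const_mul]
    exact av_congr fun w' => by rw [hA]
  have e2 : av (fun w => A' w * (B w * B (τ w))) =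
      av fun w => A' w * (B w * av fun w' => B (m₁ w w')) := by
    rw [h₂]
    refine av_congr fun w => ?_
    rw [← av_equiv τ fun w' => B (m₁ w w'), ← av_const_mul, ← av_const_mul]
    exact av_congr fun w' => by rw [hA2, hB, hτ, hB]
  have e3 : av (fun w => A' w * (B w * av fun w' => B (m₁ w w'))) =
      av fun w => A' w * (av fun w' => B (m₁ w w')) ^ 2 := by
    rw [h₁]
    refine av_congr fun w => ?_
    simp only [hA1, h₁₁]
    rw [av_const_mul, av_mul_const, sq]
  rw [e1, e2, e3]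
  exact av_mul_sq_le _ _ _ hle

section

variable {α β X Y : Type}

/-- resampling of some coordinates -/
def mix (p : α → Prop) (q : β → Prop) (w w' : (α → X) × (β → Y)) : (α → X) × (β → Y) :=
  (fun a => if p a then w'.1 a else w.1 a, fun b => if q b then w'.2 b else w.2 b)

theorem mix_mix (p : α → Prop) (q : β → Prop) (w w' w'' : (α → X) × (β → Y)) :
    mix p q (mix p q w w') w'' = mix p q w w'' := by
  refine Prod.ext ?_ ?_
  · funext a
    by_cases h : p a <;> simp [mix, h]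
  · funext b
    by_cases h : q b <;> simp [mix, h]

theorem av_mix [Fintype α] [DecidableEq α] [Fintype β] [DecidableEq β] [Fintype X] [Nonempty X]
    [Fintype Y] [Nonempty Y] (p : α → Prop) (q : β → Prop) (f : (α → X) × (β → Y) → ℝ) :
    av f = av fun w => av fun w' => f (mix p q w w') := by
  have hinv : Function.Involutive fun z : ((α → X) × (β → Y)) × ((α → X) × (β → Y)) =>
      (mix p q z.1 z.2, mix p q z.2 z.1) := by
    intro z
    refine Prod.ext (Prod.ext ?_ ?_) (Prod.ext ?_ ?_)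
    · funext a
      by_cases h : p a <;> simp [mix, h]
    · funext b
      by_cases h : q b <;> simp [mix, h]
    · funext a
      by_cases h : p a <;> simp [mix, h]
    · funext b
      by_cases h : q b <;> simp [mix, h]
  have h := av_equiv hinv.toPerm fun z => f z.1
  rw [av_prod, av_prod (fun z : ((α → X) × (β → Y)) × ((α → X) × (β → Y)) => f z.1)] at h
  simp only [Function.Involutive.coe_toPerm, av_const] at h
  exact h.symm

end

variable {ι X Y : Type} [DecidableEq ι]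

/-- exchange of the two copies of the slots -/
def sg (d : ι) (t : ι × Finset ι) : ι × Finset ι :=
  if t.1 = d then t else if d ∈ t.2 then (t.1, t.2.erase d) else (t.1, insert d t.2)

theorem sg_sg (d : ι) (t : ι × Finset ι) : sg d (sg d t) = t := by
  obtain ⟨j, T⟩ := t
  by_cases h : j = d
  · simp [sg, h]
  · by_cases hT : d ∈ T
    · simp [sg, h, hT]
    · simp [sg, h, hT]

/-- exchange of the two copies -/
def tau (d : ι) (w : (ι ⊕ ι → X) × (ι × Finset ι → Y)) : (ι ⊕ ι → X) × (ι × Finset ι → Y) :=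
  (fun a => w.1 (Equiv.swap (Sum.inl d) (Sum.inr d) a), fun t => w.2 (sg d t))

theorem tau_tau (d : ι) : Function.Involutive (tau (X := X) (Y := Y) d) := by
  intro w
  refine Prod.ext ?_ ?_
  · funext a
    simp [tau]
  · funext t
    simp [tau, sg_sg]

/-- resampling of the first copy -/
def m1 (d : ι) (w w' : (ι ⊕ ι → X) × (ι × Finset ι → Y)) : (ι ⊕ ι → X) × (ι × Finset ι → Y) :=
  mix (fun a => a = Sum.inl d) (fun t => t.1 ≠ d ∧ d ∉ t.2) w w'

/-- resampling of the second copy -/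
def m2 (d : ι) (w w' : (ι ⊕ ι → X) × (ι × Finset ι → Y)) : (ι ⊕ ι → X) × (ι × Finset ι → Y) :=
  mix (fun a => a = Sum.inr d) (fun t => t.1 ≠ d ∧ d ∈ t.2) w w'

theorem tau_m2 (d : ι) (w w' : (ι ⊕ ι → X) × (ι × Finset ι → Y)) :
    tau d (m2 d w w') = m2 d (m1 d w (tau d w')) (tau d w) := by
  refine Prod.ext ?_ ?_
  · funext a
    by_cases h1 : a = Sum.inl d
    · subst h1
      simp [tau, m1, m2, mix]
    · by_cases h2 : a = Sum.inr d
      · subst h2
        simp [tau, m1, m2, mix]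
      · simp [tau, m1, m2, mix, h1, h2, Equiv.swap_apply_of_ne_of_ne h1 h2]
  · funext t
    obtain ⟨j, T⟩ := t
    by_cases h : j = d
    · simp [tau, m1, m2, mix, sg, h]
    · by_cases hT : d ∈ T
      · simp [tau, m1, m2, mix, sg, h, hT]
      · simp [tau, m1, m2, mix, sg, h, hT]

theorem vx_m1 {d : ι} {T : Finset ι} (hT : d ∉ T) (w w' : (ι ⊕ ι → X) × (ι × Finset ι → Y)) :
    vx T (m1 d w w').1 = Function.update (vx T w.1) d (w'.1 (Sum.inl d)) := by
  funext i
  by_cases h : i = d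
  · subst h
    simp [vx, m1, mix, hT]
  · by_cases hi : i ∈ T <;> simp [vx, m1, mix, h, hi]

theorem vx_m2 {d : ι} {T : Finset ι} (hT : d ∉ T) (w w' : (ι ⊕ ι → X) × (ι × Finset ι → Y)) :
    vx T (m2 d w w').1 = vx T w.1 := by
  funext i
  by_cases hi : i ∈ T
  · have h : i ≠ d := fun e => hT (e ▸ hi)
    simp [vx, m2, mix, h, hi]
  · simp [vx, m2, mix, hi]

theorem vx_tau {d : ι} {T : Finset ι} (hT : d ∉ T) (w : (ι ⊕ ι → X) × (ι × Finset ι → Y)) :
    vx T (tau d w).1 = vx (insert d T) w.1 := by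
  funext i
  by_cases h : i = d
  · subst h
    simp [vx, tau, hT]
  · by_cases hi : i ∈ T
    · simp [vx, tau, h, hi, Equiv.swap_apply_of_ne_of_ne]
    · simp [vx, tau, h, hi, Equiv.swap_apply_of_ne_of_ne]

omit [DecidableEq ι] in
theorem m1_snd (d : ι) (T : Finset ι) (w w' : (ι ⊕ ι → X) × (ι × Finset ι → Y)) :
    (m1 d w w').2 (d, T) = w.2 (d, T) := by
  simp [m1, mix]

omit [DecidableEq ι] in
theorem m2_snd {d : ι} {T : Finset ι} (hT : d ∉ T) (j : ι)
    (w w' : (ι ⊕ ι → X) × (ι × Finset ι → Y)) : (m2 d w w').2 (j, T) = w.2 (j, T) := by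
  simp [m2, mix, hT]

theorem tau_snd {d : ι} {T : Finset ι} (hT : d ∉ T) (j : ι)
    (w : (ι ⊕ ι → X) × (ι × Finset ι → Y)) :
    (tau d w).2 (j, T.erase j) = w.2 (j, (insert d T).erase j) := by
  by_cases h : j = d
  · subst h
    simp [tau, sg, erase_insert hT, erase_eq_of_notMem hT]
  · have h' : d ∉ T.erase j := fun hm => hT (mem_of_mem_erase hm)
    rw [erase_insert_of_ne (Ne.symm h)]
    simp only [tau, sg, h, h', if_false]

theorem tau_snd' {d j : ι} (h : j ≠ d) {T : Finset ι} (hT : d ∉ T)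
    (w : (ι ⊕ ι → X) × (ι × Finset ι → Y)) : (tau d w).2 (j, T) = w.2 (j, insert d T) := by
  simp only [tau, sg, h, hT, if_false]

variable [Fintype ι] [Fintype X] [Fintype Y]

/-- the quantity after doubling the coordinates in `D` -/
def W (g ν : ι → (ι → X) → Y → ℝ) (Γ : (ι → X) → (ι → Y) → ℝ) (D : Finset ι) : ℝ :=
  av fun w : (ι ⊕ ι → X) × (ι × Finset ι → Y) =>
    (∏ S ∈ D.powerset, Γ (vx S w.1) fun j => w.2 (j, S.erase j)) *
      ∏ j, ∏ T ∈ (D.erase j).powerset, (if j ∈ D then ν else g) j (vx T w.1) (w.2 (j, T))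

theorem W_step [Nonempty X] [Nonempty Y] (g ν : ι → (ι → X) → Y → ℝ)
    (Γ : (ι → X) → (ι → Y) → ℝ) (hg : ∀ j y, Indep j fun x => g j x y)
    (hν : ∀ j y, Indep j fun x => ν j x y) (hle : ∀ j x y, |g j x y| ≤ ν j x y)
    (D : Finset ι) (d : ι) (hD : d ∉ D) :
    W g ν Γ D ^ 2 ≤ av (fun w : (ι ⊕ ι → X) × (ι × Finset ι → Y) =>
      ∏ T ∈ D.powerset, ν d (vx T w.1) (w.2 (d, T))) * W g ν Γ (insert d D) := by
  have hT : ∀ T ∈ D.powerset, d ∉ T := fun T h hm => hD (mem_powerset.1 h hm)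
  have hT' : ∀ j, ∀ T ∈ (D.erase j).powerset, d ∉ T := fun j T h hm =>
    hD (mem_of_mem_erase (mem_powerset.1 h hm))
  have key := cs (m1 d) (m2 d) (tau_tau (X := X) (Y := Y) d).toPerm
    (fun f => av_mix _ _ f) (fun f => av_mix _ _ f) (tau_m2 d) (fun _ _ _ => mix_mix _ _ _ _ _)
    (fun w => ∏ T ∈ D.powerset, g d (vx T w.1) (w.2 (d, T)))
    (fun w => ∏ T ∈ D.powerset, ν d (vx T w.1) (w.2 (d, T)))
    (fun w => (∏ S ∈ D.powerset, Γ (vx S w.1) fun j => w.2 (j, S.erase j)) *
      ∏ j ∈ univ.erase d, ∏ T ∈ (D.erase j).powerset,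
        (if j ∈ D then ν else g) j (vx T w.1) (w.2 (j, T)))
    (fun w w' => prod_congr rfl fun T h => by
      rw [vx_m1 (hT T h), m1_snd]
      exact hg d _ _ _)
    (fun w w' => prod_congr rfl fun T h => by
      rw [vx_m1 (hT T h), m1_snd]
      exact hν d _ _ _)
    (fun w w' => prod_congr rfl fun T h => by rw [vx_m2 (hT T h), m2_snd (hT T h)])
    (fun w w' => by
      congr 1
      · refine prod_congr rfl fun S h => ?_
        rw [vx_m2 (hT S h)]
        congr 1
        funext j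
        exact m2_snd (fun hm => hT S h (mem_of_mem_erase hm)) j w w'
      · exact prod_congr rfl fun j _ => prod_congr rfl fun T h => by
          rw [vx_m2 (hT' j T h), m2_snd (hT' j T h)])
    (fun w => by
      rw [abs_prod]
      exact prod_le_prod (fun T _ => abs_nonneg _) fun T _ => hle _ _ _)
  have e1 : W g ν Γ D = av fun w : (ι ⊕ ι → X) × (ι × Finset ι → Y) =>
      (∏ T ∈ D.powerset, g d (vx T w.1) (w.2 (d, T))) *
        ((∏ S ∈ D.powerset, Γ (vx S w.1) fun j => w.2 (j, S.erase j)) *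
          ∏ j ∈ univ.erase d, ∏ T ∈ (D.erase j).powerset,
            (if j ∈ D then ν else g) j (vx T w.1) (w.2 (j, T))) := by
    refine av_congr fun w => ?_
    rw [← mul_prod_erase _ _ (mem_univ d), erase_eq_of_notMem hD, if_neg hD]
    ring
  rw [e1]
  refine key.trans (le_of_eq ?_)
  congr 1
  refine av_congr fun w => ?_
  simp only [Function.Involutive.coe_toPerm]
  have e2 : (∏ S ∈ D.powerset, Γ (vx S (tau d w).1) fun j => (tau d w).2 (j, S.erase j)) =
      ∏ S ∈ D.powerset, Γ (vx (insert d S) w.1) fun j => w.2 (j, (insert d S).erase j) := by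
    refine prod_congr rfl fun S h => ?_
    rw [vx_tau (hT S h)]
    congr 1
    funext j
    exact tau_snd (hT S h) j w
  have e3 : (∏ j ∈ univ.erase d, ∏ T ∈ ((insert d D).erase j).powerset,
        (if j ∈ insert d D then ν else g) j (vx T w.1) (w.2 (j, T))) =
      (∏ j ∈ univ.erase d, ∏ T ∈ (D.erase j).powerset,
        (if j ∈ D then ν else g) j (vx T w.1) (w.2 (j, T))) *
      ∏ j ∈ univ.erase d, ∏ T ∈ (D.erase j).powerset,
        (if j ∈ D then ν else g) j (vx T (tau d w).1) ((tau d w).2 (j, T)) := by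
    rw [← prod_mul_distrib]
    refine prod_congr rfl fun j hj => ?_
    have hj' : j ≠ d := ne_of_mem_erase hj
    rw [erase_insert_of_ne hj'.symm, prod_powerset_insert fun hm => hD (mem_of_mem_erase hm)]
    simp only [mem_insert, hj', false_or]
    congr 1
    exact prod_congr rfl fun T h => by rw [vx_tau (hT' j T h), tau_snd' hj' (hT' j T h)]
  rw [← mul_prod_erase _ _ (mem_univ d), erase_insert hD, if_pos (mem_insert_self d D),
    prod_powerset_insert hD, e2, e3]
  ring

theorem mass [Nonempty X] [Nonempty Y] (K : ℝ) (hK : 1 ≤ K) (ν : ι → (ι → X) → Y → ℝ)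
    (h0 : ∀ j x y, 0 ≤ ν j x y) (hm : ∀ j x, av (ν j x) ≤ K) (D : Finset ι) (d : ι) :
    av (fun w : (ι ⊕ ι → X) × (ι × Finset ι → Y) =>
      ∏ T ∈ D.powerset, ν d (vx T w.1) (w.2 (d, T))) ≤ K ^ 2 ^ Fintype.card ι := by
  rw [av_prod]
  refine av_le_of_le fun x => ?_
  have h1 := av_comp (fun T : Finset ι => (d, T)) (fun _ _ h => (Prod.mk.inj h).2)
    fun y : Finset ι → Y => ∏ T ∈ D.powerset, ν d (vx T x) (y T)
  rw [av_pi fun T => ν d (vx T x)] at h1
  refine h1.le.trans ?_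
  refine (prod_le_prod (f := fun T => av (ν d (vx T x))) (g := fun _ => K)
    (fun T _ => av_nonneg fun y => h0 _ _ _) fun T _ => hm d _).trans ?_
  rw [prod_const, card_powerset]
  exact pow_le_pow_right₀ hK (Nat.pow_le_pow_right (by norm_num) (card_le_univ D))

theorem main [Nonempty X] [Nonempty Y] (K : ℝ) (hK : 1 ≤ K) (g ν : ι → (ι → X) → Y → ℝ)
    (Γ : (ι → X) → (ι → Y) → ℝ) (hg : ∀ j y, Indep j fun x => g j x y)
    (hν : ∀ j y, Indep j fun x => ν j x y) (hle : ∀ j x y, |g j x y| ≤ ν j x y)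
    (hm : ∀ j x, av (ν j x) ≤ K) (r : ℕ) : ∀ D : Finset ι, (univ \ D).card = r →
      K ^ 2 ^ Fintype.card ι * |W g ν Γ D| ^ 2 ^ r ≤
        (K ^ 2 ^ Fintype.card ι) ^ 2 ^ r * |W g ν Γ univ| := by
  have hM : 0 ≤ K ^ 2 ^ Fintype.card ι := pow_nonneg (zero_le_one.trans hK) _
  have h0 : ∀ j x y, 0 ≤ ν j x y := fun j x y => (abs_nonneg _).trans (hle j x y)
  induction r with
  | zero =>
    intro D hD
    have e : D = univ := univ_subset_iff.1 (sdiff_eq_empty_iff_subset.1 (card_eq_zero.1 hD))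
    rw [e, pow_zero, pow_one, pow_one]
  | succ r ih =>
    intro D hD
    obtain ⟨d, hd⟩ : (univ \ D).Nonempty := card_pos.1 (by omega)
    have hd2 : d ∉ D := (mem_sdiff.1 hd).2
    have h1 := ih (insert d D) (by rw [sdiff_insert, card_erase_of_mem hd, hD]; rfl)
    have h2 := W_step g ν Γ hg hν hle D d hd2
    have h3 := mass K hK ν h0 hm D d
    have h4 : 0 ≤ av (fun w : (ι ⊕ ι → X) × (ι × Finset ι → Y) =>
        ∏ T ∈ D.powerset, ν d (vx T w.1) (w.2 (d, T))) :=
      av_nonneg fun w => prod_nonneg fun T _ => h0 _ _ _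
    have h5 : |W g ν Γ D| ^ 2 ≤ K ^ 2 ^ Fintype.card ι * |W g ν Γ (insert d D)| := by
      rw [sq_abs]
      exact h2.trans ((mul_le_mul_of_nonneg_left (le_abs_self _) h4).trans
        (mul_le_mul_of_nonneg_right h3 (abs_nonneg _)))
    generalize K ^ 2 ^ Fintype.card ι = M at hM h1 h5 ⊢
    have h6 : (|W g ν Γ D| ^ 2) ^ 2 ^ r ≤ (M * |W g ν Γ (insert d D)|) ^ 2 ^ r :=
      pow_le_pow_left₀ (sq_nonneg _) h5 _
    rw [← pow_mul, mul_pow] at h6
    have h7 : 0 ≤ M ^ 2 ^ r := pow_nonneg hM _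
    calc M * |W g ν Γ D| ^ 2 ^ (r + 1) = M * |W g ν Γ D| ^ (2 * 2 ^ r) := by rw [pow_succ']
      _ ≤ M * (M ^ 2 ^ r * |W g ν Γ (insert d D)| ^ 2 ^ r) := mul_le_mul_of_nonneg_left h6 hM
      _ = M ^ 2 ^ r * (M * |W g ν Γ (insert d D)| ^ 2 ^ r) := by ring
      _ ≤ M ^ 2 ^ r * (M ^ 2 ^ r * |W g ν Γ univ|) := mul_le_mul_of_nonneg_left h1 h7
      _ = M ^ 2 ^ (r + 1) * |W g ν Γ univ| := by rw [pow_succ 2 r, pow_mul]; ring

theorem W_empty [Nonempty X] [Nonempty Y] (g ν : ι → (ι → X) → Y → ℝ)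
    (Γ : (ι → X) → (ι → Y) → ℝ) :
    W g ν Γ ∅ = av fun x : ι → X => av fun y : ι → Y => Γ x y * ∏ j, g j x (y j) := by
  rw [W, av_prod, ← av_comp (Sum.inl : ι → ι ⊕ ι) Sum.inl_injective]
  refine av_congr fun x => ?_
  rw [← av_comp (fun j : ι => (j, (∅ : Finset ι))) fun _ _ h => (Prod.mk.inj h).1]
  refine av_congr fun Q => ?_
  have e : vx ∅ x = fun k => x (Sum.inl k) := by
    funext i
    simp [vx]
  simp only [powerset_empty, prod_singleton, erase_empty, notMem_empty, if_false, e]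

theorem W_univ (g ν : ι → (ι → X) → Y → ℝ) (Γ : (ι → X) → (ι → Y) → ℝ) :
    W g ν Γ univ = av fun Q : ι × Finset ι → Y => av fun x : ι ⊕ ι → X =>
      (∏ S : Finset ι, Γ (vx S x) fun j => Q (j, S.erase j)) *
        ∏ t ∈ Adm ι, ν t.1 (vx t.2 x) (Q t) := by
  rw [W, av_prod, av_comm]
  refine av_congr fun Q => av_congr fun x => ?_
  rw [powerset_univ, Adm, prod_filter, Fintype.prod_prod_type]
  congr 1
  refine prod_congr rfl fun j _ => ?_
  have e : (univ.erase j).powerset = univ.filter fun T : Finset ι => j ∉ T := by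
    ext T
    simp [subset_erase]
  rw [e, prod_filter, if_pos (mem_univ j)]

end GvnAux

/-- generalised von Neumann inequality with an auxiliary variable attached to each form -/
theorem gvn (ι X Y : Type) [Fintype ι] [DecidableEq ι] [Fintype X] [Nonempty X] [Fintype Y]
    [Nonempty Y] (K : ℝ) (hK : 1 ≤ K) (g ν : ι → (ι → X) → Y → ℝ) (Γ : (ι → X) → (ι → Y) → ℝ)
    (hg : ∀ j y, Indep j fun x => g j x y) (hν : ∀ j y, Indep j fun x => ν j x y)
    (hle : ∀ j x y, |g j x y| ≤ ν j x y) (hm : ∀ j x, av (ν j x) ≤ K) :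
    |av fun x : ι → X => av fun y : ι → Y => Γ x y * ∏ j, g j x (y j)| ^ 2 ^ Fintype.card ι ≤
      K ^ 4 ^ Fintype.card ι * |av fun Q : ι × Finset ι → Y => av fun x : ι ⊕ ι → X =>
        (∏ S : Finset ι, Γ (vx S x) fun j => Q (j, S.erase j)) *
          ∏ t ∈ Adm ι, ν t.1 (vx t.2 x) (Q t)| := by
  have h := GvnAux.main K hK g ν Γ hg hν hle hm (Fintype.card ι) ∅
    (by rw [sdiff_empty, card_univ])
  rw [GvnAux.W_empty, GvnAux.W_univ, ← pow_mul, ← mul_pow 2 2,
    show (2 * 2 : ℕ) = 4 from rfl] at h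
  refine le_trans ?_ h
  exact le_mul_of_one_le_left (by positivity) (one_le_pow₀ hK)

end Pool.Agent.Lib.MP_7d3fda_nt.R2
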