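import Pool.Agent.Lib.MP_7d3fda_nt.R2.Defs
import Pool.Agent.Lib.MP_4b8564_nt.GT.LFpsi

open Finset
open scoped Classical NumberTheorySymbols

noncomputable section

namespace Pool.Agent.Lib.MP_7d3fda_nt.R2

open Pool.Agent.Lib.MP_4b8564_nt.GT

open Pool.Agent.Lib.MP_4b8564_nt in
open LFcoreAux in
theorem lf_core2 (V : Type) [Fintype V] [DecidableEq V] (m B : ℕ) (ε : ℝ) (hε : 0 < ε) :
    ∃ w R₀ : ℕ, 2 ≤ w ∧ ∀ (N : ℕ) [NeZero N], N.Prime → ∀ R b : ℕ, R₀ ≤ R → R ^ (8 * m + 2) ≤ N →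
      ∀ (T : Type) (a : T → V → ℤ) (S : Finset T), S.card ≤ m → Sep a S B →
        |av (fun z : V → ZMod N => ∏ s ∈ S, nu w R b N (∑ v, (a s v : ZMod N) * z v)) - 1| ≤ ε := by
  have hlog : 0 < Real.log (1 + ε / 3) := Real.log_pos (by linarith)
  obtain ⟨w₀, hw₀⟩ := exists_nat_ge (8 * 5 ^ m / Real.log (1 + ε / 3))
  obtain ⟨R₁, hR₁⟩ := exists_nat_ge (6 * Fintype.card V * (1 + m * B) / ε)
  refine ⟨w₀ + B + 4, R₁ + B + 1, by omega, fun N _ hN R b hR hRN T a S hm hS => ?_⟩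
  set w := w₀ + B + 4 with hw
  set n := Fintype.card V with hn
  have hR1 : 1 ≤ R := by omega
  have hR1' : (1 : ℝ) ≤ R := by exact_mod_cast hR1
  have hBN : B < N := by
    have : R ≤ R ^ (8 * m + 2) := Nat.le_self_pow (by omega) R
    omega
  obtain ⟨e, he0, he, hexp⟩ := Sg.expand (Sg.PP w R) (fun p hp => (prime_PP hp).two_le) R hR1
  set L := R ^ (6 * m + 1) with hL
  have hL0 : 0 < L := by positivity
  have : Nonempty (Fin L) := ⟨⟨0, hL0⟩⟩
  set K := B * n * L with hK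
  have hP : ∀ p ∈ Sg.PP w R, p.Prime ∧ 5 ≤ p ∧ B < p ∧ ¬ (p : ℤ) ∣ (primorial w : ℕ) :=
    fun p hp => by
      have h1 := (mem_Ioc.1 (mem_filter.1 hp).1).1
      refine ⟨prime_PP hp, by omega, by omega, fun h => ?_⟩
      have := (prime_PP hp).dvd_primorial_iff.1 (Int.natCast_dvd_natCast.1 h)
      omega
  have hE : ∏ p ∈ Sg.PP w R, (1 + 4 * 5 ^ S.card / (p : ℝ) ^ 2) - 1 ≤ ε / 3 := by
    have h1 : 8 * 5 ^ m / ((w : ℝ) + 1) ≤ Real.log (1 + ε / 3) := by
      rw [div_le_iff₀ hlog] at hw₀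
      rw [div_le_iff₀ (by positivity), mul_comm (Real.log _)]
      refine hw₀.trans (mul_le_mul_of_nonneg_right ?_ hlog.le)
      have : w₀ ≤ w + 1 := by omega
      exact_mod_cast this
    have h2 := (euler w R S.card m hm).trans (Real.exp_le_exp.2 h1)
    rw [Real.exp_log (by linarith)] at h2
    linarith
  have hRε : 6 * (n : ℝ) * (1 + m * B) ≤ ε * R := by
    rw [div_le_iff₀ hε] at hR₁
    refine hR₁.trans ?_
    rw [mul_comm]
    have : R₁ ≤ R := by omega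
    gcongr
  have hR0 : (0 : ℝ) < R := by linarith
  have hE2 : 2 * (n : ℝ) * ((R ^ 2 : ℕ) : ℝ) ^ (3 * S.card) / L ≤ 2 * n / R := by
    rw [div_le_div_iff₀ (by exact_mod_cast hL0) hR0, hL]
    push_cast
    rw [← pow_mul, mul_assoc, ← pow_succ]
    exact mul_le_mul_of_nonneg_left (pow_le_pow_right₀ hR1' (by omega)) (by positivity)
  set F : (V → ZMod N) → ℝ := fun z => ∏ s ∈ S, nu w R b N (∑ v, (a s v : ZMod N) * z v) with hF
  have hF0 : ∀ z, 0 ≤ F z := fun z => prod_nonneg fun s _ => (nu_bound w R b N hR1 _).1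
  have hF1 : ∀ z, F z ≤ (R : ℝ) ^ (2 * m) := fun z => by
    calc F z ≤ ∏ _s ∈ S, (R : ℝ) ^ 2 :=
          prod_le_prod (fun s _ => (nu_bound w R b N hR1 _).1) fun s _ => (nu_bound w R b N hR1 _).2
      _ = (R : ℝ) ^ (2 * S.card) := by rw [prod_const, ← pow_mul]
      _ ≤ _ := pow_le_pow_right₀ hR1' (by omega)
  let bad : T → (V → ZMod N) → Prop := fun s z =>
    ¬ (K ≤ (∑ v, (a s v : ZMod N) * z v).val ∧ (∑ v, (a s v : ZMod N) * z v).val + K < N)
  obtain ⟨Bad, hBad⟩ : ∃ Bad : (V → ZMod N) → Prop, ∀ z, Bad z ↔ ∃ s ∈ S, bad s z :=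
    ⟨_, fun _ => Iff.rfl⟩
  have hbad : dn Bad ≤ m * (2 * K / N) := by
    refine ((dn_congr hBad).le.trans (dn_exists_le S bad)).trans ?_
    calc ∑ s ∈ S, dn (bad s) ≤ ∑ _s ∈ S, (2 * K / N : ℝ) := sum_le_sum fun s hs => by
          obtain ⟨v, hv⟩ := hS.2.1 s hs
          have h1 : |a s v| < N := (hS.1 s v).trans_lt (by exact_mod_cast hBN)
          exact (dn_form hN (a s) v hv h1 fun x => ¬ (K ≤ x.val ∧ x.val + K < N)).le.trans
            (dn_edge K)
      _ ≤ _ := by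
          rw [sum_const, nsmul_eq_mul]
          gcongr
  have hone : (1 : ℝ) ≤ (R : ℝ) ^ (2 * m) := one_le_pow₀ hR1'
  have key : ∀ z : V → ZMod N,
      |av (fun h : V → Fin L => F (z + fun v => ((h v : ℕ) : ZMod N))) - 1| ≤
        (ε / 3 + 2 * n / R) + (R : ℝ) ^ (2 * m) * if Bad z then 1 else 0 := by
    intro z
    split_ifs with hz
    · have h1 : 0 ≤ av (fun h : V → Fin L => F (z + fun v => ((h v : ℕ) : ZMod N))) :=
        av_nonneg fun h => hF0 _
      have h2 : av (fun h : V → Fin L => F (z + fun v => ((h v : ℕ) : ZMod N))) ≤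
          (R : ℝ) ^ (2 * m) := av_le_of_le fun h => hF1 _
      have h3 : 0 ≤ ε / 3 + 2 * n / R := by positivity
      rw [abs_le]
      constructor <;> linarith
    · have hb := box_lf a S B hS (Sg.PP w R) (primorial w : ℕ) b hP (R ^ 2) L
        (Nat.one_le_pow _ _ hR1) hL0 e he0 he fun s => ((∑ v, (a s v : ZMod N) * z v).val : ℤ)
      rw [mul_zero, add_zero]
      refine le_trans (le_of_eq (congrArg (fun t : ℝ => |t - 1|) ?_))
        (hb.trans (add_le_add hE hE2))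
      unfold bav
      refine av_congr fun h => ?_
      simp only [hF]
      refine prod_congr rfl fun s hs => ?_
      have hg : ¬ bad s z := fun h => hz ((hBad z).2 ⟨s, hs, h⟩)
      obtain ⟨g1, g2⟩ := not_not.1 hg
      have hv := val_shift (a s) B L (hS.1 s) z h g1 g2
      simp only [Pi.add_apply]
      rw [nu, hexp]
      refine sum_congr rfl fun U _ => ?_
      rw [gS_eq, ← hv]
      push_cast
      rfl
  have hN0 : (0 : ℝ) < N := by exact_mod_cast hN.pos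
  have hfin : (R : ℝ) ^ (2 * m) * (m * (2 * K / N)) ≤ 2 * n * (m * B) / R := by
    have h1 : ((R : ℝ)) ^ (8 * m + 2) ≤ N := by exact_mod_cast hRN
    have h2 : (R : ℝ) ^ (2 * m) * (m * (2 * K / N)) =
        2 * n * (m * B) * (R : ℝ) ^ (8 * m + 1) / N := by
      rw [hK, hL]
      push_cast
      rw [show 8 * m + 1 = 2 * m + (6 * m + 1) by ring, pow_add]
      ring
    rw [h2, div_le_div_iff₀ hN0 hR0, mul_assoc, ← pow_succ]
    gcongr
  rw [av_shift (fun (h : V → Fin L) v => ((h v : ℕ) : ZMod N)) F, ← av_const (X := V → ZMod N) 1,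
    ← av_sub]
  refine (abs_av_le _).trans ((av_mono key).trans ?_)
  rw [av_add, av_const, av_const_mul]
  have h4 : (R : ℝ) ^ (2 * m) * av (fun z => if Bad z then (1 : ℝ) else 0) ≤
      2 * n * (m * B) / R :=
    (mul_le_mul_of_nonneg_left hbad (by positivity)).trans hfin
  have h5 : 2 * (n : ℝ) / R + 2 * n * (m * B) / R ≤ ε / 3 := by
    rw [← add_div, div_le_iff₀ hR0]
    linarith
  linarith

theorem lf_psi2 (k : ℕ) (hk : 2 ≤ k) (η : ℝ) (hη : 0 < η) : ∃ w R₀ : ℕ, 2 ≤ w ∧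
    ∀ (N : ℕ) [NeZero N], N.Prime → ∀ R b : ℕ, R₀ ≤ R → R ^ (8 * (k * 2 ^ k) + 2) ≤ N →
      LF (fun (j : Fin k) (x : Fin k → ZMod N) => nu w R b N (psi k N j x)) η := by
  obtain ⟨w, R₀, hw, h⟩ := lf_core2 (Fin k ⊕ Fin k) (k * 2 ^ k) k η hη
  refine ⟨w, R₀, hw, fun N _ hN R b hR hRN T hT => ?_⟩
  have hc : T.card ≤ k * 2 ^ k := by
    refine (card_le_univ T).trans (le_of_eq ?_)
    simp [Fintype.card_prod, Fintype.card_finset]
  have h1 := h N hN R b hR hRN _ (LFpsiAux.co k) T hc (LFpsiAux.sep k hk T hT)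
  rw [av_sumElim] at h1
  rw [av_prod]
  simp only [LFpsiAux.form_eq] at h1
  exact h1


end Pool.Agent.Lib.MP_7d3fda_nt.R2
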