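import Pool.Agent.Lib.MP_7d3fda_nt.R2.Defs

open Finset
open scoped Classical NumberTheorySymbols

noncomputable section

namespace Pool.Agent.Lib.MP_7d3fda_nt.R2

open Pool.Agent.Lib.MP_4b8564_nt.GT

namespace LiftAux

/-- the value number `j` as an integer -/
def nn {N : ℕ} (z : ZMod N × ZMod N) (j : Fin 6) : ℤ :=
  ((z.1 + ((cc j : ℕ) : ZMod N) * z.2).val : ℤ)

/-- the lifted common difference -/
def vv {N : ℕ} (z : ZMod N × ZMod N) : ℤ :=
  -2 * (nn z 2 - nn z 4) - 3 * (nn z 3 - nn z 4) + 4 * (nn z 5 - nn z 4)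

theorem cc_le (j : Fin 6) : cc j ≤ 1863 := by
  fin_cases j <;> simp [cc]

theorem nn_cast {N : ℕ} [NeZero N] (z : ZMod N × ZMod N) (j : Fin 6) :
    ((nn z j : ℤ) : ZMod N) = z.1 + ((cc j : ℕ) : ZMod N) * z.2 := by
  simp [nn]

theorem nn_four {N : ℕ} [NeZero N] (z : ZMod N × ZMod N) : ((nn z 4 : ℤ) : ZMod N) = z.1 := by
  rw [nn_cast]
  have : cc 4 = 0 := rfl
  simp [this]

theorem vv_cast {N : ℕ} [NeZero N] (z : ZMod N × ZMod N) : ((vv z : ℤ) : ZMod N) = z.2 := by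
  have h2 : cc 2 = 540 := rfl
  have h3 : cc 3 = 621 := rfl
  have h5 : cc 5 = 736 := rfl
  simp only [vv, Int.cast_add, Int.cast_sub, Int.cast_mul, Int.cast_neg, Int.cast_ofNat]
  rw [nn_four, nn_cast, nn_cast, nn_cast, h2, h3, h5]
  push_cast
  ring

theorem cross {N : ℕ} [NeZero N] (z : ZMod N × ZMod N)
    (h : ∀ j, 0 ≤ nn z j ∧ 4000 * nn z j < N) (i j : Fin 6) :
    (cc i : ℤ) * (nn z j - nn z 4) = (cc j : ℤ) * (nn z i - nn z 4) := by
  have hd : (N : ℤ) ∣ (cc i : ℤ) * (nn z j - nn z 4) - (cc j : ℤ) * (nn z i - nn z 4) := by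
    rw [← ZMod.intCast_zmod_eq_zero_iff_dvd]
    simp only [Int.cast_sub, Int.cast_mul, Int.cast_natCast]
    rw [nn_four, nn_cast, nn_cast]
    ring
  have hi : (cc i : ℤ) ≤ 1863 := by exact_mod_cast cc_le i
  have hj : (cc j : ℤ) ≤ 1863 := by exact_mod_cast cc_le j
  have hi0 : (0 : ℤ) ≤ cc i := Int.natCast_nonneg _
  have hj0 : (0 : ℤ) ≤ cc j := Int.natCast_nonneg _
  obtain ⟨a1, a2⟩ := h i
  obtain ⟨b1, b2⟩ := h j
  obtain ⟨c1, c2⟩ := h 4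
  have e1 : (cc i : ℤ) * nn z j ≤ 1863 * nn z j := mul_le_mul_of_nonneg_right hi b1
  have e2 : (cc i : ℤ) * nn z 4 ≤ 1863 * nn z 4 := mul_le_mul_of_nonneg_right hi c1
  have e3 : (cc j : ℤ) * nn z i ≤ 1863 * nn z i := mul_le_mul_of_nonneg_right hj a1
  have e4 : (cc j : ℤ) * nn z 4 ≤ 1863 * nn z 4 := mul_le_mul_of_nonneg_right hj c1
  have f1 : 0 ≤ (cc i : ℤ) * nn z j := mul_nonneg hi0 b1
  have f2 : 0 ≤ (cc i : ℤ) * nn z 4 := mul_nonneg hi0 c1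
  have f3 : 0 ≤ (cc j : ℤ) * nn z i := mul_nonneg hj0 a1
  have f4 : 0 ≤ (cc j : ℤ) * nn z 4 := mul_nonneg hj0 c1
  have hlt : |(cc i : ℤ) * (nn z j - nn z 4) - (cc j : ℤ) * (nn z i - nn z 4)| < N := by
    rw [abs_lt, mul_sub, mul_sub]
    constructor <;> linarith
  have := Int.eq_zero_of_abs_lt_dvd hd hlt
  linarith

theorem lift {N : ℕ} [NeZero N] (z : ZMod N × ZMod N)
    (h : ∀ j, 0 ≤ nn z j ∧ 4000 * nn z j < N) (j : Fin 6) :
    nn z 4 + (cc j : ℤ) * vv z = nn z j := by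
  have h2 := cross z h 2 j
  have h3 := cross z h 3 j
  have h5 := cross z h 5 j
  have c2 : ((cc 2 : ℕ) : ℤ) = 540 := rfl
  have c3 : ((cc 3 : ℕ) : ℤ) = 621 := rfl
  have c5 : ((cc 5 : ℕ) : ℤ) = 736 := rfl
  rw [c2] at h2
  rw [c3] at h3
  rw [c5] at h5
  unfold vv
  linear_combination 2 * h2 + 3 * h3 - 4 * h5

end LiftAux

open LiftAux in
/-- patterns modulo `N` inside a short interval are patterns of integers -/
theorem lift_pat (N : ℕ) [NeZero N] (A : Finset ℕ) (hA : ∀ n ∈ A, 4000 * n < N) :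
    (univ.filter fun z : ZMod N × ZMod N =>
      ∀ j : Fin 6, (z.1 + ((cc j : ℕ) : ZMod N) * z.2).val ∈ A).card ≤
      (PU (fun j => (cc j : ℤ)) (A.image fun n : ℕ => (n : ℤ)) N).card := by
  refine Finset.card_le_card_of_injOn (fun z => (nn z 4, vv z)) ?_ ?_
  · intro z hz
    have hz' : ∀ j : Fin 6, (z.1 + ((cc j : ℕ) : ZMod N) * z.2).val ∈ A :=
      (Finset.mem_filter.1 (Finset.mem_coe.1 hz)).2
    have h : ∀ j, 0 ≤ nn z j ∧ 4000 * nn z j < N := fun j =>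
      ⟨Int.natCast_nonneg _, by unfold nn; exact_mod_cast hA _ (hz' j)⟩
    have h0 := lift z h 0
    have c0 : ((cc 0 : ℕ) : ℤ) = 828 := rfl
    rw [c0] at h0
    obtain ⟨a1, a2⟩ := h 0
    obtain ⟨c1, c2⟩ := h 4
    simp only [Finset.mem_coe, PU, Finset.mem_filter, Finset.mem_product]
    refine ⟨⟨?_, ?_⟩, fun j => ?_⟩
    · exact Finset.mem_Icc.2 ⟨by show -(N : ℤ) ≤ nn z 4; omega, by show nn z 4 ≤ N; omega⟩
    · exact Finset.mem_Icc.2 ⟨by show -(N : ℤ) ≤ vv z; omega, by show vv z ≤ N; omega⟩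
    · show nn z 4 + (cc j : ℤ) * vv z ∈ _
      rw [lift z h j]
      exact Finset.mem_image.2 ⟨_, hz' j, rfl⟩
  · intro z _ w _ e
    have e1 : nn z 4 = nn w 4 := congrArg Prod.fst e
    have e2 : vv z = vv w := congrArg Prod.snd e
    refine Prod.ext ?_ ?_
    · rw [← nn_four z, ← nn_four w, e1]
    · rw [← vv_cast z, ← vv_cast w, e2]

end Pool.Agent.Lib.MP_7d3fda_nt.R2
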