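import Pool.Agent.Lib.MP_7d3fda_nt.R2.Defs
import Pool.Agent.Lib.MP_4b8564_nt.GT.Av
import Pool.Agent.Lib.MP_4b8564_nt.GT.Box
import Pool.Agent.Lib.MP_4b8564_nt.GT.Crt

open Finset
open scoped Classical NumberTheorySymbols

noncomputable section

namespace Pool.Agent.Lib.MP_7d3fda_nt.R2

open Pool.Agent.Lib.MP_4b8564_nt.GT

variable {V : Type} [Fintype V] [DecidableEq V]

namespace LocAux

theorem bav_update (L : ℕ) (hL : 0 < L) (v : V) (F : (V → ℤ) → ℝ) :
    bav L F = av fun h : V → Fin L => av fun t : Fin L =>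
      F (Function.update (fun w => ((h w : ℕ) : ℤ)) v ((t : ℕ) : ℤ)) := by
  have : Nonempty (Fin L) := ⟨⟨0, hL⟩⟩
  unfold bav
  rw [av_update v]
  refine av_congr fun h => av_congr fun t => ?_
  congr 1
  funext w
  by_cases hw : w = v
  · subst hw; simp
  · simp [hw]

theorem form_update (α : ℤ) (a x : V → ℤ) (v : V) (t : ℤ) :
    α + ∑ w, a w * Function.update x v t w = (α + ∑ w, a w * x w - a v * x v) + a v * t := by
  rw [← add_sum_erase univ (fun w => a w * Function.update x v t w) (mem_univ v),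
    ← add_sum_erase univ (fun w => a w * x w) (mem_univ v)]
  have : ∑ w ∈ univ.erase v, a w * Function.update x v t w = ∑ w ∈ univ.erase v, a w * x w :=
    sum_congr rfl fun w hw => by rw [Function.update_of_ne (ne_of_mem_erase hw)]
  rw [this, Function.update_self]
  ring

theorem dvd_diff (q : ℕ) (hq : q.Prime) (c a s t : ℤ) (ha : ¬(q : ℤ) ∣ a)
    (h : (q : ℤ) ∣ (c + a * s) - (c + a * t)) : (q : ℤ) ∣ s - t := by
  have e : (c + a * s) - (c + a * t) = a * (s - t) := by ring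
  rw [e] at h
  exact ((Nat.prime_iff_prime_int.1 hq).dvd_or_dvd h).resolve_left ha

theorem sum_lin (p : ℕ) [hp : Fact p.Prime] (c a : ℤ) (ha : ¬(p : ℤ) ∣ a) (φ : ZMod p → ℝ) :
    ∑ t : Fin p, φ ((c + a * ((t : ℕ) : ℤ) : ℤ) : ZMod p) = ∑ z : ZMod p, φ z := by
  refine Function.Bijective.sum_comp (e := fun t : Fin p => ((c + a * ((t : ℕ) : ℤ) : ℤ) : ZMod p))
    ?_ φ
  rw [Fintype.bijective_iff_injective_and_card]
  refine ⟨fun s t hst => ?_, by simp⟩
  have h1 : (p : ℤ) ∣ (c + a * ((t : ℕ) : ℤ)) - (c + a * ((s : ℕ) : ℤ)) :=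
    (ZMod.intCast_eq_intCast_iff_dvd_sub _ _ _).1 hst
  have h2 : (s : ℕ) ≡ t [MOD p] := (Nat.modEq_iff_dvd).2 (dvd_diff p hp.out c a _ _ ha h1)
  exact Fin.ext (Nat.ModEq.eq_of_lt_of_lt h2 s.2 t.2)

theorem ind_nonneg (q : ℕ) (n : ℤ) : 0 ≤ ind q n := by
  unfold ind; split_ifs <;> norm_num

theorem av_ind_le (q H : ℕ) (hq : q.Prime) (hH : q ≤ H) (c a : ℤ) (ha : ¬(q : ℤ) ∣ a) :
    av (fun t : Fin H => ind q (c + a * ((t : ℕ) : ℤ))) ≤ 2 / (q : ℝ) := by
  have hq0 : (0 : ℝ) < q := by exact_mod_cast hq.pos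
  have hH' : (q : ℝ) ≤ H := by exact_mod_cast hH
  have hH0 : (0 : ℝ) < H := lt_of_lt_of_le hq0 hH'
  have hc : (univ.filter fun t : Fin H => (q : ℤ) ∣ c + a * ((t : ℕ) : ℤ)).card
      ≤ (range (H / q + 1)).card := by
    refine card_le_card_of_injOn (fun t => (t : ℕ) / q) (fun t _ => ?_) fun s hs t ht hst => ?_
    · exact mem_coe.2 (mem_range.2 (Nat.lt_succ_of_le (Nat.div_le_div_right t.2.le)))
    · have hs' := (mem_filter.1 (mem_coe.1 hs)).2
      have ht' := (mem_filter.1 (mem_coe.1 ht)).2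
      have h2 : (s : ℕ) ≡ t [MOD q] :=
        (Nat.modEq_iff_dvd).2 (dvd_diff q hq c a _ _ ha (dvd_sub ht' hs'))
      have h3 : (s : ℕ) / q = (t : ℕ) / q := hst
      refine Fin.ext ?_
      rw [← Nat.div_add_mod (s : ℕ) q, ← Nat.div_add_mod (t : ℕ) q, h3, h2]
  rw [card_range] at hc
  have hc' : ((univ.filter fun t : Fin H => (q : ℤ) ∣ c + a * ((t : ℕ) : ℤ)).card : ℝ)
      ≤ (H : ℝ) / q + 1 := by
    refine (Nat.cast_le.2 hc).trans ?_
    rw [Nat.cast_add, Nat.cast_one]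
    linarith [Nat.cast_div_le (α := ℝ) (m := H) (n := q)]
  have h1 : (1 : ℝ) ≤ (H : ℝ) / q := (one_le_div hq0).2 hH'
  unfold av ind
  rw [sum_boole, Fintype.card_fin, div_le_iff₀ hH0]
  have e : 2 / (q : ℝ) * H = 2 * ((H : ℝ) / q) := by ring
  rw [e]
  linarith

end LocAux

theorem fac (p M H : ℕ) (hp : 0 < p) (hM : 0 < M) (hH : 0 < H) (h : p.Coprime M)
    (f g : (V → ℤ) → ℝ) (hf : Per p f) (hg : Per M g) (h1 : ∀ x, |f x| ≤ 1) (h2 : ∀ x, |g x| ≤ 1) :
    |bav H (fun x => f x * g x) - bav p f * bav H g| ≤ 4 * Fintype.card V * ((p : ℝ) * M) / H := by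
  have : Nonempty (Fin p) := ⟨⟨0, hp⟩⟩
  have hH' : (0 : ℝ) < H := by exact_mod_cast hH
  have hfg : Per (p * M) fun x => f x * g x := fun x y hxy =>
    congrArg₂ (· * ·)
      (hf x y fun v => (Int.natCast_dvd_natCast.2 (dvd_mul_right p M)).trans (hxy v))
      (hg x y fun v => (Int.natCast_dvd_natCast.2 (dvd_mul_left M p)).trans (hxy v))
  have a1 := bav_per (p * M) H (Nat.mul_pos hp hM) hH _ hfg fun x => by
    rw [abs_mul]; exact mul_le_one₀ (h1 x) (abs_nonneg _) (h2 x)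
  have a2 := bav_per M H hM hH g hg h2
  rw [CrtAux.two p M hp hM h f g hf hg, Nat.cast_mul] at a1
  have a3 : |bav p f| ≤ 1 := abs_av_le_of_le fun k => h1 _
  have a4 : |bav p f * bav M g - bav p f * bav H g| ≤ 2 * Fintype.card V * M / H := by
    rw [← mul_sub, abs_mul, abs_sub_comm]
    exact (mul_le_of_le_one_left (abs_nonneg _) a3).trans a2
  have a5 : 2 * Fintype.card V * (M : ℝ) / H ≤ 2 * Fintype.card V * ((p : ℝ) * M) / H := by
    have hp' : (1 : ℝ) ≤ p := by exact_mod_cast hp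
    have : (M : ℝ) ≤ (p : ℝ) * M := le_mul_of_one_le_left (Nat.cast_nonneg _) hp'
    gcongr
  have a6 := abs_sub_le (bav H fun x => f x * g x) (bav p f * bav M g) (bav p f * bav H g)
  have e : 4 * Fintype.card V * ((p : ℝ) * M) / H
      = 2 * Fintype.card V * ((p : ℝ) * M) / H + 2 * Fintype.card V * ((p : ℝ) * M) / H := by ring
  rw [e]
  linarith

theorem loc_ind (p : ℕ) (hp : p.Prime) (α : ℤ) (a : V → ℤ) (v : V) (ha : ¬(p : ℤ) ∣ a v) :
    bav p (fun x => ind p (α + ∑ w, a w * x w)) = 1 / p := by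
  have : Fact p.Prime := ⟨hp⟩
  have : Nonempty (Fin p) := ⟨⟨0, hp.pos⟩⟩
  rw [LocAux.bav_update p hp.pos v, ← av_const (X := V → Fin p) (1 / (p : ℝ))]
  refine av_congr fun h => ?_
  simp only [LocAux.form_update]
  have key := LocAux.sum_lin p (α + ∑ w, a w * ((h w : ℕ) : ℤ) - a v * ((h v : ℕ) : ℤ)) (a v) ha
    fun z => if z = 0 then 1 else 0
  simp only [ZMod.intCast_zmod_eq_zero_iff_dvd] at key
  unfold av ind
  rw [key, Fintype.card_fin]
  simp

theorem loc_jac (p : ℕ) (hp : p.Prime) (h2 : p ≠ 2) (α : ℤ) (a : V → ℤ) (v : V)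
    (ha : ¬(p : ℤ) ∣ a v) (F : (V → ℤ) → ℝ) (hF : ∀ x t, F (Function.update x v t) = F x) :
    bav p (fun x => F x * (J(α + ∑ w, a w * x w | p) : ℝ)) = 0 := by
  have : Fact p.Prime := ⟨hp⟩
  rw [LocAux.bav_update p hp.pos v, ← av_zero (X := V → Fin p)]
  refine av_congr fun h => ?_
  simp only [LocAux.form_update, hF, av_const_mul]
  have key := LocAux.sum_lin p (α + ∑ w, a w * ((h w : ℕ) : ℤ) - a v * ((h v : ℕ) : ℤ)) (a v) ha
    fun z => ((quadraticChar (ZMod p) z : ℤ) : ℝ)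
  have h0 : ∑ z : ZMod p, ((quadraticChar (ZMod p) z : ℤ) : ℝ) = 0 := by
    rw [← Int.cast_sum, quadraticChar_sum_zero (by rw [ZMod.ringChar_zmod_n]; exact h2),
      Int.cast_zero]
  rw [h0] at key
  have e : ∀ n : ℤ, J(n | p) = quadraticChar (ZMod p) (n : ZMod p) := fun n =>
    (jacobiSym.legendreSym.to_jacobiSym p n).symm
  simp only [e]
  unfold av
  rw [key, zero_div, mul_zero]

theorem two_forms (q H : ℕ) (hq : q.Prime) (hH : q ≤ H) (α β : ℤ) (a b : V → ℤ) (v w : V)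
    (ha : ¬(q : ℤ) ∣ a v) (hb0 : b v = 0) (hb : ¬(q : ℤ) ∣ b w) :
    bav H (fun x => ind q (α + ∑ u, a u * x u) * ind q (β + ∑ u, b u * x u)) ≤ 4 / (q : ℝ) ^ 2 := by
  have hH0 : 0 < H := lt_of_lt_of_le hq.pos hH
  have : Nonempty (Fin H) := ⟨⟨0, hH0⟩⟩
  have s2 : bav H (fun x => ind q (β + ∑ u, b u * x u)) ≤ 2 / (q : ℝ) := by
    rw [LocAux.bav_update H hH0 w]
    refine av_le_of_le fun h => ?_
    simp only [LocAux.form_update]
    exact LocAux.av_ind_le q H hq hH _ _ hb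
  have s1 : bav H (fun x => ind q (α + ∑ u, a u * x u) * ind q (β + ∑ u, b u * x u))
      ≤ 2 / (q : ℝ) * bav H (fun x => ind q (β + ∑ u, b u * x u)) := by
    rw [LocAux.bav_update H hH0 v]
    unfold bav
    rw [← av_const_mul]
    refine av_mono fun h => ?_
    simp only [LocAux.form_update, hb0, zero_mul, sub_zero, add_zero, av_mul_const]
    exact mul_le_mul_of_nonneg_right (LocAux.av_ind_le q H hq hH _ _ ha) (LocAux.ind_nonneg _ _)
  have h2 : (0 : ℝ) ≤ 2 / (q : ℝ) := by positivity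
  refine (s1.trans (mul_le_mul_of_nonneg_left s2 h2)).trans (le_of_eq ?_)
  ring

end Pool.Agent.Lib.MP_7d3fda_nt.R2
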