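import Pool.Agent.Lib.MP_788af2_nt.Descent

open Finset
open scoped Classical NumberTheorySymbols

noncomputable section

namespace Pool.Agent.Lib.MP_7d3fda_nt.R2

open Pool.Agent.Lib.MP_788af2_nt

namespace LocDAux

theorem qf_third {F : ℤ → ZMod 2} (hF : IsQF F) {x y z b : ℤ} (hx : x ≠ 0) (hy : y ≠ 0)
    (hz : z ≠ 0) (hb : x * y * z = b ^ 2) : F z = F x + F y := by
  rw [← hF x y hx hy]
  exact (hF.eq_of_isSquare (mul_ne_zero hx hy) hz ⟨b, by rw [hb, sq]⟩).symm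

theorem qf_mul_sq {F : ℤ → ZMod 2} (hF : IsQF F) {x c : ℤ} (hx : x ≠ 0) (hc : c ≠ 0) :
    F (x * c ^ 2) = F x := by
  rw [hF _ _ hx (pow_ne_zero _ hc), sq, hF.sq hc, add_zero]

section

variable {p : ℕ} [hp : Fact p.Prime]

theorem qL_congr {u v : ℤ} (hu : ¬(p : ℤ) ∣ u) (h : (p : ℤ) ∣ v - u) : qL p v = qL p u := by
  have hv : ¬(p : ℤ) ∣ v := fun h' => hu (by simpa using dvd_sub h' h)
  have : v = u + (v - u) := by ring
  rw [qL, qL, lg_of_not_dvd hu, lg_of_not_dvd hv, this, jac_add_dvd h]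

theorem qL_p_mul {u : ℤ} (hu : u ≠ 0) : qL p (p * u) = qL p u := by
  have h1 : upart p (p : ℤ) = 1 := by
    simpa using upart_pow_mul (p := p) (s := 1) (u := 1)
      (fun h => hp.out.one_lt.ne' (by exact_mod_cast Int.eq_one_of_dvd_one (by positivity) h))
  have hp0 : (p : ℤ) ≠ 0 := Int.natCast_ne_zero.2 hp.out.ne_zero
  rw [isQF_qL hp.out _ _ hp0 hu, qL, lg, h1]
  simp

theorem qV_p_mul {u : ℤ} (hu : u ≠ 0) : qV p (p * u) = 1 + qV p u := by
  have hp0 : (p : ℤ) ≠ 0 := Int.natCast_ne_zero.2 hp.out.ne_zero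
  rw [isQF_qV hp.out _ _ hp0 hu]
  simp [qV]

theorem qV_of_not_dvd {u : ℤ} (hu : ¬(p : ℤ) ∣ u) : qV p u = 0 := by
  simp [qV, padicValInt.eq_zero_of_not_dvd hu]

/-- one root is singled out -/
theorem ram_case {x y z u w c b : ℤ} (hx : x ≠ 0) (hb : p * x * (p * y) * (p * z) = b ^ 2)
    (ey : y = x + u * c ^ 2) (ez : z = x + w * c ^ 2) (hu : ¬(p : ℤ) ∣ u) (hw : ¬(p : ℤ) ∣ w)
    (hc : ¬(p : ℤ) ∣ c) (hpx : (p : ℤ) ∣ x) :
    qV p (p * x) = 0 ∧ qV p (p * y) = 1 ∧ qV p (p * z) = 1 ∧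
      qL p (p * x) = qL p u + qL p w ∧ qL p (p * y) = qL p u ∧ qL p (p * z) = qL p w := by
  have hpr : Prime (p : ℤ) := Nat.prime_iff_prime_int.1 hp.out
  have hp0 : (p : ℤ) ≠ 0 := hpr.ne_zero
  have hc0 : c ≠ 0 := by rintro rfl; exact hc (dvd_zero _)
  have key : ∀ t v : ℤ, ¬(p : ℤ) ∣ t → v = x + t * c ^ 2 →
      v ≠ 0 ∧ qV p (p * v) = 1 ∧ qL p (p * v) = qL p t := by
    intro t v ht hv
    have ht0 : t ≠ 0 := by rintro rfl; exact ht (dvd_zero _)
    have h1 : ¬(p : ℤ) ∣ t * c ^ 2 := fun h =>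
      (hpr.dvd_or_dvd h).elim ht fun h => hc (hpr.dvd_of_dvd_pow h)
    have h2 : ¬(p : ℤ) ∣ v := fun h => h1 ((dvd_add_right hpx).1 (hv ▸ h))
    have h0 : v ≠ 0 := by rintro rfl; exact h2 (dvd_zero _)
    refine ⟨h0, by rw [qV_p_mul h0, qV_of_not_dvd h2, add_zero], ?_⟩
    rw [qL_p_mul h0, qL_congr h1 (by rw [hv]; simpa using hpx), qf_mul_sq (isQF_qL hp.out) ht0 hc0]
  obtain ⟨hy, y1, y2⟩ := key u y hu ey
  obtain ⟨hz, z1, z2⟩ := key w z hw ez
  have hb' : p * y * (p * z) * (p * x) = b ^ 2 := by rw [← hb]; ring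
  have hV := qf_third (isQF_qV hp.out) (mul_ne_zero hp0 hy) (mul_ne_zero hp0 hz)
    (mul_ne_zero hp0 hx) hb'
  have hL := qf_third (isQF_qL hp.out) (mul_ne_zero hp0 hy) (mul_ne_zero hp0 hz)
    (mul_ne_zero hp0 hx) hb'
  rw [y1, z1] at hV
  rw [y2, z2] at hL
  exact ⟨hV.trans (by decide), y1, z1, hL, y2, z2⟩

/-- the local conditions at a prime that divides every difference of roots exactly once -/
theorem local_ram {x y z u w c b : ℤ} (hx : x ≠ 0) (hy : y ≠ 0) (hz : z ≠ 0)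
    (hb : x * y * z = b ^ 2) (ey : y = x + p * u * c ^ 2) (ez : z = x + p * w * c ^ 2)
    (hu : ¬(p : ℤ) ∣ u) (hw : ¬(p : ℤ) ∣ w) (huw : ¬(p : ℤ) ∣ w - u)
    (hc : (p : ℤ) ∣ c → ¬(p : ℤ) ∣ x) :
    qL p x = qV p y * (qL p u + qL p w) + qV p x * qL p (-u) ∧
      qL p y = qV p y * qL p u + qV p x * (qL p (-u) + qL p (w - u)) := by
  have hpr : Prime (p : ℤ) := Nat.prime_iff_prime_int.1 hp.out
  have hp0 : (p : ℤ) ≠ 0 := hpr.ne_zero
  have hF := isQF_qL hp.out
  by_cases hpx : (p : ℤ) ∣ x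
  swap
  · have d1 : (p : ℤ) ∣ y - x := ⟨u * c ^ 2, by rw [ey]; ring⟩
    have d2 : (p : ℤ) ∣ z - x := ⟨w * c ^ 2, by rw [ez]; ring⟩
    have hpy : ¬(p : ℤ) ∣ y := fun h' => hpx (by simpa using dvd_sub h' d1)
    have hL := qf_third hF hx hy hz hb
    rw [qL_congr hpx d1, qL_congr hpx d2] at hL
    have h0 : qL p x = 0 := (by decide : ∀ a : ZMod 2, a = a + a → a = 0) _ hL
    rw [qL_congr hpx d1, h0, qV_of_not_dvd hpx, qV_of_not_dvd hpy]
    simp
  have hpc : ¬(p : ℤ) ∣ c := fun h => hc h hpx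
  obtain ⟨x, rfl⟩ := hpx
  obtain ⟨y, rfl, ey'⟩ : ∃ y', y = p * y' ∧ y' = x + u * c ^ 2 := ⟨_, by rw [ey]; ring, rfl⟩
  obtain ⟨z, rfl, ez'⟩ : ∃ z', z = p * z' ∧ z' = x + w * c ^ 2 := ⟨_, by rw [ez]; ring, rfl⟩
  clear ey ez
  have ey := ey'
  have ez := ez'
  have hx' : x ≠ 0 := right_ne_zero_of_mul hx
  have hy' : y ≠ 0 := right_ne_zero_of_mul hy
  have hz' : z ≠ 0 := right_ne_zero_of_mul hz
  have hnu : ¬(p : ℤ) ∣ -u := by rwa [dvd_neg]
  have hnw : ¬(p : ℤ) ∣ -w := by rwa [dvd_neg]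
  have hwu : ¬(p : ℤ) ∣ u - w := by rwa [dvd_sub_comm]
  have hneg : ∀ t : ℤ, ¬(p : ℤ) ∣ t → qL p (-t) = qL p (-1) + qL p t := by
    intro t ht
    rw [← hF _ _ (by norm_num) (by rintro rfl; exact ht (dvd_zero _)), neg_one_mul]
  have hV := qf_third (isQF_qV hp.out) hx hy hz hb
  by_cases h1 : (p : ℤ) ∣ x
  · obtain ⟨a1, a2, -, a4, a5, -⟩ := ram_case hx' hb ey ez hu hw hpc h1
    rw [a1, a2, a4, a5]
    simp
  by_cases h2 : (p : ℤ) ∣ y
  · obtain ⟨a1, a2, -, a4, a5, -⟩ := ram_case (x := y) (y := x) (z := z) (u := -u) (w := w - u)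
      (b := b) hy' (by rw [← hb]; ring) (by rw [ey]; ring) (by rw [ey, ez]; ring) hnu huw hpc h2
    rw [a1, a2, a4, a5]
    simp
  by_cases h3 : (p : ℤ) ∣ z
  · obtain ⟨-, a2, a3, -, a5, a6⟩ := ram_case (x := z) (y := x) (z := y) (u := -w) (w := u - w)
      (b := b) hz' (by rw [← hb]; ring) (by rw [ez]; ring) (by rw [ey, ez]; ring) hnw hwu hpc h3
    have e : u - w = -(w - u) := by ring
    rw [a2, a3, a5, a6, e, hneg _ hu, hneg _ hw, hneg _ huw]
    generalize qL p (-1) = s, qL p u = s₁, qL p w = s₂, qL p (w - u) = s₃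
    revert s s₁ s₂ s₃
    decide
  · rw [qV_p_mul hx', qV_p_mul hy', qV_p_mul hz', qV_of_not_dvd h1, qV_of_not_dvd h2,
      qV_of_not_dvd h3] at hV
    exact absurd hV (by decide)

end

/-- a quadratic functional in terms of the sign and the valuations -/
theorem expand_qf {ι : Type} [Fintype ι] {q : ι → ℕ} (hq : ∀ i, (q i).Prime)
    (hinj : Function.Injective q) {F : ℤ → ZMod 2} (hF : IsQF F) {x : ℤ} (hx : x ≠ 0)
    (h : ∀ l : ℕ, l.Prime → (∀ i, q i ≠ l) → qV l x = 0) :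
    F x = qS x * F (-1) + ∑ i, qV (q i) x * F (q i) := by
  classical
  have hq0 : ∀ i, (q i : ℤ) ≠ 0 := fun i => Int.natCast_ne_zero.2 (hq i).ne_zero
  set d : ℤ := ∏ i with qV (q i) x = 1, (q i : ℤ) with hd
  have hd0 : 0 < d := Finset.prod_pos fun i _ => by exact_mod_cast (hq i).pos
  have hG : ∀ G : ℤ → ZMod 2, IsQF G → G d = ∑ i, qV (q i) x * G (q i) := by
    intro G hG
    rw [hd, hG.prod _ _ fun i _ => hq0 i, Finset.sum_filter]
    refine Finset.sum_congr rfl fun i _ => ?_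
    rcases (by decide : ∀ a : ZMod 2, a = 0 ∨ a = 1) (qV (q i) x) with h0 | h0 <;> simp [h0]
  have hval : ∀ l : ℕ, l.Prime → qV l d = qV l x := by
    intro l hl
    have : Fact l.Prime := ⟨hl⟩
    have hne : ∀ i, q i ≠ l → qV l (q i) = 0 := fun i hi => qV_of_not_dvd fun h0 =>
      hi ((Nat.prime_dvd_prime_iff_eq hl (hq i)).1 (by exact_mod_cast h0)).symm
    rw [hG _ (isQF_qV hl)]
    by_cases hi : ∃ i, q i = l
    · obtain ⟨i, rfl⟩ := hi
      rw [Finset.sum_eq_single i (fun j _ hj => by rw [hne j fun h0 => hj (hinj h0), mul_zero])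
        (by simp)]
      simp [qV]
    · push Not at hi
      rw [h l hl hi]
      exact Finset.sum_eq_zero fun i _ => by rw [hne i (hi i), mul_zero]
  have hsq : ∀ y : ℤ, 0 < y → (∀ l : ℕ, l.Prime → qV l y = qV l x) → F y = F d := by
    intro y hy hv
    refine hF.eq_of_isSquare hy.ne' hd0.ne' (isSquare_of_even_val (mul_pos hy hd0) fun l hl => ?_)
    rw [← qV_eq_zero, isQF_qV hl _ _ hy.ne' hd0.ne', hv l hl, hval l hl]
    exact CharTwo.add_self_eq_zero _
  rw [← hG F hF]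
  rcases lt_or_gt_of_ne hx with h0 | h0
  · have e : x = -1 * -x := by ring
    rw [qS, if_pos h0, one_mul, ← hsq (-x) (by omega) fun l _ => by simp [qV, padicValInt],
      ← hF _ _ (by norm_num) (by omega), ← e]
  · rw [qS, if_neg h0.not_gt, zero_mul, zero_add, hsq x h0 fun _ _ => rfl]

open WeierstrassCurve WeierstrassCurve.Affine in
theorem ns_root {e : Fin 3 → ℤ} (he : dsc e ≠ 0) (m : Fin 3) :
    (cvE e).Nonsingular (e m : ℚ) 0 := by
  apply nonsing_of_disc (disc_cvE he)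
  fin_cases m <;> simp <;> ring

theorem not_dvd_sub {e : Fin 3 → ℤ} {l : ℕ} (hd : ¬(l : ℤ) ∣ dsc e) (i j : Fin 3) (hij : i ≠ j) :
    ¬(l : ℤ) ∣ e i - e j := by
  intro h
  apply hd
  have h' : (l : ℤ) ∣ e j - e i := dvd_sub_comm.1 h
  unfold dsc
  fin_cases i <;> fin_cases j <;> simp at hij h h' <;>
    first
    | exact (h.mul_right _).mul_right _
    | exact (h'.mul_right _).mul_right _
    | exact (h.mul_left _).mul_right _
    | exact (h'.mul_left _).mul_right _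
    | exact h.mul_left _
    | exact h'.mul_left _

end LocDAux

open WeierstrassCurve WeierstrassCurve.Affine in
theorem card_two_tors {e : Fin 3 → ℤ} (he : dsc e ≠ 0) :
    Nat.card {P : (cvE e).Point // 2 • P = 0} = 4 := by
  let f : Option (Fin 3) → {P : (cvE e).Point // 2 • P = 0} := fun o =>
    match o with
    | none => ⟨0, nsmul_zero _⟩
    | some m => ⟨Point.some (e m : ℚ) 0 (LocDAux.ns_root he m), by
        rw [two_nsmul]
        exact Point.add_of_Y_eq rfl (by simp [negY])⟩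
  have hf : Function.Bijective f := by
    constructor
    · rintro (_ | i) (_ | j) h
      · rfl
      · exact absurd (congrArg Subtype.val h).symm (Point.some_ne_zero _)
      · exact absurd (congrArg Subtype.val h) (Point.some_ne_zero _)
      · have h1 : Point.some (e i : ℚ) 0 (LocDAux.ns_root he i) =
            Point.some (e j : ℚ) 0 (LocDAux.ns_root he j) := congrArg Subtype.val h
        rw [Point.some.injEq] at h1
        by_contra hij
        have hij' : i ≠ j := fun h0 => hij (by rw [h0])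
        exact dsc_ne he hij' (by exact_mod_cast h1.1)
    · rintro ⟨_ | ⟨x, y, h⟩, hP⟩
      · exact ⟨none, rfl⟩
      · have hy : y = 0 := by
          rw [two_nsmul, ← eq_neg_iff_add_eq_zero, Point.neg_some, Point.some.injEq] at hP
          have := hP.2
          simp only [negY, zero_mul, sub_zero] at this
          linarith
        subst hy
        have hq := eqn_cvE h
        have hx : ∃ m : Fin 3, x = e m := by
          have h0 : (x - e 0) * (x - e 1) * (x - e 2) = 0 := by rw [← hq]; ring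
          rcases mul_eq_zero.1 h0 with h1 | h1
          · rcases mul_eq_zero.1 h1 with h2 | h2
            · exact ⟨0, sub_eq_zero.1 h2⟩
            · exact ⟨1, sub_eq_zero.1 h2⟩
          · exact ⟨2, sub_eq_zero.1 h1⟩
        obtain ⟨m, rfl⟩ := hx
        exact ⟨some m, rfl⟩
  rw [← Nat.card_eq_of_bijective f hf]
  simp

/-- decomposition along a list of primes -/
theorem dec {F : ℤ → ZMod 2} (hF : IsQF F) (L : Finset ℕ) (hL : ∀ l ∈ L, l.Prime) {α : ℤ}
    (hα : α ≠ 0) (h : ∀ l : ℕ, l.Prime → l ∉ L → qV l α = 0) :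
    F α = qS α * F (-1) + ∑ l ∈ L, qV l α * F l := by
  have := LocDAux.expand_qf (ι := L) (q := fun i => i.1) (fun i => hL _ i.2)
    Subtype.val_injective hF hα (fun l hl hi => h l hl fun hm => hi ⟨l, hm⟩ rfl)
  rw [this, Finset.sum_coe_sort L fun l => qV l α * F l]

/-- the local conditions at a prime dividing the twisting parameter once -/
theorem local_add {p : ℕ} (hp : p.Prime) {α₀ α₁ α₂ u w c b : ℤ} (h0 : α₀ ≠ 0) (h1 : α₁ ≠ 0)
    (h2 : α₂ ≠ 0) (hb : α₀ * α₁ * α₂ = b ^ 2) (e1 : α₁ = α₀ - p * u * c ^ 2)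
    (e2 : α₂ = α₀ - p * w * c ^ 2) (hu : ¬(p : ℤ) ∣ u) (hw : ¬(p : ℤ) ∣ w)
    (huw : ¬(p : ℤ) ∣ u - w) (hc : (p : ℤ) ∣ c → ¬(p : ℤ) ∣ α₀) :
    qL p α₀ = qV p α₁ * qL p (u * w) + qV p α₀ * qL p u ∧
      qL p α₁ = qV p α₁ * qL p (-u) + qV p α₀ * qL p (u * (u - w)) := by
  have : Fact p.Prime := ⟨hp⟩
  have hF := isQF_qL hp
  have hu0 : u ≠ 0 := by rintro rfl; exact hu (dvd_zero _)
  have hw0 : w ≠ 0 := by rintro rfl; exact hw (dvd_zero _)
  have huw0 : u - w ≠ 0 := by intro h; exact huw (h ▸ dvd_zero _)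
  have e3 : -w - -u = u - w := by ring
  obtain ⟨a1, a2⟩ := LocDAux.local_ram (p := p) (u := -u) (w := -w) (c := c) h0 h1 h2 hb
    (by rw [e1]; ring) (by rw [e2]; ring) (by rwa [dvd_neg]) (by rwa [dvd_neg])
    (by rwa [e3]) hc
  rw [neg_neg] at a1 a2
  rw [e3] at a2
  refine ⟨?_, ?_⟩
  · rw [a1, ← hF _ _ (neg_ne_zero.2 hu0) (neg_ne_zero.2 hw0), neg_mul_neg]
  · rw [a2, hF _ _ hu0 huw0]

/-- if all signs and valuations vanish the point is a double -/
theorem half_of_bits {e : Fin 3 → ℤ} (he : dsc e ≠ 0) (P : (cvE e).Point)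
    (hs : ∀ m : Fin 2, qS (rep (dl e m.castSucc P)) = 0)
    (hv : ∀ (m : Fin 2) (l : ℕ), l.Prime → qV l (rep (dl e m.castSucc P)) = 0) :
    ∃ Q, P = 2 • Q := by
  have key : ∀ m : Fin 2, IsSquare (dl e m.castSucc P) := by
    intro m
    have hne := dl_ne_zero he m.castSucc P
    have hsq : IsSquare (rep (dl e m.castSucc P)) := by
      apply isSquare_of_even_val
      · have := hs m
        simp only [qS, ite_eq_right_iff, one_ne_zero] at this
        exact lt_of_le_of_ne (not_lt.1 this) (rep_ne_zero hne).symm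
      · intro l hl
        rw [← qV_eq_zero]
        exact hv m l hl
    rw [← Rat.isSquare_intCast_iff, rep_cast] at hsq
    obtain ⟨k, hk⟩ := hsq
    have hden : ((dl e m.castSucc P).den : ℚ) ≠ 0 := by simp
    refine ⟨k / (dl e m.castSucc P).den, ?_⟩
    field_simp
    linear_combination hk
  exact halve' he P (key 0) (key 1)

open WeierstrassCurve WeierstrassCurve.Affine in
/-- valuations are even outside the discriminant -/
theorem val_good {e : Fin 3 → ℤ} (he : dsc e ≠ 0) (P : (cvE e).Point) (m : Fin 3) {l : ℕ}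
    (hl : l.Prime) (hd : ¬(l : ℤ) ∣ dsc e) : qV l (rep (dl e m P)) = 0 := by
  have : Fact l.Prime := ⟨hl⟩
  have hpr := Nat.prime_iff_prime_int.1 hl
  have hd' := LocDAux.not_dvd_sub hd
  by_cases hP' : ∀ x y h, P = Point.some x y h → ∀ m, x ≠ e m
  · obtain ⟨a, b, c, α, hac, hα, hne, hb, hF⟩ := point_data P hP'
    rw [hF _ _ (isQF_qV hl), qV_eq_zero]
    refine local_good (hne m) (hne (m + 1)) (hne (m + 2))
      (by rw [← fin3_prod_int, hb]) (c := c)
      (u := e m - e (m + 1)) (w := e m - e (m + 2))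
      (by rw [hα, hα]; ring) (by rw [hα, hα]; ring) (hd' _ _ (fin3_ne2 m))
      (hd' _ _ (fin3_ne1 m)) ?_
    intro hc h
    rw [hα] at h
    have : (l : ℤ) ∣ a := by
      have h2 : (l : ℤ) ∣ e m * c ^ 2 := (dvd_pow hc two_ne_zero).mul_left _
      simpa using dvd_add h h2
    exact hpr.not_isUnit (hac.isUnit_of_dvd' this hc)
  · push Not at hP'
    obtain ⟨x, y, h, rfl, i, rfl⟩ := hP'
    have hr : ∀ n : ℤ, rep (n : ℚ) = n := by intro n; simp [rep]
    simp only [dl]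
    split_ifs with hx
    · rw [← Int.cast_sub, ← Int.cast_sub, ← Int.cast_mul, hr, qV,
        padicValInt.eq_zero_of_not_dvd, Nat.cast_zero]
      intro h
      rcases hpr.dvd_or_dvd h with h | h
      · exact hd' _ _ (fin3_ne1 m) h
      · exact hd' _ _ (fin3_ne2 m) h
    · rw [← Int.cast_sub, hr, qV, padicValInt.eq_zero_of_not_dvd, Nat.cast_zero]
      exact hd' _ _ (by rintro rfl; exact hx rfl)

end Pool.Agent.Lib.MP_7d3fda_nt.R2
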