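import Pool.Agent.Lib.MP_7d3fda_nt.R2.RelPat
import Pool.Agent.Lib.MP_7d3fda_nt.R2.Lift
import Pool.Agent.Lib.MP_7d3fda_nt.R2.DensQ
import Pool.Agent.Lib.MP_7d3fda_nt.R2.LfW
import Pool.Agent.Lib.MP_4b8564_nt.GT.ProgK

open Finset
open scoped Classical NumberTheorySymbols

noncomputable section

namespace Pool.Agent.Lib.MP_7d3fda_nt.R2

open Pool.Agent.Lib.MP_4b8564_nt.GT

namespace MajorAux

theorem cc_lt : ∀ j, cc j < 1864 := by decide

theorem cc_inj : Function.Injective cc := by decide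

theorem pat_f (N : ℕ) [NeZero N] (A : Finset ℕ) (G : ℝ) :
    (av fun z : ZMod N × ZMod N => ∏ j ∈ univ.image (fun j => (⟨cc j, cc_lt j⟩ : Fin 1864)),
      if (z.1 + ((j : ℕ) : ZMod N) * z.2).val ∈ A then G else 0) =
      G ^ 6 * (univ.filter fun z : ZMod N × ZMod N =>
        ∀ j : Fin 6, (z.1 + ((cc j : ℕ) : ZMod N) * z.2).val ∈ A).card / (N : ℝ) ^ 2 := by
  unfold av
  rw [Fintype.card_prod, ZMod.card, Nat.cast_mul, ← sq, card_filter, Nat.cast_sum, mul_sum]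
  congr 1
  refine sum_congr rfl fun p _ => ?_
  beta_reduce
  rw [prod_image fun i _ j _ h => cc_inj (congrArg Fin.val h)]
  by_cases h : ∀ j : Fin 6, (p.1 + ((cc j : ℕ) : ZMod N) * p.2).val ∈ A
  · rw [if_pos h, Finset.prod_congr rfl fun j _ => if_pos (h j)]
    simp
  · rw [if_neg h]
    push Not at h
    obtain ⟨j, h⟩ := h
    rw [Nat.cast_zero, mul_zero]
    exact Finset.prod_eq_zero (mem_univ j) (if_neg h)

end MajorAux

open MajorAux MajorKAux ProgKAux Pool.Agent.Lib.MP_4b8564_nt.Sg in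
theorem major : ∃ E : ℕ, 1600 ≤ E ∧ ∃ c : ℝ, 0 < c ∧ ∃ W : ℕ, 2 ≤ W ∧ ∃ N₀ : ℕ, ∀ N : ℕ,
    N.Prime → N₀ ≤ N → ∃ (R : ℕ) (θ : ℤ) (b : ℕ) (A : Finset ℤ), R ^ E ≤ N ∧ N ≤ R ^ (E + 1) ∧
      (θ = 1 ∨ θ = -1) ∧ b < W ∧ b.Coprime W ∧
      (∀ n ∈ A, 0 ≤ n ∧ n < N ∧ Two θ R ((W : ℤ) * n + b)) ∧
      c * (N : ℝ) ^ 2 / Real.log N ^ 6 ≤ (PU (fun j => (cc j : ℤ)) A N).card := by
  obtain ⟨k, hk⟩ : ∃ k : ℕ, k = 1864 := ⟨_, rfl⟩
  obtain ⟨E, hE⟩ : ∃ E, E = 8 * (k * 2 ^ k) + 2 := ⟨_, rfl⟩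
  have hE2 : 1600 ≤ E := by
    have : 1 ≤ 2 ^ k := Nat.one_le_two_pow
    have := Nat.mul_le_mul_left k this
    omega
  subst hk
  obtain ⟨C, hC, hD⟩ := densQ
  have hE0 : (0 : ℝ) < C * (E + 1) := by positivity
  obtain ⟨η, hη, hη1, c, hc, N₀, hT⟩ := relPat 1864 (by norm_num)
    (univ.image fun j => (⟨cc j, cc_lt j⟩ : Fin 1864)) (1 / (C * (E + 1))) (by positivity)
  obtain ⟨w, R₀, hw2, hw⟩ := lf_psi2 1864 (by norm_num) η hη
  rw [← hE] at hw
  clear hE
  have hW : 1 ≤ primorial w := primorial_pos w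
  have hW2 : 2 ≤ primorial w :=
    Nat.le_of_dvd hW (Nat.prime_two.dvd_primorial_iff.2 hw2)
  obtain ⟨N₁, hN₁⟩ := hD (primorial w) E hW (by omega)
  refine ⟨E, hE2, c / (2 * C) ^ 6, by positivity, primorial w, hW2,
    max (max (max N₀ N₁) 1865) ((2 ^ E + R₀) ^ E), fun N hNp hN => ?_⟩
  have : NeZero N := ⟨hNp.ne_zero⟩
  obtain ⟨R, hR, h8, h9⟩ := exists_root E R₀ N (by omega) (le_of_max_le_right hN)
  have h2E : 0 < 2 ^ E := by positivity
  have hR1 : 1 ≤ R := by omega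
  have hkN : 1864 < N := le_of_max_le_right (le_of_max_le_left hN)
  have hN01 := le_of_max_le_left (le_of_max_le_left hN)
  obtain ⟨θ, hθ, b, hb, hbW, A, hA, hdens⟩ := hN₁ N (le_of_max_le_right hN01) R h8 h9
  have hf := hw N hNp R b (by omega) h8
  have hP : ∀ p ∈ PP w R, 2 ≤ p := fun p hp => (mem_filter.mp hp).2.two_le
  have hG1 := one_le_GG (PP w R) hP R hR1
  have hG0 : 0 < GG (PP w R) R := one_pos.trans_le hG1
  have hge := GG_ge w R hR1
  have h0 : ∀ x : ZMod N, 0 ≤ nu w R b N x := fun x => div_nonneg (sq_nonneg _) hG0.le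
  have hval : ∀ x : ZMod N, x.val ∈ A → nu w R b N x = GG (PP w R) R := by
    intro x hx
    obtain ⟨-, q, p, hq, hp, hm, hRq, -, hRp, -⟩ := hA _ hx
    have hm' : q * p = primorial w * x.val + b := by exact_mod_cast hm
    rw [nu, beta_eq_GG _ _ _ fun r hrP hd => ?_, sq, mul_div_assoc, div_self hG0.ne', mul_one]
    have hr := (mem_filter.mp hrP).2
    have h2 := (mem_Ioc.mp (mem_filter.mp hrP).1).2
    have h3 : R ≤ R ^ 2 := Nat.le_self_pow two_ne_zero R
    rw [← hm'] at hd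
    rcases (Nat.Prime.dvd_mul hr).1 hd with h1 | h1
    · have := (Nat.prime_dvd_prime_iff_eq hr hq).mp h1
      omega
    · have := (Nat.prime_dvd_prime_iff_eq hr hp).mp h1
      omega
  have hAN : ∀ n ∈ A, n < N := fun n hn => by have := (hA n hn).1; omega
  have hN0 : (0 : ℝ) < N := by exact_mod_cast hNp.pos
  have hsum : ∑ x, nu w R b N x ≤ 2 * N := by
    have h1 := (abs_le.mp (hf.mean ⟨0, by omega⟩)).2
    rw [av_psi (by norm_num) hNp hkN, av, ZMod.card, sub_le_iff_le_add, div_le_iff₀ hN0] at h1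
    nlinarith
  have hup := (MajorKAux.card_le N _ h0 A _ hAN hval).trans hsum
  have hW0 : (0 : ℝ) < primorial w := by exact_mod_cast hW
  have hφ : (Nat.totient (primorial w) : ℝ) ≤ primorial w := by
    exact_mod_cast Nat.totient_le _
  have hφ0 : (0 : ℝ) ≤ Nat.totient (primorial w) := Nat.cast_nonneg _
  have hA0 : (0 : ℝ) ≤ A.card := Nat.cast_nonneg _
  have hl0 : 0 < Real.log N := Real.log_pos (by exact_mod_cast hNp.one_lt)
  have hl9 : Real.log N ≤ (E + 1) * Real.log R := by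
    have : (N : ℝ) ≤ (R : ℝ) ^ (E + 1) := by exact_mod_cast h9
    have h2 := Real.log_le_log hN0 this
    rwa [Real.log_pow, Nat.cast_succ] at h2
  obtain ⟨G, hG⟩ : ∃ G, G = GG (PP w R) R := ⟨_, rfl⟩
  rw [← hG] at hG0 hge hval hup
  have hGle : G ≤ 2 * C * Real.log N := by
    have h1 : (primorial w : ℝ) * N ≤ primorial w * (C * (A.card * Real.log N)) := by
      have := mul_le_mul_of_nonneg_right hφ (mul_nonneg hC.le (mul_nonneg hA0 hl0.le))
      linarith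
    have h2 := le_of_mul_le_mul_left h1 hW0
    have h3 := mul_le_mul_of_nonneg_left h2 hG0.le
    have h4 := mul_le_mul_of_nonneg_right hup (mul_nonneg hC.le hl0.le)
    have h5 : G * N ≤ 2 * C * Real.log N * N := by linarith
    exact le_of_mul_le_mul_right h5 hN0
  have hδ : 1 / (C * (E + 1)) * N ≤ G * A.card := by
    rw [div_mul_eq_mul_div, div_le_iff₀ hW0] at hge
    have h1 := mul_le_mul_of_nonneg_left hl9 (mul_nonneg hC.le (mul_nonneg hφ0 hA0))
    have h2 := mul_le_mul_of_nonneg_right hge (mul_nonneg hA0 hE0.le)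
    have h3 : (primorial w : ℝ) * N ≤ primorial w * (G * A.card * (C * (E + 1))) := by
      linarith
    rw [div_mul_eq_mul_div, one_mul, div_le_iff₀ hE0]
    exact le_of_mul_le_mul_left h3 hW0
  have hlam := hT N hNp (le_of_max_le_left hN01) (nu w R b N) (fun x => if x.val ∈ A then G else 0)
    (fun x => by
      by_cases h : x.val ∈ A
      · simp [h, hG0.le, hval x h]
      · simp [h, h0 x])
    (by
      unfold av
      rw [sum_f N A hAN, ZMod.card, le_div_iff₀ hN0]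
      exact hδ) hf
  rw [pat_f, le_div_iff₀ (by positivity)] at hlam
  refine ⟨R, θ, b, A.image fun n : ℕ => (n : ℤ), h8, h9, hθ, hb, hbW, fun n hn => ?_, ?_⟩
  · obtain ⟨m, hm, rfl⟩ := mem_image.1 hn
    exact ⟨Int.natCast_nonneg m, by exact_mod_cast hAN m hm, (hA m hm).2⟩
  · have hcard := (Nat.cast_le (α := ℝ)).2 (lift_pat N A fun n hn => (hA n hn).1)
    have k1 := hlam.trans (mul_le_mul (pow_le_pow_left₀ hG0.le hGle 6) hcard (Nat.cast_nonneg _)
      (by positivity))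
    rw [div_le_iff₀ (by positivity), div_mul_eq_mul_div, div_le_iff₀ (by positivity)]
    refine k1.trans (le_of_eq ?_)
    ring

end Pool.Agent.Lib.MP_7d3fda_nt.R2
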