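import Pool.Agent.Lib.MP_7d3fda_nt.R2.Shift
import Pool.Agent.Lib.MP_7d3fda_nt.R2.BoxLe
import Pool.Agent.Lib.MP_7d3fda_nt.R2.Bilin

open Finset
open scoped Classical NumberTheorySymbols

noncomputable section

namespace Pool.Agent.Lib.MP_7d3fda_nt.R2

open Pool.Agent.Lib.MP_4b8564_nt.GT

namespace SymbAux

/-- a nonzero integer of size at most `R ^ k` has at most `k` prime factors above `R` -/
theorem few_primes (L : ℤ) (hL : L ≠ 0) (R k : ℕ) (hR : 2 ≤ R) (hLk : |L| ≤ (R : ℤ) ^ k)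
    (P : Finset ℕ) (hP : ∀ q ∈ P, q.Prime ∧ R < q) :
    (P.filter fun q : ℕ => (q : ℤ) ∣ L).card ≤ k := by
  set S := P.filter fun q : ℕ => (q : ℤ) ∣ L with hS
  have hd : (∏ p ∈ S, p) ∣ L.natAbs := by
    refine Finset.prod_primes_dvd _ (fun a ha => ?_) (fun a ha => ?_)
    · exact (hP a (mem_filter.1 ha).1).1.prime
    · exact Int.natCast_dvd.1 (mem_filter.1 ha).2
  have h1 : (∏ p ∈ S, p) ≤ L.natAbs := Nat.le_of_dvd (Int.natAbs_pos.2 hL) hd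
  have h2 : R ^ S.card ≤ ∏ p ∈ S, p :=
    Finset.pow_card_le_prod S (fun p => p) R fun a ha => (hP a (mem_filter.1 ha).1).2.le
  have h3 : L.natAbs ≤ R ^ k := by
    have : (L.natAbs : ℤ) ≤ ((R ^ k : ℕ) : ℤ) := by
      rw [Int.natCast_natAbs, Nat.cast_pow]; exact hLk
    exact_mod_cast this
  exact (Nat.pow_le_pow_iff_right (by omega)).1 (h2.trans (h1.trans h3))

theorem mem_PU {ι : Type} [Fintype ι] [DecidableEq ι] {c : ι → ℤ} {A : Finset ℤ} {N : ℕ}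
    {z : ℤ × ℤ} (hz : z ∈ PU c A N) (j : ι) : z.1 + c j * z.2 ∈ A :=
  (mem_filter.1 hz).2 j

theorem cc_le (j : Fin 6) : cc j ≤ 1863 := by
  fin_cases j <;> simp [cc]

theorem cc_inj : Function.Injective fun j : Fin 6 => (cc j : ℤ) := by
  intro i j h
  have h' : cc i = cc j := Int.natCast_inj.1 h
  fin_cases i <;> fin_cases j <;> simp [cc] at h' ⊢

theorem cc_abs (j : Fin 6) : |(cc j : ℤ)| ≤ (1863 : ℕ) := by
  rw [abs_of_nonneg (Int.natCast_nonneg _)]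
  exact_mod_cast cc_le j

theorem cc_sub (i j : Fin 6) : |(cc i : ℤ) - cc j| ≤ 1863 := by
  have h1 : (cc i : ℤ) ≤ 1863 := by exact_mod_cast cc_le i
  have h2 : (cc j : ℤ) ≤ 1863 := by exact_mod_cast cc_le j
  have h3 : (0 : ℤ) ≤ cc i := Int.natCast_nonneg _
  have h4 : (0 : ℤ) ≤ cc j := Int.natCast_nonneg _
  rw [abs_le]; constructor <;> linarith

theorem adm_le : (Adm (Fin 6)).card ≤ 384 := by
  have h := card_le_univ (Adm (Fin 6))
  rw [Fintype.card_prod, Fintype.card_finset, Fintype.card_fin] at h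
  exact h

theorem ok (W R : ℕ) (hW : 2 ≤ W) (hWR : W ≤ R) (hR : 1863 ≤ R) (P : Finset ℕ)
    (hP : ∀ q ∈ P, q.Prime ∧ R < q ∧ q ≤ R ^ 2) :
    Ok (fun j : Fin 6 => (cc j : ℤ)) (W : ℤ) R P := by
  intro q hq
  obtain ⟨h1, h2, h3⟩ := hP q hq
  refine ⟨h1, h2, h3, fun h => ?_, fun i j hij h => ?_⟩
  · have := Nat.le_of_dvd (by omega) (Int.natCast_dvd_natCast.1 h)
    omega
  · have hne : (cc i : ℤ) - cc j ≠ 0 := fun h0 => hij (cc_inj (sub_eq_zero.1 h0))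
    have h4 := Int.le_of_dvd (abs_pos.2 hne) ((dvd_abs _ _).2 h)
    have h5 := cc_sub i j
    have h6 : (1863 : ℤ) < q := by exact_mod_cast lt_of_le_of_lt hR h2
    linarith

theorem few (E W R N H b : ℕ) (hW : 2 ≤ W) (hbW : b < W) (hb : b.Coprime W)
    (hR : W * 100000000 ≤ R) (hN1 : 1 ≤ N) (hN : N ≤ R ^ (E + 1)) (hH : H ≤ N) (P : Finset ℕ)
    (hP : ∀ q ∈ P, q.Prime ∧ R < q ∧ q ≤ R ^ 2) (u v : ℤ) (hu : |u| ≤ (11185 * N : ℕ))
    (hv : |v| ≤ (11185 * N : ℕ)) :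
    Few (fun j : Fin 6 => (cc j : ℤ)) (W : ℤ)
      (fun j => (W : ℤ) * (u + (cc j : ℤ) * v) + b) P H ((E : ℝ) + 2) := by
  intro j h hh
  have hR2 : 2 ≤ R := by omega
  set T : ℤ := u + (cc j : ℤ) * v + ∑ i, ((cc j : ℤ) - cc i) * h i with hT
  have hL : Lf (fun j : Fin 6 => (cc j : ℤ)) (W : ℤ)
      (fun j => (W : ℤ) * (u + (cc j : ℤ) * v) + b) j h = W * T + b := by
    simp only [Lf, hT]; ring
  rw [hL]
  have hne : (W : ℤ) * T + b ≠ 0 := by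
    intro h0
    have hd : (W : ℤ) ∣ (b : ℤ) := ⟨-T, by linarith⟩
    have hd' : W ∣ b := Int.natCast_dvd_natCast.1 hd
    have := Nat.Coprime.eq_one_of_dvd hb.symm hd'
    omega
  have hNz : (1 : ℤ) ≤ N := by exact_mod_cast hN1
  have hHz : (H : ℤ) ≤ N := by exact_mod_cast hH
  have hs : |∑ i, ((cc j : ℤ) - cc i) * h i| ≤ 6 * (1863 * N) := by
    refine (Finset.abs_sum_le_sum_abs _ _).trans ?_
    have : ∀ i ∈ (univ : Finset (Fin 6)), |((cc j : ℤ) - cc i) * h i| ≤ 1863 * N := by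
      intro i _
      rw [abs_mul]
      refine mul_le_mul (cc_sub j i) ?_ (abs_nonneg _) (by norm_num)
      rw [abs_of_nonneg (hh i).1]
      linarith [(hh i).2]
    refine (Finset.sum_le_card_nsmul _ _ _ this).trans ?_
    simp
  have hcv : |(cc j : ℤ) * v| ≤ 1863 * (11185 * N) := by
    rw [abs_mul]
    refine mul_le_mul ?_ ?_ (abs_nonneg _) (by norm_num)
    · exact_mod_cast cc_abs j
    · exact_mod_cast hv
  have hu' : |u| ≤ 11185 * N := by exact_mod_cast hu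
  have hTb : |T| ≤ 99999999 * N := by
    have h1 := abs_add_le (u + (cc j : ℤ) * v) (∑ i, ((cc j : ℤ) - cc i) * h i)
    have h2 := abs_add_le u ((cc j : ℤ) * v)
    rw [hT]; linarith
  have hWz : (0 : ℤ) ≤ W := Int.natCast_nonneg _
  have hbz : (b : ℤ) ≤ W := by exact_mod_cast hbW.le
  have hRz : (W : ℤ) * 100000000 ≤ R := by exact_mod_cast hR
  have hNR : (N : ℤ) ≤ (R : ℤ) ^ (E + 1) := by exact_mod_cast hN
  have hLb : |(W : ℤ) * T + b| ≤ (R : ℤ) ^ (E + 2) := by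
    have h1 := abs_add_le ((W : ℤ) * T) b
    rw [abs_mul, abs_of_nonneg hWz, abs_of_nonneg (Int.natCast_nonneg b)] at h1
    have h2 : (W : ℤ) * |T| ≤ W * (99999999 * N) := mul_le_mul_of_nonneg_left hTb hWz
    have h3 : (W : ℤ) * 1 ≤ W * N := mul_le_mul_of_nonneg_left hNz hWz
    have h4 : (W : ℤ) * 100000000 * N ≤ R * N := mul_le_mul_of_nonneg_right hRz (by linarith)
    have h5 : (R : ℤ) * N ≤ R * (R : ℤ) ^ (E + 1) :=
      mul_le_mul_of_nonneg_left hNR (Int.natCast_nonneg _)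
    have h6 : (R : ℤ) ^ (E + 2) = R * (R : ℤ) ^ (E + 1) := by ring
    rw [h6]; linarith
  have := few_primes _ hne R (E + 2) hR2 hLb P fun q hq => ⟨(hP q hq).1, (hP q hq).2.1⟩
  exact_mod_cast this

theorem inv_le_log (m : ℕ) (c η : ℝ) (hc : 0 ≤ c) (hη : 0 < η) :
    ∃ R₀ : ℕ, ∀ R : ℕ, R₀ ≤ R → c / R ≤ η / Real.log R ^ m := by
  have h := (Real.isLittleO_pow_log_id_atTop (n := m)).bound
    (show 0 < η / (c + 1) by positivity)
  obtain ⟨x, hx⟩ := Filter.eventually_atTop.1 h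
  refine ⟨⌈x⌉₊ + 2, fun R hR => ?_⟩
  have hxR : x ≤ (R : ℝ) := by
    have h1 : x ≤ (⌈x⌉₊ : ℝ) := Nat.le_ceil x
    have h2 : ((⌈x⌉₊ : ℕ) : ℝ) ≤ R := by exact_mod_cast (by omega : ⌈x⌉₊ ≤ R)
    linarith
  have hR2 : (2 : ℝ) ≤ R := by exact_mod_cast (by omega : 2 ≤ R)
  have hlog : 0 < Real.log R := Real.log_pos (by linarith)
  have hpow : 0 < Real.log R ^ m := pow_pos hlog m
  have h1 := hx R hxR
  rw [Real.norm_eq_abs, Real.norm_eq_abs, abs_of_pos hpow, id, abs_of_pos (by linarith)] at h1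
  rw [div_le_div_iff₀ (by linarith) hpow]
  have h2 : (c + 1) * Real.log R ^ m ≤ (c + 1) * (η / (c + 1) * R) :=
    mul_le_mul_of_nonneg_left h1 (by linarith)
  have h3 : (c + 1) * (η / (c + 1) * R) = η * R := by field_simp
  nlinarith

/-- the numerical inequality -/
theorem numer (T a e lN lR x y : ℝ) (m k : ℕ) (hT : 0 < T) (ha : 0 < a) (he : 0 < e)
    (hlN : 0 < lN) (hlR : 0 < lR) (hl : lN ≤ e * lR)
    (hx : x ≤ a ^ k / e ^ (m * k) / (2 * T) / lR ^ (m * k))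
    (hy : y ≤ a ^ k / e ^ (m * k) / (2 * T) / lR ^ (m * k)) :
    T * (x + y) ≤ (a / lN ^ m) ^ k := by
  have h1 : T * (x + y) ≤ T * (2 * (a ^ k / e ^ (m * k) / (2 * T) / lR ^ (m * k))) :=
    mul_le_mul_of_nonneg_left (by linarith) hT.le
  have h2 : T * (2 * (a ^ k / e ^ (m * k) / (2 * T) / lR ^ (m * k))) =
      a ^ k / (e * lR) ^ (m * k) := by
    rw [mul_pow]; field_simp
  have h3 : (a / lN ^ m) ^ k = a ^ k / lN ^ (m * k) := by rw [div_pow, ← pow_mul]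
  rw [h3]
  refine h1.trans (h2.le.trans ?_)
  exact div_le_div_of_nonneg_left (by positivity) (by positivity)
    (pow_le_pow_left₀ hlN.le hl _)

end SymbAux

theorem symb (E W : ℕ) (hE : 1600 ≤ E) (hW : 2 ≤ W) (ε : ℝ) (hε : 0 < ε) :
    ∃ N₀ : ℕ, ∀ N : ℕ, N₀ ≤ N → ∀ R : ℕ, R ^ E ≤ N → N ≤ R ^ (E + 1) → ∀ b : ℕ, b < W →
      b.Coprime W → ∀ P : Finset ℕ, (∀ q ∈ P, q.Prime ∧ R < q ∧ q ≤ R ^ 2) →
      ∀ (A : Finset ℤ) (qf : ℤ → ℕ),
        (∀ n ∈ A, 0 ≤ n ∧ n < N ∧ qf n ∈ P ∧ ∀ q ∈ P, ((q : ℤ) ∣ W * n + b ↔ q = qf n)) →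
        ∀ (G : Finset (Fin 6 × Fin 6)) (B : Finset (Fin 6)), (∀ e ∈ G, e.1 < e.2) →
          G.Nonempty ∨ B.Nonempty →
          |∑ z ∈ PU (fun j => (cc j : ℤ)) A N,
            Gam G B (W * z.2) fun j => qf (z.1 + cc j * z.2)| ≤
            ε * (N : ℝ) ^ 2 / Real.log N ^ 6 := by
  obtain ⟨a, ha⟩ : ∃ a, a = (Adm (Fin 6)).card := ⟨_, rfl⟩
  obtain ⟨k4, hk4⟩ : ∃ k4, k4 = 4 ^ Fintype.card (Fin 6) := ⟨_, rfl⟩
  obtain ⟨k2, hk2⟩ : ∃ k2, k2 = 2 ^ Fintype.card (Fin 6) := ⟨_, rfl⟩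
  obtain ⟨K, hK⟩ : ∃ K : ℝ, K = (E : ℝ) + 2 := ⟨_, rfl⟩
  have hE0 : (0 : ℝ) ≤ E := Nat.cast_nonneg E
  have hK1 : 1 ≤ K := by rw [hK]; linarith
  have hK0 : 0 < K := by linarith
  obtain ⟨T, hT⟩ : ∃ T : ℝ, T = K ^ k4 * K ^ a := ⟨_, rfl⟩
  have hT0 : 0 < T := by rw [hT]; positivity
  obtain ⟨α, hα⟩ : ∃ α : ℝ, α = ε / 33555 ^ 2 := ⟨_, rfl⟩
  have hα0 : 0 < α := by rw [hα]; positivity
  obtain ⟨η, hη⟩ : ∃ η : ℝ, η = α ^ k2 / ((E : ℝ) + 1) ^ (6 * k2) / (2 * T) := ⟨_, rfl⟩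
  have hη0 : 0 < η := by rw [hη]; positivity
  obtain ⟨R₁, hR₁⟩ := bilin (6 * k2) η hη0
  obtain ⟨R₂, hR₂⟩ := SymbAux.inv_le_log (6 * k2)
    (4 * (a : ℝ) ^ 2 + 16 * (Fintype.card (Fin 6) : ℝ)) η (by positivity) hη0
  refine ⟨(R₁ + R₂ + W * 100000000) ^ (E + 1), ?_⟩
  intro N hN R hRN hNR b hbW hb P hP A qf hA G B hG hGB
  have hR0 : R₁ + R₂ + W * 100000000 ≤ R :=
    (Nat.pow_le_pow_iff_left (by omega)).1 (hN.trans hNR)
  have hR2 : 2 ≤ R := by omega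
  have hN2 : 2 ≤ N := by
    have h1 : R ^ 1 ≤ R ^ E := Nat.pow_le_pow_right (by omega) (by omega)
    rw [pow_one] at h1
    omega
  have hN2r : (2 : ℝ) ≤ N := by exact_mod_cast hN2
  have hR2r : (2 : ℝ) ≤ R := by exact_mod_cast hR2
  have hlN : 0 < Real.log N := Real.log_pos (by linarith)
  have hlR : 0 < Real.log R := Real.log_pos (by linarith)
  rcases P.eq_empty_or_nonempty with hPe | hne
  · have hPU : PU (fun j => (cc j : ℤ)) A N = ∅ := by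
      refine Finset.eq_empty_of_forall_notMem fun z hz => ?_
      have h1 := SymbAux.mem_PU hz 0
      have h2 := (hA _ h1).2.2.1
      rw [hPe] at h2
      exact Finset.notMem_empty _ h2
    rw [hPU, Finset.sum_empty, abs_zero]
    positivity
  have ha384 : a ≤ 384 := ha ▸ SymbAux.adm_le
  have hHN : R ^ (4 * a + 2) ≤ N :=
    (Nat.pow_le_pow_right (by omega) (by omega)).trans hRN
  have hH0 : 0 < R ^ (4 * a + 2) := Nat.pow_pos (by omega)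
  have hl : Real.log N ≤ ((E : ℝ) + 1) * Real.log R := by
    have h1 : (N : ℝ) ≤ (R : ℝ) ^ (E + 1) := by exact_mod_cast hNR
    have h2 := Real.log_le_log (by linarith) h1
    rw [Real.log_pow] at h2
    exact_mod_cast h2
  have hOk := SymbAux.ok W R hW (by omega) (by omega) P hP
  have hF : ∀ u v : ℤ, |u| ≤ (11185 * N : ℕ) → |v| ≤ (11185 * N : ℕ) →
      Few (fun j : Fin 6 => (cc j : ℤ)) (W : ℤ)
        (fun j => (W : ℤ) * (u + (cc j : ℤ) * v) + b) P (R ^ (4 * a + 2)) K := by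
    intro u v hu hv
    rw [hK]
    exact SymbAux.few E W R N _ b hW hbW hb (by omega) (by omega) hNR hHN P hP u v hu hv
  have hG' : ∀ e ∈ G, e.1 ≠ e.2 ∧ (e.2, e.1) ∉ G := fun e he =>
    ⟨(hG e he).ne, fun h => lt_asymm (hG e he) (hG _ h)⟩
  have hmain := shift (fun j : Fin 6 => (cc j : ℤ)) SymbAux.cc_inj 4 (by simp [cc]) 1863
    SymbAux.cc_abs (W : ℤ) (b : ℤ) G B P hne N (R ^ (4 * a + 2)) hH0 hHN A qf hA K
    (α / Real.log N ^ 6) hK1 (by positivity) (11185 * N)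
    (by rw [Fintype.card_fin]) hF (by
      intro u v hu hv
      have h1 := box_le ((W : ℤ) * v) hOk hne hR2 (ha ▸ le_rfl) (hF u v hu hv) hK1
        (hR₁ R (by omega) P hP) hG' hGB
      rw [← ha] at h1
      rw [← hk4, ← hk2]
      refine (mul_le_mul_of_nonneg_left h1 (by positivity)).trans ?_
      rw [← mul_assoc, ← hT]
      refine SymbAux.numer T α ((E : ℝ) + 1) _ _ _ _ 6 k2 hT0 hα0 (by linarith) hlN hlR hl ?_ ?_
      · rw [← hη]
      · rw [← hη]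
        exact hR₂ R (by omega))
  refine hmain.trans ?_
  have h1 : (2 * ((11185 * N : ℕ) : ℝ) + 1) ≤ 33555 * N := by
    push_cast; linarith
  have h2 : (2 * ((11185 * N : ℕ) : ℝ) + 1) ^ 2 ≤ (33555 * (N : ℝ)) ^ 2 :=
    pow_le_pow_left₀ (by positivity) h1 2
  refine (mul_le_mul_of_nonneg_right h2 (by positivity)).trans (le_of_eq ?_)
  rw [hα]; field_simp

end Pool.Agent.Lib.MP_7d3fda_nt.R2
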