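import Pool.Agent.Lib.MP_7d3fda_nt.R2.Major
import Pool.Agent.Lib.MP_7d3fda_nt.R2.Symb
import Pool.Agent.Lib.MP_7d3fda_nt.R2.BadPat

open Finset
open scoped Classical NumberTheorySymbols

noncomputable section

namespace Pool.Agent.Lib.MP_7d3fda_nt.R2

open Pool.Agent.Lib.MP_4b8564_nt.GT

namespace ManyAux

/-- the ordered pairs -/
def G0 : Finset (Fin 6 × Fin 6) := univ.filter fun e => e.1 < e.2

/-- the detector -/
def F (s : ℤ) (y : Fin 6 → ℕ) : ℝ :=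
  (∏ e ∈ G0, (1 + (J((y e.1 : ℤ) | y e.2) : ℝ))) * ∏ j, (1 + (yy j : ℝ) * (J(s | y j) : ℝ))

/-- the number of terms -/
def K : ℝ := 2 ^ G0.card * 2 ^ 6

theorem mem_G0 (e : Fin 6 × Fin 6) : e ∈ G0 ↔ e.1 < e.2 := by
  rw [G0, Finset.mem_filter]
  exact ⟨fun h => h.2, fun h => ⟨Finset.mem_univ _, h⟩⟩

theorem K_pos : 0 < K := by unfold K; positivity

theorem yy_cases (j : Fin 6) : yy j = 1 ∨ yy j = -1 := by
  fin_cases j <;> simp [yy]

theorem cc_ne (i j : Fin 6) (h : i ≠ j) : (cc i : ℤ) - cc j ≠ 0 ∧ |(cc i : ℤ) - cc j| ≤ 1863 := by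
  fin_cases i <;> fin_cases j <;> simp [cc] at h ⊢

theorem F_expand (s : ℤ) (y : Fin 6 → ℕ) :
    F s y = ∑ x ∈ G0.powerset ×ˢ (univ : Finset (Fin 6)).powerset,
      (∏ j ∈ x.2, (yy j : ℝ)) * Gam x.1 x.2 s y := by
  unfold F Gam
  rw [Finset.prod_one_add, Finset.prod_one_add, Finset.sum_mul_sum, Finset.sum_product]
  refine Finset.sum_congr rfl fun G _ => Finset.sum_congr rfl fun B _ => ?_
  rw [Finset.prod_mul_distrib]
  ring

theorem F_le (s : ℤ) (y : Fin 6 → ℕ) : F s y ≤ K := by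
  have h1 : ∀ (a : ℤ) (n : ℕ), 0 ≤ 1 + (J(a | n) : ℝ) ∧ 1 + (J(a | n) : ℝ) ≤ 2 := by
    intro a n
    rcases jacobiSym.trichotomy a n with h | h | h <;> rw [h] <;> norm_num
  have h2 : ∀ (j : Fin 6) (a : ℤ) (n : ℕ),
      0 ≤ 1 + (yy j : ℝ) * (J(a | n) : ℝ) ∧ 1 + (yy j : ℝ) * (J(a | n) : ℝ) ≤ 2 := by
    intro j a n
    rcases jacobiSym.trichotomy a n with h | h | h <;> rcases yy_cases j with h' | h' <;>
      rw [h, h'] <;> norm_num
  unfold F K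
  refine mul_le_mul ?_ ?_ (Finset.prod_nonneg fun j _ => (h2 j _ _).1) (by positivity)
  · calc _ ≤ ∏ _e ∈ G0, (2 : ℝ) :=
          Finset.prod_le_prod (fun e _ => (h1 _ _).1) fun e _ => (h1 _ _).2
      _ = _ := by rw [Finset.prod_const]
  · calc _ ≤ ∏ _j : Fin 6, (2 : ℝ) :=
          Finset.prod_le_prod (fun j _ => (h2 j _ _).1) fun j _ => (h2 j _ _).2
      _ = _ := by simp

/-- all symbols have the prescribed values -/
def Sy (s : ℤ) (y : Fin 6 → ℕ) : Prop :=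
  (∀ i j, i < j → J((y i : ℤ) | y j) = 1) ∧ ∀ j, J(s | y j) = yy j

theorem F_zero (s : ℤ) (y : Fin 6 → ℕ) (h1 : ∀ i j, i < j → J((y i : ℤ) | y j) ≠ 0)
    (h2 : ∀ j, J(s | y j) ≠ 0) (h : ¬Sy s y) : F s y = 0 := by
  by_contra hF
  obtain ⟨ha, hb⟩ := mul_ne_zero_iff.1 hF
  refine h ⟨fun i j hij => ?_, fun j => ?_⟩
  · have := Finset.prod_ne_zero_iff.1 ha (i, j) ((mem_G0 _).2 hij)
    rcases jacobiSym.trichotomy (y i : ℤ) (y j) with h' | h' | h'
    · exact absurd h' (h1 i j hij)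
    · exact h'
    · exact absurd (by simp [h']) this
  · have := Finset.prod_ne_zero_iff.1 hb j (Finset.mem_univ j)
    rcases jacobiSym.trichotomy s (y j) with h' | h' | h'
    · exact absurd h' (h2 j)
    · rcases yy_cases j with h'' | h''
      · rw [h', h'']
      · exact absurd (by simp [h', h'']) this
    · rcases yy_cases j with h'' | h''
      · exact absurd (by simp [h', h'']) this
      · rw [h', h'']

theorem dvd_of_jac {a : ℤ} {q : ℕ} (hq : q.Prime) (h : J(a | q) = 0) : (q : ℤ) ∣ a := by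
  have h' := (jacobiSym.eq_zero_iff.1 h).2
  by_contra hd
  apply h'
  have hc : IsCoprime (q : ℤ) a :=
    (Prime.coprime_iff_not_dvd (Nat.prime_iff_prime_int.1 hq)).2 hd
  exact Int.isCoprime_iff_gcd_eq_one.1 hc.symm

theorem sum_gen {α : Type} (X : Finset α) (x0 : α) (h0 : x0 ∈ X) (f : α → ℝ) (a η : ℝ)
    (hη : 0 ≤ η) (h1 : f x0 = a) (h2 : ∀ x ∈ X, x ≠ x0 → |f x| ≤ η) :
    a - X.card * η ≤ ∑ x ∈ X, f x := by
  have key : ∀ x ∈ X, (if x = x0 then a else 0) - η ≤ f x := by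
    intro x hx
    split_ifs with hx0
    · rw [hx0, h1]
      linarith
    · have := (abs_le.1 (h2 x hx hx0)).1
      linarith
  have h4 := Finset.sum_le_sum key
  rw [Finset.sum_sub_distrib, Finset.sum_ite_eq' X, if_pos h0, Finset.sum_const,
    nsmul_eq_mul] at h4
  exact h4

theorem sum_lower' {ι : Type} [Fintype ι] [DecidableEq ι] [LT ι] (G1 : Finset (ι × ι))
    (B1 : Finset ι) (hG1 : ∀ e ∈ G1, e.1 < e.2) (w : ι → ℝ) (hw : ∀ j, |w j| = 1)
    (U : Finset (ℤ × ℤ)) (s : ℤ × ℤ → ℤ) (y : ℤ × ℤ → ι → ℕ) (η : ℝ) (hη : 0 ≤ η)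
    (h : ∀ (G : Finset (ι × ι)) (B : Finset ι), (∀ e ∈ G, e.1 < e.2) →
      G.Nonempty ∨ B.Nonempty → |∑ z ∈ U, Gam G B (s z) (y z)| ≤ η) :
    (U.card : ℝ) - 2 ^ G1.card * 2 ^ B1.card * η ≤
      ∑ z ∈ U, ∑ x ∈ G1.powerset ×ˢ B1.powerset, (∏ j ∈ x.2, w j) * Gam x.1 x.2 (s z) (y z) := by
  rw [Finset.sum_comm]
  have hcard : ((G1.powerset ×ˢ B1.powerset).card : ℝ) = 2 ^ G1.card * 2 ^ B1.card := by
    rw [Finset.card_product, Finset.card_powerset, Finset.card_powerset]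
    push_cast
    rfl
  rw [← hcard]
  refine sum_gen _ (∅, ∅)
    (Finset.mem_product.2 ⟨Finset.empty_mem_powerset _, Finset.empty_mem_powerset _⟩) _ _ _ hη
    ?_ fun x hx hx0 => ?_
  · simp only [Gam, Finset.prod_empty, mul_one, Finset.sum_const, nsmul_eq_mul]
  · rw [← Finset.mul_sum]
    have hG : ∀ e ∈ x.1, e.1 < e.2 := fun e he =>
      hG1 e (Finset.mem_powerset.1 (Finset.mem_product.1 hx).1 he)
    have hne : x.1.Nonempty ∨ x.2.Nonempty := by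
      by_contra hc
      rw [not_or, Finset.not_nonempty_iff_eq_empty, Finset.not_nonempty_iff_eq_empty] at hc
      exact hx0 (Prod.ext hc.1 hc.2)
    have h2 : |∏ j ∈ x.2, w j| = 1 := by
      rw [Finset.abs_prod]
      exact Finset.prod_eq_one fun j _ => hw j
    rw [abs_mul, h2, one_mul]
    exact h x.1 x.2 hG hne

theorem sum_lower (U : Finset (ℤ × ℤ)) (s : ℤ × ℤ → ℤ) (y : ℤ × ℤ → Fin 6 → ℕ) (η : ℝ)
    (hη : 0 ≤ η)
    (h : ∀ (G : Finset (Fin 6 × Fin 6)) (B : Finset (Fin 6)), (∀ e ∈ G, e.1 < e.2) →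
      G.Nonempty ∨ B.Nonempty → |∑ z ∈ U, Gam G B (s z) (y z)| ≤ η) :
    (U.card : ℝ) - K * η ≤ ∑ z ∈ U, F (s z) (y z) := by
  rw [Finset.sum_congr rfl fun z _ => F_expand (s z) (y z)]
  have h1 := sum_lower' G0 univ (fun e he => (mem_G0 e).1 he) (fun j => (yy j : ℝ))
    (fun j => by rcases yy_cases j with h' | h' <;> rw [h'] <;> norm_num) U s y η hη h
  rw [Finset.card_univ, Fintype.card_fin] at h1
  exact h1

theorem log_small (E : ℕ) (κ : ℝ) (hκ : 0 < κ) :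
    ∃ R₀ : ℕ, ∀ R : ℕ, R₀ ≤ R → ((E + 1 : ℝ) * Real.log R) ^ 6 ≤ κ * R := by
  have hpos : 0 < κ / (E + 1 : ℝ) ^ 6 := by positivity
  have h := (Real.isLittleO_pow_log_id_atTop (n := 6)).def hpos
  have h' := tendsto_natCast_atTop_atTop (R := ℝ) |>.eventually h
  obtain ⟨R₀, hR₀⟩ := Filter.eventually_atTop.1 h'
  refine ⟨R₀, fun R hR => ?_⟩
  have h1 := hR₀ R hR
  simp only [Real.norm_eq_abs, id] at h1
  rw [Nat.abs_cast] at h1
  have h2 : Real.log R ^ 6 ≤ κ / (E + 1 : ℝ) ^ 6 * R := (le_abs_self _).trans h1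
  have h3 : (0 : ℝ) < (E + 1 : ℝ) ^ 6 := by positivity
  calc ((E + 1 : ℝ) * Real.log R) ^ 6 = (E + 1 : ℝ) ^ 6 * Real.log R ^ 6 := mul_pow _ _ _
    _ ≤ (E + 1 : ℝ) ^ 6 * (κ / (E + 1 : ℝ) ^ 6 * R) := mul_le_mul_of_nonneg_left h2 h3.le
    _ = κ * R := by field_simp

end ManyAux

open ManyAux in
theorem many : ∃ c : ℝ, 0 < c ∧ ∃ W : ℕ, 1 ≤ W ∧ ∃ N₀ : ℕ, ∀ N : ℕ, N.Prime → N₀ ≤ N →
    ∃ T : Finset (ℤ × ℤ), (∀ z ∈ T, Good z.1 z.2 ∧ ∀ j, z.1 + cc j * z.2 ≤ (W : ℤ) * N) ∧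
      c * (N : ℝ) ^ 2 / Real.log N ^ 6 ≤ T.card := by
  obtain ⟨E, hE, c, hc, W, hW, N₀, hmaj⟩ := major
  have hK := K_pos
  obtain ⟨N₁, hsymb⟩ := symb E W hE hW (c / (4 * K)) (by positivity)
  obtain ⟨R₀, hR₀⟩ := log_small E (c / (64 * K)) (by positivity)
  refine ⟨c / (2 * K), by positivity, W, by omega,
    max (max N₀ N₁) ((max R₀ (max W 1863)) ^ (E + 1)), fun N hNp hN => ?_⟩
  obtain ⟨R, θ, b, A, hRN, hNR, hθ, hbW, hcop, hA, hcard⟩ :=
    hmaj N hNp ((le_max_left _ _).trans ((le_max_left _ _).trans hN))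
  have hRbig : max R₀ (max W 1863) ≤ R :=
    (Nat.pow_le_pow_iff_left (Nat.succ_ne_zero E)).1 (((le_max_right _ _).trans hN).trans hNR)
  have hR0 : R₀ ≤ R := (le_max_left _ _).trans hRbig
  have hRW : W ≤ R := (le_max_left _ _).trans ((le_max_right _ _).trans hRbig)
  have hR1 : 1863 ≤ R := (le_max_right _ _).trans ((le_max_right _ _).trans hRbig)
  have hR2 : R ^ 2 ≤ N := (Nat.pow_le_pow_right (by omega) (by omega)).trans hRN
  set P : Finset ℕ := (Ioc R (R ^ 2)).filter Nat.Prime with hP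
  have hPm : ∀ q, q ∈ P ↔ q.Prime ∧ R < q ∧ q ≤ R ^ 2 := by
    intro q
    simp only [hP, Finset.mem_filter, Finset.mem_Ioc]
    tauto
  have hsmall : ∀ q ∈ P, ∀ a : ℤ, a ≠ 0 → |a| ≤ R → ¬(q : ℤ) ∣ a := by
    intro q hq a ha hle hd
    have h1 := Int.le_of_dvd (abs_pos.2 ha) ((dvd_abs _ _).2 hd)
    have h2 : (R : ℤ) < q := by exact_mod_cast ((hPm q).1 hq).2.1
    omega
  have hPW : ∀ q ∈ P, ¬(q : ℤ) ∣ (W : ℤ) := fun q hq =>
    hsmall q hq W (by omega) (by rw [abs_of_nonneg (by omega)]; exact_mod_cast hRW)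
  have hex : ∀ n : ℤ, ∃ q p : ℕ, n ∈ A → q.Prime ∧ p.Prime ∧ (q : ℤ) * p = (W : ℤ) * n + b ∧
      R < q ∧ q ≤ R ^ 2 ∧ R ^ 2 < p ∧ q % 2760 = 13 ∧ p % 2760 = 61 ∧ J((p : ℤ) | q) = θ := by
    intro n
    by_cases hn : n ∈ A
    · obtain ⟨q, p, h⟩ := (hA n hn).2.2
      exact ⟨q, p, fun _ => h⟩
    · exact ⟨0, 0, fun h => absurd h hn⟩
  choose qf pf hqp using hex
  have hqP : ∀ n ∈ A, qf n ∈ P := fun n hn =>
    (hPm _).2 ⟨(hqp n hn).1, (hqp n hn).2.2.2.1, (hqp n hn).2.2.2.2.1⟩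
  have hqd : ∀ n ∈ A, (qf n : ℤ) ∣ (W : ℤ) * n + b := fun n hn =>
    ⟨pf n, (hqp n hn).2.2.1.symm⟩
  have huniq : ∀ n ∈ A, ∀ q ∈ P, ((q : ℤ) ∣ W * n + b ↔ q = qf n) := by
    intro n hn q hq
    obtain ⟨h1, h2, h3, -, -, h6, -⟩ := hqp n hn
    obtain ⟨hq1, -, hq3⟩ := (hPm q).1 hq
    constructor
    · intro hd
      rw [← h3] at hd
      have hd' : q ∣ qf n * pf n := by exact_mod_cast hd
      rcases (Nat.Prime.dvd_mul hq1).1 hd' with h | h
      · exact (Nat.prime_dvd_prime_iff_eq hq1 h1).1 h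
      · have := (Nat.prime_dvd_prime_iff_eq hq1 h2).1 h
        omega
    · rintro rfl
      exact hqd n hn
  set U := PU (fun j => (cc j : ℤ)) A N with hU
  have hUm : ∀ z ∈ U, z ∈ Icc (-(N : ℤ)) N ×ˢ Icc (-(N : ℤ)) N ∧ ∀ j, z.1 + cc j * z.2 ∈ A :=
    fun z hz => (@Finset.mem_filter _ _ (_) _ _).1 hz
  have hN2 : (2 : ℝ) ≤ N := by exact_mod_cast hNp.two_le
  have hlog : 0 < Real.log N := Real.log_pos (by linarith)
  set M : ℝ := (N : ℝ) ^ 2 / Real.log N ^ 6 with hM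
  have hMpos : 0 < M := by positivity
  have hlow := sum_lower U (fun z => W * z.2) (fun z j => qf (z.1 + cc j * z.2)) (c / (4 * K) * M)
    (by positivity) fun G B hG hne => by
      have := hsymb N ((le_max_right _ _).trans ((le_max_left _ _).trans hN)) R hRN hNR b hbW
        hcop P (fun q hq => (hPm q).1 hq) A qf
        (fun n hn => ⟨(hA n hn).1, (hA n hn).2.1, hqP n hn, huniq n hn⟩) G B hG hne
      rwa [mul_div_assoc] at this
  set Gd := U.filter fun z => Sy (W * z.2) fun j => qf (z.1 + cc j * z.2) with hGd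
  set Bd := (Icc (-(N : ℤ)) N ×ˢ Icc (-(N : ℤ)) N).filter fun z : ℤ × ℤ =>
    ∃ q ∈ P, (q : ℤ) ∣ z.2 ∧ (q : ℤ) ∣ (W : ℤ) * z.1 + b with hBd
  have hbad : (Bd.card : ℝ) ≤ 16 * (N : ℝ) ^ 2 / R :=
    badpat W b R N (by omega) hR2 P fun q hq =>
      ⟨((hPm q).1 hq).1, ((hPm q).1 hq).2.1, ((hPm q).1 hq).2.2, hPW q hq⟩
  have hzero : ∀ z ∈ U, z ∉ Gd ∪ Bd → F (W * z.2) (fun j => qf (z.1 + cc j * z.2)) = 0 := by
    intro z hz hn
    rw [Finset.mem_union, not_or] at hn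
    obtain ⟨hz1, hz2⟩ := hUm z hz
    have hnd : ∀ j, ¬(qf (z.1 + cc j * z.2) : ℤ) ∣ z.2 := by
      intro j hd
      refine hn.2 (Finset.mem_filter.2 ⟨hz1, _, hqP _ (hz2 j), hd, ?_⟩)
      have h1 := hqd _ (hz2 j)
      have h2 : (W : ℤ) * z.1 + b = (W * (z.1 + cc j * z.2) + b) - W * cc j * z.2 := by ring
      rw [h2]
      exact dvd_sub h1 (Dvd.dvd.mul_left hd _)
    refine F_zero _ _ (fun i j hij h0 => ?_) (fun j h0 => ?_)
      fun h => hn.1 (Finset.mem_filter.2 ⟨hz, h⟩)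
    · have hpj := (hqp _ (hz2 j)).1
      have hd := (dvd_of_jac hpj h0).trans (hqd _ (hz2 i))
      have hd2 := dvd_sub hd (hqd _ (hz2 j))
      have h2 : (W : ℤ) * (z.1 + cc i * z.2) + b - (W * (z.1 + cc j * z.2) + b) =
          W * (((cc i : ℤ) - cc j) * z.2) := by ring
      rw [h2] at hd2
      have hpr := Nat.prime_iff_prime_int.1 hpj
      rcases hpr.dvd_or_dvd hd2 with h | h
      · exact hPW _ (hqP _ (hz2 j)) h
      · rcases hpr.dvd_or_dvd h with h | h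
        · obtain ⟨h3, h4⟩ := cc_ne i j hij.ne
          exact hsmall _ (hqP _ (hz2 j)) _ h3 (h4.trans (by exact_mod_cast hR1)) h
        · exact hnd j h
    · have hpj := (hqp _ (hz2 j)).1
      rcases (Nat.prime_iff_prime_int.1 hpj).dvd_or_dvd (dvd_of_jac hpj h0) with h | h
      · exact hPW _ (hqP _ (hz2 j)) h
      · exact hnd j h
  have hup : ∑ z ∈ U, F (W * z.2) (fun j => qf (z.1 + cc j * z.2)) ≤
      K * ((Gd.card : ℝ) + Bd.card) := by
    rw [← Finset.sum_filter_of_ne (p := fun z => z ∈ Gd ∪ Bd)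
      fun z hz h => by_contra fun hn => h (hzero z hz hn)]
    have h1 : ((U.filter fun z => z ∈ Gd ∪ Bd).card : ℝ) ≤ (Gd.card : ℝ) + Bd.card := by
      have h2 : (U.filter fun z => z ∈ Gd ∪ Bd).card ≤ Gd.card + Bd.card :=
        (Finset.card_le_card fun z hz => (Finset.mem_filter.1 hz).2).trans
          (Finset.card_union_le _ _)
      exact_mod_cast h2
    calc _ ≤ ∑ _z ∈ U.filter fun z => z ∈ Gd ∪ Bd, K := Finset.sum_le_sum fun z _ => F_le _ _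
      _ = K * ((U.filter fun z => z ∈ Gd ∪ Bd).card : ℝ) := by
          rw [Finset.sum_const, nsmul_eq_mul, mul_comm]
      _ ≤ _ := mul_le_mul_of_nonneg_left h1 hK.le
  have hRpos : (0 : ℝ) < R := by exact_mod_cast (by omega : 0 < R)
  have hlogN : Real.log N ^ 6 ≤ c / (64 * K) * R := by
    refine le_trans (pow_le_pow_left₀ hlog.le ?_ 6) (hR₀ R hR0)
    have h1 : (N : ℝ) ≤ (R : ℝ) ^ (E + 1) := by exact_mod_cast hNR
    have h2 := Real.log_le_log (by linarith) h1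
    rw [Real.log_pow] at h2
    exact_mod_cast h2
  have hbad2 : K * (Bd.card : ℝ) ≤ c / 4 * M := by
    have h1 : 16 * (N : ℝ) ^ 2 / R ≤ c / (4 * K) * M := by
      rw [hM, ← mul_div_assoc, div_le_div_iff₀ hRpos (by positivity)]
      calc 16 * (N : ℝ) ^ 2 * Real.log N ^ 6 ≤ 16 * (N : ℝ) ^ 2 * (c / (64 * K) * R) :=
            mul_le_mul_of_nonneg_left hlogN (by positivity)
        _ = c / (4 * K) * (N : ℝ) ^ 2 * R := by field_simp; norm_num
    calc K * (Bd.card : ℝ) ≤ K * (c / (4 * K) * M) :=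
          mul_le_mul_of_nonneg_left (hbad.trans h1) hK.le
      _ = c / 4 * M := by field_simp
  have hgood : c / (2 * K) * M ≤ Gd.card := by
    have h1 : K * (c / (4 * K) * M) = c / 4 * M := by field_simp
    have h2 : c * M ≤ U.card := by rw [hM, ← mul_div_assoc]; exact hcard
    have h3 : c / 2 * M ≤ K * Gd.card := by
      rw [h1] at hlow
      rw [mul_add] at hup
      linarith
    have h4 : c / (2 * K) * M = c / 2 * M / K := by field_simp
    rw [h4, div_le_iff₀ hK]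
    linarith
  have hW0 : (W : ℤ) ≠ 0 := by omega
  refine ⟨Gd.image fun z => ((W : ℤ) * z.1 + b, (W : ℤ) * z.2), fun t ht => ?_, ?_⟩
  · obtain ⟨z, hz, rfl⟩ := Finset.mem_image.1 ht
    obtain ⟨hz1, hs1, hs2⟩ := Finset.mem_filter.1 hz
    have hz2 := (hUm z hz1).2
    have he : ∀ j, (W : ℤ) * z.1 + b + cc j * (W * z.2) = W * (z.1 + cc j * z.2) + b :=
      fun j => by ring
    refine ⟨⟨θ, fun j => qf (z.1 + cc j * z.2), fun j => pf (z.1 + cc j * z.2), hθ,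
      fun j => ?_, hs1⟩, fun j => ?_⟩
    · obtain ⟨h1, h2, h3, -, -, -, h7, h8, h9⟩ := hqp _ (hz2 j)
      exact ⟨h1, h2, h3.trans (he j).symm, h7, h8, h9, hs2 j⟩
    · show (W : ℤ) * z.1 + b + cc j * (W * z.2) ≤ W * N
      rw [he j]
      have h1 := (hA _ (hz2 j)).2.1
      have h2 : (b : ℤ) < W := by exact_mod_cast hbW
      have h3 : (W : ℤ) * (z.1 + cc j * z.2 + 1) ≤ W * N :=
        mul_le_mul_of_nonneg_left (by omega) (by omega)
      linarith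
  · rw [Finset.card_image_of_injective, mul_div_assoc]
    · exact hgood
    · intro z z' h
      obtain ⟨h1, h2⟩ := Prod.mk.inj h
      exact Prod.ext (mul_left_cancel₀ hW0 (add_right_cancel h1)) (mul_left_cancel₀ hW0 h2)

end Pool.Agent.Lib.MP_7d3fda_nt.R2
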