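import Mathlib

open Finset
open scoped Classical NumberTheorySymbols

noncomputable section

namespace Pool.Agent.Lib.MP_7d3fda_nt.R2

namespace RankTwoAux

/-- `[G : 2 G] = 2 ^ rank * #G[2]` -/
theorem index_two (G : Type) [AddCommGroup G] (hG : AddGroup.FG G) :
    (nsmulAddMonoidHom (α := G) 2).range.index =
      2 ^ Module.finrank ℤ G * Nat.card (nsmulAddMonoidHom (α := G) 2).ker := by
  have : Module.Finite ℤ G := Module.Finite.iff_addGroup_fg.2 hG
  let T := Submodule.torsion ℤ G
  have : Module.Free ℤ (G ⧸ T) := inferInstance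
  have hT : Finite T := Module.finite_of_fg_torsion T (Submodule.torsion_isTorsion)
  obtain ⟨s, hs⟩ := T.mkQ.exists_rightInverse_of_surjective (by simp)
  have hs' : ∀ y, T.mkQ (s y) = y := fun y => LinearMap.congr_fun hs y
  let e : G ≃+ T × (G ⧸ T) :=
    { toFun := fun x => (⟨x - s (T.mkQ x), by
        rw [← Submodule.Quotient.mk_eq_zero, ← Submodule.mkQ_apply, map_sub, hs', sub_self]⟩,
        T.mkQ x)
      invFun := fun z => z.1 + s z.2
      left_inv := fun x => by simp only [sub_add_cancel]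
      right_inv := fun z => by
        have h : T.mkQ (z.1 + s z.2) = z.2 := by
          rw [map_add, hs', Submodule.mkQ_apply, (Submodule.Quotient.mk_eq_zero T).2 z.1.2,
            zero_add]
        ext
        · simp only [h, add_sub_cancel_right]
        · exact h
      map_add' := fun x y => by
        ext
        · simp only [map_add, Prod.fst_add, Submodule.coe_add]
          abel
        · simp only [map_add, Prod.snd_add] }
  have h1 : (nsmulAddMonoidHom (α := G) 2).range.index =
      (nsmulAddMonoidHom (α := T × (G ⧸ T)) 2).range.index := by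
    rw [← AddSubgroup.index_map_equiv _ e, AddEquiv.map_range_nsmulAddMonoidHom]
  have h2 : (nsmulAddMonoidHom (α := T × (G ⧸ T)) 2).range =
      (nsmulAddMonoidHom (α := T) 2).range.prod (nsmulAddMonoidHom (α := G ⧸ T) 2).range := by
    ext z
    simp only [AddMonoidHom.mem_range, AddSubgroup.mem_prod, nsmulAddMonoidHom_apply]
    constructor
    · rintro ⟨y, rfl⟩
      exact ⟨⟨y.1, rfl⟩, ⟨y.2, rfl⟩⟩
    · rintro ⟨⟨a, ha⟩, ⟨b, hb⟩⟩
      exact ⟨(a, b), Prod.ext ha hb⟩
  have h3 : Nat.card (nsmulAddMonoidHom (α := T) 2).ker =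
      Nat.card (nsmulAddMonoidHom (α := G) 2).ker := by
    refine Nat.card_congr
      { toFun := fun x => ⟨x.1.1, ?_⟩
        invFun := fun x => ⟨⟨x.1, ?_⟩, ?_⟩
        left_inv := fun x => rfl
        right_inv := fun x => rfl }
    · exact congrArg Subtype.val x.2
    · exact ⟨⟨2, mem_nonZeroDivisors_of_ne_zero two_ne_zero⟩, by
        have h0 : 2 • x.1 = 0 := x.2
        show (2 : ℤ) • x.1 = 0
        rw [two_zsmul, ← two_nsmul, h0]⟩
    · exact Subtype.ext x.2
  have h4 : Module.finrank ℤ (G ⧸ T) = Module.finrank ℤ G := by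
    unfold Module.finrank
    rw [rank_quotient_eq_of_le_torsion (M' := T) le_rfl]
  rw [h1, h2, AddSubgroup.index_prod, AddSubgroup.index_range_nsmul (M := G ⧸ T),
    AddSubgroup.index_range, h3, h4, mul_comm]

/-- rank two from a surjection onto `(ℤ/2)^4` whose kernel lies in `2 G` -/
theorem rank_eq_two {G : Type} [AddCommGroup G] (hG : AddGroup.FG G) (Ψ : G →+ (Fin 4 → ZMod 2))
    (hs : Function.Surjective Ψ) (hk : ∀ P, Ψ P = 0 → ∃ Q, P = 2 • Q)
    (h2 : Nat.card {P : G // 2 • P = 0} = 4) : Module.rank ℤ G = 2 := by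
  have : Module.Finite ℤ G := Module.Finite.iff_addGroup_fg.2 hG
  have h := index_two G hG
  have hker : (nsmulAddMonoidHom (α := G) 2).range = Ψ.ker := by
    ext P
    rw [AddMonoidHom.mem_ker]
    constructor
    · rintro ⟨Q, rfl⟩
      rw [nsmulAddMonoidHom_apply, map_nsmul]
      ext i
      exact (by decide : ∀ z : ZMod 2, 2 • z = 0) _
    · intro hP
      obtain ⟨Q, rfl⟩ := hk P hP
      exact ⟨Q, rfl⟩
  have h4 : Nat.card (nsmulAddMonoidHom (α := G) 2).ker = 4 := h2
  rw [hker, AddSubgroup.index_ker, AddMonoidHom.range_eq_top.2 hs, h4] at h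
  have h16 : Nat.card (⊤ : AddSubgroup (Fin 4 → ZMod 2)) = 2 ^ 2 * 4 := by simp
  rw [h16] at h
  have hr : Module.finrank ℤ G = 2 :=
    (Nat.pow_right_injective le_rfl (Nat.eq_of_mul_eq_mul_right (by norm_num) h)).symm
  rw [← Module.finrank_eq_rank, hr]
  rfl

end RankTwoAux

theorem rank_two {G : Type} [AddCommGroup G] (hG : AddGroup.FG G) (Φ : G →+ (Fin 4 → ZMod 2))
    (hs : Function.Surjective Φ) (hk : ∀ P, Φ P = 0 → ∃ Q, P = 2 • Q)
    (h2 : Nat.card {P : G // 2 • P = 0} = 4) : Module.rank ℤ G = 2 :=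
  RankTwoAux.rank_eq_two hG Φ hs hk h2

end Pool.Agent.Lib.MP_7d3fda_nt.R2
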