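import Pool.Agent.Lib.MP_7d3fda_nt.R2.Table
import Pool.Agent.Lib.MP_7d3fda_nt.R2.LocD
import Pool.Agent.Lib.MP_7d3fda_nt.R2.RankTwo

open Finset
open scoped NumberTheorySymbols

namespace Pool.Agent.Lib.MP_7d3fda_nt.R2

open Pool.Agent.Lib.MP_788af2_nt WeierstrassCurve WeierstrassCurve.Affine TableAux

namespace TwistAux

theorem qV_zero {l : ℕ} {n : ℤ} (h : ¬(l : ℤ) ∣ n) : qV l n = 0 := by
  rw [qV, padicValInt.eq_zero_of_not_dvd h, Nat.cast_zero]

theorem qV_self {l : ℕ} (hl : l.Prime) : qV l l = 1 := by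
  have : Fact l.Prime := ⟨hl⟩
  rw [qV, padicValInt.self hl.one_lt, Nat.cast_one]

theorem qf_rep {F : ℤ → ZMod 2} (hF : IsQF F) {z : ℚ} {u v : ℤ} (hu : u ≠ 0) (hv : v ≠ 0)
    (h : z = u / (v : ℚ) ^ 2) : F (rep z) = F u := by
  have hu' : (u : ℚ) ≠ 0 := by exact_mod_cast hu
  have hv' : (v : ℚ) ≠ 0 := by exact_mod_cast hv
  have hz : z ≠ 0 := by rw [h]; positivity
  refine hF.eq_of_isSquare (rep_ne_zero hz) hu ?_
  rw [← Rat.isSquare_intCast_iff]
  refine ⟨u * z.den / v, ?_⟩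
  rw [Int.cast_mul, rep_cast]
  generalize (z.den : ℚ) = t
  rw [h]
  field_simp

theorem qf_pt {e : Fin 3 → ℤ} {F : ℤ → ZMod 2} (hF : IsQF F) (m : Fin 3) {x y : ℚ}
    (h : (cvE e).Nonsingular x y) {u v : ℤ} (hu : u ≠ 0) (hv : v ≠ 0)
    (hx : x - e m = u / (v : ℚ) ^ 2) : F (rep (dl e m (.some x y h))) = F u := by
  have hu' : (u : ℚ) ≠ 0 := by exact_mod_cast hu
  have hv' : (v : ℚ) ≠ 0 := by exact_mod_cast hv
  have hne : x ≠ e m := fun h0 => by
    rw [h0, sub_self] at hx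
    exact (by positivity : (u : ℚ) / (v : ℚ) ^ 2 ≠ 0) hx.symm
  refine qf_rep hF hu hv ?_
  simp only [dl, if_neg hne]
  exact hx

theorem nons {e : Fin 3 → ℤ} (he : dsc e ≠ 0) {x y : ℚ}
    (h : y ^ 2 = (x - e 0) * (x - e 1) * (x - e 2)) : (cvE e).Nonsingular x y :=
  nonsing_of_disc (disc_cvE he) (by linear_combination h)

/-- the local conditions at a prime factor of the twisting parameter -/
theorem loc_d {r : ℕ} (hr : r.Prime) {d α₀ α₁ α₂ c b : ℤ} (hd : Squarefree d) (hrd : (r : ℤ) ∣ d)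
    (h30 : ¬(r : ℤ) ∣ 30) (h0 : α₀ ≠ 0) (h1 : α₁ ≠ 0) (h2 : α₂ ≠ 0) (hb : α₀ * α₁ * α₂ = b ^ 2)
    (e1 : α₁ = α₀ - 5 * d * c ^ 2) (e2 : α₂ = α₀ - 32 * d * c ^ 2)
    (hc : (r : ℤ) ∣ c → ¬(r : ℤ) ∣ α₀) :
    qL r α₀ = qV r α₁ * (qL r 2 + qL r 5) + qV r α₀ * (qL r 5 + qL r d) ∧
      qL r α₁ = qV r α₁ * (qL r (-1) + qL r 5 + qL r d) +
        qV r α₀ * (qL r (-1) + qL r 3 + qL r 5) := by
  obtain ⟨t, rfl⟩ := hrd
  have hI := Nat.prime_iff_prime_int.1 hr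
  have hF := isQF_qL hr
  have ht : ¬(r : ℤ) ∣ t := fun h => hI.not_isUnit (hd _ (mul_dvd_mul_left _ h))
  have t0 : t ≠ 0 := by rintro rfl; exact ht (dvd_zero _)
  have hk : ∀ k : ℤ, k ∣ 30 ^ 5 → ¬(r : ℤ) ∣ k * t := fun k hk h => by
    rcases hI.dvd_or_dvd h with h | h
    · exact h30 (hI.dvd_of_dvd_pow (h.trans hk))
    · exact ht h
  obtain ⟨a1, a2⟩ := local_add hr h0 h1 h2 hb (u := 5 * t) (w := 32 * t) (c := c)
    (by rw [e1]; ring) (by rw [e2]; ring) (hk 5 (by norm_num)) (hk 32 (by norm_num))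
    (by rw [show 5 * t - 32 * t = -27 * t by ring]; exact hk _ (by norm_num)) hc
  have b0 : qL r (r * t) = qL r t := by rw [hF _ _ hI.ne_zero t0, qL_self hr, zero_add]
  have b1 : qL r (5 * t * (32 * t)) = qL r 2 + qL r 5 := by
    rw [← hF 2 5 (by norm_num) (by norm_num)]
    exact hF.eq_of_isSquare (by positivity) (by norm_num) ⟨40 * t, by ring⟩
  have b2 : qL r (5 * t) = qL r 5 + qL r t := hF _ _ (by norm_num) t0
  have b3 : qL r (-(5 * t)) = qL r (-1) + qL r 5 + qL r t := by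
    rw [show -(5 * t) = -1 * (5 * t) by ring, hF _ _ (by norm_num) (by positivity), b2, add_assoc]
  have b4 : qL r (5 * t * (5 * t - 32 * t)) = qL r (-1) + qL r 3 + qL r 5 := by
    rw [← hF (-1) 3 (by norm_num) (by norm_num), ← hF _ 5 (by norm_num) (by norm_num)]
    refine hF.eq_of_isSquare ?_ (by norm_num) ⟨45 * t, by ring⟩
    rw [show 5 * t * (5 * t - 32 * t) = -(135 * t ^ 2) by ring, neg_ne_zero]
    positivity
  rw [b0, ← b1, ← b2, ← b3, ← b4]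
  exact ⟨a1, a2⟩

theorem loc_three {d α₀ α₁ α₂ c b : ℤ} (hd : d % 3 = 1) (h0 : α₀ ≠ 0) (h1 : α₁ ≠ 0) (h2 : α₂ ≠ 0)
    (hb : α₀ * α₁ * α₂ = b ^ 2) (e1 : α₁ = α₀ - 5 * d * c ^ 2) (e2 : α₂ = α₀ - 32 * d * c ^ 2)
    (hc : ((3 : ℕ) : ℤ) ∣ c → ¬((3 : ℕ) : ℤ) ∣ α₁) : qV 3 α₀ = 0 ∧ qL 3 α₀ = qV 3 α₁ := by
  have : Fact (Nat.Prime 3) := ⟨by norm_num⟩
  have hu : ¬((3 : ℕ) : ℤ) ∣ 5 * d := by push_cast; omega
  have hu' : ¬((3 : ℕ) : ℤ) ∣ -d := by push_cast; omega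
  have hJ : J(5 * d | 3) = -1 := by
    rw [jacobiSym.mod_left, show 5 * d % ((3 : ℕ) : ℤ) = 2 by push_cast; omega]; norm_num
  have hw : padicValInt 3 (-27 * d) = 3 := by
    rw [show -27 * d = ((3 : ℕ) : ℤ) ^ 3 * -d by push_cast; ring, val_pow_mul hu']
  obtain ⟨a1, a2⟩ := local_mult (p := 3) h0 h1 h2 hb (u := 5 * d) (w := -27 * d) (c := c)
    (by rw [e1]; ring) (by rw [e2, e1]; ring) (by push_cast; omega) (by omega) hu hc
  refine ⟨qV_eq_zero.2 a1, ?_⟩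
  rcases a2 with ⟨a2, a3⟩ | ⟨a2, a3⟩
  · rw [qL, qV, a2, a3]; decide
  · have a4 := a3 hJ
    rw [hw] at a4
    rw [qL, qV, a2, if_pos hJ, eq_comm, ZMod.natCast_eq_one_iff_odd]
    exact Nat.odd_iff.2 a4

theorem loc_five {d α₀ α₁ α₂ c b : ℤ} (hd : d % 5 = 3) (h0 : α₀ ≠ 0) (h1 : α₁ ≠ 0) (h2 : α₂ ≠ 0)
    (hb : α₀ * α₁ * α₂ = b ^ 2) (e1 : α₁ = α₀ - 5 * d * c ^ 2) (e2 : α₂ = α₀ - 32 * d * c ^ 2)
    (hc : ((5 : ℕ) : ℤ) ∣ c → ¬((5 : ℕ) : ℤ) ∣ α₀) :
    qV 5 α₀ + qV 5 α₁ = 0 ∧ qL 5 α₀ + qL 5 α₁ = 0 := by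
  have : Fact (Nat.Prime 5) := ⟨by norm_num⟩
  have hu : ¬((5 : ℕ) : ℤ) ∣ -32 * d := by push_cast; omega
  have hJ : J(-32 * d | 5) = 1 := by
    rw [jacobiSym.mod_left, show -32 * d % ((5 : ℕ) : ℤ) = 4 by push_cast; omega]; norm_num
  obtain ⟨a1, a2⟩ := local_mult (p := 5) h2 h0 h1 (b := b) (by rw [← hb]; ring) (u := -32 * d)
    (w := -5 * d) (c := c) (by rw [e2]; ring) (by rw [e1]; ring) (by push_cast; omega) (by omega)
    hu hc
  have k : ∀ F, IsQF F → F α₀ + F α₁ = F α₂ := fun F hF => by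
    rw [← hF _ _ h0 h1]
    exact hF.eq_of_isSquare (mul_ne_zero h0 h1) h2 ⟨b, by rw [hb, sq]⟩
  rw [k _ (isQF_qV (by norm_num)), k _ (isQF_qL (by norm_num))]
  refine ⟨qV_eq_zero.2 a1, ?_⟩
  have a3 : lg 5 α₂ = 1 := by
    rcases a2 with ⟨-, a3⟩ | ⟨a3, -⟩
    · exact a3
    · rw [a3, hJ]
  rw [qL, a3]; decide

/-- the bad primes -/
def bp (q p : Fin 6 → ℕ) : Fin 4 ⊕ Fin 6 ⊕ Fin 6 → ℕ := Sum.elim ![2, 3, 5, 23] (Sum.elim q p)

theorem small_vals : (∀ k : Fin 4, (![2, 3, 5, 23] k : ℕ) % 2760 ≠ 13 ∧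
    (![2, 3, 5, 23] k : ℕ) % 2760 ≠ 61 ∧ Nat.Prime (![2, 3, 5, 23] k)) ∧
    Function.Injective (![2, 3, 5, 23] : Fin 4 → ℕ) := by
  refine ⟨fun k => ?_, by decide⟩
  fin_cases k <;> norm_num

theorem span4 : ∀ w : Fin 4 → ZMod 2, ∃ c₁ c₂ c₃ c₄ : Fin 2, w = c₁.1 • ![0, 0, 0, 1] +
    c₂.1 • ![1, 1, 1, 1] + c₃.1 • ![1, 1, 0, 1] + c₄.1 • ![0, 1, 1, 1] := by
  decide

end TwistAux

open TwistAux

/-- the twist attached to a good pattern has rank two -/
theorem twist {a s : ℤ} (h : Good a s) : Squarefree (dd a s) ∧ dd a s % 120 = 73 ∧ dd a s < 0 ∧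
    Module.rank ℤ (cvE ![0, 5 * dd a s, 32 * dd a s]).Point = 2 := by
  obtain ⟨θ, ε, q, p, h, qinj, pinj, Tqq, Tpq, Tqp, Tpp⟩ := table h
  have hq := fun j => (h j).1
  have hp := fun j => (h j).2.1
  have hn := fun j => (h j).2.2.1
  have hq' := fun j => (h j).2.2.2.1
  have hp' := fun j => (h j).2.2.2.2
  have q0 : ∀ j, (0 : ℤ) < q j := fun j => by exact_mod_cast (hq j).pos
  have p0 : ∀ j, (0 : ℤ) < p j := fun j => by exact_mod_cast (hp j).pos
  have hne : ∀ i j, q i ≠ p j := fun i j e => by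
    have := hq' i; have := hp' j; omega
  have hbp : ∀ k, (bp q p k).Prime := by
    rintro (k | k | k)
    exacts [(small_vals.1 k).2.2, hq k, hp k]
  have binj : Function.Injective (bp q p) := by
    refine small_vals.2.sumElim (qinj.sumElim pinj hne) ?_
    rintro k (j | j) e
    · exact (small_vals.1 k).1 (e ▸ hq' j)
    · exact (small_vals.1 k).2.1 (e ▸ hp' j)
  obtain ⟨d, hd⟩ : ∃ d, d = dd a s := ⟨_, rfl⟩
  rw [← hd]
  have hd1 : d = -23 * ∏ j, ((q j : ℤ) * p j) := by simp only [hd, dd, hn]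
  have hpos : 0 < ∏ j, ((q j : ℤ) * p j) := prod_pos fun j _ => mul_pos (q0 j) (p0 j)
  have hneg : d < 0 := by omega
  have hall : ∏ k, (bp q p k : ℤ) = -30 * d := by
    rw [hd1, prod_mul_distrib]
    simp only [Fintype.prod_sum_type, bp, Sum.elim_inl, Sum.elim_inr, Fin.prod_univ_four]
    simp
    ring
  have hsq : Squarefree d := by
    have : Squarefree (∏ k, (bp q p k : ℤ)) := by
      refine squarefree_prod_of_pairwise_isCoprime (fun i _ j _ hij => ?_) fun k _ =>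
        (Nat.prime_iff_prime_int.1 (hbp k)).squarefree
      exact (Nat.isCoprime_iff_coprime.2
        ((Nat.coprime_primes (hbp i) (hbp j)).2 fun e => hij (binj e))).isRelPrime
    exact (hall ▸ this).squarefree_of_dvd (Dvd.intro_left _ rfl)
  have hmod : d % 120 = 73 := by
    have h1 : ∀ j, (q j : ℤ) * p j ≡ 73 [ZMOD 120] := fun j => by
      have a1 : (q j : ℤ) ≡ 13 [ZMOD 120] := by have := hq' j; unfold Int.ModEq; omega
      have a2 : (p j : ℤ) ≡ 61 [ZMOD 120] := by have := hp' j; unfold Int.ModEq; omega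
      exact (a1.mul a2).trans (by decide)
    have h2 : ∏ j, ((q j : ℤ) * p j) ≡ 49 [ZMOD 120] := by
      rw [Fin.prod_univ_six]
      exact ((((((h1 0).mul (h1 1)).mul (h1 2)).mul (h1 3)).mul (h1 4)).mul (h1 5)).trans
        (by decide)
    unfold Int.ModEq at h2
    omega
  refine ⟨hsq, hmod, hneg, ?_⟩
  have d0 : d ≠ 0 := hneg.ne
  have Fd : ∀ F, IsQF F → F d = F (-1) + F 23 + ∑ i, F (q i) + ∑ i, F (p i) := fun F hF => by
    rw [hd1, hF _ _ (by norm_num) hpos.ne', hF.prod _ _ fun j _ => (mul_pos (q0 j) (p0 j)).ne',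
      show (-23 : ℤ) = -1 * 23 by norm_num, hF _ _ (by norm_num) (by norm_num),
      sum_congr rfl fun j _ => hF _ _ (q0 j).ne' (p0 j).ne', sum_add_distrib, add_assoc _ (∑ i, _)]
  obtain ⟨e, he'⟩ : ∃ e : Fin 3 → ℤ, e = ![0, 5 * d, 32 * d] := ⟨_, rfl⟩
  rw [← he']
  have e0 : e 0 = 0 := by rw [he']; rfl
  have e1 : e 1 = 5 * d := by rw [he']; rfl
  have e2 : e 2 = 32 * d := by rw [he']; rfl
  have hdsc : dsc e = 4320 * d ^ 3 := by rw [dsc, e0, e1, e2]; ring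
  have he : dsc e ≠ 0 := by rw [hdsc]; positivity
  -- valuations at the large primes
  have Vc : ∀ j (k : ℤ), k ∣ 690 ^ 5 → qV (p j) k = 0 := fun j k hk => qV_zero fun h1 => by
    have h2 : p j ∣ 690 := by
      exact_mod_cast (Nat.prime_iff_prime_int.1 (hp j)).dvd_of_dvd_pow (h1.trans hk)
    have h3 := Nat.le_of_dvd (by norm_num) h2
    have h4 : p j = 61 := by have := hp' j; omega
    rw [h4] at h2
    norm_num at h2
  have Vq : ∀ j i, qV (p j) (q i) = 0 := fun j i =>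
    qV_zero (not_dvd_prime (hp j) (hq i) (hne i j).symm)
  have Vp : ∀ j i, qV (p j) (p i) = if i = j then 1 else 0 := fun j i => by
    split_ifs with hij
    · rw [hij, qV_self (hp j)]
    · exact qV_zero (hlt' hp pinj hij)
  have Vd : ∀ j, qV (p j) d = 1 := fun j => by
    rw [Fd _ (isQF_qV (hp j)), Vc j _ (by norm_num), Vc j _ (by norm_num)]
    simp [Vq, Vp]
  have Vn : ∀ j i, qV (p j) (a + cc i * s) = if i = j then 1 else 0 := fun j i => by
    rw [← hn, isQF_qV (hp j) _ _ (q0 i).ne' (p0 i).ne', Vq, Vp, zero_add]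
  have n0 : ∀ i, a + cc i * s ≠ 0 := fun i => by rw [← hn]; exact (mul_pos (q0 i) (p0 i)).ne'
  have Vkd : ∀ j (k : ℤ), k ∣ 690 ^ 5 → qV (p j) (k * d) = 1 := fun j k hk => by
    rw [isQF_qV (hp j) _ _ (by rintro rfl; norm_num at hk) d0, Vc j k hk, Vd, zero_add]
  have Vf : ∀ j (k : ℤ) (i l : Fin 6), k ∣ 690 ^ 5 →
      qV (p j) (k * d * (a + cc i * s) * (a + cc l * s)) =
        1 + (if i = j then 1 else 0) + if l = j then 1 else 0 := fun j k i l hk => by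
    have k0 : k * d ≠ 0 := mul_ne_zero (by rintro rfl; norm_num at hk) d0
    rw [isQF_qV (hp j) _ _ (mul_ne_zero k0 (n0 i)) (n0 l), isQF_qV (hp j) _ _ k0 (n0 i),
      Vkd j k hk, Vn, Vn]
  have f0 : ∀ (k : ℤ) (i l : Fin 6), k ≠ 0 → k * d * (a + cc i * s) * (a + cc l * s) ≠ 0 :=
    fun k i l hk => mul_ne_zero (mul_ne_zero (mul_ne_zero hk d0) (n0 i)) (n0 l)
  let Φ : (cvE e).Point →+ (Fin 4 → ZMod 2) := AddMonoidHom.pi fun k =>
    qfHom he (![0, 0, 0, 1] k) (isQF_qV (hp (![0, 1, 2, 0] k)))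
  have hΦ : ∀ P, Φ P = ![qV (p 0) (rep (dl e 0 P)), qV (p 1) (rep (dl e 0 P)),
      qV (p 2) (rep (dl e 0 P)), qV (p 0) (rep (dl e 1 P))] := fun P => by
    funext k
    fin_cases k <;> rfl
  have hker : ∀ P, Φ P = 0 → ∃ Q, P = 2 • Q := by
    intro P hP
    rw [hΦ] at hP
    have z0 : qV (p 0) (rep (dl e 0 P)) = 0 := congrFun hP 0
    have z1 : qV (p 1) (rep (dl e 0 P)) = 0 := congrFun hP 1
    have z2 : qV (p 2) (rep (dl e 0 P)) = 0 := congrFun hP 2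
    have z3 : qV (p 0) (rep (dl e 1 P)) = 0 := congrFun hP 3
    have hP' : ∀ x y h, P = Point.some x y h → ∀ m, x ≠ e m := by
      rintro x y hxy rfl m rfl
      fin_cases m
      · rw [qf_pt (isQF_qV (hp 0)) 1 hxy (u := -5 * d) (v := 1) (by positivity) one_ne_zero
          (by simp [e0, e1]), Vkd 0 _ (by norm_num)] at z3
        exact one_ne_zero z3
      · rw [qf_pt (isQF_qV (hp 0)) 0 hxy (u := 5 * d) (v := 1) (by positivity) one_ne_zero
          (by simp [e0, e1]), Vkd 0 _ (by norm_num)] at z0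
        exact one_ne_zero z0
      · rw [qf_pt (isQF_qV (hp 0)) 0 hxy (u := 32 * d) (v := 1) (by positivity) one_ne_zero
          (by simp [e0, e2]), Vkd 0 _ (by norm_num)] at z0
        exact one_ne_zero z0
    obtain ⟨x, b, c, α, hxc, hα, hα0, hb, hF⟩ := point_data P hP'
    have a1 : α 1 = α 0 - 5 * d * c ^ 2 := by rw [hα, hα, e0, e1]; ring
    have a2 : α 2 = α 0 - 32 * d * c ^ 2 := by rw [hα, hα, e0, e2]; ring
    have hc : ∀ (r : ℕ), r.Prime → ∀ m, (r : ℤ) ∣ c → ¬(r : ℤ) ∣ α m := by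
      intro r hr m h1 h2
      rw [hα] at h2
      have h3 : (r : ℤ) ∣ e m * c ^ 2 := (dvd_pow h1 two_ne_zero).mul_left _
      exact (Nat.prime_iff_prime_int.1 hr).not_isUnit
        (hxc.isUnit_of_dvd' (by simpa using dvd_add h2 h3) h1)
    have hout : ∀ m (l : ℕ), l.Prime → l ∉ univ.image (bp q p) → qV l (α m) = 0 := by
      intro m l hl hl'
      rw [← hF _ _ (isQF_qV hl)]
      refine val_good he P m hl fun h1 => hl' ?_
      have hI := Nat.prime_iff_prime_int.1 hl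
      have h2 : (l : ℤ) ∣ (∏ k, (bp q p k : ℤ)) ^ 5 :=
        h1.trans ⟨-5625 * d ^ 2, by rw [hall, hdsc]; ring⟩
      obtain ⟨k, -, hk⟩ := (hI.dvd_finsetProd_iff _).1 (hI.dvd_of_dvd_pow h2)
      exact mem_image.2 ⟨k, mem_univ _,
        ((Nat.prime_dvd_prime_iff_eq hl (hbp k)).1 (Int.natCast_dvd_natCast.1 hk)).symm⟩
    have hdec : ∀ F, IsQF F → ∀ m, F (α m) = qS (α m) * F (-1) + qV 2 (α m) * F 2 +
        qV 3 (α m) * F 3 + qV 5 (α m) * F 5 + qV 23 (α m) * F 23 +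
        ∑ i, qV (q i) (α m) * F (q i) + ∑ i, qV (p i) (α m) * F (p i) := fun F hF' m => by
      rw [dec hF' (univ.image (bp q p))
        (fun l hl => by obtain ⟨k, -, rfl⟩ := mem_image.1 hl; exact hbp k) (hα0 m) (hout m),
        sum_image fun i _ j _ hij => binj hij]
      simp only [Fintype.sum_sum_type, bp, Sum.elim_inl, Sum.elim_inr, Fin.sum_univ_four]
      simp only [Matrix.cons_val, Nat.cast_ofNat]
      ring
    have two : (2 : ZMod 2) = 0 := rfl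
    obtain ⟨⟨t1, t2, t3, t5, t23⟩, ⟨u1, u2, u3, u5, u23⟩, v1, v2, v3, v5, v23⟩ := fixed_tab
    have S := fun j => small_tab (hq j) (hq' j)
    have L := fun j => large_tab (hp j) (hp' j)
    obtain ⟨k1, k2⟩ := loc_three (by omega) (hα0 0) (hα0 1) (hα0 2) hb a1 a2
      (hc 3 (by norm_num) 1)
    obtain ⟨k3, k4⟩ := loc_five (by omega) (hα0 0) (hα0 1) (hα0 2) hb a1 a2
      (hc 5 (by norm_num) 0)
    have hl := fun (r : ℕ) (hr : r.Prime) h1 h2 =>
      loc_d hr hsq h1 h2 (hα0 0) (hα0 1) (hα0 2) hb a1 a2 (hc r hr 0)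
    have h30 : ∀ r : ℕ, r % 2760 = 13 ∨ r % 2760 = 61 → ¬(r : ℤ) ∣ 30 := fun r hr h1 => by
      have h2 : r ∣ 30 := by exact_mod_cast h1
      have h3 := Nat.le_of_dvd (by norm_num) h2
      have h4 : r = 13 := by omega
      rw [h4] at h2
      norm_num at h2
    have hdv : ∀ j, (q j : ℤ) * p j ∣ d := fun j => by
      rw [hd1]; exact (dvd_prod_of_mem _ (mem_univ j)).mul_left _
    obtain ⟨k5, k6⟩ := hl 23 (by norm_num) ⟨-∏ j, ((q j : ℤ) * p j), by rw [hd1]; push_cast; ring⟩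
      (by norm_num)
    have kq := fun j => hl (q j) (hq j) ((dvd_mul_right _ _).trans (hdv j)) (h30 _ (.inl (hq' j)))
    have kp := fun j => hl (p j) (hp j) ((dvd_mul_left _ _).trans (hdv j)) (h30 _ (.inr (hp' j)))
    have D3 := hdec _ (isQF_qL (l := 3) (by norm_num))
    have D5 := hdec _ (isQF_qL (l := 5) (by norm_num))
    have D23 := hdec _ (isQF_qL (l := 23) (by norm_num))
    have F23 := Fd _ (isQF_qL (l := 23) (by norm_num))
    simp only [t1, t2, t3, t5, t23, (S _).2.1, (L _).2.1, mul_one, mul_zero, sum_const_zero,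
      add_zero] at D3
    simp only [u1, u2, u3, u5, u23, (S _).2.2.1, (L _).2.2.1, mul_one, mul_zero, sum_const_zero,
      add_zero, zero_add] at D5
    simp only [v1, v2, v3, v5, v23, (S _).2.2.2, (L _).2.2.2, mul_one, mul_zero, sum_const_zero,
      add_zero, sum_const, card_univ, Fintype.card_fin, nsmul_eq_mul, Nat.cast_ofNat] at D23 F23
    rw [D23, F23, v2, v5] at k5
    rw [D23, F23, v1, v3, v5] at k6
    rw [hF _ _ (isQF_qV (hp 0))] at z0 z3
    rw [hF _ _ (isQF_qV (hp 1))] at z1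
    rw [hF _ _ (isQF_qV (hp 2))] at z2
    obtain ⟨⟨r1, r2, r3, r4, r5, r6, r7⟩, w1, w2, w3, w4, w5, w6, w7⟩ :=
      sys θ ε (qS (α 0)) (qV 2 (α 0)) (qV 3 (α 0)) (qV 5 (α 0)) (qV 23 (α 0)) (qS (α 1))
        (qV 2 (α 1)) (qV 3 (α 1)) (qV 5 (α 1)) (qV 23 (α 1)) (fun i => qV (p i) (α 0))
        (fun i => qV (p i) (α 1)) (fun i => qV (q i) (α 0)) (fun i => qV (q i) (α 1))
        k1 (by rw [← D3, k2]) k3 (by rw [← D5, ← D5, k4])
        (by linear_combination k5 + 4 * qV 23 (α 0) * two)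
        (by linear_combination k6 + (4 * qV 23 (α 1) + qV 23 (α 0)) * two)
        (fun j => by
          obtain ⟨⟨s1, s2, s3, s5, s23⟩, -⟩ := S j
          have k := (kq j).1
          rw [hdec _ (isQF_qL (hq j)), Fd _ (isQF_qL (hq j)), s1, s2, s3, s5, s23] at k
          simp only [Tqq, Tpq, mul_zero, sum_const_zero] at k
          linear_combination k + qV (q j) (α 1) * two)
        (fun j => by
          obtain ⟨⟨s1, s2, s3, s5, s23⟩, -⟩ := S j
          have k := (kq j).2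
          rw [hdec _ (isQF_qL (hq j)), Fd _ (isQF_qL (hq j)), s1, s2, s3, s5, s23] at k
          simp only [Tqq, Tpq, mul_zero, sum_const_zero] at k
          linear_combination k)
        (fun j => by
          obtain ⟨⟨s1, s2, s3, s5, s23⟩, -⟩ := L j
          have k := (kp j).1
          rw [hdec _ (isQF_qL (hp j)), Fd _ (isQF_qL (hp j)), s1, s2, s3, s5, s23] at k
          simp only [Tqp, Tpp] at k
          linear_combination k)
        (fun j => by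
          obtain ⟨⟨s1, s2, s3, s5, s23⟩, -⟩ := L j
          have k := (kp j).2
          rw [hdec _ (isQF_qL (hp j)), Fd _ (isQF_qL (hp j)), s1, s2, s3, s5, s23] at k
          simp only [Tqp, Tpp] at k
          linear_combination k)
        z0 z1 z2 z3
    refine half_of_bits he P (fun m => ?_) fun m l hl => ?_
    · rw [hF _ _ isQF_qS]
      fin_cases m
      exacts [r1, w1]
    · rw [hF _ _ (isQF_qV hl)]
      by_cases hl' : l ∈ univ.image (bp q p)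
      · obtain ⟨k, -, rfl⟩ := mem_image.1 hl'
        rcases k with k | k | k
        · fin_cases m <;> fin_cases k
          exacts [r2, r3, r4, r5, w2, w3, w4, w5]
        · fin_cases m
          exacts [r7 k, w7 k]
        · fin_cases m
          exacts [r6 k, w6 k]
      · exact hout _ l hl hl'
  refine rank_two (fg_of_finiteIndex (disc_cvE he) (finiteIndex_two Φ hker)) Φ ?_ hker
    (card_two_tors he)
  have hodd : a % 2 = 1 := by
    have h1 := hn 4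
    have h2 : Odd ((q 4 : ℤ) * p 4) := by
      have := hq' 4
      have := hp' 4
      exact (Int.odd_iff.2 (by omega)).mul (Int.odd_iff.2 (by omega))
    rw [h1] at h2
    simpa [cc, Int.odd_iff] using h2
  obtain ⟨ν, hν'⟩ : ∃ ν : ℤ, ν = 5 * a + 4968 * s := ⟨_, rfl⟩
  obtain ⟨μ, hμ'⟩ : ∃ μ : ℤ, μ = -6 * a - 2484 * s := ⟨_, rfl⟩
  have hν : ν ≠ 0 := by omega
  have hμ : μ ≠ 0 := by omega
  have hνQ : (ν : ℚ) ≠ 0 := by exact_mod_cast hν
  have hμQ : (μ : ℚ) ≠ 0 := by exact_mod_cast hμ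
  have eν : (ν : ℚ) = 5 * a + 4968 * s := by exact_mod_cast hν'
  have eμ : (μ : ℚ) = -6 * a - 2484 * s := by exact_mod_cast hμ'
  have hdQ : (d : ℚ) = -23 * ((a + 828 * s) * (a + 1863 * s) * (a + 540 * s) * (a + 621 * s) * a *
      (a + 736 * s)) := by
    rw [hd, dd, Fin.prod_univ_six]
    simp [cc]
  have c0 : cc 0 = 828 := rfl
  have c1 : cc 1 = 1863 := rfl
  have c2 : cc 2 = 540 := rfl
  have c3 : cc 3 = 621 := rfl
  have c4 : cc 4 = 0 := rfl
  have c5 : cc 5 = 736 := rfl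
  obtain ⟨T₀, hT₀⟩ : ∃ P, Φ P = ![0, 0, 0, 1] := by
    have hs : (cvE e).Nonsingular (e 0) 0 := nons he (by ring)
    have k0 : ∀ j, qV (p j) (rep (dl e 0 (.some _ _ hs))) = 0 := fun j => by
      rw [qf_rep (isQF_qV (hp j)) (u := 160 * d * d) (v := 1) (by positivity) one_ne_zero
        (by simp [dl, e0, e1, e2]; ring), isQF_qV (hp j) _ _ (by positivity) d0,
        Vkd j _ (by norm_num), Vd]
      rfl
    refine ⟨.some _ _ hs, ?_⟩
    rw [hΦ, k0, k0, k0, qf_pt (isQF_qV (hp 0)) 1 hs (u := -5 * d) (v := 1) (by positivity)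
      one_ne_zero (by simp [e0, e1]), Vkd 0 _ (by norm_num)]
  obtain ⟨T₂, hT₂⟩ : ∃ P, Φ P = ![1, 1, 1, 1] := by
    have hs : (cvE e).Nonsingular (e 2) 0 := nons he (by ring)
    have k0 : ∀ j, qV (p j) (rep (dl e 0 (.some _ _ hs))) = 1 := fun j => by
      rw [qf_pt (isQF_qV (hp j)) 0 hs (u := 32 * d) (v := 1) (by positivity) one_ne_zero
        (by simp [e0, e2]), Vkd j _ (by norm_num)]
    refine ⟨.some _ _ hs, ?_⟩
    rw [hΦ, k0, k0, k0, qf_pt (isQF_qV (hp 0)) 1 hs (u := 27 * d) (v := 1) (by positivity)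
      one_ne_zero (by simp [e1, e2]; ring), Vkd 0 _ (by norm_num)]
  obtain ⟨P₁, hP₁⟩ : ∃ P, Φ P = ![1, 1, 0, 1] := by
    have hs : (cvE e).Nonsingular
        (368 * d * (a + 540 * s) * (a + 621 * s) / (ν : ℚ) ^ 2)
        (1296 * d ^ 2 / (ν : ℚ) ^ 3) := nons he (by
      rw [e0, e1, e2]
      push_cast
      field_simp
      rw [hdQ, eν]
      ring)
    have k0 : ∀ j, qV (p j) (rep (dl e 0 (.some _ _ hs))) = _ := fun j =>
      (qf_pt (isQF_qV (hp j)) 0 hs (f0 368 2 3 (by norm_num)) hν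
        (by rw [e0, c2, c3]; push_cast; ring)).trans (Vf j _ _ _ (by norm_num))
    have k1 : qV (p 0) (rep (dl e 1 (.some _ _ hs))) = _ :=
      (qf_pt (isQF_qV (hp 0)) 1 hs (f0 243 4 5 (by norm_num)) hν
        (by rw [e1, c4, c5]; push_cast; field_simp; rw [eν]; ring)).trans (Vf 0 _ _ _ (by norm_num))
    refine ⟨.some _ _ hs, ?_⟩
    rw [hΦ, k0, k0, k0, k1]
    decide
  obtain ⟨P₂, hP₂⟩ : ∃ P, Φ P = ![0, 1, 1, 1] := by
    have hs : (cvE e).Nonsingular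
        (324 * d * (a + 828 * s) * (a + 736 * s) / (μ : ℚ) ^ 2)
        (1296 * d ^ 2 / (μ : ℚ) ^ 3) := nons he (by
      rw [e0, e1, e2]
      push_cast
      field_simp
      rw [hdQ, eμ]
      ring)
    have k0 : ∀ j, qV (p j) (rep (dl e 0 (.some _ _ hs))) = _ := fun j =>
      (qf_pt (isQF_qV (hp j)) 0 hs (f0 324 0 5 (by norm_num)) hμ
        (by rw [e0, c0, c5]; push_cast; ring)).trans (Vf j _ _ _ (by norm_num))
    have k1 : qV (p 0) (rep (dl e 1 (.some _ _ hs))) = _ :=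
      (qf_pt (isQF_qV (hp 0)) 1 hs (f0 144 1 3 (by norm_num)) hμ
        (by rw [e1, c1, c3]; push_cast; field_simp; rw [eμ]; ring)).trans (Vf 0 _ _ _ (by norm_num))
    refine ⟨.some _ _ hs, ?_⟩
    rw [hΦ, k0, k0, k0, k1]
    decide
  intro w
  obtain ⟨c₁, c₂, c₃, c₄, rfl⟩ := span4 w
  exact ⟨c₁.1 • T₀ + c₂.1 • T₂ + c₃.1 • P₁ + c₄.1 • P₂, by
    simp only [map_add, map_nsmul, hT₀, hT₂, hP₁, hP₂]⟩

end Pool.Agent.Lib.MP_7d3fda_nt.R2
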