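import Pool.Agent.Lib.MP_7d3fda_nt.R2.Count
import Pool.Agent.Lib.MP_7d3fda_nt.R2.Twist

/-! At least `c D^(1/3) / (log D)^6` quadratic twists of `y^2 = x (x - 5) (x - 32)` by squarefree
`d`, `|d| ≤ D`, have rank exactly two. -/

namespace Pool.Agent.Lib.MP_7d3fda_nt.R2.OldResult

theorem result : ∃ c : ℝ, 0 < c ∧ ∃ D₀ : ℝ, ∀ D : ℝ, D₀ ≤ D →
    c * D ^ (1 / 3 : ℝ) / Real.log D ^ 6 ≤
      (Set.ncard {d : ℤ | |(d : ℝ)| ≤ D ∧ Squarefree d ∧ d % 120 = 73 ∧ d < 0 ∧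
        Module.rank ℤ (WeierstrassCurve.Affine.Point
          (⟨0, -37 * (d : ℚ), 0, 160 * (d : ℚ) ^ 2, 0⟩ : WeierstrassCurve.Affine ℚ)) = 2} : ℝ) := by
  refine Pool.Agent.Lib.MP_7d3fda_nt.R2.count _ fun a s h => ?_
  obtain ⟨h1, h2, h3, h4⟩ := Pool.Agent.Lib.MP_7d3fda_nt.R2.twist h
  refine ⟨h1, h2, h3, ?_⟩
  generalize Pool.Agent.Lib.MP_7d3fda_nt.R2.dd a s = d at h4
  have e : Pool.Agent.Lib.MP_788af2_nt.cvE ![0, 5 * d, 32 * d] =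
      (⟨0, -37 * (d : ℚ), 0, 160 * (d : ℚ) ^ 2, 0⟩ : WeierstrassCurve.Affine ℚ) := by
    ext <;> simp <;> ring
  rw [← e]
  exact h4

end Pool.Agent.Lib.MP_7d3fda_nt.R2.OldResult
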