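import Pool.Agent.Lib.MP_7d3fda_nt.R2.Defs
import Pool.Agent.Lib.MP_4b8564_nt.GT.RelSz

open Finset
open scoped Classical NumberTheorySymbols

noncomputable section

namespace Pool.Agent.Lib.MP_7d3fda_nt.R2

open Pool.Agent.Lib.MP_4b8564_nt.GT

namespace RelPatAux

/-- replacing the majorants outside `J` by 1 -/
theorem lf_restrict {ι X : Type} [Fintype ι] [DecidableEq ι] [Fintype X]
    {ν : ι → (ι → X) → ℝ} {η : ℝ} (h : LF ν η) (J : Finset ι) :
    LF (fun j x => if j ∈ J then ν j x else 1) η := by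
  intro T hT
  have key := h (T.filter fun t => t.1 ∈ J) fun t ht => hT t (mem_filter.1 ht).1
  have e : ∀ z : (ι → X) × (ι → X),
      ∏ t ∈ T, (if t.1 ∈ J then ν t.1 (t.2.piecewise z.2 z.1) else 1) =
        ∏ t ∈ T.filter (fun t => t.1 ∈ J), ν t.1 (t.2.piecewise z.2 z.1) := by
    intro z
    rw [prod_filter]
  rw [av_congr e]
  exact key

/-- the change of variables for a family of functions -/
theorem av_prod_fam {k N : ℕ} [NeZero N] (hk : 2 ≤ k) (F : Fin k → ZMod N → ℝ) :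
    av (fun x : Fin k → ZMod N => ∏ j, F j (psi k N j x)) =
      av fun z : ZMod N × ZMod N => ∏ j, F j (z.1 + ((j : ℕ) : ZMod N) * z.2) := by
  obtain ⟨i0, hi0⟩ : ∃ i : Fin k, (i : ℕ) = 0 := ⟨⟨0, by omega⟩, rfl⟩
  obtain ⟨i1, hi1⟩ : ∃ i : Fin k, (i : ℕ) = 1 := ⟨⟨1, by omega⟩, rfl⟩
  have hne : i0 ≠ i1 := fun h => by rw [h] at hi0; omega
  rw [av_update i0, av_update i1]
  refine (av_congr fun x => ?_).trans (av_const _)
  have key : ∀ (a b : ZMod N) (j : Fin k),
      psi k N j (Function.update (Function.update x i1 b) i0 a) =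
        (-(∑ i : Fin k, ((i : ℕ) : ZMod N) * x i) + x i1 - b) +
          ((j : ℕ) : ZMod N) * ((∑ i, x i) + (b - x i1) - x i0 + a) := by
    intro a b j
    rw [PsiAux.psi_update, PsiAux.psi_update, PsiAux.psi_eq, Function.update_of_ne hne, hi0, hi1]
    push_cast
    ring
  simp only [key]
  rw [av_prod]
  rw [← av_equiv (Equiv.subLeft (-(∑ i : Fin k, ((i : ℕ) : ZMod N) * x i) + x i1))
    fun c => av fun d : ZMod N => ∏ j : Fin k, F j ((c, d).1 + ((j : ℕ) : ZMod N) * (c, d).2)]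
  refine av_congr fun b => ?_
  exact av_equiv (Equiv.addLeft ((∑ i, x i) + (b - x i1) - x i0))
    fun d : ZMod N => ∏ j : Fin k,
      F j ((-(∑ i : Fin k, ((i : ℕ) : ZMod N) * x i) + x i1 - b) + ((j : ℕ) : ZMod N) * d)

/-- the count of the subpattern in the variables of the forms -/
theorem av_prod_sub {k N : ℕ} [NeZero N] (hk : 2 ≤ k) (J : Finset (Fin k)) (f : ZMod N → ℝ) :
    av (fun x : Fin k → ZMod N => ∏ j, if j ∈ J then f (psi k N j x) else 1) =
      av fun z : ZMod N × ZMod N => ∏ j ∈ J, f (z.1 + ((j : ℕ) : ZMod N) * z.2) := by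
  refine (av_prod_fam hk fun j y => if j ∈ J then f y else 1).trans (av_congr fun z => ?_)
  rw [prod_ite_mem, univ_inter]

theorem indep_sub {k N : ℕ} [NeZero N] (J : Finset (Fin k)) (f : ZMod N → ℝ) (j : Fin k) :
    Indep j fun x : Fin k → ZMod N => if j ∈ J then f (psi k N j x) else 1 :=
  indep_psi j fun y => if j ∈ J then f y else 1

theorem lam_le {k N : ℕ} [NeZero N] (J : Finset (Fin k)) (g : ZMod N → ℝ)
    (hg : ∀ x, 0 ≤ g x ∧ g x ≤ 1) :
    lam k N g ≤ av fun z : ZMod N × ZMod N => ∏ j ∈ J, g (z.1 + ((j : ℕ) : ZMod N) * z.2) :=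
  av_mono fun _ => prod_le_prod_of_subset_of_le_one (subset_univ J) (fun _ _ => (hg _).1)
    fun _ _ _ => (hg _).2

end RelPatAux

/-- the relative Szemerédi theorem for a subpattern -/
theorem relPat (k : ℕ) (hk : 2 ≤ k) (J : Finset (Fin k)) (δ : ℝ) (hδ : 0 < δ) :
    ∃ η : ℝ, 0 < η ∧ η ≤ 1 ∧ ∃ c : ℝ, 0 < c ∧ ∃ N₀ : ℕ, ∀ (N : ℕ) [NeZero N], N.Prime → N₀ ≤ N →
      ∀ ν f : ZMod N → ℝ, (∀ x, 0 ≤ f x ∧ f x ≤ ν x) → δ ≤ av f →
        LF (fun (j : Fin k) (x : Fin k → ZMod N) => ν (psi k N j x)) η →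
        c ≤ av fun z : ZMod N × ZMod N => ∏ j ∈ J, f (z.1 + ((j : ℕ) : ZMod N) * z.2) := by
  obtain ⟨c₀, hc₀, N₁, hV⟩ := varnK k (δ / 2) (by positivity)
  obtain ⟨η₁, hη₁, hC⟩ := counting (Fin k) (c₀ / 2) (by positivity)
  obtain ⟨η₂, hη₂, hD⟩ := dense_arith k hk (min η₁ (δ / 2)) (by positivity)
  obtain ⟨η₃, hη₃, hS⟩ := RelSzAux.cut_of_lf (Fin k) η₂ hη₂
  refine ⟨min (min η₁ η₃) 1, by positivity, min_le_right _ _, c₀ / 2, by positivity,
    max N₁ (k + 1), fun N _ hN hN₀ ν f hf hδf hLF => ?_⟩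
  have hkN : k < N := lt_of_lt_of_le (Nat.lt_succ_self k) ((le_max_right _ _).trans hN₀)
  have hLF₁ := hLF.mono ((min_le_left _ _).trans (min_le_left _ _))
  have hLF₃ := hLF.mono ((min_le_left _ _).trans (min_le_right _ _))
  have hcut := hS (ZMod N) (fun (j : Fin k) (x : Fin k → ZMod N) => ν (psi k N j x))
    (fun j => indep_psi j ν) (fun j x => (hf _).1.trans (hf _).2) hLF₃
  obtain ⟨f', hf', hav, hc⟩ := hD N hN hkN ν f hf hcut
  have h1 : δ / 2 ≤ av f' := by
    have := (abs_le.1 hav).2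
    have := min_le_right η₁ (δ / 2)
    linarith
  have h2 := hV N hN ((le_max_left _ _).trans hN₀) f' (fun x => (hf' x).1) (fun x => (hf' x).2) h1
  have h3 := hC (ZMod N)
    (fun (j : Fin k) (x : Fin k → ZMod N) => if j ∈ J then ν (psi k N j x) else 1)
    (fun (j : Fin k) (x : Fin k → ZMod N) => if j ∈ J then f (psi k N j x) else 1)
    (fun (j : Fin k) (x : Fin k → ZMod N) => if j ∈ J then f' (psi k N j x) else 1)
    (RelPatAux.indep_sub J ν) (RelPatAux.indep_sub J f) (RelPatAux.indep_sub J f')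
    (fun j x => by
      by_cases hj : j ∈ J
      · simpa only [hj, if_true] using hf _
      · simp [hj])
    (fun j x => by
      by_cases hj : j ∈ J
      · simpa only [hj, if_true] using hf' _
      · simp [hj])
    (RelPatAux.lf_restrict hLF₁ J)
    (fun j => by
      by_cases hj : j ∈ J
      · simpa only [hj, if_true] using (hc j).mono (min_le_left _ _)
      · intro u _ _
        simp [hj, av_zero, hη₁.le])
  rw [RelPatAux.av_prod_sub hk J f, RelPatAux.av_prod_sub hk J f'] at h3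
  have h4 := RelPatAux.lam_le J f' hf'
  have := (abs_le.1 h3).1
  linarith

end Pool.Agent.Lib.MP_7d3fda_nt.R2
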