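import Pool.Agent.Lib.MP_7d3fda_nt.R2.Gvn
import Pool.Agent.Lib.MP_7d3fda_nt.R2.Forms

open Finset
open scoped Classical NumberTheorySymbols

noncomputable section

namespace Pool.Agent.Lib.MP_7d3fda_nt.R2

open Pool.Agent.Lib.MP_4b8564_nt.GT

variable {ι : Type} [Fintype ι] [DecidableEq ι]

namespace ShiftAux

/-- the summand, extended by zero -/
def FF (c : ι → ℤ) (W : ℤ) (G : Finset (ι × ι)) (B : Finset ι) (A : Finset ℤ) (qf : ℤ → ℕ)
    (z : ℤ × ℤ) : ℝ :=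
  if ∀ j, z.1 + c j * z.2 ∈ A then Gam G B (W * z.2) fun j => qf (z.1 + c j * z.2) else 0

/-- the square of radius `N` -/
def Sq (N : ℕ) : Finset (ℤ × ℤ) := Icc (-(N : ℤ)) N ×ˢ Icc (-(N : ℤ)) N

theorem mem_Sq {N : ℕ} {z : ℤ × ℤ} : z ∈ Sq N ↔ |z.1| ≤ N ∧ |z.2| ≤ N := by
  simp only [Sq, mem_product, mem_Icc, abs_le]

theorem card_Sq (N : ℕ) : ((Sq N).card : ℝ) = (2 * (N : ℝ) + 1) ^ 2 := by
  have h : ((N : ℤ) + 1 - -(N : ℤ)).toNat = 2 * N + 1 := by omega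
  simp only [Sq, card_product, Int.card_Icc, h]
  push_cast
  ring

theorem sum_shift (F : ℤ × ℤ → ℝ) (N D : ℕ) (hF : ∀ z, z ∉ Sq N → F z = 0) (e : ℤ × ℤ)
    (h1 : N + |e.1| ≤ D) (h2 : N + |e.2| ≤ D) :
    ∑ z ∈ Sq N, F z = ∑ w ∈ Sq D, F (w + e) := by
  refine Eq.trans (sum_subset (fun z hz => ?_) fun z _ hz => hF z hz)
    (sum_map (Sq D) (Equiv.addRight e).toEmbedding F)
  rw [mem_map]
  refine ⟨z - e, ?_, by simp⟩
  rw [mem_Sq] at hz ⊢
  have a1 := abs_sub z.1 e.1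
  have a2 := abs_sub z.2 e.2
  simp only [Prod.fst_sub, Prod.snd_sub]
  constructor <;> linarith [hz.1, hz.2]

theorem av_pick {Y : Type} [Fintype Y] [DecidableEq Y] (y₀ : ι → Y) (Γ : (ι → Y) → ℝ) :
    av (fun y : ι → Y => Γ y * ∏ j, ((Fintype.card Y : ℝ) * if y j = y₀ j then 1 else 0)) =
      Γ y₀ := by
  have hpos : (0 : ℝ) < Fintype.card (ι → Y) := by
    have : Nonempty (ι → Y) := ⟨y₀⟩
    exact_mod_cast Fintype.card_pos
  unfold av
  rw [sum_eq_single y₀, div_eq_iff hpos.ne']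
  · simp
  · intro y _ hy
    obtain ⟨j, hj⟩ := Function.ne_iff.1 hy
    rw [prod_eq_zero (mem_univ j), mul_zero]
    rw [if_neg hj, mul_zero]
  · intro h
    exact absurd (mem_univ _) h

theorem sum_update (c : ι → ℤ) {H : ℕ} (j : ι) (x : ι → Fin H) (a : Fin H) :
    ∑ i, (c j - c i) * ((Function.update x j a i : ℕ) : ℤ) = ∑ i, (c j - c i) * ((x i : ℕ) : ℤ) := by
  refine sum_congr rfl fun i _ => ?_
  by_cases h : i = j
  · rw [h, sub_self, zero_mul, zero_mul]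
  · rw [Function.update_of_ne h]

theorem ind_nonneg (q : ℕ) (n : ℤ) : 0 ≤ ind q n := by
  unfold ind
  split_ifs <;> norm_num

theorem av_ind (P : Finset ℕ) (hne : P.Nonempty) (L : ℤ) :
    av (fun y : P => (P.card : ℝ) * ind y L) = ((P.filter fun q : ℕ => (q : ℤ) ∣ L).card : ℝ) := by
  have hpos : (0 : ℝ) < P.card := by exact_mod_cast hne.card_pos
  unfold av
  rw [← mul_sum, sum_coe_sort P (fun q => ind q L), Fintype.card_coe, mul_div_cancel_left₀ _ hpos.ne']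
  simp [ind]

omit [Fintype ι] in
theorem vx_cast {H : ℕ} (S : Finset ι) (x : ι ⊕ ι → Fin H) :
    (fun i => ((vx S x i).val : ℤ)) = vx S fun w => ((x w).val : ℤ) := by
  funext i
  unfold vx
  split_ifs <;> rfl

theorem point (c : ι → ℤ) (W b : ℤ) (G : Finset (ι × ι)) (B : Finset ι) (P : Finset ℕ)
    (hne : P.Nonempty) (H : ℕ) (hH : 0 < H) (A : Finset ℤ) (qf : ℤ → ℕ)
    (hA : ∀ n ∈ A, qf n ∈ P ∧ ∀ q ∈ P, ((q : ℤ) ∣ W * n + b ↔ q = qf n))
    (K : ℝ) (hK : 1 ≤ K) (u v : ℤ) (hF : Few c W (fun j => W * (u + c j * v) + b) P H K) :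
    |av fun x : ι → Fin H => FF c W G B A qf
        ((u, v) + (-∑ i, c i * ((x i : ℕ) : ℤ), ∑ i, ((x i : ℕ) : ℤ)))| ^ 2 ^ Fintype.card ι ≤
      K ^ 4 ^ Fintype.card ι * |box c W (fun j => W * (u + c j * v) + b) (W * v) G B P H| := by
  have : Nonempty (Fin H) := ⟨⟨0, hH⟩⟩
  have : Nonempty P := hne.to_subtype
  have hc0 : (0 : ℝ) ≤ P.card := Nat.cast_nonneg _
  have key := gvn ι (Fin H) P K hK
    (fun j x y => (P.card : ℝ) *
      ind y (Lf c W (fun j => W * (u + c j * v) + b) j fun i => ((x i : ℕ) : ℤ)) *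
      if u + c j * v + ∑ i, (c j - c i) * ((x i : ℕ) : ℤ) ∈ A then 1 else 0)
    (fun j x y => (P.card : ℝ) *
      ind y (Lf c W (fun j => W * (u + c j * v) + b) j fun i => ((x i : ℕ) : ℤ)))
    (fun x y => Gam G B (Sf W (W * v) fun i => ((x i : ℕ) : ℤ)) fun j => (y j : ℕ))
    (fun j y x a => by simp only [Lf, sum_update])
    (fun j y x a => by simp only [Lf, sum_update])
    (fun j x y => by
      have h0 := mul_nonneg hc0 (ind_nonneg y
        (Lf c W (fun j => W * (u + c j * v) + b) j fun i => ((x i : ℕ) : ℤ)))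
      split_ifs
      · rw [mul_one, abs_of_nonneg h0]
      · rw [mul_zero, abs_zero]
        exact h0)
    (fun j x => by
      rw [av_ind P hne]
      exact hF j _ fun i => ⟨Int.natCast_nonneg _, by exact_mod_cast (x i).2⟩)
  refine le_of_eq_of_le (congrArg (fun r : ℝ => |r| ^ 2 ^ Fintype.card ι) ?_) (key.trans
    (le_of_eq (congrArg (fun r : ℝ => K ^ 4 ^ Fintype.card ι * |r|) (Eq.symm ?_))))
  · refine av_congr fun x => ?_
    have e1 : ∀ j, u + -∑ i, c i * ((x i : ℕ) : ℤ) + c j * (v + ∑ i, ((x i : ℕ) : ℤ)) =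
        u + c j * v + ∑ i, (c j - c i) * ((x i : ℕ) : ℤ) := by
      intro j
      simp only [sub_mul, sum_sub_distrib, ← mul_sum]
      ring
    have e2 : ∀ j, Lf c W (fun j => W * (u + c j * v) + b) j (fun i => ((x i : ℕ) : ℤ)) =
        W * (u + c j * v + ∑ i, (c j - c i) * ((x i : ℕ) : ℤ)) + b := by
      intro j
      unfold Lf
      ring
    have e3 : Sf W (W * v) (fun i => ((x i : ℕ) : ℤ)) = W * (v + ∑ i, ((x i : ℕ) : ℤ)) := by
      unfold Sf
      ring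
    simp only [FF, Prod.mk_add_mk, e1, e2, e3]
    by_cases h : ∀ j, u + c j * v + ∑ i, (c j - c i) * ((x i : ℕ) : ℤ) ∈ A
    · rw [if_pos h]
      rw [← av_pick (fun j => (⟨_, (hA _ (h j)).1⟩ : P))
        (fun y : ι → P => Gam G B (W * (v + ∑ i, ((x i : ℕ) : ℤ))) fun j => (y j : ℕ))]
      refine av_congr fun y => ?_
      congr 1
      refine prod_congr rfl fun j _ => ?_
      rw [if_pos (h j), mul_one, Fintype.card_coe, ind]
      congr 1
      refine if_congr ?_ rfl rfl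
      rw [(hA _ (h j)).2 _ (y j).2, Subtype.ext_iff]
    · rw [if_neg h]
      obtain ⟨j, hj⟩ := not_forall.1 h
      refine (av_zero (X := ι → P)).symm.trans (av_congr fun y => Eq.symm ?_)
      rw [prod_eq_zero (mem_univ j), mul_zero]
      rw [if_neg hj, mul_zero]
  · unfold box
    refine av_congr fun Q => ?_
    unfold bav
    rw [← av_const_mul]
    refine av_congr fun x => ?_
    simp only [term, vx_cast, prod_mul_distrib, prod_const]
    ring

end ShiftAux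

open ShiftAux

theorem shift [Nontrivial ι] (c : ι → ℤ) (hc : Function.Injective c) (j₀ : ι) (h0 : c j₀ = 0)
    (C : ℕ) (hC : ∀ j, |c j| ≤ C) (W b : ℤ) (G : Finset (ι × ι)) (B : Finset ι) (P : Finset ℕ)
    (hne : P.Nonempty) (N H : ℕ) (hH : 0 < H) (hHN : H ≤ N) (A : Finset ℤ) (qf : ℤ → ℕ)
    (hA : ∀ n ∈ A, 0 ≤ n ∧ n < N ∧ qf n ∈ P ∧ ∀ q ∈ P, ((q : ℤ) ∣ W * n + b ↔ q = qf n))
    (K β : ℝ) (hK : 1 ≤ K) (hβ0 : 0 ≤ β) (D : ℕ) (hD : (1 + Fintype.card ι * (C + 1)) * N ≤ D)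
    (hF : ∀ u v : ℤ, |u| ≤ D → |v| ≤ D → Few c W (fun j => W * (u + c j * v) + b) P H K)
    (hβ : ∀ u v : ℤ, |u| ≤ D → |v| ≤ D → K ^ 4 ^ Fintype.card ι *
      |box c W (fun j => W * (u + c j * v) + b) (W * v) G B P H| ≤ β ^ 2 ^ Fintype.card ι) :
    |∑ z ∈ PU c A N, Gam G B (W * z.2) fun j => qf (z.1 + c j * z.2)| ≤
      (2 * (D : ℝ) + 1) ^ 2 * β := by
  have : Nonempty (Fin H) := ⟨⟨0, hH⟩⟩
  have e0 : (∑ z ∈ PU c A N, Gam G B (W * z.2) fun j => qf (z.1 + c j * z.2)) =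
      ∑ z ∈ Sq N, FF c W G B A qf z := by
    unfold PU FF Sq
    rw [sum_filter]
  have hsupp : ∀ z, z ∉ Sq N → FF c W G B A qf z = 0 := by
    intro z hz
    refine if_neg fun h => hz (mem_Sq.2 ?_)
    obtain ⟨j, hj⟩ := exists_ne j₀
    have hj0 : c j ≠ 0 := fun e => hj (hc (e.trans h0.symm))
    have a0 := hA _ (h j₀)
    have a1 := hA _ (h j)
    rw [h0, zero_mul, add_zero] at a0
    have a2 : |c j * z.2| ≤ N := abs_le.2 ⟨by linarith [a0.2.1, a1.1], by linarith [a0.1, a1.2.1]⟩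
    refine ⟨abs_le.2 ⟨by linarith [a0.1, Int.natCast_nonneg N], a0.2.1.le⟩, le_trans ?_ a2⟩
    rw [abs_mul]
    exact le_mul_of_one_le_left (abs_nonneg _) (Int.one_le_abs hj0)
  have hDz : (1 + (Fintype.card ι : ℤ) * (C + 1)) * N ≤ D := by exact_mod_cast hD
  have hsh : ∀ x : ι → Fin H, ∑ z ∈ Sq N, FF c W G B A qf z = ∑ w ∈ Sq D, FF c W G B A qf
      (w + (-∑ i, c i * ((x i : ℕ) : ℤ), ∑ i, ((x i : ℕ) : ℤ))) := by
    intro x
    have hx : ∀ i, |((x i : ℕ) : ℤ)| ≤ N := fun i => by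
      rw [abs_of_nonneg (Int.natCast_nonneg _)]
      exact_mod_cast (x i).2.le.trans hHN
    have b1 : |∑ i, c i * ((x i : ℕ) : ℤ)| ≤ (Fintype.card ι : ℤ) * (C * N) := by
      refine (abs_sum_le_sum_abs _ _).trans ((sum_le_card_nsmul _ _ ((C : ℤ) * N) fun i _ => ?_).trans
        (by simp))
      rw [abs_mul]
      exact mul_le_mul (hC i) (hx i) (abs_nonneg _) (Int.natCast_nonneg _)
    have b2 : |∑ i, ((x i : ℕ) : ℤ)| ≤ (Fintype.card ι : ℤ) * N :=
      (abs_sum_le_sum_abs _ _).trans ((sum_le_card_nsmul _ _ (N : ℤ) fun i _ => hx i).trans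
        (by simp))
    have b3 : (0 : ℤ) ≤ (Fintype.card ι : ℤ) * N := by positivity
    have b4 : (0 : ℤ) ≤ (Fintype.card ι : ℤ) * (C * N) := by positivity
    refine sum_shift _ N D hsupp _ ?_ ?_
    · simp only [abs_neg]
      linarith
    · simp only
      linarith
  rw [e0, ← av_const (X := ι → Fin H) (∑ z ∈ Sq N, FF c W G B A qf z), av_congr hsh, av_sum,
    ← card_Sq, ← nsmul_eq_mul]
  refine (abs_sum_le_sum_abs _ _).trans (sum_le_card_nsmul _ _ _ fun w hw => ?_)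
  obtain ⟨u, v⟩ := w
  have hw' := mem_Sq.1 hw
  have h1 := (point c W b G B P hne H hH A qf (fun n hn => (hA n hn).2.2) K hK u v
    (hF u v hw'.1 hw'.2)).trans (hβ u v hw'.1 hw'.2)
  exact (pow_le_pow_iff_left₀ (abs_nonneg _) hβ0 (pow_ne_zero _ two_ne_zero)).1 h1

end Pool.Agent.Lib.MP_7d3fda_nt.R2
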