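import Mathlib

open Finset

namespace Pool.Agent.Lib.MP_7d3fda_nt.R2

/-- symbols of a large prime modulo another small prime -/
def tA : Fin 6 → Fin 6 → ZMod 2 :=
  ![![0, 1, 1, 1, 1, 1],
    ![1, 0, 0, 0, 1, 1],
    ![1, 0, 0, 1, 0, 1],
    ![0, 1, 0, 0, 1, 0],
    ![0, 0, 1, 1, 0, 0],
    ![0, 0, 0, 0, 0, 0]]

/-- symbols of a large prime modulo another large prime, up to a common shift -/
def tB : Fin 6 → Fin 6 → ZMod 2 :=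
  ![![0, 0, 0, 0, 0, 0],
    ![0, 0, 0, 0, 0, 0],
    ![0, 0, 0, 1, 0, 1],
    ![0, 0, 1, 0, 1, 0],
    ![0, 0, 0, 1, 0, 1],
    ![0, 0, 1, 0, 1, 0]]

/-- large modulo small -/
def pq (θ : ZMod 2) (i j : Fin 6) : ZMod 2 := if i = j then θ else tA i j

/-- large modulo large -/
def pp (ε : ZMod 2) (i j : Fin 6) : ZMod 2 := if i = j then 0 else ε + tB i j

namespace SysAux

theorem six {f : Fin 6 → ZMod 2} (h0 : f 0 = 0) (h1 : f 1 = 0) (h2 : f 2 = 0) (h3 : f 3 = 0)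
    (h4 : f 4 = 0) (h5 : f 5 = 0) (i : Fin 6) : f i = 0 := by
  fin_cases i
  exacts [h0, h1, h2, h3, h4, h5]

theorem pq0 :
    pq 0 0 0 = 0 ∧ pq 0 0 1 = 1 ∧ pq 0 0 2 = 1 ∧ pq 0 0 3 = 1 ∧ pq 0 0 4 = 1 ∧ pq 0 0 5 = 1 ∧
    pq 0 1 0 = 1 ∧ pq 0 1 1 = 0 ∧ pq 0 1 2 = 0 ∧ pq 0 1 3 = 0 ∧ pq 0 1 4 = 1 ∧ pq 0 1 5 = 1 ∧
    pq 0 2 0 = 1 ∧ pq 0 2 1 = 0 ∧ pq 0 2 2 = 0 ∧ pq 0 2 3 = 1 ∧ pq 0 2 4 = 0 ∧ pq 0 2 5 = 1 ∧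
    pq 0 3 0 = 0 ∧ pq 0 3 1 = 1 ∧ pq 0 3 2 = 0 ∧ pq 0 3 3 = 0 ∧ pq 0 3 4 = 1 ∧ pq 0 3 5 = 0 ∧
    pq 0 4 0 = 0 ∧ pq 0 4 1 = 0 ∧ pq 0 4 2 = 1 ∧ pq 0 4 3 = 1 ∧ pq 0 4 4 = 0 ∧ pq 0 4 5 = 0 ∧
    pq 0 5 0 = 0 ∧ pq 0 5 1 = 0 ∧ pq 0 5 2 = 0 ∧ pq 0 5 3 = 0 ∧ pq 0 5 4 = 0 ∧ pq 0 5 5 = 0 := by
  decide

theorem pq1 :
    pq 1 0 0 = 1 ∧ pq 1 0 1 = 1 ∧ pq 1 0 2 = 1 ∧ pq 1 0 3 = 1 ∧ pq 1 0 4 = 1 ∧ pq 1 0 5 = 1 ∧
    pq 1 1 0 = 1 ∧ pq 1 1 1 = 1 ∧ pq 1 1 2 = 0 ∧ pq 1 1 3 = 0 ∧ pq 1 1 4 = 1 ∧ pq 1 1 5 = 1 ∧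
    pq 1 2 0 = 1 ∧ pq 1 2 1 = 0 ∧ pq 1 2 2 = 1 ∧ pq 1 2 3 = 1 ∧ pq 1 2 4 = 0 ∧ pq 1 2 5 = 1 ∧
    pq 1 3 0 = 0 ∧ pq 1 3 1 = 1 ∧ pq 1 3 2 = 0 ∧ pq 1 3 3 = 1 ∧ pq 1 3 4 = 1 ∧ pq 1 3 5 = 0 ∧
    pq 1 4 0 = 0 ∧ pq 1 4 1 = 0 ∧ pq 1 4 2 = 1 ∧ pq 1 4 3 = 1 ∧ pq 1 4 4 = 1 ∧ pq 1 4 5 = 0 ∧
    pq 1 5 0 = 0 ∧ pq 1 5 1 = 0 ∧ pq 1 5 2 = 0 ∧ pq 1 5 3 = 0 ∧ pq 1 5 4 = 0 ∧ pq 1 5 5 = 1 := by
  decide

theorem pp0 :
    pp 0 0 0 = 0 ∧ pp 0 0 1 = 0 ∧ pp 0 0 2 = 0 ∧ pp 0 0 3 = 0 ∧ pp 0 0 4 = 0 ∧ pp 0 0 5 = 0 ∧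
    pp 0 1 0 = 0 ∧ pp 0 1 1 = 0 ∧ pp 0 1 2 = 0 ∧ pp 0 1 3 = 0 ∧ pp 0 1 4 = 0 ∧ pp 0 1 5 = 0 ∧
    pp 0 2 0 = 0 ∧ pp 0 2 1 = 0 ∧ pp 0 2 2 = 0 ∧ pp 0 2 3 = 1 ∧ pp 0 2 4 = 0 ∧ pp 0 2 5 = 1 ∧
    pp 0 3 0 = 0 ∧ pp 0 3 1 = 0 ∧ pp 0 3 2 = 1 ∧ pp 0 3 3 = 0 ∧ pp 0 3 4 = 1 ∧ pp 0 3 5 = 0 ∧
    pp 0 4 0 = 0 ∧ pp 0 4 1 = 0 ∧ pp 0 4 2 = 0 ∧ pp 0 4 3 = 1 ∧ pp 0 4 4 = 0 ∧ pp 0 4 5 = 1 ∧
    pp 0 5 0 = 0 ∧ pp 0 5 1 = 0 ∧ pp 0 5 2 = 1 ∧ pp 0 5 3 = 0 ∧ pp 0 5 4 = 1 ∧ pp 0 5 5 = 0 := by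
  decide

theorem pp1 :
    pp 1 0 0 = 0 ∧ pp 1 0 1 = 1 ∧ pp 1 0 2 = 1 ∧ pp 1 0 3 = 1 ∧ pp 1 0 4 = 1 ∧ pp 1 0 5 = 1 ∧
    pp 1 1 0 = 1 ∧ pp 1 1 1 = 0 ∧ pp 1 1 2 = 1 ∧ pp 1 1 3 = 1 ∧ pp 1 1 4 = 1 ∧ pp 1 1 5 = 1 ∧
    pp 1 2 0 = 1 ∧ pp 1 2 1 = 1 ∧ pp 1 2 2 = 0 ∧ pp 1 2 3 = 0 ∧ pp 1 2 4 = 1 ∧ pp 1 2 5 = 0 ∧
    pp 1 3 0 = 1 ∧ pp 1 3 1 = 1 ∧ pp 1 3 2 = 0 ∧ pp 1 3 3 = 0 ∧ pp 1 3 4 = 0 ∧ pp 1 3 5 = 1 ∧
    pp 1 4 0 = 1 ∧ pp 1 4 1 = 1 ∧ pp 1 4 2 = 1 ∧ pp 1 4 3 = 0 ∧ pp 1 4 4 = 0 ∧ pp 1 4 5 = 0 ∧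
    pp 1 5 0 = 1 ∧ pp 1 5 1 = 1 ∧ pp 1 5 2 = 0 ∧ pp 1 5 3 = 1 ∧ pp 1 5 4 = 0 ∧ pp 1 5 5 = 0 := by
  decide

theorem sys00 (s0 a0 b0 c0 e0 s1 a1 b1 c1 e1 : ZMod 2) (x0 x1 y0 y1 : Fin 6 → ZMod 2)
    (h1 : b0 = 0) (h2 : s0 + a0 + c0 + e0 = b1) (h3 : c0 + c1 = 0)
    (h4 : a0 + b0 + e0 + ∑ i, y0 i + (a1 + b1 + e1 + ∑ i, y1 i) = 0)
    (h5 : s0 + c0 + ∑ i, x0 i = e1) (h6 : s1 + c1 + ∑ i, x1 i = e1)
    (q0 : ∀ j, a0 + c0 + ∑ i, x0 i * pq 0 i j = y0 j * (1 + ∑ i, pq 0 i j))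
    (q1 : ∀ j, a1 + c1 + ∑ i, x1 i * pq 0 i j = y1 j * (1 + ∑ i, pq 0 i j) + y0 j)
    (p0 : ∀ j, a0 + e0 + ∑ i, y0 i * pq 0 j i + ∑ i, x0 i * pp 0 i j =
      x0 j * (1 + ∑ i, pq 0 j i + ∑ i, pp 0 i j) + x1 j)
    (p1 : ∀ j, a1 + e1 + ∑ i, y1 i * pq 0 j i + ∑ i, x1 i * pp 0 i j =
      x1 j * (1 + ∑ i, pq 0 j i + ∑ i, pp 0 i j))
    (zx0_0 : x0 0 = 0) (zx0_1 : x0 1 = 0) (zx0_2 : x0 2 = 0) (zx1_0 : x1 0 = 0) :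
    (s0 = 0 ∧ a0 = 0 ∧ b0 = 0 ∧ c0 = 0 ∧ e0 = 0 ∧ (∀ i, x0 i = 0) ∧ ∀ i, y0 i = 0) ∧
      (s1 = 0 ∧ a1 = 0 ∧ b1 = 0 ∧ c1 = 0 ∧ e1 = 0 ∧ (∀ i, x1 i = 0) ∧ ∀ i, y1 i = 0) := by
  have two : (2 : ZMod 2) = 0 := rfl
  have q00 := q0 0
  have q01 := q0 1
  have q02 := q0 2
  have q03 := q0 3
  have q04 := q0 4
  have q05 := q0 5
  have q10 := q1 0
  have q11 := q1 1
  have q12 := q1 2
  have q13 := q1 3
  have q14 := q1 4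
  have q15 := q1 5
  have p00 := p0 0
  have p01 := p0 1
  have p02 := p0 2
  have p03 := p0 3
  have p04 := p0 4
  have p05 := p0 5
  have p10 := p1 0
  have p11 := p1 1
  have p12 := p1 2
  have p13 := p1 3
  have p14 := p1 4
  have p15 := p1 5
  clear q0 q1 p0 p1
  simp only [Fin.sum_univ_six, pq0, pp0] at h4 h5 h6 q00 q01 q02 q03 q04 q05 q10 q11 q12 q13 q14 q15
  simp only [Fin.sum_univ_six, pq0, pp0] at p00 p01 p02 p03 p04 p05 p10 p11 p12 p13 p14 p15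
  have zb0 : b0 = 0 := by linear_combination h1
  have zy0_0 : y0 0 = 0 := by linear_combination q00 + q05 + (-1) * zx0_0 + (-2) * zx0_1 +
    (-2) * zx0_2 + ((-1) * a0 + (-1) * c0 + (2) * y0 0 + (2) * y0 5) * two
  have zx0_4 : x0 4 = 0 := by linear_combination q00 + q03 + (-1) * zx0_0 + (-1) * zx0_1 +
    (-2) * zx0_2 + (3) * zy0_0 + ((-1) * a0 + (-1) * c0 + (2) * y0 3) * two
  have zy0_2 : y0 2 = 0 := by linear_combination q00 + q02 + (-1) * zx0_0 + (-1) * zx0_1 +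
    (-1) * zx0_2 + (-1) * zx0_4 + (3) * zy0_0 + ((-1) * a0 + (-1) * c0 + (2) * y0 2) * two
  have zx0_3 : x0 3 = 0 := by linear_combination q00 + q04 + (-1) * zx0_0 + (-2) * zx0_1 +
    (-1) * zx0_2 + (3) * zy0_0 + ((-1) * a0 + (-1) * c0 + (2) * y0 4) * two
  have zy0_1 : y0 1 = 0 := by linear_combination q00 + q01 + (-1) * zx0_0 + (-1) * zx0_1 +
    (-1) * zx0_2 + (-1) * zx0_3 + (3) * zy0_0 + ((-1) * a0 + (-1) * c0 + (2) * y0 1) * two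
  have zx1_1 : x1 1 = 0 := by linear_combination q10 + p10 + q11 + p11 + p14 + p15 +
    (5) * zx1_0 + (1) * zy0_0 + (1) * zy0_1 + ((-3) * a1 + (-1) * c1 + (2) * x1 1 + (-1) * x1 2 +
    (-1) * x1 3 + (2) * x1 4 + (1) * x1 5 + (1) * y1 0 + (-2) * e1 + (1) * y1 1 + (-1) * y1 2 +
    (-1) * y1 3 + (-1) * y1 4 + (-1) * y1 5) * two
  have zy0_3 : y0 3 = 0 := by linear_combination p00 + p01 + (-1) * zy0_0 + (6) * zx0_0 +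
    (-1) * zy0_1 + (4) * zx0_1 + (-1) * zy0_2 + (1) * zx1_0 + (1) * zx1_1 + ((-1) * a0 +
    (-1) * e0 + (-1) * y0 4 + (-1) * y0 5) * two
  have zx1_2 : x1 2 = 0 := by linear_combination p02 + q13 + p04 + q15 + (-1) * zy0_0 +
    (-1) * zy0_2 + (6) * zx0_2 + (-1) * zy0_3 + (-2) * zx0_3 + (5) * zx0_4 + (-2) * zx1_0 +
    (-1) * zx1_1 + ((-1) * a0 + (-1) * e0 + (-1) * x0 5 + (-1) * a1 + (-1) * c1 + (2) * y1 3 +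
    (2) * y1 5) * two
  have zy1_2 : y1 2 = 0 := by linear_combination q12 + q13 + (-2) * zx1_0 + (-1) * zx1_2 +
    (1) * zy0_2 + (1) * zy0_3 + ((-1) * a1 + (-1) * c1 + (-1) * x1 4 + (2) * y1 2 +
    (2) * y1 3) * two
  have zx0_5 : x0 5 = 0 := by linear_combination p02 + p03 + q14 + q15 + (-1) * zy0_0 +
    (-1) * zy0_1 + (5) * zx0_2 + (-1) * zy0_3 + (4) * zx0_3 + (-1) * zx0_4 + (-2) * zx1_0 +
    (-2) * zx1_1 + ((-1) * a0 + (-1) * e0 + (-1) * a1 + (-1) * c1 + (2) * y1 4 +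
    (2) * y1 5) * two
  have zy0_4 : y0 4 = 0 := by linear_combination p00 + p02 + (-1) * zy0_0 + (6) * zx0_0 +
    (-1) * zy0_1 + (-1) * zy0_2 + (6) * zx0_2 + (-2) * zy0_3 + (-1) * zx0_3 + (-1) * zx0_5 +
    (1) * zx1_0 + (1) * zx1_2 + ((-1) * a0 + (-1) * e0 + (-1) * y0 5) * two
  have zy1_1 : y1 1 = 0 := by linear_combination q11 + q14 + (-2) * zx1_0 + (-1) * zx1_1 +
    (1) * zy0_1 + (1) * zy0_4 + ((-1) * a1 + (-1) * c1 + (-1) * x1 3 + (2) * y1 1 +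
    (2) * y1 4) * two
  have zs1 : s1 = 0 := by linear_combination h6 + q11 + p15 + (-2) * zx1_0 + (-1) * zx1_1 +
    (-2) * zx1_2 + (3) * zy1_1 + (1) * zy0_1 + ((-1) * c1 + (-1) * x1 3 + (-1) * x1 4 +
    (1) * x1 5 + (-1) * a1) * two
  have zy1_3 : y1 3 = 0 := by linear_combination p11 + p12 + p13 + p15 + (-1) * zy1_1 +
    (4) * zx1_1 + (4) * zx1_2 + ((-2) * a1 + (-2) * e1 + (-1) * y1 0 + (2) * x1 3 + (-1) * y1 4 +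
    (-1) * x1 4 + (-1) * y1 5 + (1) * x1 5) * two
  have zy1_0 : y1 0 = 0 := by linear_combination p10 + p11 + (6) * zx1_0 + (-1) * zy1_1 +
    (4) * zx1_1 + (-1) * zy1_2 + (-1) * zy1_3 + ((-1) * a1 + (-1) * e1 + (-1) * y1 4 +
    (-1) * y1 5) * two
  have zx1_3 : x1 3 = 0 := by linear_combination q10 + q11 + (-1) * zx1_0 + (-1) * zx1_1 +
    (-1) * zx1_2 + (3) * zy1_0 + (1) * zy0_0 + (3) * zy1_1 + (1) * zy0_1 + ((-1) * a1 +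
    (-1) * c1) * two
  have zy0_5 : y0 5 = 0 := by linear_combination p00 + p03 + (6) * zx0_0 + (-2) * zy0_1 +
    (-1) * zy0_2 + (-1) * zx0_2 + (-1) * zy0_3 + (5) * zx0_3 + (-2) * zy0_4 + (-1) * zx0_4 +
    (1) * zx1_0 + (1) * zx1_3 + ((-1) * a0 + (-1) * e0) * two
  have zx1_4 : x1 4 = 0 := by linear_combination q10 + q12 + (-1) * zx1_0 + (-1) * zx1_1 +
    (-1) * zx1_2 + (3) * zy1_0 + (1) * zy0_0 + (3) * zy1_2 + (1) * zy0_2 + ((-1) * a1 +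
    (-1) * c1) * two
  have zx1_5 : x1 5 = 0 := by linear_combination p00 + p05 + (6) * zx0_0 + (-1) * zy0_1 +
    (-1) * zy0_2 + (-1) * zx0_2 + (-1) * zy0_3 + (-1) * zy0_4 + (-1) * zx0_4 + (-1) * zy0_5 +
    (3) * zx0_5 + (1) * zx1_0 + ((-1) * a0 + (-1) * e0 + (1) * x1 5) * two
  have zs0 : s0 = 0 := by linear_combination h3 + h5 + h6 + (-1) * zx0_0 + (-1) * zx0_1 +
    (-1) * zx0_2 + (-1) * zx0_3 + (-1) * zx0_4 + (-1) * zx0_5 + (-1) * zs1 + (-1) * zx1_0 +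
    (-1) * zx1_1 + (-1) * zx1_2 + (-1) * zx1_3 + (-1) * zx1_4 + (-1) * zx1_5 + ((-1) * c0 +
    (-1) * c1 + (1) * e1) * two
  have zy1_5 : y1 5 = 0 := by linear_combination h3 + h5 + q10 + p12 + (-1) * zs0 +
    (-1) * zx0_0 + (-1) * zx0_1 + (-1) * zx0_2 + (-1) * zx0_3 + (-1) * zx0_4 + (-1) * zx0_5 +
    (-1) * zx1_1 + (5) * zx1_2 + (-1) * zx1_3 + (-1) * zx1_5 + (2) * zy1_0 + (1) * zy0_0 +
    (-1) * zy1_3 + ((-1) * c0 + (-1) * c1 + (-1) * a1) * two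
  have zc0 : c0 = 0 := by linear_combination h2 + h4 + p10 + (-1) * zs0 + (-1) * zb0 +
    (-1) * zy0_0 + (-1) * zy0_1 + (-1) * zy0_2 + (-1) * zy0_3 + (-1) * zy0_4 + (-1) * zy0_5 +
    (-1) * zy1_0 + (-2) * zy1_1 + (-2) * zy1_2 + (-2) * zy1_3 + (-2) * zy1_5 + (6) * zx1_0 +
    ((-1) * a0 + (-1) * e0 + (-1) * a1 + (-1) * e1 + (-1) * y1 4) * two
  have zc1 : c1 = 0 := by linear_combination h3 + (-1) * zc0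
  have ze1 : e1 = 0 := by linear_combination h5 + (-1) * zs0 + (-1) * zc0 + (-1) * zx0_0 +
    (-1) * zx0_1 + (-1) * zx0_2 + (-1) * zx0_3 + (-1) * zx0_4 + (-1) * zx0_5 + ((1) * e1) * two
  have za0 : a0 = 0 := by linear_combination q00 + (-1) * zc0 + (-1) * zx0_1 + (-1) * zx0_2 +
    (3) * zy0_0
  have za1 : a1 = 0 := by linear_combination q10 + (-1) * zc1 + (-1) * zx1_1 + (-1) * zx1_2 +
    (3) * zy1_0 + (1) * zy0_0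
  have ze0 : e0 = 0 := by linear_combination p00 + (-1) * za0 + (6) * zx0_0 + (-1) * zy0_1 +
    (-1) * zy0_2 + (-1) * zy0_3 + (-1) * zy0_4 + (-1) * zy0_5 + (1) * zx1_0
  have zb1 : b1 = 0 := by linear_combination h2 + (-1) * zs0 + (-1) * za0 + (-1) * zc0 +
    (-1) * ze0 + ((1) * b1) * two
  have zy1_4 : y1 4 = 0 := by linear_combination h4 + (-1) * za0 + (-1) * zb0 + (-1) * ze0 +
    (-1) * zy0_0 + (-1) * zy0_1 + (-1) * zy0_2 + (-1) * zy0_3 + (-1) * zy0_4 + (-1) * zy0_5 +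
    (-1) * za1 + (-1) * zb1 + (-1) * ze1 + (-1) * zy1_0 + (-1) * zy1_1 + (-1) * zy1_2 +
    (-1) * zy1_3 + (-1) * zy1_5
  exact ⟨⟨zs0, za0, zb0, zc0, ze0, six zx0_0 zx0_1 zx0_2 zx0_3 zx0_4 zx0_5,
    six zy0_0 zy0_1 zy0_2 zy0_3 zy0_4 zy0_5⟩, zs1, za1, zb1, zc1, ze1,
    six zx1_0 zx1_1 zx1_2 zx1_3 zx1_4 zx1_5, six zy1_0 zy1_1 zy1_2 zy1_3 zy1_4 zy1_5⟩

theorem sys01 (s0 a0 b0 c0 e0 s1 a1 b1 c1 e1 : ZMod 2) (x0 x1 y0 y1 : Fin 6 → ZMod 2)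
    (h1 : b0 = 0) (h2 : s0 + a0 + c0 + e0 = b1) (h3 : c0 + c1 = 0)
    (h4 : a0 + b0 + e0 + ∑ i, y0 i + (a1 + b1 + e1 + ∑ i, y1 i) = 0)
    (h5 : s0 + c0 + ∑ i, x0 i = e1) (h6 : s1 + c1 + ∑ i, x1 i = e1)
    (q0 : ∀ j, a0 + c0 + ∑ i, x0 i * pq 0 i j = y0 j * (1 + ∑ i, pq 0 i j))
    (q1 : ∀ j, a1 + c1 + ∑ i, x1 i * pq 0 i j = y1 j * (1 + ∑ i, pq 0 i j) + y0 j)
    (p0 : ∀ j, a0 + e0 + ∑ i, y0 i * pq 0 j i + ∑ i, x0 i * pp 1 i j =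
      x0 j * (1 + ∑ i, pq 0 j i + ∑ i, pp 1 i j) + x1 j)
    (p1 : ∀ j, a1 + e1 + ∑ i, y1 i * pq 0 j i + ∑ i, x1 i * pp 1 i j =
      x1 j * (1 + ∑ i, pq 0 j i + ∑ i, pp 1 i j))
    (zx0_0 : x0 0 = 0) (zx0_1 : x0 1 = 0) (zx0_2 : x0 2 = 0) (zx1_0 : x1 0 = 0) :
    (s0 = 0 ∧ a0 = 0 ∧ b0 = 0 ∧ c0 = 0 ∧ e0 = 0 ∧ (∀ i, x0 i = 0) ∧ ∀ i, y0 i = 0) ∧
      (s1 = 0 ∧ a1 = 0 ∧ b1 = 0 ∧ c1 = 0 ∧ e1 = 0 ∧ (∀ i, x1 i = 0) ∧ ∀ i, y1 i = 0) := by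
  have two : (2 : ZMod 2) = 0 := rfl
  have q00 := q0 0
  have q01 := q0 1
  have q02 := q0 2
  have q03 := q0 3
  have q04 := q0 4
  have q05 := q0 5
  have q10 := q1 0
  have q11 := q1 1
  have q12 := q1 2
  have q13 := q1 3
  have q14 := q1 4
  have q15 := q1 5
  have p00 := p0 0
  have p01 := p0 1
  have p02 := p0 2
  have p03 := p0 3
  have p04 := p0 4
  have p05 := p0 5
  have p10 := p1 0
  have p11 := p1 1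
  have p12 := p1 2
  have p13 := p1 3
  have p14 := p1 4
  have p15 := p1 5
  clear q0 q1 p0 p1
  simp only [Fin.sum_univ_six, pq0, pp1] at h4 h5 h6 q00 q01 q02 q03 q04 q05 q10 q11 q12 q13 q14 q15
  simp only [Fin.sum_univ_six, pq0, pp1] at p00 p01 p02 p03 p04 p05 p10 p11 p12 p13 p14 p15
  have zb0 : b0 = 0 := by linear_combination h1
  have zy0_0 : y0 0 = 0 := by linear_combination q00 + q05 + (-1) * zx0_0 + (-2) * zx0_1 +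
    (-2) * zx0_2 + ((-1) * a0 + (-1) * c0 + (2) * y0 0 + (2) * y0 5) * two
  have zx0_4 : x0 4 = 0 := by linear_combination q00 + q03 + (-1) * zx0_0 + (-1) * zx0_1 +
    (-2) * zx0_2 + (3) * zy0_0 + ((-1) * a0 + (-1) * c0 + (2) * y0 3) * two
  have zy0_2 : y0 2 = 0 := by linear_combination q00 + q02 + (-1) * zx0_0 + (-1) * zx0_1 +
    (-1) * zx0_2 + (-1) * zx0_4 + (3) * zy0_0 + ((-1) * a0 + (-1) * c0 + (2) * y0 2) * two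
  have zx0_3 : x0 3 = 0 := by linear_combination q00 + q04 + (-1) * zx0_0 + (-2) * zx0_1 +
    (-1) * zx0_2 + (3) * zy0_0 + ((-1) * a0 + (-1) * c0 + (2) * y0 4) * two
  have zy0_1 : y0 1 = 0 := by linear_combination q00 + q01 + (-1) * zx0_0 + (-1) * zx0_1 +
    (-1) * zx0_2 + (-1) * zx0_3 + (3) * zy0_0 + ((-1) * a0 + (-1) * c0 + (2) * y0 1) * two
  have zx1_1 : x1 1 = 0 := by linear_combination q10 + p10 + q11 + p11 + p14 + p15 +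
    (7) * zx1_0 + (1) * zy0_0 + (1) * zy0_1 + ((-3) * a1 + (-1) * c1 + (3) * x1 1 + (-2) * x1 2 +
    (-2) * x1 3 + (2) * x1 4 + (1) * x1 5 + (1) * y1 0 + (-2) * e1 + (1) * y1 1 + (-1) * y1 2 +
    (-1) * y1 3 + (-1) * y1 4 + (-1) * y1 5) * two
  have zy0_3 : y0 3 = 0 := by linear_combination p00 + p01 + (-1) * zy0_0 + (10) * zx0_0 +
    (-1) * zy0_1 + (8) * zx0_1 + (-1) * zy0_2 + (-2) * zx0_2 + (-2) * zx0_3 + (-2) * zx0_4 +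
    (1) * zx1_0 + (1) * zx1_1 + ((-1) * a0 + (-1) * e0 + (-1) * y0 4 + (-1) * y0 5 +
    (-1) * x0 5) * two
  have zx1_2 : x1 2 = 0 := by linear_combination p02 + q13 + p04 + q15 + (-1) * zy0_0 +
    (-2) * zx0_0 + (-2) * zx0_1 + (-1) * zy0_2 + (6) * zx0_2 + (-1) * zy0_3 + (5) * zx0_4 +
    (-2) * zx1_0 + (-1) * zx1_1 + ((-1) * a0 + (-1) * e0 + (-1) * a1 + (-1) * c1 + (2) * y1 3 +
    (2) * y1 5) * two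
  have zy1_2 : y1 2 = 0 := by linear_combination q12 + q13 + (-2) * zx1_0 + (-1) * zx1_2 +
    (1) * zy0_2 + (1) * zy0_3 + ((-1) * a1 + (-1) * c1 + (-1) * x1 4 + (2) * y1 2 +
    (2) * y1 3) * two
  have zx0_5 : x0 5 = 0 := by linear_combination q12 + p03 + q14 + p04 + (-2) * zx1_0 +
    (-1) * zx1_1 + (3) * zy1_2 + (-2) * zx0_0 + (-1) * zy0_1 + (-2) * zx0_1 + (-1) * zx0_2 +
    (-1) * zy0_3 + (6) * zx0_3 + (6) * zx0_4 + ((-1) * a1 + (-1) * c1 + (-1) * a0 + (-1) * e0 +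
    (2) * y1 4) * two
  have zy0_4 : y0 4 = 0 := by linear_combination p00 + p02 + (-1) * zy0_0 + (10) * zx0_0 +
    (-1) * zy0_1 + (-2) * zx0_1 + (-1) * zy0_2 + (6) * zx0_2 + (-2) * zy0_3 + (-1) * zx0_3 +
    (-2) * zx0_4 + (-1) * zx0_5 + (1) * zx1_0 + (1) * zx1_2 + ((-1) * a0 + (-1) * e0 +
    (-1) * y0 5) * two
  have zy1_1 : y1 1 = 0 := by linear_combination q11 + q14 + (-2) * zx1_0 + (-1) * zx1_1 +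
    (1) * zy0_1 + (1) * zy0_4 + ((-1) * a1 + (-1) * c1 + (-1) * x1 3 + (2) * y1 1 +
    (2) * y1 4) * two
  have zs0 : s0 = 0 := by linear_combination h3 + h5 + q11 + p15 + (-1) * zx0_0 + (-1) * zx0_1 +
    (-1) * zx0_2 + (-1) * zx0_3 + (-1) * zx0_4 + (-1) * zx0_5 + (-2) * zx1_0 + (-1) * zx1_1 +
    (3) * zy1_1 + (1) * zy0_1 + ((-1) * c0 + (-1) * c1 + (-1) * a1 + (-1) * x1 3 +
    (2) * x1 5) * two
  have zy1_5 : y1 5 = 0 := by linear_combination q10 + q12 + p12 + p14 + (-3) * zx1_0 +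
    (-3) * zx1_1 + (5) * zx1_2 + (1) * zy0_0 + (2) * zy1_2 + (1) * zy0_2 + ((-2) * a1 +
    (-1) * c1 + (2) * x1 4 + (1) * y1 0 + (-1) * e1 + (-1) * y1 3) * two
  have zy1_3 : y1 3 = 0 := by linear_combination p10 + q11 + q12 + p13 + (8) * zx1_0 +
    (1) * zy1_1 + (-2) * zx1_1 + (2) * zy1_2 + (-1) * zx1_2 + (-1) * zy1_5 + (1) * zy0_1 +
    (1) * zy0_2 + ((-2) * a1 + (-1) * e1 + (2) * x1 3 + (-1) * y1 4 + (-1) * x1 4 + (-1) * x1 5 +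
    (-1) * c1) * two
  have zy1_0 : y1 0 = 0 := by linear_combination h3 + h5 + q10 + p14 + (-1) * zs0 +
    (-1) * zx0_0 + (-1) * zx0_1 + (-1) * zx0_2 + (-1) * zx0_3 + (-1) * zx0_4 + (-1) * zx0_5 +
    (-1) * zx1_0 + (-2) * zx1_1 + (-2) * zx1_2 + (1) * zy0_0 + (-1) * zy1_2 + (-1) * zy1_3 +
    ((-1) * c0 + (-1) * c1 + (-1) * a1 + (3) * x1 4 + (2) * y1 0) * two
  have zx1_3 : x1 3 = 0 := by linear_combination q10 + q11 + (-1) * zx1_0 + (-1) * zx1_1 +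
    (-1) * zx1_2 + (3) * zy1_0 + (1) * zy0_0 + (3) * zy1_1 + (1) * zy0_1 + ((-1) * a1 +
    (-1) * c1) * two
  have zy0_5 : y0 5 = 0 := by linear_combination p00 + p03 + (10) * zx0_0 + (-2) * zy0_1 +
    (-2) * zx0_1 + (-1) * zy0_2 + (-1) * zx0_2 + (-1) * zy0_3 + (5) * zx0_3 + (-2) * zy0_4 +
    (-1) * zx0_4 + (-2) * zx0_5 + (1) * zx1_0 + (1) * zx1_3 + ((-1) * a0 + (-1) * e0) * two
  have zx1_4 : x1 4 = 0 := by linear_combination q10 + q12 + (-1) * zx1_0 + (-1) * zx1_1 +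
    (-1) * zx1_2 + (3) * zy1_0 + (1) * zy0_0 + (3) * zy1_2 + (1) * zy0_2 + ((-1) * a1 +
    (-1) * c1) * two
  have zx1_5 : x1 5 = 0 := by linear_combination p00 + p05 + (10) * zx0_0 + (-1) * zy0_1 +
    (-2) * zx0_1 + (-1) * zy0_2 + (-1) * zx0_2 + (-1) * zy0_3 + (-2) * zx0_3 + (-1) * zy0_4 +
    (-1) * zx0_4 + (-1) * zy0_5 + (3) * zx0_5 + (1) * zx1_0 + ((-1) * a0 + (-1) * e0 +
    (1) * x1 5) * two
  have zc0 : c0 = 0 := by linear_combination h2 + h4 + p10 + (-1) * zs0 + (-1) * zb0 +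
    (-1) * zy0_0 + (-1) * zy0_1 + (-1) * zy0_2 + (-1) * zy0_3 + (-1) * zy0_4 + (-1) * zy0_5 +
    (-1) * zy1_0 + (-2) * zy1_1 + (-2) * zy1_2 + (-2) * zy1_3 + (-2) * zy1_5 + (11) * zx1_0 +
    (-1) * zx1_1 + (-1) * zx1_2 + (-1) * zx1_3 + (-1) * zx1_4 + (-1) * zx1_5 + ((-1) * a0 +
    (-1) * e0 + (-1) * a1 + (-1) * e1 + (-1) * y1 4) * two
  have zc1 : c1 = 0 := by linear_combination h3 + (-1) * zc0
  have ze1 : e1 = 0 := by linear_combination h5 + (-1) * zs0 + (-1) * zc0 + (-1) * zx0_0 +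
    (-1) * zx0_1 + (-1) * zx0_2 + (-1) * zx0_3 + (-1) * zx0_4 + (-1) * zx0_5 + ((1) * e1) * two
  have zs1 : s1 = 0 := by linear_combination h6 + (-1) * zc1 + (-1) * zx1_0 + (-1) * zx1_1 +
    (-1) * zx1_2 + (-1) * zx1_3 + (-1) * zx1_4 + (-1) * zx1_5 + (1) * ze1
  have za0 : a0 = 0 := by linear_combination q00 + (-1) * zc0 + (-1) * zx0_1 + (-1) * zx0_2 +
    (3) * zy0_0
  have za1 : a1 = 0 := by linear_combination q10 + (-1) * zc1 + (-1) * zx1_1 + (-1) * zx1_2 +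
    (3) * zy1_0 + (1) * zy0_0
  have ze0 : e0 = 0 := by linear_combination p00 + (-1) * za0 + (11) * zx0_0 + (-1) * zy0_1 +
    (-1) * zx0_1 + (-1) * zy0_2 + (-1) * zx0_2 + (-1) * zy0_3 + (-1) * zx0_3 + (-1) * zy0_4 +
    (-1) * zx0_4 + (-1) * zy0_5 + (-1) * zx0_5 + (1) * zx1_0
  have zb1 : b1 = 0 := by linear_combination h2 + (-1) * zs0 + (-1) * za0 + (-1) * zc0 +
    (-1) * ze0 + ((1) * b1) * two
  have zy1_4 : y1 4 = 0 := by linear_combination h4 + (-1) * za0 + (-1) * zb0 + (-1) * ze0 +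
    (-1) * zy0_0 + (-1) * zy0_1 + (-1) * zy0_2 + (-1) * zy0_3 + (-1) * zy0_4 + (-1) * zy0_5 +
    (-1) * za1 + (-1) * zb1 + (-1) * ze1 + (-1) * zy1_0 + (-1) * zy1_1 + (-1) * zy1_2 +
    (-1) * zy1_3 + (-1) * zy1_5
  exact ⟨⟨zs0, za0, zb0, zc0, ze0, six zx0_0 zx0_1 zx0_2 zx0_3 zx0_4 zx0_5,
    six zy0_0 zy0_1 zy0_2 zy0_3 zy0_4 zy0_5⟩, zs1, za1, zb1, zc1, ze1,
    six zx1_0 zx1_1 zx1_2 zx1_3 zx1_4 zx1_5, six zy1_0 zy1_1 zy1_2 zy1_3 zy1_4 zy1_5⟩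

theorem sys10 (s0 a0 b0 c0 e0 s1 a1 b1 c1 e1 : ZMod 2) (x0 x1 y0 y1 : Fin 6 → ZMod 2)
    (h1 : b0 = 0) (h2 : s0 + a0 + c0 + e0 = b1) (h3 : c0 + c1 = 0)
    (h4 : a0 + b0 + e0 + ∑ i, y0 i + (a1 + b1 + e1 + ∑ i, y1 i) = 0)
    (h5 : s0 + c0 + ∑ i, x0 i = e1) (h6 : s1 + c1 + ∑ i, x1 i = e1)
    (q0 : ∀ j, a0 + c0 + ∑ i, x0 i * pq 1 i j = y0 j * (1 + ∑ i, pq 1 i j))
    (q1 : ∀ j, a1 + c1 + ∑ i, x1 i * pq 1 i j = y1 j * (1 + ∑ i, pq 1 i j) + y0 j)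
    (p0 : ∀ j, a0 + e0 + ∑ i, y0 i * pq 1 j i + ∑ i, x0 i * pp 0 i j =
      x0 j * (1 + ∑ i, pq 1 j i + ∑ i, pp 0 i j) + x1 j)
    (p1 : ∀ j, a1 + e1 + ∑ i, y1 i * pq 1 j i + ∑ i, x1 i * pp 0 i j =
      x1 j * (1 + ∑ i, pq 1 j i + ∑ i, pp 0 i j))
    (zx0_0 : x0 0 = 0) (zx0_1 : x0 1 = 0) (zx0_2 : x0 2 = 0) (zx1_0 : x1 0 = 0) :
    (s0 = 0 ∧ a0 = 0 ∧ b0 = 0 ∧ c0 = 0 ∧ e0 = 0 ∧ (∀ i, x0 i = 0) ∧ ∀ i, y0 i = 0) ∧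
      (s1 = 0 ∧ a1 = 0 ∧ b1 = 0 ∧ c1 = 0 ∧ e1 = 0 ∧ (∀ i, x1 i = 0) ∧ ∀ i, y1 i = 0) := by
  have two : (2 : ZMod 2) = 0 := rfl
  have q00 := q0 0
  have q01 := q0 1
  have q02 := q0 2
  have q03 := q0 3
  have q04 := q0 4
  have q05 := q0 5
  have q10 := q1 0
  have q11 := q1 1
  have q12 := q1 2
  have q13 := q1 3
  have q14 := q1 4
  have q15 := q1 5
  have p00 := p0 0
  have p01 := p0 1
  have p02 := p0 2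
  have p03 := p0 3
  have p04 := p0 4
  have p05 := p0 5
  have p10 := p1 0
  have p11 := p1 1
  have p12 := p1 2
  have p13 := p1 3
  have p14 := p1 4
  have p15 := p1 5
  clear q0 q1 p0 p1
  simp only [Fin.sum_univ_six, pq1, pp0] at h4 h5 h6 q00 q01 q02 q03 q04 q05 q10 q11 q12 q13 q14 q15
  simp only [Fin.sum_univ_six, pq1, pp0] at p00 p01 p02 p03 p04 p05 p10 p11 p12 p13 p14 p15
  have zb0 : b0 = 0 := by linear_combination h1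
  have zx0_3 : x0 3 = 0 := by linear_combination q00 + q01 + (-2) * zx0_0 + (-2) * zx0_1 +
    (-1) * zx0_2 + ((-1) * a0 + (-1) * c0 + (2) * y0 0 + (2) * y0 1) * two
  have zx0_4 : x0 4 = 0 := by linear_combination q00 + q02 + (-2) * zx0_0 + (-1) * zx0_1 +
    (-2) * zx0_2 + ((-1) * a0 + (-1) * c0 + (2) * y0 0 + (2) * y0 2) * two
  have zy0_3 : y0 3 = 0 := by linear_combination q00 + q03 + (-2) * zx0_0 + (-1) * zx0_1 +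
    (-2) * zx0_2 + (-1) * zx0_3 + (-1) * zx0_4 + ((-1) * a0 + (-1) * c0 + (2) * y0 0 +
    (3) * y0 3) * two
  have zy0_4 : y0 4 = 0 := by linear_combination q00 + q04 + (-2) * zx0_0 + (-2) * zx0_1 +
    (-1) * zx0_2 + (-1) * zx0_3 + (-1) * zx0_4 + ((-1) * a0 + (-1) * c0 + (2) * y0 0 +
    (3) * y0 4) * two
  have zb1 : b1 = 0 := by linear_combination h4 + p00 + p10 + (-1) * zb0 + (-2) * zy0_3 +
    (-2) * zy0_4 + (7) * zx0_0 + (8) * zx1_0 + ((-1) * a0 + (-1) * e0 + (-1) * y0 0 +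
    (-1) * y0 1 + (-1) * y0 2 + (-1) * y0 5 + (-1) * a1 + (-1) * e1 + (-1) * y1 0 + (-1) * y1 1 +
    (-1) * y1 2 + (-1) * y1 3 + (-1) * y1 4 + (-1) * y1 5) * two
  have zy0_1 : y0 1 = 0 := by linear_combination q00 + q10 + p01 + q12 + p04 + q05 +
    (-2) * zx0_0 + (3) * zx0_1 + (-2) * zx0_2 + (-1) * zx0_3 + (6) * zx0_4 + (-2) * zx1_0 +
    (-1) * zy0_3 + (-2) * zy0_4 + ((-2) * a0 + (-1) * c0 + (-1) * x0 5 + (2) * y0 0 + (-1) * a1 +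
    (-1) * c1 + (-1) * x1 2 + (2) * y1 0 + (-1) * e0 + (2) * y0 5 + (2) * y1 2) * two
  have zy0_2 : y0 2 = 0 := by linear_combination q00 + q10 + q11 + p02 + p03 + q05 +
    (-2) * zx0_0 + (-2) * zx0_1 + (4) * zx0_2 + (5) * zx0_3 + (-1) * zx0_4 + (-2) * zx1_0 +
    (-2) * zy0_3 + (-1) * zy0_4 + ((-2) * a0 + (-1) * c0 + (-1) * x0 5 + (2) * y0 0 + (-1) * a1 +
    (-1) * c1 + (-1) * x1 1 + (2) * y1 0 + (2) * y1 1 + (-1) * e0 + (2) * y0 5) * two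
  have zx1_1 : x1 1 = 0 := by linear_combination q00 + q10 + p00 + q12 + p04 + q05 +
    (5) * zx0_0 + (-2) * zx0_1 + (-2) * zx0_2 + (-1) * zx0_3 + (6) * zx0_4 + (-1) * zx1_0 +
    (-1) * zy0_1 + (-1) * zy0_2 + (-2) * zy0_3 + (-2) * zy0_4 + ((-2) * a0 + (-1) * c0 +
    (-1) * x0 5 + (2) * y0 0 + (-1) * a1 + (-1) * c1 + (-1) * x1 2 + (2) * y1 0 + (-1) * e0 +
    (2) * y0 5 + (2) * y1 2) * two
  have zs0 : s0 = 0 := by linear_combination h3 + h5 + p04 + q15 + p05 + p15 + (-1) * zx0_0 +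
    (-1) * zx0_1 + (-2) * zx0_2 + (-2) * zx0_3 + (4) * zx0_4 + (-1) * zy0_2 + (-1) * zy0_3 +
    (-1) * zy0_4 + (-1) * zx1_0 + (-1) * zx1_1 + ((-1) * c0 + (-1) * c1 + (1) * x0 5 +
    (-1) * a0 + (-1) * e0 + (-1) * a1 + (-1) * x1 2 + (2) * x1 5 + (2) * y1 5) * two
  have ze0 : e0 = 0 := by linear_combination h2 + q00 + (-1) * zs0 + (1) * zb1 + (-1) * zx0_0 +
    (-1) * zx0_1 + (-1) * zx0_2 + ((-1) * a0 + (-1) * c0 + (2) * y0 0) * two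
  have za1 : a1 = 0 := by linear_combination h2 + h3 + q11 + p03 + (-1) * zs0 + (-2) * ze0 +
    (1) * zb1 + (-1) * zx1_0 + (-1) * zx1_1 + (-1) * zx0_2 + (-1) * zy0_3 + (6) * zx0_3 +
    (-1) * zy0_4 + (-1) * zx0_4 + ((-1) * a0 + (-1) * c0 + (-1) * c1 + (2) * y1 1) * two
  have zy1_3 : y1 3 = 0 := by linear_combination q11 + p11 + p12 + p13 + q14 + p14 + (-6) * za1 +
    (-2) * zx1_0 + (3) * zx1_1 + (1) * zy0_1 + (1) * zy0_4 + ((-1) * c1 + (3) * x1 2 +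
    (1) * x1 3 + (2) * x1 4 + (-1) * x1 5 + (1) * y1 1 + (-2) * e1 + (-1) * y1 0 + (-1) * y1 2 +
    (-1) * y1 3 + (1) * y1 4 + (-1) * y1 5) * two
  have zx1_3 : x1 3 = 0 := by linear_combination q12 + q13 + (-2) * za1 + (-2) * zx1_0 +
    (1) * zy0_2 + (5) * zy1_3 + (1) * zy0_3 + ((-1) * c1 + (-1) * x1 2 + (-1) * x1 4 +
    (2) * y1 2) * two
  have zc1 : c1 = 0 := by linear_combination q11 + (-1) * za1 + (-1) * zx1_0 + (-1) * zx1_1 +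
    (-1) * zx1_3 + (1) * zy0_1 + ((2) * y1 1) * two
  have zc0 : c0 = 0 := by linear_combination h3 + (-1) * zc1
  have za0 : a0 = 0 := by linear_combination h2 + (-1) * zs0 + (-1) * zc0 + (-1) * ze0 +
    (1) * zb1
  have zy1_2 : y1 2 = 0 := by linear_combination p10 + p11 + (-2) * za1 + (7) * zx1_0 +
    (5) * zx1_1 + (-1) * zy1_3 + ((-1) * e1 + (-1) * y1 0 + (-1) * y1 1 + (-1) * y1 4 +
    (-1) * y1 5) * two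
  have zx1_5 : x1 5 = 0 := by linear_combination h5 + q14 + p04 + p14 + (-1) * zs0 + (-1) * zc0 +
    (-1) * zx0_0 + (-1) * zx0_1 + (-1) * zx0_2 + (-2) * zx0_3 + (5) * zx0_4 + (-2) * za1 +
    (-1) * zc1 + (-1) * zx1_0 + (-1) * zx1_1 + (-2) * zx1_3 + (-1) * za0 + (-1) * ze0 +
    (-1) * zy0_2 + (-1) * zy0_3 + (-1) * zy1_2 + (-1) * zy1_3 + ((-1) * x0 5 + (3) * x1 4 +
    (2) * y1 4) * two
  have zy0_5 : y0 5 = 0 := by linear_combination p05 + (-1) * za0 + (-1) * ze0 + (-1) * zx0_2 +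
    (-1) * zx0_4 + (1) * zx1_5 + ((2) * x0 5) * two
  have zy0_0 : y0 0 = 0 := by linear_combination p00 + (-1) * za0 + (-1) * ze0 + (7) * zx0_0 +
    (-1) * zy0_1 + (-1) * zy0_2 + (-1) * zy0_3 + (-1) * zy0_4 + (-1) * zy0_5 + (1) * zx1_0
  have zx1_2 : x1 2 = 0 := by linear_combination q10 + (-1) * za1 + (-1) * zc1 + (-1) * zx1_0 +
    (-1) * zx1_1 + (1) * zy0_0 + ((2) * y1 0) * two
  have zx1_4 : x1 4 = 0 := by linear_combination q12 + (-1) * za1 + (-1) * zc1 + (-1) * zx1_0 +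
    (-1) * zx1_2 + (4) * zy1_2 + (1) * zy0_2
  have zx0_5 : x0 5 = 0 := by linear_combination p02 + (-1) * za0 + (-1) * ze0 + (-1) * zy0_0 +
    (-1) * zy0_2 + (7) * zx0_2 + (-1) * zy0_3 + (-1) * zx0_3 + (-1) * zy0_5 + (1) * zx1_2
  have ze1 : e1 = 0 := by linear_combination h5 + (-1) * zs0 + (-1) * zc0 + (-1) * zx0_0 +
    (-1) * zx0_1 + (-1) * zx0_2 + (-1) * zx0_3 + (-1) * zx0_4 + (-1) * zx0_5 + ((1) * e1) * two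
  have zs1 : s1 = 0 := by linear_combination h6 + (-1) * zc1 + (-1) * zx1_0 + (-1) * zx1_1 +
    (-1) * zx1_2 + (-1) * zx1_3 + (-1) * zx1_4 + (-1) * zx1_5 + (1) * ze1
  have zy1_4 : y1 4 = 0 := by linear_combination q14 + (-1) * za1 + (-1) * zc1 + (-1) * zx1_0 +
    (-1) * zx1_1 + (-1) * zx1_3 + (-1) * zx1_4 + (1) * zy0_4 + ((3) * y1 4) * two
  have zy1_1 : y1 1 = 0 := by linear_combination p13 + (-1) * za1 + (-1) * ze1 + (-1) * zx1_2 +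
    (-1) * zy1_3 + (6) * zx1_3 + (-1) * zy1_4 + (-1) * zx1_4
  have zy1_5 : y1 5 = 0 := by linear_combination q15 + (-1) * za1 + (-1) * zc1 + (-1) * zx1_0 +
    (-1) * zx1_1 + (-1) * zx1_2 + (-1) * zx1_5 + (1) * zy0_5 + ((3) * y1 5) * two
  have zy1_0 : y1 0 = 0 := by linear_combination h4 + (-1) * za0 + (-1) * zb0 + (-1) * ze0 +
    (-1) * zy0_0 + (-1) * zy0_1 + (-1) * zy0_2 + (-1) * zy0_3 + (-1) * zy0_4 + (-1) * zy0_5 +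
    (-1) * za1 + (-1) * zb1 + (-1) * ze1 + (-1) * zy1_1 + (-1) * zy1_2 + (-1) * zy1_3 +
    (-1) * zy1_4 + (-1) * zy1_5
  exact ⟨⟨zs0, za0, zb0, zc0, ze0, six zx0_0 zx0_1 zx0_2 zx0_3 zx0_4 zx0_5,
    six zy0_0 zy0_1 zy0_2 zy0_3 zy0_4 zy0_5⟩, zs1, za1, zb1, zc1, ze1,
    six zx1_0 zx1_1 zx1_2 zx1_3 zx1_4 zx1_5, six zy1_0 zy1_1 zy1_2 zy1_3 zy1_4 zy1_5⟩

theorem sys11 (s0 a0 b0 c0 e0 s1 a1 b1 c1 e1 : ZMod 2) (x0 x1 y0 y1 : Fin 6 → ZMod 2)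
    (h1 : b0 = 0) (h2 : s0 + a0 + c0 + e0 = b1) (h3 : c0 + c1 = 0)
    (h4 : a0 + b0 + e0 + ∑ i, y0 i + (a1 + b1 + e1 + ∑ i, y1 i) = 0)
    (h5 : s0 + c0 + ∑ i, x0 i = e1) (h6 : s1 + c1 + ∑ i, x1 i = e1)
    (q0 : ∀ j, a0 + c0 + ∑ i, x0 i * pq 1 i j = y0 j * (1 + ∑ i, pq 1 i j))
    (q1 : ∀ j, a1 + c1 + ∑ i, x1 i * pq 1 i j = y1 j * (1 + ∑ i, pq 1 i j) + y0 j)
    (p0 : ∀ j, a0 + e0 + ∑ i, y0 i * pq 1 j i + ∑ i, x0 i * pp 1 i j =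
      x0 j * (1 + ∑ i, pq 1 j i + ∑ i, pp 1 i j) + x1 j)
    (p1 : ∀ j, a1 + e1 + ∑ i, y1 i * pq 1 j i + ∑ i, x1 i * pp 1 i j =
      x1 j * (1 + ∑ i, pq 1 j i + ∑ i, pp 1 i j))
    (zx0_0 : x0 0 = 0) (zx0_1 : x0 1 = 0) (zx0_2 : x0 2 = 0) (zx1_0 : x1 0 = 0) :
    (s0 = 0 ∧ a0 = 0 ∧ b0 = 0 ∧ c0 = 0 ∧ e0 = 0 ∧ (∀ i, x0 i = 0) ∧ ∀ i, y0 i = 0) ∧
      (s1 = 0 ∧ a1 = 0 ∧ b1 = 0 ∧ c1 = 0 ∧ e1 = 0 ∧ (∀ i, x1 i = 0) ∧ ∀ i, y1 i = 0) := by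
  have two : (2 : ZMod 2) = 0 := rfl
  have q00 := q0 0
  have q01 := q0 1
  have q02 := q0 2
  have q03 := q0 3
  have q04 := q0 4
  have q05 := q0 5
  have q10 := q1 0
  have q11 := q1 1
  have q12 := q1 2
  have q13 := q1 3
  have q14 := q1 4
  have q15 := q1 5
  have p00 := p0 0
  have p01 := p0 1
  have p02 := p0 2
  have p03 := p0 3
  have p04 := p0 4
  have p05 := p0 5
  have p10 := p1 0
  have p11 := p1 1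
  have p12 := p1 2
  have p13 := p1 3
  have p14 := p1 4
  have p15 := p1 5
  clear q0 q1 p0 p1
  simp only [Fin.sum_univ_six, pq1, pp1] at h4 h5 h6 q00 q01 q02 q03 q04 q05 q10 q11 q12 q13 q14 q15
  simp only [Fin.sum_univ_six, pq1, pp1] at p00 p01 p02 p03 p04 p05 p10 p11 p12 p13 p14 p15
  have zb0 : b0 = 0 := by linear_combination h1
  have zx0_3 : x0 3 = 0 := by linear_combination q00 + q01 + (-2) * zx0_0 + (-2) * zx0_1 +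
    (-1) * zx0_2 + ((-1) * a0 + (-1) * c0 + (2) * y0 0 + (2) * y0 1) * two
  have zx0_4 : x0 4 = 0 := by linear_combination q00 + q02 + (-2) * zx0_0 + (-1) * zx0_1 +
    (-2) * zx0_2 + ((-1) * a0 + (-1) * c0 + (2) * y0 0 + (2) * y0 2) * two
  have zy0_3 : y0 3 = 0 := by linear_combination q00 + q03 + (-2) * zx0_0 + (-1) * zx0_1 +
    (-2) * zx0_2 + (-1) * zx0_3 + (-1) * zx0_4 + ((-1) * a0 + (-1) * c0 + (2) * y0 0 +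
    (3) * y0 3) * two
  have zy0_4 : y0 4 = 0 := by linear_combination q00 + q04 + (-2) * zx0_0 + (-2) * zx0_1 +
    (-1) * zx0_2 + (-1) * zx0_3 + (-1) * zx0_4 + ((-1) * a0 + (-1) * c0 + (2) * y0 0 +
    (3) * y0 4) * two
  have zy0_2 : y0 2 = 0 := by linear_combination q00 + q10 + q11 + p02 + p03 + q05 +
    (-4) * zx0_0 + (-4) * zx0_1 + (6) * zx0_2 + (7) * zx0_3 + (-1) * zx0_4 + (-2) * zx1_0 +
    (-2) * zy0_3 + (-1) * zy0_4 + ((-2) * a0 + (-1) * c0 + (-1) * x0 5 + (2) * y0 0 + (-1) * a1 +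
    (-1) * c1 + (-1) * x1 1 + (2) * y1 0 + (2) * y1 1 + (-1) * e0 + (2) * y0 5) * two
  have zx1_1 : x1 1 = 0 := by linear_combination p00 + p01 + (11) * zx0_0 + (9) * zx0_1 +
    (-1) * zy0_2 + (-2) * zx0_2 + (-1) * zy0_3 + (-2) * zx0_3 + (-2) * zy0_4 + (-2) * zx0_4 +
    (1) * zx1_0 + ((-1) * a0 + (-1) * e0 + (-1) * y0 0 + (-1) * y0 1 + (-1) * y0 5 +
    (-1) * x0 5 + (1) * x1 1) * two
  have zy0_1 : y0 1 = 0 := by linear_combination q00 + q10 + p00 + q12 + p04 + q05 +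
    (9) * zx0_0 + (-4) * zx0_1 + (-4) * zx0_2 + (-1) * zx0_3 + (6) * zx0_4 + (-1) * zx1_0 +
    (-1) * zx1_1 + (-1) * zy0_2 + (-2) * zy0_3 + (-2) * zy0_4 + ((-2) * a0 + (-1) * c0 +
    (-1) * x0 5 + (2) * y0 0 + (-1) * a1 + (-1) * c1 + (-1) * x1 2 + (2) * y1 0 + (-1) * e0 +
    (2) * y0 5 + (2) * y1 2) * two
  have zy0_5 : y0 5 = 0 := by linear_combination p10 + p11 + q14 + p14 + q15 + p15 +
    (7) * zx1_0 + (5) * zx1_1 + (1) * zy0_4 + ((-3) * a1 + (-2) * e1 + (-1) * y1 0 +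
    (-1) * y1 1 + (-1) * y1 2 + (-2) * x1 2 + (-1) * y1 3 + (-2) * x1 3 + (1) * y1 4 +
    (2) * x1 4 + (1) * y1 5 + (1) * x1 5 + (-1) * c1 + (1) * y0 5) * two
  have zx0_5 : x0 5 = 0 := by linear_combination q00 + q05 + (-2) * zx0_0 + (-2) * zx0_1 +
    (-2) * zx0_2 + (5) * zy0_5 + ((-1) * a0 + (-1) * c0 + (2) * y0 0) * two
  have zx1_2 : x1 2 = 0 := by linear_combination q10 + p00 + q11 + p03 + (-1) * zx1_0 +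
    (-2) * zx1_1 + (11) * zx0_0 + (-1) * zy0_1 + (-2) * zx0_1 + (-1) * zy0_2 + (-1) * zx0_2 +
    (-2) * zy0_3 + (6) * zx0_3 + (-2) * zy0_4 + (-1) * zx0_4 + (-1) * zy0_5 + (-2) * zx0_5 +
    ((-1) * a1 + (-1) * c1 + (2) * y1 0 + (-1) * a0 + (-1) * e0 + (2) * y1 1) * two
  have zy1_5 : y1 5 = 0 := by linear_combination q10 + p00 + q15 + p05 + (-1) * zx1_0 +
    (-2) * zx1_1 + (-2) * zx1_2 + (11) * zx0_0 + (-1) * zy0_1 + (-2) * zx0_1 + (-1) * zy0_2 +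
    (-1) * zx0_2 + (-1) * zy0_3 + (-2) * zx0_3 + (-1) * zy0_4 + (-1) * zx0_4 + (-1) * zy0_5 +
    (4) * zx0_5 + ((-1) * a1 + (-1) * c1 + (2) * y1 0 + (-1) * a0 + (-1) * e0 +
    (3) * y1 5) * two
  have zs1 : s1 = 0 := by linear_combination h6 + q12 + p15 + (-3) * zx1_0 + (-2) * zx1_1 +
    (-2) * zx1_2 + (1) * zy0_2 + (-1) * zy1_5 + ((-1) * c1 + (-1) * x1 3 + (-1) * x1 4 +
    (2) * x1 5 + (-1) * a1 + (2) * y1 2) * two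
  have zy1_0 : y1 0 = 0 := by linear_combination q11 + p11 + q13 + p13 + (-4) * zx1_0 +
    (8) * zx1_1 + (-2) * zx1_2 + (1) * zy0_1 + (-1) * zy1_5 + (1) * zy0_3 + ((-2) * a1 +
    (-1) * c1 + (2) * x1 3 + (-1) * x1 4 + (-1) * x1 5 + (1) * y1 1 + (-1) * e1 + (2) * y1 3 +
    (-1) * y1 4) * two
  have zy1_4 : y1 4 = 0 := by linear_combination p12 + p14 + (-1) * zy1_0 + (-2) * zx1_0 +
    (-2) * zx1_1 + (7) * zx1_2 + (-1) * zy1_5 + ((-1) * a1 + (-1) * e1 + (-1) * y1 2 +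
    (-1) * y1 3 + (3) * x1 4) * two
  have zx1_3 : x1 3 = 0 := by linear_combination q12 + q14 + (-2) * zx1_0 + (-1) * zx1_1 +
    (-1) * zx1_2 + (1) * zy0_2 + (5) * zy1_4 + (1) * zy0_4 + ((-1) * a1 + (-1) * c1 +
    (-1) * x1 4 + (2) * y1 2) * two
  have zy0_0 : y0 0 = 0 := by linear_combination q10 + q11 + (-2) * zx1_0 + (-2) * zx1_1 +
    (-1) * zx1_2 + (-1) * zx1_3 + (4) * zy1_0 + (1) * zy0_1 + ((-1) * a1 + (-1) * c1 +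
    (1) * y0 0 + (2) * y1 1) * two
  have zx1_4 : x1 4 = 0 := by linear_combination q10 + q12 + (-2) * zx1_0 + (-1) * zx1_1 +
    (-2) * zx1_2 + (4) * zy1_0 + (1) * zy0_0 + (1) * zy0_2 + ((-1) * a1 + (-1) * c1 +
    (2) * y1 2) * two
  have zy1_3 : y1 3 = 0 := by linear_combination q10 + q13 + (-2) * zx1_0 + (-1) * zx1_1 +
    (-2) * zx1_2 + (-1) * zx1_3 + (-1) * zx1_4 + (4) * zy1_0 + (1) * zy0_0 + (1) * zy0_3 +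
    ((-1) * a1 + (-1) * c1 + (3) * y1 3) * two
  have zx1_5 : x1 5 = 0 := by linear_combination q10 + q15 + (-2) * zx1_0 + (-2) * zx1_1 +
    (-2) * zx1_2 + (4) * zy1_0 + (1) * zy0_0 + (5) * zy1_5 + (1) * zy0_5 + ((-1) * a1 +
    (-1) * c1) * two
  have zs0 : s0 = 0 := by linear_combination h3 + h5 + h6 + (-1) * zx0_0 + (-1) * zx0_1 +
    (-1) * zx0_2 + (-1) * zx0_3 + (-1) * zx0_4 + (-1) * zx0_5 + (-1) * zs1 + (-1) * zx1_0 +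
    (-1) * zx1_1 + (-1) * zx1_2 + (-1) * zx1_3 + (-1) * zx1_4 + (-1) * zx1_5 + ((-1) * c0 +
    (-1) * c1 + (1) * e1) * two
  have zy1_1 : y1 1 = 0 := by linear_combination h3 + h5 + q10 + p11 + (-1) * zs0 +
    (-1) * zx0_0 + (-1) * zx0_1 + (-1) * zx0_2 + (-1) * zx0_3 + (-1) * zx0_4 + (-1) * zx0_5 +
    (-2) * zx1_0 + (9) * zx1_1 + (-2) * zx1_2 + (-1) * zx1_3 + (-1) * zx1_4 + (-1) * zx1_5 +
    (3) * zy1_0 + (1) * zy0_0 + (-1) * zy1_4 + (-1) * zy1_5 + ((-1) * c0 + (-1) * c1 +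
    (-1) * a1) * two
  have zc0 : c0 = 0 := by linear_combination h2 + h4 + p10 + (-1) * zs0 + (-1) * zb0 +
    (-1) * zy0_0 + (-1) * zy0_1 + (-1) * zy0_2 + (-1) * zy0_3 + (-1) * zy0_4 + (-1) * zy0_5 +
    (-2) * zy1_0 + (-2) * zy1_1 + (-2) * zy1_3 + (-2) * zy1_4 + (-2) * zy1_5 + (12) * zx1_0 +
    (-1) * zx1_1 + (-1) * zx1_2 + (-1) * zx1_3 + (-1) * zx1_4 + (-1) * zx1_5 + ((-1) * a0 +
    (-1) * e0 + (-1) * a1 + (-1) * e1 + (-1) * y1 2) * two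
  have zc1 : c1 = 0 := by linear_combination h3 + (-1) * zc0
  have ze1 : e1 = 0 := by linear_combination h5 + (-1) * zs0 + (-1) * zc0 + (-1) * zx0_0 +
    (-1) * zx0_1 + (-1) * zx0_2 + (-1) * zx0_3 + (-1) * zx0_4 + (-1) * zx0_5 + ((1) * e1) * two
  have za0 : a0 = 0 := by linear_combination q00 + (-1) * zc0 + (-1) * zx0_0 + (-1) * zx0_1 +
    (-1) * zx0_2 + (4) * zy0_0
  have za1 : a1 = 0 := by linear_combination q10 + (-1) * zc1 + (-1) * zx1_0 + (-1) * zx1_1 +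
    (-1) * zx1_2 + (4) * zy1_0 + (1) * zy0_0
  have ze0 : e0 = 0 := by linear_combination p00 + (-1) * za0 + (-1) * zy0_0 + (12) * zx0_0 +
    (-1) * zy0_1 + (-1) * zx0_1 + (-1) * zy0_2 + (-1) * zx0_2 + (-1) * zy0_3 + (-1) * zx0_3 +
    (-1) * zy0_4 + (-1) * zx0_4 + (-1) * zy0_5 + (-1) * zx0_5 + (1) * zx1_0
  have zb1 : b1 = 0 := by linear_combination h2 + (-1) * zs0 + (-1) * za0 + (-1) * zc0 +
    (-1) * ze0 + ((1) * b1) * two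
  have zy1_2 : y1 2 = 0 := by linear_combination h4 + (-1) * za0 + (-1) * zb0 + (-1) * ze0 +
    (-1) * zy0_0 + (-1) * zy0_1 + (-1) * zy0_2 + (-1) * zy0_3 + (-1) * zy0_4 + (-1) * zy0_5 +
    (-1) * za1 + (-1) * zb1 + (-1) * ze1 + (-1) * zy1_0 + (-1) * zy1_1 + (-1) * zy1_3 +
    (-1) * zy1_4 + (-1) * zy1_5
  exact ⟨⟨zs0, za0, zb0, zc0, ze0, six zx0_0 zx0_1 zx0_2 zx0_3 zx0_4 zx0_5,
    six zy0_0 zy0_1 zy0_2 zy0_3 zy0_4 zy0_5⟩, zs1, za1, zb1, zc1, ze1,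
    six zx1_0 zx1_1 zx1_2 zx1_3 zx1_4 zx1_5, six zy1_0 zy1_1 zy1_2 zy1_3 zy1_4 zy1_5⟩

end SysAux

/-- the descent equations have only the expected solutions -/
theorem sys (θ ε : ZMod 2) (s0 a0 b0 c0 e0 s1 a1 b1 c1 e1 : ZMod 2) (x0 x1 y0 y1 : Fin 6 → ZMod 2)
    (h1 : b0 = 0) (h2 : s0 + a0 + c0 + e0 = b1) (h3 : c0 + c1 = 0)
    (h4 : a0 + b0 + e0 + ∑ i, y0 i + (a1 + b1 + e1 + ∑ i, y1 i) = 0)
    (h5 : s0 + c0 + ∑ i, x0 i = e1) (h6 : s1 + c1 + ∑ i, x1 i = e1)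
    (q0 : ∀ j, a0 + c0 + ∑ i, x0 i * pq θ i j = y0 j * (1 + ∑ i, pq θ i j))
    (q1 : ∀ j, a1 + c1 + ∑ i, x1 i * pq θ i j = y1 j * (1 + ∑ i, pq θ i j) + y0 j)
    (p0 : ∀ j, a0 + e0 + ∑ i, y0 i * pq θ j i + ∑ i, x0 i * pp ε i j =
      x0 j * (1 + ∑ i, pq θ j i + ∑ i, pp ε i j) + x1 j)
    (p1 : ∀ j, a1 + e1 + ∑ i, y1 i * pq θ j i + ∑ i, x1 i * pp ε i j =
      x1 j * (1 + ∑ i, pq θ j i + ∑ i, pp ε i j))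
    (zx0_0 : x0 0 = 0) (zx0_1 : x0 1 = 0) (zx0_2 : x0 2 = 0) (zx1_0 : x1 0 = 0) :
    (s0 = 0 ∧ a0 = 0 ∧ b0 = 0 ∧ c0 = 0 ∧ e0 = 0 ∧ (∀ i, x0 i = 0) ∧ ∀ i, y0 i = 0) ∧
      (s1 = 0 ∧ a1 = 0 ∧ b1 = 0 ∧ c1 = 0 ∧ e1 = 0 ∧ (∀ i, x1 i = 0) ∧ ∀ i, y1 i = 0) := by
  have hc : ∀ t : ZMod 2, t = 0 ∨ t = 1 := by decide
  rcases hc θ with rfl | rfl <;> rcases hc ε with rfl | rfl
  · exact SysAux.sys00 _ _ _ _ _ _ _ _ _ _ _ _ _ _ h1 h2 h3 h4 h5 h6 q0 q1 p0 p1 zx0_0 zx0_1 zx0_2 zx1_0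
  · exact SysAux.sys01 _ _ _ _ _ _ _ _ _ _ _ _ _ _ h1 h2 h3 h4 h5 h6 q0 q1 p0 p1 zx0_0 zx0_1 zx0_2 zx1_0
  · exact SysAux.sys10 _ _ _ _ _ _ _ _ _ _ _ _ _ _ h1 h2 h3 h4 h5 h6 q0 q1 p0 p1 zx0_0 zx0_1 zx0_2 zx1_0
  · exact SysAux.sys11 _ _ _ _ _ _ _ _ _ _ _ _ _ _ h1 h2 h3 h4 h5 h6 q0 q1 p0 p1 zx0_0 zx0_1 zx0_2 zx1_0

end Pool.Agent.Lib.MP_7d3fda_nt.R2
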