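import Pool.Agent.Lib.MP_7d3fda_nt.R2.Defs
import Pool.Agent.Lib.MP_7d3fda_nt.R2.Sys
import Pool.Agent.Lib.MP_788af2_nt.Descent

open Finset
open scoped NumberTheorySymbols

namespace Pool.Agent.Lib.MP_7d3fda_nt.R2

open Pool.Agent.Lib.MP_788af2_nt

namespace TableAux

theorem qL_eq {p : ℕ} (hp : p.Prime) {n : ℤ} (hn : ¬(p : ℤ) ∣ n) :
    qL p n = if J(n | p) = -1 then 1 else 0 := by
  have : Fact p.Prime := ⟨hp⟩
  rw [qL, lg_of_not_dvd hn]

theorem qL_self {p : ℕ} (hp : p.Prime) : qL p p = 0 := by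
  have : Fact p.Prime := ⟨hp⟩
  have h1 : ¬(p : ℤ) ∣ 1 := (Nat.prime_iff_prime_int.1 hp).not_dvd_one
  have h := upart_pow_mul (p := p) (s := 1) h1
  rw [pow_one, mul_one] at h
  rw [qL, lg, h, jacobiSym.one_left]
  decide

theorem qL_congr {p : ℕ} (hp : p.Prime) {m n : ℤ} (hm : ¬(p : ℤ) ∣ m) (h : (p : ℤ) ∣ m - n) :
    qL p m = qL p n := by
  have hn : ¬(p : ℤ) ∣ n := fun h' => hm (by simpa using dvd_add h h')
  have : Fact p.Prime := ⟨hp⟩
  rw [qL_eq hp hm, qL_eq hp hn, show m = n + (m - n) by ring, jac_add_dvd h]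

theorem not_dvd_prime {p r : ℕ} (hp : p.Prime) (hr : r.Prime) (h : p ≠ r) : ¬(p : ℤ) ∣ r :=
  fun h' => h ((Nat.prime_dvd_prime_iff_eq hp hr).1 (Int.natCast_dvd_natCast.1 h'))

theorem hlt' {f : Fin 6 → ℕ} (hf : ∀ j, (f j).Prime) (hi : Function.Injective f) {i j : Fin 6}
    (h : i ≠ j) : ¬(f j : ℤ) ∣ f i :=
  not_dvd_prime (hf j) (hf i) fun e => h (hi e).symm

theorem qL_recip {p r : ℕ} (hp : p.Prime) (hr : r.Prime) (h4 : r % 4 = 1) (ho : p % 2 = 1) :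
    qL p r = qL r p := by
  by_cases h : p = r
  · rw [h]
  rw [qL_eq hp (not_dvd_prime hp hr h), qL_eq hr (not_dvd_prime hr hp (Ne.symm h)),
    jacobiSym.quadratic_reciprocity_one_mod_four h4 (Nat.odd_iff.2 ho)]

theorem not_dvd_of_jac {p : ℕ} (hp : p.Prime) {n : ℤ} (h : J(n | p) ≠ 0) : ¬(p : ℤ) ∣ n := by
  intro hd
  apply h
  have : NeZero p := ⟨hp.ne_zero⟩
  rw [jacobiSym.eq_zero_iff_not_coprime, Int.gcd_comm, Int.gcd_eq_natAbs_left hd]
  simpa using hp.ne_one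

theorem qL_neg_one {r : ℕ} (hr : r.Prime) (h : r % 4 = 1) : qL r (-1) = 0 := by
  have h1 : ¬(r : ℤ) ∣ -1 := fun h' => (Nat.prime_iff_prime_int.1 hr).not_dvd_one (dvd_neg.1 h')
  rw [qL_eq hr h1, jacobiSym.at_neg_one (Nat.odd_iff.2 (by omega)), ZMod.χ₄_nat_one_mod_four h]
  decide

theorem qL_two {r : ℕ} (hr : r.Prime) (h : r % 8 = 5) : qL r 2 = 1 := by
  have h1 : ¬(r : ℤ) ∣ 2 := not_dvd_prime hr Nat.prime_two (show r ≠ 2 by omega)
  rw [qL_eq hr h1, jacobiSym.at_two (Nat.odd_iff.2 (by omega)), ZMod.χ₈_nat_eq_if_mod_eight,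
    if_neg (show ¬r % 2 = 0 by omega), if_neg (show ¬(r % 8 = 1 ∨ r % 8 = 7) by omega), if_pos rfl]

theorem qL_mod {l r a : ℕ} (hl : l.Prime) (hd : l ∣ 2760) (h : r % 2760 = a) (ha : ¬(l : ℤ) ∣ a) :
    qL l r = if J((a : ℤ) | l) = -1 then 1 else 0 := by
  rw [← qL_eq hl ha]
  refine (qL_congr hl ha ?_).symm
  refine (Int.natCast_dvd_natCast.2 hd).trans ?_
  push_cast
  omega

theorem qf_pow {F : ℤ → ZMod 2} (hF : IsQF F) {a : ℤ} (ha : a ≠ 0) (n : ℕ) :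
    F (a ^ n) = n * F a := by
  induction n with
  | zero => simpa using hF.one
  | succ n ih => rw [pow_succ, hF _ _ (pow_ne_zero _ ha) ha, ih]; push_cast; ring

/-- exponent of the sign -/
def m1 : Fin 6 → Fin 6 → ℕ :=
  ![![0, 1, 0, 0, 0, 0], ![0, 0, 0, 0, 0, 0], ![1, 1, 0, 1, 0, 1], ![1, 1, 0, 0, 0, 1],
    ![1, 1, 1, 1, 0, 1], ![1, 1, 0, 0, 0, 0]]

/-- exponent of 2 -/
def m2 : Fin 6 → Fin 6 → ℕ :=
  ![![0, 0, 1, 0, 0, 0], ![0, 0, 0, 1, 0, 0], ![1, 0, 0, 0, 0, 0], ![0, 1, 0, 0, 0, 0],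
    ![0, 0, 0, 0, 0, 1], ![0, 0, 0, 0, 1, 0]]

/-- exponent of 3 -/
def m3 : Fin 6 → Fin 6 → ℕ :=
  ![![0, 0, 0, 0, 0, 0], ![0, 0, 1, 1, 0, 0], ![0, 1, 0, 0, 1, 0], ![0, 1, 0, 0, 1, 0],
    ![0, 0, 1, 1, 0, 0], ![0, 0, 0, 0, 0, 0]]

/-- exponent of 5 -/
def m5 : Fin 6 → Fin 6 → ℕ :=
  ![![0, 1, 0, 0, 0, 0], ![1, 0, 0, 0, 0, 0], ![0, 0, 0, 0, 1, 0], ![0, 0, 0, 0, 0, 1],
    ![0, 0, 1, 0, 0, 0], ![0, 0, 0, 1, 0, 0]]

/-- exponent of 23 -/
def m23 : Fin 6 → Fin 6 → ℕ :=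
  ![![0, 1, 0, 1, 1, 1], ![1, 0, 0, 1, 1, 1], ![0, 0, 0, 0, 0, 0], ![1, 1, 0, 0, 1, 1],
    ![1, 1, 0, 1, 0, 1], ![1, 1, 0, 1, 1, 0]]

/-- the square roots -/
def rt : Fin 6 → Fin 6 → ℤ :=
  ![![0, 345, 24, 69, 138, 46], ![345, 0, 63, 414, 207, 161], ![24, 63, 0, 9, 90, 14],
    ![69, 414, 9, 0, 207, 115], ![138, 207, 90, 207, 0, 184], ![46, 161, 14, 115, 184, 0]]

/-- the prescribed bits -/
def et : Fin 6 → ZMod 2 := ![0, 0, 0, 1, 1, 1]

theorem sq_tab : ∀ i j : Fin 6, ((cc i : ℤ) - cc j) *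
    ((-1) ^ m1 i j * 2 ^ m2 i j * 3 ^ m3 i j * 5 ^ m5 i j * 23 ^ m23 i j) = rt i j * rt i j := by
  decide

theorem ne_tab : ∀ i j : Fin 6, i ≠ j → (cc i : ℤ) - cc j ≠ 0 := by decide

theorem dvd_tab : ∀ i j : Fin 6, i ≠ j → (cc i : ℤ) - cc j ∣ 4830 ^ 5 := by decide

theorem tA_tab : ∀ i j : Fin 6, i ≠ j → tA i j = (m2 i j : ZMod 2) + m5 i j + et j := by decide

theorem tB_tab : ∀ i j : Fin 6, i ≠ j →
    tB i j = (m2 i j : ZMod 2) + m23 i j + et j + tA j i := by decide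

theorem sym_tab : ∀ i : Fin 6, i ≠ 0 →
    (m2 0 i : ZMod 2) + m23 0 i + tA i 0 + (m2 i 0 + m23 i 0 + tA 0 i) = et 0 + et i := by decide

theorem et_tab : ∀ j, (if yy j = -1 then (1 : ZMod 2) else 0) = et j ∧ yy j ≠ 0 := by decide

theorem diffF {F : ℤ → ZMod 2} (hF : IsQF F) (h1 : F (-1) = 0) (h3 : F 3 = 0) {i j : Fin 6}
    (h : i ≠ j) : F ((cc i : ℤ) - cc j) = m2 i j * F 2 + m5 i j * F 5 + m23 i j * F 23 := by
  have a1 : (-1 : ℤ) ^ m1 i j ≠ 0 := pow_ne_zero _ (by norm_num)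
  have a2 : (2 : ℤ) ^ m2 i j ≠ 0 := pow_ne_zero _ (by norm_num)
  have a3 : (3 : ℤ) ^ m3 i j ≠ 0 := pow_ne_zero _ (by norm_num)
  have a5 : (5 : ℤ) ^ m5 i j ≠ 0 := pow_ne_zero _ (by norm_num)
  have a23 : (23 : ℤ) ^ m23 i j ≠ 0 := pow_ne_zero _ (by norm_num)
  have b2 := mul_ne_zero a1 a2
  have b3 := mul_ne_zero b2 a3
  have b5 := mul_ne_zero b3 a5
  rw [hF.eq_of_isSquare (ne_tab i j h) (mul_ne_zero b5 a23) ⟨_, sq_tab i j⟩, hF _ _ b5 a23,
    hF _ _ b3 a5, hF _ _ b2 a3, hF _ _ a1 a2, qf_pow hF (by norm_num), qf_pow hF (by norm_num),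
    qf_pow hF (by norm_num), qf_pow hF (by norm_num), qf_pow hF (by norm_num), h1, h3]
  ring

theorem not_dvd_diff {r : ℕ} (hr : r.Prime) (h : r % 2760 = 61) {i j : Fin 6} (hij : i ≠ j) :
    ¬(r : ℤ) ∣ (cc i : ℤ) - cc j := by
  intro hd
  have h1 := (Nat.prime_iff_prime_int.1 hr).dvd_of_dvd_pow (hd.trans (dvd_tab i j hij))
  have h2 : r ∣ 4830 := by exact_mod_cast h1
  have h3 := Nat.le_of_dvd (by norm_num) h2
  have h4 : r = 61 ∨ r = 2821 := by omega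
  rcases h4 with rfl | rfl <;> norm_num at h2

end TableAux

open TableAux

/-- symbols of a prime of the small class -/
theorem small_tab {r : ℕ} (hr : r.Prime) (h : r % 2760 = 13) :
    (qL r (-1) = 0 ∧ qL r 2 = 1 ∧ qL r 3 = 0 ∧ qL r 5 = 1 ∧ qL r 23 = 0) ∧
      qL 3 r = 0 ∧ qL 5 r = 1 ∧ qL 23 r = 0 := by
  have h3 : qL 3 r = 0 := by
    rw [qL_mod (by norm_num) (by norm_num) h (by norm_num)]; norm_num
  have h5 : qL 5 r = 1 := by
    rw [qL_mod (by norm_num) (by norm_num) h (by norm_num)]; norm_num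
  have h23 : qL 23 r = 0 := by
    rw [qL_mod (by norm_num) (by norm_num) h (by norm_num)]; norm_num
  have h4 : r % 4 = 1 := by omega
  exact ⟨⟨qL_neg_one hr h4, qL_two hr (by omega),
    (qL_recip (p := 3) (by norm_num) hr h4 (by norm_num)).symm.trans h3,
    (qL_recip (p := 5) (by norm_num) hr h4 (by norm_num)).symm.trans h5,
    (qL_recip (p := 23) (by norm_num) hr h4 (by norm_num)).symm.trans h23⟩, h3, h5, h23⟩

/-- symbols of a prime of the large class -/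
theorem large_tab {r : ℕ} (hr : r.Prime) (h : r % 2760 = 61) :
    (qL r (-1) = 0 ∧ qL r 2 = 1 ∧ qL r 3 = 0 ∧ qL r 5 = 0 ∧ qL r 23 = 1) ∧
      qL 3 r = 0 ∧ qL 5 r = 0 ∧ qL 23 r = 1 := by
  have h3 : qL 3 r = 0 := by
    rw [qL_mod (by norm_num) (by norm_num) h (by norm_num)]; norm_num
  have h5 : qL 5 r = 0 := by
    rw [qL_mod (by norm_num) (by norm_num) h (by norm_num)]; norm_num
  have h23 : qL 23 r = 1 := by
    rw [qL_mod (by norm_num) (by norm_num) h (by norm_num)]; norm_num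
  have h4 : r % 4 = 1 := by omega
  exact ⟨⟨qL_neg_one hr h4, qL_two hr (by omega),
    (qL_recip (p := 3) (by norm_num) hr h4 (by norm_num)).symm.trans h3,
    (qL_recip (p := 5) (by norm_num) hr h4 (by norm_num)).symm.trans h5,
    (qL_recip (p := 23) (by norm_num) hr h4 (by norm_num)).symm.trans h23⟩, h3, h5, h23⟩

/-- symbols among the fixed primes -/
theorem fixed_tab : (qL 3 (-1) = 1 ∧ qL 3 2 = 1 ∧ qL 3 3 = 0 ∧ qL 3 5 = 1 ∧ qL 3 23 = 1) ∧
    (qL 5 (-1) = 0 ∧ qL 5 2 = 1 ∧ qL 5 3 = 1 ∧ qL 5 5 = 0 ∧ qL 5 23 = 1) ∧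
    (qL 23 (-1) = 1 ∧ qL 23 2 = 0 ∧ qL 23 3 = 0 ∧ qL 23 5 = 1 ∧ qL 23 23 = 0) := by
  refine ⟨⟨?_, ?_, qL_self (p := 3) (by norm_num), ?_, ?_⟩,
    ⟨?_, ?_, ?_, qL_self (p := 5) (by norm_num), ?_⟩,
    ?_, ?_, ?_, ?_, qL_self (p := 23) (by norm_num)⟩ <;>
  · rw [qL_eq (by norm_num) (by norm_num)]
    norm_num

/-- the table of symbols among the twelve primes -/
theorem table {a s : ℤ} (h : Good a s) : ∃ (θ ε : ZMod 2) (q p : Fin 6 → ℕ),
    (∀ j, (q j).Prime ∧ (p j).Prime ∧ (q j : ℤ) * p j = a + cc j * s ∧ q j % 2760 = 13 ∧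
      p j % 2760 = 61) ∧ Function.Injective q ∧ Function.Injective p ∧
    (∀ i j, qL (q j) (q i) = 0) ∧ (∀ i j, qL (q j) (p i) = pq θ i j) ∧
    (∀ i j, qL (p j) (q i) = pq θ j i) ∧ ∀ i j, qL (p j) (p i) = pp ε i j := by
  obtain ⟨θ, q, p, hθ, h, hqq⟩ := h
  have hq := fun j => (h j).1
  have hp := fun j => (h j).2.1
  have hn := fun j => (h j).2.2.1
  have hq' := fun j => (h j).2.2.2.1
  have hp' := fun j => (h j).2.2.2.2.1
  have hpq := fun j => (h j).2.2.2.2.2.1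
  have hs := fun j => (h j).2.2.2.2.2.2
  have hqI := fun j => Nat.prime_iff_prime_int.1 (hq j)
  have hpI := fun j => Nat.prime_iff_prime_int.1 (hp j)
  have q0 : ∀ j, (q j : ℤ) ≠ 0 := fun j => (hqI j).ne_zero
  have p0 : ∀ j, (p j : ℤ) ≠ 0 := fun j => (hpI j).ne_zero
  have hne : ∀ i j, q i ≠ p j := fun i j e => by
    have := hq' i; have := hp' j; omega
  have hlt : ∀ i j, i < j → ¬(q j : ℤ) ∣ q i := fun i j hij =>
    not_dvd_of_jac (hq j) (by rw [hqq i j hij]; norm_num)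
  have qinj : Function.Injective q := by
    intro i j e
    rcases lt_trichotomy i j with hij | hij | hij
    · exact absurd (by rw [e]) (hlt i j hij)
    · exact hij
    · exact absurd (by rw [e]) (hlt j i hij)
  have Tqq : ∀ i j, qL (q j) (q i) = 0 := by
    have k : ∀ i j, i < j → qL (q j) (q i) = 0 := fun i j hij => by
      rw [qL_eq (hq j) (hlt i j hij), hqq i j hij]; decide
    intro i j
    rcases lt_trichotomy i j with hij | hij | hij
    · exact k i j hij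
    · rw [hij]; exact qL_self (hq j)
    · rw [qL_recip (hq j) (hq i) (by have := hq' i; omega) (by have := hq' j; omega)]
      exact k j i hij
  have hqs : ∀ j, ¬(q j : ℤ) ∣ s := fun j => not_dvd_of_jac (hq j) (by rw [hs j]; exact (et_tab j).2)
  have s0 : s ≠ 0 := fun e => hqs 0 (e ▸ dvd_zero _)
  have Tqs : ∀ j, qL (q j) s = et j := fun j => by rw [qL_eq (hq j) (hqs j), hs j, (et_tab j).1]
  have Dq : ∀ (l : Fin 6) {i j}, i ≠ j →
      qL (q l) ((cc i : ℤ) - cc j) = (m2 i j : ZMod 2) + m5 i j := fun l i j hij => by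
    obtain ⟨⟨a1, a2, a3, a5, a23⟩, -⟩ := small_tab (hq l) (hq' l)
    rw [diffF (isQF_qL (hq l)) a1 a3 hij, a2, a5, a23]; ring
  have Dp : ∀ (l : Fin 6) {i j}, i ≠ j →
      qL (p l) ((cc i : ℤ) - cc j) = (m2 i j : ZMod 2) + m23 i j := fun l i j hij => by
    obtain ⟨⟨a1, a2, a3, a5, a23⟩, -⟩ := large_tab (hp l) (hp' l)
    rw [diffF (isQF_qL (hp l)) a1 a3 hij, a2, a5, a23]; ring
  have hps : ∀ j, ¬(p j : ℤ) ∣ s := by
    rintro j ⟨t, ht⟩
    have ha : (p j : ℤ) ∣ a := ⟨q j - cc j * t, by linear_combination -hn j - cc j * ht⟩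
    have hall : ∀ l, p l = p j := fun l => by
      have h1 : (p j : ℤ) ∣ q l * p l := by
        rw [hn l]; exact dvd_add ha (Dvd.dvd.mul_left ⟨t, ht⟩ _)
      rcases (hpI j).dvd_or_dvd h1 with h2 | h2
      · exact absurd h2 (not_dvd_prime (hp j) (hq l) (hne l j).symm)
      · by_contra e
        exact not_dvd_prime (hp j) (hp l) (Ne.symm e) h2
    have t0 : t ≠ 0 := by rintro rfl; exact s0 (by simpa using ht)
    have key : ∀ l, l ≠ 0 → (m2 l 0 : ZMod 2) + m5 l 0 + qL (q 0) t = 0 := fun l hl => by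
      have e : (q l : ℤ) - ((cc l : ℤ) - cc 0) * t = q 0 := by
        apply mul_right_cancel₀ (p0 j)
        have e1 := hn l
        have e2 := hn 0
        rw [hall l] at e1
        rw [hall 0] at e2
        linear_combination e1 - e2 + (cc l - cc 0) * ht
      rw [← Dq 0 hl, ← isQF_qL (hq 0) _ _ (ne_tab l 0 hl) t0, ← Tqq l 0]
      exact (qL_congr (hq 0) (hlt' hq qinj hl) (by rw [e])).symm
    have k1 := key 1 (by decide)
    have k3 := key 3 (by decide)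
    revert k1 k3
    generalize qL (q 0) t = z
    revert z
    decide
  have pinj : Function.Injective p := by
    intro i j e
    by_contra hij
    have h1 : (p j : ℤ) ∣ ((cc i : ℤ) - cc j) * s :=
      ⟨q i - q j, by have := hn i; rw [e] at this; linear_combination hn j - this⟩
    rcases (hpI j).dvd_or_dvd h1 with h2 | h2
    · exact not_dvd_diff (hp j) (hp' j) hij h2
    · exact hps j h2
  have Tpq : ∀ i j, qL (q j) (p i) = pq (if θ = -1 then 1 else 0) i j := by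
    intro i j
    unfold pq
    split_ifs with hij h1
    · rw [hij, qL_eq (hq j) (not_dvd_prime (hq j) (hp j) (hne j j)), hpq j, if_pos h1]
    · rw [hij, qL_eq (hq j) (not_dvd_prime (hq j) (hp j) (hne j j)), hpq j, if_neg h1]
    · have h1 : ¬(q j : ℤ) ∣ q i * p i := fun h1 => by
        rcases (hqI j).dvd_or_dvd h1 with h2 | h2
        · exact hlt' hq qinj hij h2
        · exact not_dvd_prime (hq j) (hp i) (hne j i) h2
      have h2 := qL_congr (n := ((cc i : ℤ) - cc j) * s) (hq j) h1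
        ⟨p j, by linear_combination hn i - hn j⟩
      rw [isQF_qL (hq j) _ _ (q0 i) (p0 i), isQF_qL (hq j) _ _ (ne_tab i j hij) s0, Tqq, Dq j hij,
        Tqs, zero_add] at h2
      rw [h2, tA_tab i j hij]
  have Tqp : ∀ i j, qL (p j) (q i) = pq (if θ = -1 then 1 else 0) j i := fun i j => by
    rw [qL_recip (hp j) (hq i) (by have := hq' i; omega) (by have := hp' j; omega), Tpq]
  have two : (2 : ZMod 2) = 0 := rfl
  have Tpp : ∀ i j, i ≠ j →
      qL (p j) (p i) = (m2 i j : ZMod 2) + m23 i j + qL (p j) s + tA j i := fun i j hij => by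
    have h1 : ¬(p j : ℤ) ∣ q i * p i := fun h1 => by
      rcases (hpI j).dvd_or_dvd h1 with h2 | h2
      · exact not_dvd_prime (hp j) (hq i) (hne i j).symm h2
      · exact hlt' hp pinj hij h2
    have h2 := qL_congr (n := ((cc i : ℤ) - cc j) * s) (hp j) h1
      ⟨q j, by linear_combination hn i - hn j⟩
    rw [isQF_qL (hp j) _ _ (q0 i) (p0 i), isQF_qL (hp j) _ _ (ne_tab i j hij) s0, Tqp, Dp j hij,
      pq, if_neg hij.symm] at h2
    linear_combination h2 - tA j i * two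
  have hτ : ∀ j, qL (p j) s = qL (p 0) s + et 0 + et j := fun j => by
    by_cases hj : j = 0
    · rw [hj]; linear_combination -et 0 * two
    · have h1 := Tpp 0 j (Ne.symm hj)
      have h2 := Tpp j 0 hj
      rw [qL_recip (hp 0) (hp j) (by have := hp' j; omega) (by have := hp' 0; omega)] at h2
      linear_combination h2 - h1 + sym_tab j hj - ((m2 0 j : ZMod 2) + m23 0 j + tA j 0) * two
  refine ⟨_, qL (p 0) s + et 0, q, p, fun j => ⟨hq j, hp j, hn j, hq' j, hp' j⟩, qinj, pinj, Tqq,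
    Tpq, Tqp, fun i j => ?_⟩
  unfold pp
  split_ifs with hij
  · rw [hij]; exact qL_self (hp j)
  · rw [Tpp i j hij, hτ j, tB_tab i j hij]; ring

end Pool.Agent.Lib.MP_7d3fda_nt.R2
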